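import Pool.Graph.R_seed8.H385R2.CutB

/-!
# The cut-off explicit formula with general frequencies

Adapted from `Pool.Agent.H385R2.CutB`: the frequencies `log n` are replaced by arbitrary real numbers.
-/

open Complex Filter Topology Set MeasureTheory
open H370 (zset mult NN Nd Ns)

set_option maxHeartbeats 4000000

namespace Pool.Agent.H63.DZ

open H385

/-- the prime side with frequencies `ℓ n` -/
noncomputable def PG (c : ℕ → ℂ) (ℓ : ℕ → ℝ) (u m : ℝ) : ℂ :=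
  ∑' n : ℕ, c n * cexp (I * m * (u - ℓ n)) * Real.exp (-(u - ℓ n) ^ 2 / 4)

theorem norm_PG_term (c : ℕ → ℂ) (ℓ : ℕ → ℝ) (u m : ℝ) (n : ℕ) :
    ‖c n * cexp (I * m * (u - ℓ n)) * Real.exp (-(u - ℓ n) ^ 2 / 4)‖ ≤
    ‖c n‖ * Real.exp (-(u - ℓ n) ^ 2 / 4) := by
  have h1 : ‖cexp (I * m * (u - ℓ n))‖ = 1 := by
    have : I * m * (u - ℓ n) = ((m * (u - ℓ n) : ℝ) : ℂ) * I := by
      push_cast; ring
    rw [this, Complex.norm_exp_ofReal_mul_I]
  rw [norm_mul, norm_mul, h1, mul_one, Complex.norm_real, Real.norm_of_nonneg (Real.exp_pos _).le]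

theorem PG_cont (c : ℕ → ℂ) (ℓ : ℕ → ℝ) (u : ℝ)
    (hs : Summable (fun n : ℕ => ‖c n‖ * Real.exp (-(u - ℓ n) ^ 2 / 4))) :
    Continuous (fun m : ℝ => PG c ℓ u m) := by
  unfold PG
  refine continuous_tsum (fun n => by fun_prop) hs fun n m => ?_
  exact norm_PG_term c ℓ u m n

theorem bt_sum_formula_G (c : ℕ → ℂ) (ℓ : ℕ → ℝ) (T u t : ℝ)
    (hs : Summable (fun n : ℕ => ‖c n‖ * Real.exp (-(u - ℓ n) ^ 2 / 4))) :
    ∑' n : ℕ, c n * bt T u t (ℓ n) =
      ((1 / (2 * Real.sqrt Real.pi) * (1 / Real.sqrt (2 * Real.pi)) : ℝ) : ℂ) *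
        ∫ τ in T..(2 * T), (Real.exp (-(t - τ) ^ 2 / 4) : ℂ) * PG c ℓ u ((t + τ) / 2) := by
  have h1 : ∫ τ in T..(2 * T), (Real.exp (-(t - τ) ^ 2 / 4) : ℂ) * PG c ℓ u ((t + τ) / 2)
      = ∑' n : ℕ, ∫ τ in T..(2 * T), (Real.exp (-(t - τ) ^ 2 / 4) : ℂ) *
        (c n * cexp (I * ((t + τ) / 2 : ℝ) * (u - ℓ n)) *
          Real.exp (-(u - ℓ n) ^ 2 / 4)) := by
    have e1 : ∀ τ : ℝ, (Real.exp (-(t - τ) ^ 2 / 4) : ℂ) * PG c ℓ u ((t + τ) / 2) =
        ∑' n : ℕ, (Real.exp (-(t - τ) ^ 2 / 4) : ℂ) *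
        (c n * cexp (I * ((t + τ) / 2 : ℝ) * (u - ℓ n)) *
          Real.exp (-(u - ℓ n) ^ 2 / 4)) := by
      intro τ
      rw [tsum_mul_left]
      rfl
    simp_rw [e1]
    symm
    refine (intervalIntegral.hasSum_integral_of_dominated_convergence
      (fun n _ => ‖c n‖ * Real.exp (-(u - ℓ n) ^ 2 / 4)) ?_ ?_ ?_ ?_ ?_).tsum_eq
    · intro n
      apply Continuous.aestronglyMeasurable
      fun_prop
    · intro n
      refine Eventually.of_forall fun τ _ => ?_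
      rw [norm_mul, Complex.norm_real, Real.norm_of_nonneg (Real.exp_pos _).le]
      have h2 : Real.exp (-(t - τ) ^ 2 / 4) ≤ 1 := by
        rw [Real.exp_le_one_iff]
        nlinarith [sq_nonneg (t - τ)]
      have h3 := norm_PG_term c ℓ u ((t + τ) / 2) n
      calc _ ≤ 1 * _ := mul_le_mul_of_nonneg_right h2 (norm_nonneg _)
        _ ≤ _ := by rw [one_mul]; exact h3
    · exact Eventually.of_forall fun τ _ => hs
    · exact intervalIntegrable_const
    · refine Eventually.of_forall fun τ _ => ?_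
      have : Summable (fun n : ℕ => (c n *
          cexp (I * ((t + τ) / 2 : ℝ) * (u - ℓ n)) *
          Real.exp (-(u - ℓ n) ^ 2 / 4))) :=
        Summable.of_norm_bounded hs (norm_PG_term c ℓ u ((t + τ) / 2))
      exact (this.mul_left _).hasSum
  rw [h1, ← tsum_mul_left]
  refine tsum_congr fun n => ?_
  have h4 : ∀ τ : ℝ, (Real.exp (-(t - τ) ^ 2 / 4) : ℂ) *
        (c n * cexp (I * ((t + τ) / 2 : ℝ) * (u - ℓ n)) *
          Real.exp (-(u - ℓ n) ^ 2 / 4)) =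
      (c n * Real.exp (-(u - ℓ n) ^ 2 / 4)) *
        ((Real.exp (-(t - τ) ^ 2 / 4) : ℂ) * cexp (I * ((t + τ) / 2) * (u - ℓ n))) := by
    intro τ
    push_cast
    ring
  simp_rw [h4]
  rw [intervalIntegral.integral_const_mul]
  unfold bt
  push_cast
  ring

theorem BB_formula_G (F : ℂ → ℂ) (c : ℕ → ℂ) (ℓ : ℕ → ℝ) (Lq V1 V2 T κ u E : ℝ)
    (hs : Summable (fun n : ℕ => ‖c n‖ * Real.exp (-(u - ℓ n) ^ 2 / 4)))
    (hfin : (zset F V1 V2).Finite) (hκ : 3 ≤ κ) (hT : 8 * κ ≤ T) (hV1 : V1 ≤ T - 3 * κ + 1)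
    (hV2 : 2 * T + 3 * κ - 1 ≤ V2)
    (hE : ∀ m : ℝ, V1 + κ ≤ m → m ≤ V2 - κ →
        ‖A1 F V1 V2 u m - (1 / (2 * Real.sqrt Real.pi) : ℝ) *
          (Lq * cexp (I * m * u) * Real.exp (-u ^ 2 / 4) - PG c ℓ u m)‖ ≤ E)
    (t : ℝ) (h1 : T - 3 * κ ≤ t) (h2 : t ≤ 2 * T + 3 * κ) :
    ‖BB F V1 V2 T u t - (Lq * bt T u t 0 -
        ∑' n : ℕ, c n * bt T u t (ℓ n))‖ ≤ 2 * E * wt T t := by
  have hT2 : T ≤ 2 * T := by linarith
  have hcA : Continuous (fun m : ℝ => A1 F V1 V2 u m) := A1_cont F V1 V2 u hfin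
  have hcP : Continuous (fun m : ℝ => PG c ℓ u m) := PG_cont c ℓ u hs
  have hbt0 : Lq * bt T u t 0 = ((1 / Real.sqrt (2 * Real.pi) : ℝ) : ℂ) *
      ∫ τ in T..(2 * T), (Real.exp (-(t - τ) ^ 2 / 4) : ℂ) *
        (((1 / (2 * Real.sqrt Real.pi) : ℝ) : ℂ) *
          (Lq * cexp (I * ((t + τ) / 2 : ℝ) * u) * Real.exp (-u ^ 2 / 4))) := by
    have e : ∀ τ : ℝ, (Real.exp (-(t - τ) ^ 2 / 4) : ℂ) *
        (((1 / (2 * Real.sqrt Real.pi) : ℝ) : ℂ) *
          (Lq * cexp (I * ((t + τ) / 2 : ℝ) * u) * Real.exp (-u ^ 2 / 4))) =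
        (((1 / (2 * Real.sqrt Real.pi) : ℝ) : ℂ) * Lq * Real.exp (-u ^ 2 / 4)) *
          ((Real.exp (-(t - τ) ^ 2 / 4) : ℂ) * cexp (I * ((t + τ) / 2) * (u - (0 : ℝ)))) := by
      intro τ
      push_cast
      rw [sub_zero]
      ring
    simp_rw [e]
    rw [intervalIntegral.integral_const_mul]
    unfold bt
    rw [sub_zero]
    push_cast
    ring
  have hkey : BB F V1 V2 T u t - (Lq * bt T u t 0 -
        ∑' n : ℕ, c n * bt T u t (ℓ n)) =
      ((1 / Real.sqrt (2 * Real.pi) : ℝ) : ℂ) *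
        ∫ τ in T..(2 * T), (Real.exp (-(t - τ) ^ 2 / 4) : ℂ) *
          (A1 F V1 V2 u ((t + τ) / 2) - (1 / (2 * Real.sqrt Real.pi) : ℝ) *
          (Lq * cexp (I * ((t + τ) / 2 : ℝ) * u) * Real.exp (-u ^ 2 / 4) -
            PG c ℓ u ((t + τ) / 2))) := by
    rw [BB_eq F V1 V2 T u t hfin, hbt0, bt_sum_formula_G c ℓ T u t hs]
    have hi1 : IntervalIntegrable (fun τ : ℝ => (Real.exp (-(t - τ) ^ 2 / 4) : ℂ) *
        A1 F V1 V2 u ((t + τ) / 2)) volume T (2 * T) := by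
      apply Continuous.intervalIntegrable
      have : Continuous fun τ : ℝ => A1 F V1 V2 u ((t + τ) / 2) := hcA.comp (by fun_prop)
      fun_prop
    have hi2 : IntervalIntegrable (fun τ : ℝ => (Real.exp (-(t - τ) ^ 2 / 4) : ℂ) *
        (((1 / (2 * Real.sqrt Real.pi) : ℝ) : ℂ) *
          (Lq * cexp (I * ((t + τ) / 2 : ℝ) * u) * Real.exp (-u ^ 2 / 4)))) volume T (2 * T) := by
      apply Continuous.intervalIntegrable
      fun_prop
    have hi3 : IntervalIntegrable (fun τ : ℝ => (Real.exp (-(t - τ) ^ 2 / 4) : ℂ) *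
        PG c ℓ u ((t + τ) / 2)) volume T (2 * T) := by
      apply Continuous.intervalIntegrable
      have : Continuous fun τ : ℝ => PG c ℓ u ((t + τ) / 2) := hcP.comp (by fun_prop)
      fun_prop
    have e : ∀ τ : ℝ, (Real.exp (-(t - τ) ^ 2 / 4) : ℂ) *
          (A1 F V1 V2 u ((t + τ) / 2) - (1 / (2 * Real.sqrt Real.pi) : ℝ) *
          (Lq * cexp (I * ((t + τ) / 2 : ℝ) * u) * Real.exp (-u ^ 2 / 4) -
            PG c ℓ u ((t + τ) / 2))) =
        ((Real.exp (-(t - τ) ^ 2 / 4) : ℂ) * A1 F V1 V2 u ((t + τ) / 2) -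
        (Real.exp (-(t - τ) ^ 2 / 4) : ℂ) *
        (((1 / (2 * Real.sqrt Real.pi) : ℝ) : ℂ) *
          (Lq * cexp (I * ((t + τ) / 2 : ℝ) * u) * Real.exp (-u ^ 2 / 4)))) +
        ((1 / (2 * Real.sqrt Real.pi) : ℝ) : ℂ) *
          ((Real.exp (-(t - τ) ^ 2 / 4) : ℂ) * PG c ℓ u ((t + τ) / 2)) := by
      intro τ
      ring
    simp_rw [e]
    rw [intervalIntegral.integral_add (hi1.sub hi2) (hi3.const_mul _),
      intervalIntegral.integral_sub hi1 hi2, intervalIntegral.integral_const_mul]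
    push_cast
    ring
  rw [hkey, norm_mul, Complex.norm_real, Real.norm_of_nonneg (by positivity)]
  have hE0 : 0 ≤ E := by
    refine (norm_nonneg _).trans (hE (T + 0) ?_ ?_) <;> linarith
  have hint : ‖∫ τ in T..(2 * T), (Real.exp (-(t - τ) ^ 2 / 4) : ℂ) *
          (A1 F V1 V2 u ((t + τ) / 2) - (1 / (2 * Real.sqrt Real.pi) : ℝ) *
          (Lq * cexp (I * ((t + τ) / 2 : ℝ) * u) * Real.exp (-u ^ 2 / 4) -
            PG c ℓ u ((t + τ) / 2)))‖ ≤
      ∫ τ in T..(2 * T), Real.exp (-(t - τ) ^ 2 / 4) * E := by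
    refine intervalIntegral.norm_integral_le_of_norm_le hT2 ?_ ?_
    · refine Eventually.of_forall fun τ hτ => ?_
      rw [norm_mul, Complex.norm_real, Real.norm_of_nonneg (Real.exp_pos _).le]
      refine mul_le_mul_of_nonneg_left ?_ (Real.exp_pos _).le
      refine hE ((t + τ) / 2) ?_ ?_
      · linarith [hτ.1]
      · linarith [hτ.2]
    · apply Continuous.intervalIntegrable
      fun_prop
  rw [intervalIntegral.integral_mul_const] at hint
  have hwt : ∫ τ in T..(2 * T), Real.exp (-(t - τ) ^ 2 / 4) = 2 * Real.sqrt Real.pi * wt T t := by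
    unfold wt
    have : Real.sqrt Real.pi ≠ 0 := (Real.sqrt_pos.2 Real.pi_pos).ne'
    field_simp
  have hwt0 : 0 ≤ wt T t := by
    unfold wt
    refine mul_nonneg (by positivity) (intervalIntegral.integral_nonneg hT2 fun τ _ =>
      (Real.exp_pos _).le)
  rw [hwt] at hint
  calc 1 / Real.sqrt (2 * Real.pi) * _ ≤ 1 / Real.sqrt (2 * Real.pi) *
        (2 * Real.sqrt Real.pi * wt T t * E) := by gcongr
    _ = Real.sqrt 2 * (E * wt T t) := by
        rw [Real.sqrt_mul (by norm_num : (0:ℝ) ≤ 2)]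
        have h3 : Real.sqrt Real.pi ≠ 0 := (Real.sqrt_pos.2 Real.pi_pos).ne'
        have h4 : Real.sqrt 2 ≠ 0 := (Real.sqrt_pos.2 (by norm_num)).ne'
        field_simp
        rw [Real.sq_sqrt (by norm_num)]
    _ ≤ 2 * (E * wt T t) := by
        refine mul_le_mul_of_nonneg_right ?_ (mul_nonneg hE0 hwt0)
        rw [Real.sqrt_le_iff]
        norm_num
    _ = 2 * E * wt T t := by ring

end Pool.Agent.H63.DZ
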