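import Pool.Agent.H63.DZ.Dil
import Pool.Agent.H63.DZ.CutG
import Pool.Graph.R_seed8.H385R2.CutD

/-!
# The cut-off explicit formula for a dilated function
-/

set_option autoImplicit false
set_option maxHeartbeats 4000000

open Complex Filter Topology Set MeasureTheory

namespace Pool.Agent.H63.DZ

open H385
open H370 (zset mult NN Nd Ns)
open H343 (hhb PPb AAb norm_hhb)

/-- the coefficients `lam a(n) / √n` -/
noncomputable def cf (lam : ℝ) (a : ℕ → ℂ) (n : ℕ) : ℂ := (lam : ℂ) * (a n * (Real.sqrt n : ℂ)⁻¹)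

/-- the frequencies `lam log n` -/
noncomputable def fq (lam : ℝ) (n : ℕ) : ℝ := lam * Real.log n

lemma PPb_eq {lam : ℝ} (hlam : 1 ≤ lam) (a : ℕ → ℂ) (u m : ℝ) :
    PPb (2 / lam ^ 2) a (u / lam) (lam * m) = (lam : ℂ)⁻¹ * PG (cf lam a) (fq lam) u m := by
  have hl0 : (lam : ℂ) ≠ 0 := by
    have : lam ≠ 0 := by linarith
    exact_mod_cast this
  have hl0' : lam ≠ 0 := by linarith
  unfold PPb PG
  rw [← tsum_mul_left]
  refine tsum_congr fun n => ?_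
  have e1 : -(u / lam - Real.log n) ^ 2 / (2 * (2 / lam ^ 2)) = -(u - fq lam n) ^ 2 / 4 := by
    unfold fq
    field_simp
    ring
  have e2 : I * ((lam * m : ℝ) : ℂ) * (((u / lam : ℝ) : ℂ) - Real.log n) =
      I * m * (u - (fq lam n : ℝ)) := by
    unfold fq
    push_cast
    field_simp
  rw [e1, e2]
  unfold cf
  field_simp

/-- domination by the dilated Gaussian -/
lemma gauss_dil_le {lam : ℝ} (hlam : 1 ≤ lam) (u x c : ℝ) (hc : 0 ≤ c) :
    Real.exp (-(u - lam * x) ^ 2 * c) ≤ Real.exp (-(u / lam - x) ^ 2 * c) := by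
  apply Real.exp_le_exp.2
  have hlp : 0 < lam := by linarith
  have e : (u - lam * x) = lam * (u / lam - x) := by field_simp
  rw [e, mul_pow]
  have h1 : 1 ≤ lam ^ 2 := one_le_pow₀ hlam
  have h2 : 0 ≤ (u / lam - x) ^ 2 := sq_nonneg _
  have h3 : (u / lam - x) ^ 2 * 1 ≤ (u / lam - x) ^ 2 * lam ^ 2 := mul_le_mul_of_nonneg_left h1 h2
  have h4 := mul_le_mul_of_nonneg_right h3 hc
  linarith

lemma cf_summable {lam : ℝ} (hlam : 1 ≤ lam) (a : ℕ → ℂ) {d : ℝ} (hd : 0 ≤ d)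
    (ha : ∀ n, ‖a n‖ ≤ d * ArithmeticFunction.vonMangoldt n) (u : ℝ) :
    Summable (fun n : ℕ => ‖cf lam a n‖ * Real.exp (-(u - fq lam n) ^ 2 / 4)) := by
  have hs := (dom_summable (u / lam)).mul_left (lam * d)
  refine Summable.of_nonneg_of_le (fun n => by positivity) (fun n => ?_) hs
  have h1 : ‖cf lam a n‖ ≤ lam * (d * ArithmeticFunction.vonMangoldt n * (Real.sqrt n)⁻¹) := by
    unfold cf
    rw [norm_mul, norm_mul, norm_inv, Complex.norm_real, Complex.norm_real,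
      Real.norm_of_nonneg (by linarith), Real.norm_of_nonneg (Real.sqrt_nonneg _)]
    have := ha n
    have h0 : 0 ≤ lam := by linarith
    gcongr
  have h2 := gauss_dil_le hlam u (Real.log n) (1 / 4) (by norm_num)
  have e1 : Real.exp (-(u - fq lam n) ^ 2 / 4) = Real.exp (-(u - lam * Real.log n) ^ 2 * (1 / 4)) := by
    unfold fq
    congr 1
    ring
  have e2 : Real.exp (-(u / lam - Real.log n) ^ 2 / 4) =
      Real.exp (-(u / lam - Real.log n) ^ 2 * (1 / 4)) := by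
    congr 1
    ring
  have hΛ : (0 : ℝ) ≤ ArithmeticFunction.vonMangoldt n := ArithmeticFunction.vonMangoldt_nonneg
  rw [e1, e2]
  calc ‖cf lam a n‖ * Real.exp (-(u - lam * Real.log n) ^ 2 * (1 / 4)) ≤
      (lam * (d * ArithmeticFunction.vonMangoldt n * (Real.sqrt n)⁻¹)) *
        Real.exp (-(u / lam - Real.log n) ^ 2 * (1 / 4)) := by
        apply mul_le_mul h1 h2 (Real.exp_pos _).le
        have : 0 ≤ lam := by linarith
        positivity
    _ = _ := by ring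

lemma sqrt_const {lam : ℝ} (hlam : 1 ≤ lam) :
    Real.sqrt (2 * Real.pi / (2 / lam ^ 2)) / (2 * Real.pi) = lam / (2 * Real.sqrt Real.pi) := by
  have hlp : 0 < lam := by linarith
  have e1 : 2 * Real.pi / (2 / lam ^ 2) = Real.pi * lam ^ 2 := by field_simp
  rw [e1, Real.sqrt_mul Real.pi_pos.le, Real.sqrt_sq hlp.le]
  have h1 : Real.sqrt Real.pi * Real.sqrt Real.pi = Real.pi := Real.mul_self_sqrt Real.pi_pos.le
  have h2 : Real.sqrt Real.pi ≠ 0 := (Real.sqrt_pos.2 Real.pi_pos).ne'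
  have hpi : Real.pi ≠ 0 := Real.pi_ne_zero
  field_simp
  nlinarith

/-- the explicit formula for the dilated function, end points `T - 3κ + 1`, `2T + 3κ - 1` -/
theorem A1_dil_formula (lam : ℝ) (hlam : 1 ≤ lam) (d A : ℝ) (hd : 1 ≤ d) (hA : 1 ≤ A) :
    ∃ C : ℝ, 0 < C ∧ ∀ (Q : ℝ) (F : ℂ → ℂ) (a : ℕ → ℂ), 1 ≤ Q →
    GoodD d A Q F a → ∀ T κ : ℝ, 3 ≤ κ → 8 * κ ≤ T →
      ∀ u m : ℝ, 0 ≤ u → T - 3 * κ + 1 + κ ≤ m → m ≤ 2 * T + 3 * κ - 1 - κ →
        ‖A1 (dil lam F) (T - 3 * κ + 1) (2 * T + 3 * κ - 1) u m - (1 / (2 * Real.sqrt Real.pi) : ℝ) *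
          (((lam * d * Real.log (Q * (lam * T)) : ℝ) : ℂ) * cexp (I * m * u) * Real.exp (-u ^ 2 / 4)
            - PG (cf lam a) (fq lam) u m)‖ ≤
        C * (Real.exp (-(u / lam)) + (Real.log (Q * (lam * T))) ^ 2 *
          Real.exp (u / lam - κ ^ 2 / 2)) := by
  have hlp : 0 < lam := by linarith
  have hl0 : (lam : ℂ) ≠ 0 := by exact_mod_cast hlp.ne'
  obtain ⟨C, hC, h⟩ := AAb_fixed (2 / lam ^ 2) (by positivity) lam hlam d A hd hA
  refine ⟨C, hC, ?_⟩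
  intro Q F a hQ hF T κ hκ hT u m hu hm1 hm2
  have hZ := ZOK.of_goodD hF
  rw [A1_dil hlam hZ (by linarith) u m]
  have h1 := h Q F a hQ hF (lam * T) (lam * κ) (by nlinarith) (by nlinarith) (by nlinarith)
    (u / lam) (lam * m) (by positivity) (by nlinarith) (by nlinarith)
  have e1 : lam * T - 3 * (lam * κ) + lam = lam * (T - 3 * κ + 1) := by ring
  have e2 : 2 * (lam * T) + 3 * (lam * κ) - lam = lam * (2 * T + 3 * κ - 1) := by ring
  have e3 : u / lam - 2 / lam ^ 2 * (lam * κ) ^ 2 / 4 = u / lam - κ ^ 2 / 2 := by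
    field_simp
    ring
  have e4 : -(u / lam) ^ 2 / (2 * (2 / lam ^ 2)) = -u ^ 2 / 4 := by
    field_simp
    ring
  have e5 : I * ((lam * m : ℝ) : ℂ) * ((u / lam : ℝ) : ℂ) = I * m * u := by
    push_cast
    field_simp
  rw [e1, e2, e3, e4, e5, PPb_eq hlam, sqrt_const hlam] at h1
  refine le_trans (le_of_eq ?_) h1
  congr 2
  push_cast
  field_simp

theorem BB_dil_formula (lam : ℝ) (hlam : 1 ≤ lam) (d A : ℝ) (hd : 1 ≤ d) (hA : 1 ≤ A) :
    ∃ C : ℝ, 0 < C ∧ ∀ (Q : ℝ) (F : ℂ → ℂ) (a : ℕ → ℂ), 1 ≤ Q →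
    GoodD d A Q F a → ∀ T κ : ℝ, 3 ≤ κ → 8 * κ ≤ T →
      ∀ u t : ℝ, 0 ≤ u → T - 3 * κ ≤ t → t ≤ 2 * T + 3 * κ →
        ‖BB (dil lam F) (T - 3 * κ + 1) (2 * T + 3 * κ - 1) T u t -
          (((lam * d * Real.log (Q * (lam * T)) : ℝ) : ℂ) * bt T u t 0
            - ∑' n : ℕ, cf lam a n * bt T u t (fq lam n))‖ ≤
        2 * (C * (Real.exp (-(u / lam)) + (Real.log (Q * (lam * T))) ^ 2 *
          Real.exp (u / lam - κ ^ 2 / 2))) * wt T t := by
  obtain ⟨C, hC, h⟩ := A1_dil_formula lam hlam d A hd hA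
  refine ⟨C, hC, ?_⟩
  intro Q F a hQ hF T κ hκ hT u t hu ht1 ht2
  have hZ := (ZOK.of_goodD hF).dil hlam
  have hfin := hZ.fin (T - 3 * κ + 1) (2 * T + 3 * κ - 1) (by linarith)
  exact BB_formula_G (dil lam F) (cf lam a) (fq lam) _ _ _ T κ u _
    (cf_summable hlam a (by linarith) hF.ha u) hfin hκ hT (by linarith) (by linarith)
    (fun m h1 h2 => h Q F a hQ hF T κ hκ hT u m hu h1 h2) t ht1 ht2

end Pool.Agent.H63.DZ
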