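import Pool.Agent.H63.DZ.Const
import Pool.Graph.R_seed8.R321.RD5
import Pool.Graph.R_seed8.R321.RG4
import Pool.Graph.R_pool_sql_team_seeded_707910d6.T2H25.ZR.A5
import Pool.Graph.R_pool_sql_team_seeded_707910d6.T2H62.MQ.F

/-!
# Counting of zeros of products
-/

set_option autoImplicit false
set_option maxHeartbeats 4000000

open Complex Filter Topology Set MeasureTheory

namespace Pool.Agent.H63.DZ

open H385
open H370 (zset mult NN Nd Ns)
open Pool.Agent.R321.RC (On Cm)
open Pool.Agent.R321.RD (Al)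

theorem counts2 {F G : ℂ → ℂ} (hF : ZOK F) (hG : ZOK G) {T : ℝ} (hT : 1 ≤ T) :
    NN (fun s => F s * G s) T (2 * T) = NN F T (2 * T) + NN G T (2 * T) ∧
    Nd (fun s => F s * G s) T (2 * T) = (zset F T (2 * T) ∪ zset G T (2 * T)).ncard ∧
    Ns (fun s => F s * G s) T (2 * T) ≤ On F G T + On G F T ∧
    Cm F G T + Nd (fun s => F s * G s) T (2 * T) ≤ NN F T (2 * T) + NN G T (2 * T) := by
  classical
  have hfF : (zset F T (2 * T)).Finite := hF.fin T _ hT
  have hfG : (zset G T (2 * T)).Finite := hG.fin T _ hT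
  have him : ∀ {s : ℂ}, s ∈ zset F T (2 * T) ∪ zset G T (2 * T) → 0 < s.im := by
    rintro s (h | h)
    · linarith [h.2.2.1]
    · linarith [h.2.2.1]
  have hU : (zset F T (2 * T) ∪ zset G T (2 * T)).Finite := hfF.union hfG
  have hNF : NN F T (2 * T) = ∑ s ∈ hU.toFinset, mult F s := by
    unfold NN
    rw [finsum_mem_eq_finite_toFinset_sum _ hfF]
    refine Finset.sum_subset (fun s hs => ?_) (fun s hs hs' => ?_)
    · simp only [Set.Finite.mem_toFinset] at hs ⊢
      exact Or.inl hs
    · simp only [Set.Finite.mem_toFinset] at hs hs'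
      have h0 : F s ≠ 0 := by
        intro h
        apply hs'
        rcases hs with h1 | h1
        · exact h1
        · exact ⟨h1.1, h1.2.1, h1.2.2.1, h1.2.2.2.1, h⟩
      by_contra hc
      exact h0 ((hF.mult_pos_iff (him hs)).1 (Nat.pos_of_ne_zero hc))
  have hNG : NN G T (2 * T) = ∑ s ∈ hU.toFinset, mult G s := by
    unfold NN
    rw [finsum_mem_eq_finite_toFinset_sum _ hfG]
    refine Finset.sum_subset (fun s hs => ?_) (fun s hs hs' => ?_)
    · simp only [Set.Finite.mem_toFinset] at hs ⊢
      exact Or.inr hs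
    · simp only [Set.Finite.mem_toFinset] at hs hs'
      have h0 : G s ≠ 0 := by
        intro h
        apply hs'
        rcases hs with h1 | h1
        · exact ⟨h1.1, h1.2.1, h1.2.2.1, h1.2.2.2.1, h⟩
        · exact h1
      by_contra hc
      exact h0 ((hG.mult_pos_iff (him hs)).1 (Nat.pos_of_ne_zero hc))
  refine ⟨?_, ?_, ?_, ?_⟩
  · rw [hNF, hNG, ← Finset.sum_add_distrib]
    unfold NN
    rw [zset_mul, finsum_mem_eq_finite_toFinset_sum _ hU]
    refine Finset.sum_congr rfl fun s hs => ?_
    rw [Set.Finite.mem_toFinset] at hs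
    exact ZOK.mult_mul hF hG (him hs)
  · unfold Nd
    rw [zset_mul]
  · unfold Ns On
    have hsub : {s : ℂ | s ∈ zset (fun s => F s * G s) T (2 * T) ∧ s.re = 1 / 2 ∧
        mult (fun s => F s * G s) s = 1} ⊆
        {s : ℂ | s ∈ zset F T (2 * T) ∧ s.re = 1 / 2 ∧ mult F s = 1 ∧ G s ≠ 0} ∪
        {s : ℂ | s ∈ zset G T (2 * T) ∧ s.re = 1 / 2 ∧ mult G s = 1 ∧ F s ≠ 0} := by
      rintro s ⟨h1, h2, h3⟩
      rw [zset_mul] at h1
      have i := him h1
      rw [ZOK.mult_mul hF hG i] at h3
      rcases h1 with h1 | h1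
      · have hp := (hF.mult_pos_iff i).2 h1.2.2.2.2
        left
        refine ⟨h1, h2, by omega, fun h0 => ?_⟩
        have := (hG.mult_pos_iff i).2 h0
        omega
      · have hp := (hG.mult_pos_iff i).2 h1.2.2.2.2
        right
        refine ⟨h1, h2, by omega, fun h0 => ?_⟩
        have := (hF.mult_pos_iff i).2 h0
        omega
    refine (Set.ncard_le_ncard hsub ?_).trans (Set.ncard_union_le _ _)
    exact (hfF.subset fun s hs => hs.1).union (hfG.subset fun s hs => hs.1)
  · have hI : (zset F T (2 * T) ∩ zset G T (2 * T)).Finite := hfF.subset Set.inter_subset_left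
    have hC : Cm F G T = ∑ s ∈ hU.toFinset,
        (if s ∈ zset F T (2 * T) ∩ zset G T (2 * T) then min (mult F s) (mult G s) else 0) := by
      unfold Cm
      rw [finsum_mem_eq_finite_toFinset_sum _ hI, ← Finset.sum_filter]
      refine Finset.sum_congr ?_ fun _ _ => rfl
      ext s
      simp only [Set.Finite.mem_toFinset, Finset.mem_filter]
      constructor
      · intro h
        exact ⟨Or.inl h.1, h⟩
      · intro h
        exact h.2
    have hD : Nd (fun s => F s * G s) T (2 * T) = ∑ s ∈ hU.toFinset, 1 := by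
      unfold Nd
      rw [zset_mul, Set.ncard_eq_toFinset_card _ hU, Finset.card_eq_sum_ones]
    rw [hC, hD, hNF, hNG, ← Finset.sum_add_distrib, ← Finset.sum_add_distrib]
    refine Finset.sum_le_sum fun s hs => ?_
    rw [Set.Finite.mem_toFinset] at hs
    have i := him hs
    split_ifs with h
    · have h1 := (hF.mult_pos_iff i).2 h.1.2.2.2.2
      have h2 := (hG.mult_pos_iff i).2 h.2.2.2.2.2
      rcases le_total (mult F s) (mult G s) with h3 | h3
      · rw [min_eq_left h3]; omega
      · rw [min_eq_right h3]; omega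
    · rcases hs with h1 | h1
      · have := (hF.mult_pos_iff i).2 h1.2.2.2.2
        omega
      · have := (hG.mult_pos_iff i).2 h1.2.2.2.2
        omega


theorem once2 {F G : ℂ → ℂ} (hF : ZOK F) (hG : ZOK G) {T : ℝ} (hT : 1 ≤ T) :
    3 * Ns (fun s => F s * G s) T (2 * T) ≤
      NN (fun s => F s * G s) T (2 * T) + 2 * (Al F G T + Al G F T) := by
  classical
  set H : ℂ → ℂ := fun s => F s * G s with hH
  have hfF : (zset F T (2 * T)).Finite := hF.fin T _ hT
  have hfG : (zset G T (2 * T)).Finite := hG.fin T _ hT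
  have hz : zset H T (2 * T) = zset F T (2 * T) ∪ zset G T (2 * T) := zset_mul F G T (2 * T)
  have hU : (zset H T (2 * T)).Finite := by rw [hz]; exact hfF.union hfG
  have him : ∀ {s : ℂ}, s ∈ zset H T (2 * T) → 0 < s.im := fun h => by linarith [h.2.2.1]
  have hmp : ∀ {s : ℂ}, s ∈ zset H T (2 * T) → 1 ≤ mult H s := by
    intro s h
    have i := him h
    have e : mult H s = mult F s + mult G s := ZOK.mult_mul hF hG i
    rw [e]
    rw [hz] at h
    rcases h with h1 | h1
    · have := (hF.mult_pos_iff i).2 h1.2.2.2.2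
      omega
    · have := (hG.mult_pos_iff i).2 h1.2.2.2.2
      omega
  -- reflection
  have hrefl : ∀ {s : ℂ}, s ∈ zset H T (2 * T) → 1 - (starRingEnd ℂ) s ∈ zset H T (2 * T) := by
    have key : ∀ {P : ℂ → ℂ}, ZOK P → ∀ {s : ℂ}, s ∈ zset P T (2 * T) →
        1 - (starRingEnd ℂ) s ∈ zset P T (2 * T) := by
      intro P hP s hs
      obtain ⟨h1, h2, h3, h4, h5⟩ := hs
      have i1 : (1 - (starRingEnd ℂ) s).im = s.im := by simp
      have i2 : (1 - (starRingEnd ℂ) s).re = 1 - s.re := by simp
      refine ⟨by rw [i2]; linarith, by rw [i2]; linarith, by rw [i1]; exact h3,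
        by rw [i1]; exact h4, ?_⟩
      have e := hP.symm s h1 h2 (by linarith)
      have o1 : analyticOrderAt P s ≠ 0 := by
        rw [Ne, (hP.an s (by linarith)).analyticOrderAt_eq_zero]
        simpa using h5
      rw [← e] at o1
      by_contra hc
      exact o1 ((hP.an _ (by rw [i1]; linarith)).analyticOrderAt_eq_zero.2 hc)
    intro s hs
    rw [hz] at hs ⊢
    rcases hs with h | h
    · exact Or.inl (key hF h)
    · exact Or.inr (key hG h)
  set Z : Finset ℂ := hU.toFinset with hZ
  set S : Finset ℂ := Z.filter (fun s => s.re = 1 / 2 ∧ mult H s = 1) with hS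
  set U : Finset ℂ := S.filter (fun s => ∀ s' ∈ zset H T (2 * T), s'.im = s.im → s' = s) with hUd
  set V : Finset ℂ := S.filter (fun s => ¬ ∀ s' ∈ zset H T (2 * T), s'.im = s.im → s' = s) with hV
  have hSUV : U.card + V.card = S.card := Finset.card_filter_add_card_filter_not _
  have hNs : Ns H T (2 * T) = S.card := by
    unfold Ns
    have : {s : ℂ | s ∈ zset H T (2 * T) ∧ s.re = 1 / 2 ∧ mult H s = 1} =
        ((S : Finset ℂ) : Set ℂ) := by
      ext s
      simp [hS, hZ]
    rw [this, Set.ncard_coe_finset]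
  have hNN : NN H T (2 * T) = ∑ s ∈ Z, mult H s := by
    unfold NN
    exact finsum_mem_eq_finite_toFinset_sum _ hU
  -- the off-line zeros to the right and to the left
  set R : Finset ℂ := Z.filter (fun s => 1 / 2 < s.re) with hR
  set Lf : Finset ℂ := Z.filter (fun s => s.re < 1 / 2) with hLf
  have hVR : V.card ≤ R.card := by
    have hex : ∀ s ∈ V, ∃ s' ∈ R, s'.im = s.im := by
      intro s hs
      rw [hV, Finset.mem_filter, hS, Finset.mem_filter] at hs
      obtain ⟨⟨hsZ, hre, hm⟩, hn⟩ := hs
      push Not at hn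
      obtain ⟨s', hs', hi, hne⟩ := hn
      have hre' : s'.re ≠ 1 / 2 := by
        intro h
        exact hne (Complex.ext (h.trans hre.symm) hi)
      rcases lt_or_gt_of_ne hre' with h | h
      · refine ⟨1 - (starRingEnd ℂ) s', ?_, by simpa using hi⟩
        rw [hR, Finset.mem_filter, hZ, Set.Finite.mem_toFinset]
        refine ⟨hrefl hs', ?_⟩
        simp only [sub_re, one_re, conj_re]
        linarith
      · refine ⟨s', ?_, hi⟩
        rw [hR, Finset.mem_filter, hZ, Set.Finite.mem_toFinset]
        exact ⟨hs', h⟩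
    choose! f hf using hex
    refine Finset.card_le_card_of_injOn f (fun s hs => (hf s hs).1) ?_
    intro s hs t ht h
    have h1 := (hf s hs).2
    have h2 := (hf t ht).2
    rw [h] at h1
    rw [Finset.mem_coe, hV, Finset.mem_filter, hS, Finset.mem_filter] at hs ht
    exact Complex.ext (hs.1.2.1.trans ht.1.2.1.symm) (h1.symm.trans h2)
  have hRL : R.card ≤ Lf.card := by
    refine Finset.card_le_card_of_injOn (fun s => 1 - (starRingEnd ℂ) s) (fun s hs => ?_) ?_
    · rw [Finset.mem_coe, hR, Finset.mem_filter, hZ, Set.Finite.mem_toFinset] at hs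
      rw [Finset.mem_coe, hLf, Finset.mem_filter, hZ, Set.Finite.mem_toFinset]
      refine ⟨hrefl hs.1, ?_⟩
      simp only [sub_re, one_re, conj_re]
      linarith [hs.2]
    · intro s _ t _ h
      have h' : (starRingEnd ℂ) s = (starRingEnd ℂ) t := by
        simpa using h
      exact (starRingEnd ℂ).injective h'
  have hcount : S.card + R.card + Lf.card ≤ ∑ s ∈ Z, mult H s := by
    have hd1 : Disjoint S R := by
      rw [Finset.disjoint_left]
      intro s h1 h2
      rw [hS, Finset.mem_filter] at h1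
      rw [hR, Finset.mem_filter] at h2
      linarith [h1.2.1, h2.2]
    have hd2 : Disjoint (S ∪ R) Lf := by
      rw [Finset.disjoint_left]
      intro s h1 h2
      rw [hLf, Finset.mem_filter] at h2
      rw [Finset.mem_union, hS, Finset.mem_filter, hR, Finset.mem_filter] at h1
      rcases h1 with h1 | h1
      · linarith [h1.2.1, h2.2]
      · linarith [h1.2, h2.2]
    have hsub : (S ∪ R) ∪ Lf ⊆ Z := by
      intro s hs
      rw [Finset.mem_union, Finset.mem_union, hS, hR, hLf, Finset.mem_filter, Finset.mem_filter,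
        Finset.mem_filter] at hs
      tauto
    calc S.card + R.card + Lf.card = ((S ∪ R) ∪ Lf).card := by
          rw [Finset.card_union_of_disjoint hd2, Finset.card_union_of_disjoint hd1]
      _ ≤ Z.card := Finset.card_le_card hsub
      _ = ∑ s ∈ Z, 1 := Finset.card_eq_sum_ones _
      _ ≤ ∑ s ∈ Z, mult H s := Finset.sum_le_sum fun s hs => hmp (by
          rwa [hZ, Set.Finite.mem_toFinset] at hs)
  have hUA : U.card ≤ Al F G T + Al G F T := by
    have hsub : ((U : Finset ℂ) : Set ℂ) ⊆
        {s : ℂ | (s ∈ zset F T (2 * T) ∧ s.re = 1 / 2 ∧ mult F s = 1 ∧ G s ≠ 0) ∧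
          ∀ s' ∈ zset F T (2 * T) ∪ zset G T (2 * T), s'.im = s.im → s' = s} ∪
        {s : ℂ | (s ∈ zset G T (2 * T) ∧ s.re = 1 / 2 ∧ mult G s = 1 ∧ F s ≠ 0) ∧
          ∀ s' ∈ zset G T (2 * T) ∪ zset F T (2 * T), s'.im = s.im → s' = s} := by
      intro s hs
      rw [Finset.mem_coe, hUd, Finset.mem_filter, hS, Finset.mem_filter, hZ,
        Set.Finite.mem_toFinset] at hs
      obtain ⟨⟨h1, h2, h3⟩, h4⟩ := hs
      have i := him h1
      have e : mult H s = mult F s + mult G s := ZOK.mult_mul hF hG i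
      rw [e] at h3
      rw [hz] at h1 h4
      rcases h1 with h1 | h1
      · have hp := (hF.mult_pos_iff i).2 h1.2.2.2.2
        left
        refine ⟨⟨h1, h2, by omega, fun h0 => ?_⟩, h4⟩
        have := (hG.mult_pos_iff i).2 h0
        omega
      · have hp := (hG.mult_pos_iff i).2 h1.2.2.2.2
        right
        refine ⟨⟨h1, h2, by omega, fun h0 => ?_⟩, fun s' hs' => h4 s' (by
          rw [Set.union_comm]; exact hs')⟩
        have := (hF.mult_pos_iff i).2 h0
        omega
    rw [← Set.ncard_coe_finset]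
    refine (Set.ncard_le_ncard hsub ?_).trans (Set.ncard_union_le _ _)
    exact (hfF.subset fun s hs => hs.1.1).union (hfG.subset fun s hs => hs.1.1)
  rw [hNs, hNN]
  omega


end Pool.Agent.H63.DZ
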