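import Pool.Agent.H63.DZ.Fin2
import Pool.Graph.R_seed8.H385R2.WinC

/-!
# The constant of the family theorem in closed form
-/

set_option autoImplicit false
set_option maxHeartbeats 4000000

open Complex Filter Topology Set MeasureTheory

namespace Pool.Agent.H63.DZ

open H385 H385.WinC
open H370 (zset mult NN Nd Ns)
open Pool.Agent.T2H25.ZR (quo)

/-- the closed form of the constant -/
noncomputable def cc (k : ℕ) (D : ℝ) : ℝ :=
  k / D + Real.sqrt (k / 2) * Real.cot (Real.sqrt (2 * k) / D)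

lemma Rw_nm (γ : ℝ) {x : ℝ} (hx : 0 ≤ x) (hx1 : x ≤ 1) :
    Rw γ x = nm γ x * ((γ / (2 * Real.sin (γ / 2))) ^ 2 / 2) := by
  unfold Rw nm
  rw [abs_of_nonneg hx, if_pos hx1]
  ring

lemma int_Rw (γ : ℝ) (h0 : γ ≠ 0) : ∫ α in (0 : ℝ)..1, α * Rw γ α =
    ((γ / (2 * Real.sin (γ / 2))) ^ 2 / 2) * (N2 γ 1 - N2 γ 0) := by
  set K := (γ / (2 * Real.sin (γ / 2))) ^ 2 / 2 with hK
  have h1 : ∫ α in (0 : ℝ)..1, α * Rw γ α = ∫ α in (0 : ℝ)..1, K * (α * nm γ α) := by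
    apply intervalIntegral.integral_congr
    intro x hx
    rw [Set.uIcc_of_le zero_le_one] at hx
    simp only
    rw [Rw_nm γ hx.1 hx.2]
    ring
  have hc : Continuous (fun α : ℝ => α * nm γ α) := by
    have := nm_cont γ
    fun_prop
  rw [h1, intervalIntegral.integral_const_mul]
  rw [intervalIntegral.integral_eq_sub_of_hasDerivAt (fun x _ => N2_deriv γ h0 x)
    (hc.intervalIntegrable _ _)]

/-- the trigonometric identity -/
lemma C_closed (s γ : ℝ) (h0 : 0 < γ) (hπ : γ < Real.pi) :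
    s / γ * Rw γ 0 + s * γ * (∫ α in (0 : ℝ)..1, α * Rw γ α) =
      s * γ / 4 + s / 2 * Real.cot (γ / 2) := by
  have hs : 0 < Real.sin (γ / 2) := Real.sin_pos_of_pos_of_lt_pi (by linarith) (by linarith)
  have hsin : Real.sin γ = 2 * Real.sin (γ / 2) * Real.cos (γ / 2) := by
    rw [← Real.sin_two_mul]; congr 1; ring
  have hcos : Real.cos γ = 1 - 2 * Real.sin (γ / 2) ^ 2 := by
    have := Real.cos_two_mul (γ / 2)
    rw [show 2 * (γ / 2) = γ by ring] at this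
    have h2 := Real.sin_sq_add_cos_sq (γ / 2)
    nlinarith
  rw [int_Rw γ h0.ne', Rw_nm γ le_rfl zero_le_one, Real.cot_eq_cos_div_sin]
  unfold nm N2
  simp only [mul_zero, sub_zero, mul_one, Real.cos_zero, Real.sin_zero, sub_self, zero_mul,
    zero_div, zero_add, add_zero]
  rw [hsin, hcos]
  field_simp
  ring

lemma gam_lt_pi (k : ℕ) (hk : 1 ≤ k) (D : ℝ) (hD : (k : ℝ) ≤ D) :
    2 * Real.sqrt (2 * k) / D < Real.pi := by
  have hk1 : (1 : ℝ) ≤ k := by exact_mod_cast hk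
  have hD0 : 0 < D := by linarith
  have h1 : Real.sqrt (2 * k) ≤ 3 / 2 * k := by
    rw [Real.sqrt_le_left (by positivity)]
    nlinarith
  rw [div_lt_iff₀ hD0]
  have := Real.pi_gt_three
  nlinarith

lemma C_at (k : ℕ) (D : ℝ) (hD : 0 < D) (hk : 1 ≤ k) (β : ℝ) (hβ : 0 < β)
    (hπ : β * Real.sqrt (2 * k) / D < Real.pi) :
    D * Rw (β * Real.sqrt (2 * k) / D) 0 / β +
      (k * (2 * β * ∫ α in (0 : ℝ)..1, α * Rw (β * Real.sqrt (2 * k) / D) α)) / D =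
    Real.sqrt (2 * k) * (β * Real.sqrt (2 * k) / D) / 4 +
      Real.sqrt (2 * k) / 2 * Real.cot ((β * Real.sqrt (2 * k) / D) / 2) := by
  have hk1 : (1 : ℝ) ≤ k := by exact_mod_cast hk
  have hs : 0 < Real.sqrt (2 * k) := Real.sqrt_pos.2 (by positivity)
  have hss : Real.sqrt (2 * k) * Real.sqrt (2 * k) = 2 * k := Real.mul_self_sqrt (by positivity)
  rw [← C_closed (Real.sqrt (2 * k)) (β * Real.sqrt (2 * k) / D) (by positivity) hπ]
  have e1 : Real.sqrt (2 * k) / (β * Real.sqrt (2 * k) / D) = D / β := by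
    field_simp
  have e2 : Real.sqrt (2 * k) * (β * Real.sqrt (2 * k) / D) = β * (2 * k) / D := by
    calc Real.sqrt (2 * k) * (β * Real.sqrt (2 * k) / D) =
        β * (Real.sqrt (2 * k) * Real.sqrt (2 * k)) / D := by ring
      _ = _ := by rw [hss]
  rw [e1, e2]
  ring

lemma cc_eq (k : ℕ) (hk : 1 ≤ k) (D : ℝ) (hD : 0 < D) :
    Real.sqrt (2 * k) * (2 * Real.sqrt (2 * k) / D) / 4 +
      Real.sqrt (2 * k) / 2 * Real.cot ((2 * Real.sqrt (2 * k) / D) / 2) = cc k D := by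
  have hk1 : (1 : ℝ) ≤ k := by exact_mod_cast hk
  have hss : Real.sqrt (2 * k) * Real.sqrt (2 * k) = 2 * k := Real.mul_self_sqrt (by positivity)
  unfold cc
  have e1 : Real.sqrt (2 * k) / 2 = Real.sqrt (k / 2) := by
    have h4 : (2 * (k : ℝ)) = 2 ^ 2 * (k / 2) := by ring
    rw [h4, Real.sqrt_mul (by positivity), Real.sqrt_sq (by norm_num)]
    ring
  rw [e1]
  have e2 : (2 * Real.sqrt (2 * k) / D) / 2 = Real.sqrt (2 * k) / D := by ring
  rw [e2]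
  have e3 : Real.sqrt (2 * k) * (2 * Real.sqrt (2 * k) / D) / 4 = k / D := by
    calc Real.sqrt (2 * k) * (2 * Real.sqrt (2 * k) / D) / 4 =
        (Real.sqrt (2 * k) * Real.sqrt (2 * k)) / (2 * D) := by ring
      _ = k / D := by rw [hss]; field_simp
  rw [e3]

/-- a choice of `β < 2` for which the constant is almost the limiting one -/
lemma beta_choice (k : ℕ) (hk : 1 ≤ k) (D : ℝ) (hD : (k : ℝ) ≤ D) (ε : ℝ) (hε : 0 < ε) :
    ∃ β : ℝ, 0 < β ∧ β < 2 ∧ 0 < β * Real.sqrt (2 * k) / D ∧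
      β * Real.sqrt (2 * k) / D < Real.pi ∧
      D * Rw (β * Real.sqrt (2 * k) / D) 0 / β +
      (k * (2 * β * ∫ α in (0 : ℝ)..1, α * Rw (β * Real.sqrt (2 * k) / D) α)) / D ≤
        cc k D + ε := by
  have hk1 : (1 : ℝ) ≤ k := by exact_mod_cast hk
  have hD0 : 0 < D := by linarith
  have hs : 0 < Real.sqrt (2 * k) := Real.sqrt_pos.2 (by positivity)
  have hlt := gam_lt_pi k hk D hD
  have hpos : 0 < 2 * Real.sqrt (2 * k) / D := by positivity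
  set g : ℝ → ℝ := fun β => Real.sqrt (2 * k) * (β * Real.sqrt (2 * k) / D) / 4 +
      Real.sqrt (2 * k) / 2 * Real.cot ((β * Real.sqrt (2 * k) / D) / 2) with hg
  have hsin : Real.sin ((2 * Real.sqrt (2 * k) / D) / 2) ≠ 0 :=
    (Real.sin_pos_of_pos_of_lt_pi (by positivity) (by linarith)).ne'
  have hcont : ContinuousAt g 2 := by
    rw [hg]
    simp only [Real.cot_eq_cos_div_sin]
    refine ContinuousAt.add (by fun_prop) (ContinuousAt.mul continuousAt_const ?_)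
    exact ContinuousAt.div (by fun_prop) (by fun_prop) hsin
  have hg2 : g 2 = cc k D := cc_eq k hk D hD0
  have h1 : ∀ᶠ β in 𝓝 (2 : ℝ), g β < cc k D + ε := by
    have : g 2 < cc k D + ε := by rw [hg2]; linarith
    exact hcont.eventually (gt_mem_nhds this)
  have h2 : ∀ᶠ β in 𝓝[<] (2 : ℝ), g β < cc k D + ε := h1.filter_mono nhdsWithin_le_nhds
  have h3 : ∀ᶠ β in 𝓝[<] (2 : ℝ), β ∈ Set.Ioo (0 : ℝ) 2 := Ioo_mem_nhdsLT (by norm_num)
  obtain ⟨β, hβ1, hβ2⟩ := (h2.and h3).exists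
  have hle : β * Real.sqrt (2 * k) / D < 2 * Real.sqrt (2 * k) / D := by
    have := hβ2.2
    gcongr
  refine ⟨β, hβ2.1, hβ2.2, by have := hβ2.1; positivity, hle.trans hlt, ?_⟩
  rw [C_at k D hD0 hk β hβ2.1 (hle.trans hlt)]
  exact hβ1.le

section many

variable {f : ℕ → ℕ} (ψ : ∀ i, DirichletCharacter ℂ (f i)) (α : ℕ → ℝ)

theorem fam_cc [∀ i, NeZero (f i)] (hψ : ∀ i, (ψ i).IsPrimitive) (hα : ∀ i, 0 ≤ α i) (k : ℕ)
    (hk : 1 ≤ k) (lam : ℕ → ℝ) (hlam : ∀ i < k, 1 ≤ lam i)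
    (hne : ∀ i < k, ∀ j < k, i ≠ j → lam i = lam j → quo (ψ i) (ψ j) ≠ 1 ∨ α j - α i ≠ 0)
    (M : ℕ) (hsq : Squarefree M) (hM : ∀ q : ℕ, Nat.Coprime q M → ∀ i < k, Nat.Coprime q (f i))
    (Φ : (ℂ → ℂ) → ℝ → ℝ) (hΦ : ∀ γ : ℝ, 0 < γ → γ < Real.pi → Per γ Φ) (ε : ℝ) (hε : 0 < ε) :
    ∃ K η X0 : ℝ, 1 ≤ K ∧ 0 < η ∧ 1 ≤ X0 ∧
    ∀ (X Y : ℕ) (T : ℝ), X0 ≤ X → K * X ≤ Y → (Y : ℝ) ≤ (X : ℝ) ^ (1 + η) →
      (Real.log X) ^ 2 ≤ T → T ≤ (X : ℝ) ^ η →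
      primFamM M X Y (fun q χ => Φ (FF k lam (Pool.Agent.T2H62.MQ.G ψ α) q χ) T) ≤
        (cc k (∑ i ∈ Finset.range k, lam i) + ε) *
          primFamM M X Y (fun q χ =>
            (NN (FF k lam (Pool.Agent.T2H62.MQ.G ψ α) q χ) T (2 * T) : ℝ)) := by
  have hD : (k : ℝ) ≤ ∑ i ∈ Finset.range k, lam i := by
    calc (k : ℝ) = ∑ _i ∈ Finset.range k, (1 : ℝ) := by simp
      _ ≤ _ := Finset.sum_le_sum fun i hi => hlam i (Finset.mem_range.1 hi)
  obtain ⟨β, hβ0, hβ2, hγ0, hγπ, hle⟩ := beta_choice k hk _ hD (ε / 2) (by linarith)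
  obtain ⟨K, η, X0, hK, hη, hX0, h⟩ := fam_final ψ α hψ hα k hk lam hlam hne M hsq hM _ β hγ0 hγπ
    hβ0 hβ2 Φ (hΦ _ hγ0 hγπ) (ε / 2) (by linarith)
  refine ⟨K, η, X0, hK, hη, hX0, fun X Y T h1 h2 h3 h4 h5 => (h X Y T h1 h2 h3 h4 h5).trans ?_⟩
  have hnn : 0 ≤ primFamM M X Y (fun q χ =>
      (NN (FF k lam (Pool.Agent.T2H62.MQ.G ψ α) q χ) T (2 * T) : ℝ)) :=
    primFamM_nonneg _ _ _ _ (fun _ _ => Nat.cast_nonneg _)
  refine mul_le_mul_of_nonneg_right ?_ hnn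
  linarith

end many

end Pool.Agent.H63.DZ
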