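import Pool.Agent.H63.DZ.ZOK

/-!
# Dilation of the ordinates of the zeros
-/

set_option autoImplicit false
set_option maxHeartbeats 4000000

open Complex Filter Topology Set MeasureTheory

namespace Pool.Agent.H63.DZ

open H385
open H370 (zset mult NN Nd Ns)
open H343 (hhb PPb AAb norm_hhb)

/-- the homothety with centre `1/2` and ratio `lam` -/
noncomputable def dl (lam : ℝ) (s : ℂ) : ℂ := 1 / 2 + (lam : ℂ) * (s - 1 / 2)

/-- the inverse homothety -/
noncomputable def ud (lam : ℝ) (s : ℂ) : ℂ := 1 / 2 + (s - 1 / 2) / (lam : ℂ)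

/-- `F (1/2 + lam (s - 1/2))` -/
noncomputable def dil (lam : ℝ) (F : ℂ → ℂ) : ℂ → ℂ := fun s => F (dl lam s)

lemma dl_re (lam : ℝ) (s : ℂ) : (dl lam s).re = 1 / 2 + lam * (s.re - 1 / 2) := by
  unfold dl
  rw [add_re, re_ofReal_mul, sub_re]
  norm_num

lemma dl_im (lam : ℝ) (s : ℂ) : (dl lam s).im = lam * s.im := by
  unfold dl
  rw [add_im, im_ofReal_mul, sub_im]
  norm_num

lemma ud_re (lam : ℝ) (s : ℂ) : (ud lam s).re = 1 / 2 + (s.re - 1 / 2) / lam := by
  unfold ud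
  rw [add_re, div_ofReal_re, sub_re]
  norm_num

lemma ud_im (lam : ℝ) (s : ℂ) : (ud lam s).im = s.im / lam := by
  unfold ud
  rw [add_im, div_ofReal_im, sub_im]
  norm_num

lemma dl_ud {lam : ℝ} (h : lam ≠ 0) (s : ℂ) : dl lam (ud lam s) = s := by
  have h' : (lam : ℂ) ≠ 0 := by exact_mod_cast h
  unfold dl ud
  field_simp
  ring

lemma ud_dl {lam : ℝ} (h : lam ≠ 0) (s : ℂ) : ud lam (dl lam s) = s := by
  have h' : (lam : ℂ) ≠ 0 := by exact_mod_cast h
  unfold dl ud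
  field_simp
  ring

lemma ud_inj {lam : ℝ} (h : lam ≠ 0) : Function.Injective (ud lam) := fun a b hab => by
  rw [← dl_ud h a, hab, dl_ud h b]

lemma zz_ud {lam : ℝ} (s : ℂ) : zz (ud lam s) = zz s / lam := by
  unfold zz ud
  ring

lemma dl_refl (lam : ℝ) (s : ℂ) : dl lam (1 - (starRingEnd ℂ) s) = 1 - (starRingEnd ℂ) (dl lam s) := by
  apply Complex.ext
  · rw [dl_re]
    simp only [sub_re, one_re, conj_re, dl_re]
    ring
  · rw [dl_im]
    simp only [sub_im, one_im, conj_im, dl_im]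
    ring

lemma order_dil {lam : ℝ} (h : lam ≠ 0) (F : ℂ → ℂ) (s : ℂ) :
    analyticOrderAt (dil lam F) s = analyticOrderAt F (dl lam s) := by
  have hl : (lam : ℂ) ≠ 0 := by exact_mod_cast h
  have hg : AnalyticAt ℂ (dl lam) s := by
    unfold dl
    exact analyticAt_const.add (analyticAt_const.mul (analyticAt_id.sub analyticAt_const))
  have hd : deriv (dl lam) s ≠ 0 := by
    have : HasDerivAt (dl lam) ((lam : ℂ) * 1) s := by
      unfold dl
      exact (((hasDerivAt_id s).sub_const (1 / 2)).const_mul (lam : ℂ)).const_add (1 / 2)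
    rw [this.deriv, mul_one]
    exact hl
  exact analyticOrderAt_comp_of_deriv_ne_zero (f := F) hg hd

lemma mult_dil {lam : ℝ} (h : lam ≠ 0) (F : ℂ → ℂ) (s : ℂ) :
    mult (dil lam F) s = mult F (dl lam s) := by
  unfold mult analyticOrderNatAt
  rw [order_dil h]

lemma mult_dil_ud {lam : ℝ} (h : lam ≠ 0) (F : ℂ → ℂ) (s : ℂ) :
    mult (dil lam F) (ud lam s) = mult F s := by
  rw [mult_dil h, dl_ud h]

section

variable {lam : ℝ} (hlam : 1 ≤ lam)
include hlam

lemma ZOK.dil {F : ℂ → ℂ} (hF : ZOK F) : ZOK (dil lam F) := by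
  have hl0 : lam ≠ 0 := by linarith
  have hlp : 0 < lam := by linarith
  have hr : ∀ s : ℂ, 1 ≤ s.re → 1 ≤ (dl lam s).re := by
    intro s hs
    rw [dl_re]
    nlinarith
  have hle : ∀ s : ℂ, s.re ≤ 0 → (dl lam s).re ≤ 0 := by
    intro s hs
    rw [dl_re]
    nlinarith
  have hi : ∀ s : ℂ, 1 ≤ s.im → 1 ≤ (dl lam s).im := by
    intro s hs
    rw [dl_im]
    nlinarith
  refine ⟨?_, ?_, ?_, ?_⟩
  · intro s hs
    have h1 : AnalyticAt ℂ F (dl lam s) := hF.an _ (by rw [dl_im]; positivity)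
    have hg : AnalyticAt ℂ (dl lam) s := by
      unfold dl
      exact analyticAt_const.add (analyticAt_const.mul (analyticAt_id.sub analyticAt_const))
    exact AnalyticAt.comp' (f := dl lam) h1 hg
  · exact fun s h1 h2 => hF.nzr _ (hr s h1) (hi s h2)
  · exact fun s h1 h2 => hF.nzl _ (hle s h1) (hi s h2)
  · intro s h1 h2 h3
    rw [order_dil hl0, order_dil hl0, dl_refl]
    have i := hi s h3
    have i2 : (1 - (starRingEnd ℂ) (dl lam s)).im = (dl lam s).im := by simp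
    have i3 : (1 - (starRingEnd ℂ) (dl lam s)).re = 1 - (dl lam s).re := by simp
    by_cases c1 : (dl lam s).re ≤ 0
    · rw [(hF.an _ (by rw [i2]; linarith)).analyticOrderAt_eq_zero.2
        (hF.nzr _ (by rw [i3]; linarith) (by rw [i2]; exact i)),
        (hF.an _ (by linarith)).analyticOrderAt_eq_zero.2 (hF.nzl _ c1 i)]
    · by_cases c2 : 1 ≤ (dl lam s).re
      · rw [(hF.an _ (by rw [i2]; linarith)).analyticOrderAt_eq_zero.2
          (hF.nzl _ (by rw [i3]; linarith) (by rw [i2]; exact i)),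
          (hF.an _ (by linarith)).analyticOrderAt_eq_zero.2 (hF.nzr _ c2 i)]
      · push Not at c1 c2
        exact hF.symm _ c1 c2 i

lemma zset_dil {F : ℂ → ℂ} (hF : ZOK F) {T1 T2 : ℝ} (hT : 1 ≤ T1) :
    zset (dil lam F) T1 T2 = ud lam '' zset F (lam * T1) (lam * T2) := by
  have hl0 : lam ≠ 0 := by linarith
  have hlp : 0 < lam := by linarith
  ext s
  constructor
  · rintro ⟨h1, h2, h3, h4, h5⟩
    refine ⟨dl lam s, ?_, ud_dl hl0 s⟩
    have i1 : 1 ≤ (dl lam s).im := by rw [dl_im]; nlinarith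
    refine ⟨?_, ?_, ?_, ?_, h5⟩
    · by_contra hc
      exact hF.nzl _ (not_lt.1 hc) i1 h5
    · by_contra hc
      exact hF.nzr _ (not_lt.1 hc) i1 h5
    · rw [dl_im]
      exact mul_lt_mul_of_pos_left h3 hlp
    · rw [dl_im]
      exact mul_le_mul_of_nonneg_left h4 hlp.le
  · rintro ⟨z, ⟨h1, h2, h3, h4, h5⟩, rfl⟩
    refine ⟨?_, ?_, ?_, ?_, ?_⟩
    · rw [ud_re]
      have : -(1 / 2) < (z.re - 1 / 2) / lam := by
        rw [lt_div_iff₀ hlp]
        nlinarith
      linarith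
    · rw [ud_re]
      have : (z.re - 1 / 2) / lam < 1 / 2 := by
        rw [div_lt_iff₀ hlp]
        nlinarith
      linarith
    · rw [ud_im, lt_div_iff₀ hlp, mul_comm]
      exact h3
    · rw [ud_im, div_le_iff₀ hlp, mul_comm]
      exact h4
    · unfold DZ.dil
      rw [dl_ud hl0]
      exact h5

lemma zsum_dil {F : ℂ → ℂ} (hF : ZOK F) {T1 T2 : ℝ} (hT : 1 ≤ T1) (f : ℂ → ℂ) :
    ∑ᶠ s ∈ zset (dil lam F) T1 T2, (mult (dil lam F) s : ℂ) * f s =
      ∑ᶠ s ∈ zset F (lam * T1) (lam * T2), (mult F s : ℂ) * f (ud lam s) := by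
  have hl0 : lam ≠ 0 := by linarith
  rw [zset_dil hlam hF hT, finsum_mem_image (ud_inj hl0).injOn]
  simp_rw [mult_dil_ud hl0]

lemma NN_dil {F : ℂ → ℂ} (hF : ZOK F) {T1 T2 : ℝ} (hT : 1 ≤ T1) :
    NN (dil lam F) T1 T2 = NN F (lam * T1) (lam * T2) := by
  have hl0 : lam ≠ 0 := by linarith
  unfold NN
  rw [zset_dil hlam hF hT, finsum_mem_image (ud_inj hl0).injOn]
  simp_rw [mult_dil_ud hl0]

lemma A1_dil {F : ℂ → ℂ} (hF : ZOK F) {V1 V2 : ℝ} (hV : 1 ≤ V1) (u m : ℝ) :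
    A1 (dil lam F) V1 V2 u m = AAb (2 / lam ^ 2) F (lam * V1) (lam * V2) (u / lam) (lam * m) := by
  have hl0 : (lam : ℂ) ≠ 0 := by
    have : lam ≠ 0 := by linarith
    exact_mod_cast this
  unfold A1 AAb
  rw [zsum_dil hlam hF hV (fun s => cexp (I * u * zz s) * cexp (-(zz s - m) ^ 2))]
  congr 1
  funext s
  congr 1
  funext _
  congr 1
  rw [zz_ud]
  unfold hhb zz
  push_cast
  congr 1
  · congr 1
    field_simp
    linear_combination (-(u : ℂ) * (2 * s - 1)) * I_sq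
  · congr 1
    field_simp
    linear_combination (-(2 * s - 1) ^ 2 - (2 * lam * m : ℂ) ^ 2) * I_sq

end

end Pool.Agent.H63.DZ
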