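import Pool.Agent.H63.DZ.EFG
import Pool.Graph.R_seed8.H385R2.PerChi

/-!
# The explicit formula with fixed end points
-/

set_option autoImplicit false
set_option maxHeartbeats 4000000

open Complex Filter Topology Set MeasureTheory

namespace Pool.Agent.H63.DZ

open H385
open H370 (zset mult NN Nd Ns)
open H343 (hhb PPb AAb norm_hhb)

lemma zset_split (F : ℂ → ℂ) {U1 U2 U3 : ℝ} (h1 : U1 ≤ U2) (h2 : U2 ≤ U3) :
    zset F U1 U3 = zset F U1 U2 ∪ zset F U2 U3 := by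
  ext s
  constructor
  · rintro ⟨a, b, c, d, e⟩
    rcases le_or_gt s.im U2 with h | h
    · exact Or.inl ⟨a, b, c, h, e⟩
    · exact Or.inr ⟨a, b, h, d, e⟩
  · rintro (⟨a, b, c, d, e⟩ | ⟨a, b, c, d, e⟩)
    · exact ⟨a, b, c, d.trans h2, e⟩
    · exact ⟨a, b, lt_of_le_of_lt h1 c, d, e⟩

lemma zset_disj (F : ℂ → ℂ) (U1 U2 U3 : ℝ) : Disjoint (zset F U1 U2) (zset F U2 U3) := by
  rw [Set.disjoint_left]
  rintro s ⟨_, _, _, d, _⟩ ⟨_, _, c, _, _⟩
  linarith

lemma AAb_split (b : ℝ) (F : ℂ → ℂ) {U1 U2 U3 : ℝ} (h1 : U1 ≤ U2) (h2 : U2 ≤ U3)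
    (f1 : (zset F U1 U2).Finite) (f2 : (zset F U2 U3).Finite) (u t : ℝ) :
    AAb b F U1 U3 u t = AAb b F U1 U2 u t + AAb b F U2 U3 u t := by
  unfold AAb
  rw [zset_split F h1 h2, finsum_mem_union (zset_disj F U1 U2 U3) f1 f2]

lemma norm_AAb_le (b : ℝ) (hb : 0 < b) (F : ℂ → ℂ) {U1 U2 u t κ : ℝ} (hu : 0 ≤ u) (hκ : 0 ≤ κ)
    (hfin : (zset F U1 U2).Finite) (h : ∀ s ∈ zset F U1 U2, κ ≤ |s.im - t|) :
    ‖AAb b F U1 U2 u t‖ ≤ NN F U1 U2 * (Real.exp (u / 2) * Real.exp (b / 2 - b * κ ^ 2 / 2)) := by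
  unfold AAb NN
  rw [finsum_mem_eq_finite_toFinset_sum _ hfin, finsum_mem_eq_finite_toFinset_sum _ hfin]
  push_cast
  rw [Finset.sum_mul]
  refine norm_sum_le_of_le _ fun s hs => ?_
  rw [Set.Finite.mem_toFinset] at hs
  rw [norm_mul, Complex.norm_natCast]
  refine mul_le_mul_of_nonneg_left ?_ (Nat.cast_nonneg _)
  have e : s = ⟨s.re, s.im⟩ := by apply Complex.ext <;> rfl
  have h2 := h s hs
  rw [e, norm_hhb]
  obtain ⟨a1, a2, _, _, _⟩ := hs
  refine mul_le_mul ?_ ?_ (Real.exp_pos _).le (Real.exp_pos _).le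
  · apply Real.exp_le_exp.2
    nlinarith
  · apply Real.exp_le_exp.2
    have h3 : κ ^ 2 ≤ (s.im - t) ^ 2 := by
      rw [← sq_abs (s.im - t)]
      exact pow_le_pow_left₀ hκ h2 2
    have h4 : (s.re - 1 / 2) ^ 2 ≤ 1 := by nlinarith
    have h5 := mul_le_mul_of_nonneg_left h3 hb.le
    have h6 := mul_le_mul_of_nonneg_left h4 hb.le
    nlinarith

theorem AAb_fixed (b : ℝ) (hb : 0 < b) (mu : ℝ) (hmu : 1 ≤ mu) (d A : ℝ) (hd : 1 ≤ d) (hA : 1 ≤ A) :
    ∃ C : ℝ, 0 < C ∧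
    ∀ (Q : ℝ) (F : ℂ → ℂ) (a : ℕ → ℂ), 1 ≤ Q →
    GoodD d A Q F a → ∀ T κ : ℝ, 3 ≤ κ → 8 * κ ≤ T → mu ≤ κ →
      ∀ u m : ℝ, 0 ≤ u → T - 3 * κ + mu + κ ≤ m → m ≤ 2 * T + 3 * κ - mu - κ →
        ‖AAb b F (T - 3 * κ + mu) (2 * T + 3 * κ - mu) u m -
          (Real.sqrt (2 * Real.pi / b) / (2 * Real.pi) : ℝ) *
          (((d * Real.log (Q * T) : ℝ) : ℂ) * cexp (I * m * u) * Real.exp (-u ^ 2 / (2 * b))
            - PPb b a u m)‖ ≤
        C * (Real.exp (-u) + (Real.log (Q * T)) ^ 2 * Real.exp (u - b * κ ^ 2 / 4)) := by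
  obtain ⟨C1, hC1, h1⟩ := AAb_formula_D b hb d A hd hA
  obtain ⟨C0, hC0, h0⟩ := zcount_long_D d A hd hA
  refine ⟨C1 + 3 * (C0 * (mu + 1)) * Real.exp (b / 2), by positivity, ?_⟩
  intro Q F a hQ hF T κ hκ hT hmuκ u m hu hm1 hm2
  obtain ⟨W1, W2, w1, w2, w3, w4, hW⟩ := h1 Q F a hQ hF T κ hκ hT
  have hT24 : 24 ≤ T := by linarith
  have hQT : 24 ≤ Q * T := by nlinarith
  obtain ⟨L, hL⟩ : ∃ L, L = Real.log (Q * T) := ⟨_, rfl⟩
  have hL1 : 1 ≤ L := by
    rw [hL, Real.le_log_iff_exp_le (by positivity)]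
    have := Real.exp_one_lt_d9
    linarith
  have hmain := hW u m hu (by linarith) (by linarith)
  have f1 : (zset F W1 (T - 3 * κ + mu)).Finite := zset_finite_D hA hQ hF _ _ (by linarith)
  have f2 : (zset F (T - 3 * κ + mu) (2 * T + 3 * κ - mu)).Finite :=
    zset_finite_D hA hQ hF _ _ (by linarith)
  have f3 : (zset F (2 * T + 3 * κ - mu) W2).Finite := zset_finite_D hA hQ hF _ _ (by linarith)
  have f12 : (zset F W1 (2 * T + 3 * κ - mu)).Finite := zset_finite_D hA hQ hF _ _ (by linarith)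
  have e1 := AAb_split b F (U1 := W1) (U2 := 2 * T + 3 * κ - mu) (U3 := W2) (by linarith) (by linarith)
    f12 f3 u m
  have e2 := AAb_split b F (U1 := W1) (U2 := T - 3 * κ + mu) (U3 := 2 * T + 3 * κ - mu)
    (by linarith) (by linarith) f1 f2 u m
  have n1 := norm_AAb_le b hb F (U1 := W1) (U2 := T - 3 * κ + mu) (u := u) (t := m) (κ := κ) hu
    (by linarith) f1 (fun s hs => by
      obtain ⟨_, _, _, h4, _⟩ := hs
      rw [abs_sub_comm, le_abs]
      left; linarith)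
  have n2 := norm_AAb_le b hb F (U1 := 2 * T + 3 * κ - mu) (U2 := W2) (u := u) (t := m) (κ := κ) hu
    (by linarith) f3 (fun s hs => by
      obtain ⟨_, _, h4, _, _⟩ := hs
      rw [le_abs]
      left; linarith)
  have hE0 : 0 ≤ Real.exp (u / 2) * Real.exp (b / 2 - b * κ ^ 2 / 2) := by positivity
  have c1 : (NN F W1 (T - 3 * κ + mu) : ℝ) ≤ C0 * (mu + 1) * L := by
    have g1 : (NN F W1 (T - 3 * κ + mu) : ℝ) ≤ NN F (T - 3 * κ) (T - 3 * κ + (mu + 1)) := by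
      exact_mod_cast LocD.NN_mono hA hQ hF (by linarith) w1 (by linarith)
    refine g1.trans ((h0 Q F a hQ hF _ _ (by linarith) (by linarith)).trans ?_)
    have g2 : T - 3 * κ + (mu + 1) - (T - 3 * κ) = mu + 1 := by ring
    rw [g2, hL]
    apply mul_le_mul_of_nonneg_left _ (by positivity)
    apply Real.log_le_log
    · apply mul_pos <;> linarith
    · apply mul_le_mul_of_nonneg_left _ (by linarith)
      linarith
  have c2 : (NN F (2 * T + 3 * κ - mu) W2 : ℝ) ≤ C0 * (mu + 1) * (2 * L) := by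
    have g1 : (NN F (2 * T + 3 * κ - mu) W2 : ℝ) ≤
        NN F (2 * T + 3 * κ - (mu + 1)) (2 * T + 3 * κ) := by
      exact_mod_cast LocD.NN_mono hA hQ hF (by linarith) (by linarith) w4
    refine g1.trans ((h0 Q F a hQ hF _ _ (by linarith) (by linarith)).trans ?_)
    have g2 : 2 * T + 3 * κ - (2 * T + 3 * κ - (mu + 1)) = mu + 1 := by ring
    rw [g2, hL]
    apply mul_le_mul_of_nonneg_left _ (by positivity)
    exact PerChi.log_bd hQ (by linarith) (by linarith) (by linarith)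
  have hee : Real.exp (u / 2) * Real.exp (b / 2 - b * κ ^ 2 / 2) ≤
      Real.exp (b / 2) * Real.exp (u - b * κ ^ 2 / 4) := by
    rw [← Real.exp_add, ← Real.exp_add]
    apply Real.exp_le_exp.2
    have : 0 ≤ b * κ ^ 2 := by positivity
    linarith
  have hLL : L ≤ L ^ 2 := by nlinarith
  have key : ‖AAb b F (T - 3 * κ + mu) (2 * T + 3 * κ - mu) u m -
          (Real.sqrt (2 * Real.pi / b) / (2 * Real.pi) : ℝ) *
          (((d * L : ℝ) : ℂ) * cexp (I * m * u) * Real.exp (-u ^ 2 / (2 * b))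
            - PPb b a u m)‖ ≤
      C1 * (Real.exp (-u) + L ^ 2 * Real.exp (u - b * κ ^ 2 / 4)) +
        3 * (C0 * (mu + 1)) * Real.exp (b / 2) * (L ^ 2 * Real.exp (u - b * κ ^ 2 / 4)) := by
    have e3 : AAb b F (T - 3 * κ + mu) (2 * T + 3 * κ - mu) u m =
        AAb b F W1 W2 u m - AAb b F W1 (T - 3 * κ + mu) u m -
          AAb b F (2 * T + 3 * κ - mu) W2 u m := by
      rw [e1, e2]; ring
    rw [e3]
    have e4 : AAb b F W1 W2 u m - AAb b F W1 (T - 3 * κ + mu) u m -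
          AAb b F (2 * T + 3 * κ - mu) W2 u m -
          (Real.sqrt (2 * Real.pi / b) / (2 * Real.pi) : ℝ) *
          (((d * L : ℝ) : ℂ) * cexp (I * m * u) * Real.exp (-u ^ 2 / (2 * b))
            - PPb b a u m) =
        (AAb b F W1 W2 u m - (Real.sqrt (2 * Real.pi / b) / (2 * Real.pi) : ℝ) *
          (((d * L : ℝ) : ℂ) * cexp (I * m * u) * Real.exp (-u ^ 2 / (2 * b))
            - PPb b a u m)) - AAb b F W1 (T - 3 * κ + mu) u m -
          AAb b F (2 * T + 3 * κ - mu) W2 u m := by ring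
    rw [e4]
    refine (norm_sub_le _ _).trans ((add_le_add (norm_sub_le _ _) le_rfl).trans ?_)
    rw [← hL] at hmain
    have p1 : ‖AAb b F W1 (T - 3 * κ + mu) u m‖ ≤
        (C0 * (mu + 1)) * Real.exp (b / 2) * (L ^ 2 * Real.exp (u - b * κ ^ 2 / 4)) := by
      refine n1.trans ?_
      calc (NN F W1 (T - 3 * κ + mu) : ℝ) * (Real.exp (u / 2) * Real.exp (b / 2 - b * κ ^ 2 / 2)) ≤
          (C0 * (mu + 1) * L ^ 2) * (Real.exp (b / 2) * Real.exp (u - b * κ ^ 2 / 4)) := by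
            apply mul_le_mul _ hee hE0 (by positivity)
            refine c1.trans ?_
            exact mul_le_mul_of_nonneg_left hLL (by positivity)
        _ = _ := by ring
    have p2 : ‖AAb b F (2 * T + 3 * κ - mu) W2 u m‖ ≤
        2 * (C0 * (mu + 1)) * Real.exp (b / 2) * (L ^ 2 * Real.exp (u - b * κ ^ 2 / 4)) := by
      refine n2.trans ?_
      calc (NN F (2 * T + 3 * κ - mu) W2 : ℝ) * (Real.exp (u / 2) * Real.exp (b / 2 - b * κ ^ 2 / 2)) ≤
          (C0 * (mu + 1) * (2 * L ^ 2)) * (Real.exp (b / 2) * Real.exp (u - b * κ ^ 2 / 4)) := by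
            apply mul_le_mul _ hee hE0 (by positivity)
            refine c2.trans ?_
            exact mul_le_mul_of_nonneg_left (by linarith) (by positivity)
        _ = _ := by ring
    linarith
  rw [← hL]
  refine key.trans ?_
  have q1 : 0 ≤ 3 * (C0 * (mu + 1)) * Real.exp (b / 2) * Real.exp (-u) := by positivity
  linarith

end Pool.Agent.H63.DZ
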