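import Pool.Agent.H63.DZ.MS4

/-!
The mean square hypothesis for a product of dilated functions: conclusion.
-/

open Complex Filter Topology Set MeasureTheory
open H385

set_option maxHeartbeats 4000000

namespace Pool.Agent.H63.DZ

/-- mean square hypothesis for the family -/
def HYG (M : ℕ) (G : Finset ℝ) (c : ℝ → ℕ → ℂ) (γ β c' : ℝ) : Prop := ∀ ε : ℝ, 0 < ε →
  ∃ K η X0 : ℝ, 1 ≤ K ∧ 0 < η ∧ 1 ≤ X0 ∧
  ∀ (X Y : ℕ) (T : ℝ), X0 ≤ X → K * X ≤ Y → (Y : ℝ) ≤ (X : ℝ) ^ (1 + η) →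
    (Real.log X) ^ 2 ≤ T → T ≤ (X : ℝ) ^ η →
  ∃ (Yf : ℝ → ℝ) (y1 y2 : ℝ), 0 ≤ y1 ∧ 0 ≤ y2 ∧
    (∀ u ∈ Set.Icc 0 (β * Real.log X), ∫ t : ℝ, primFamM M X Y (fun q χ =>
      ‖∑' n : ℕ, χ (n : ZMod q) * (ArithmeticFunction.vonMangoldt n : ℂ) *
          bG G c T u t n‖ ^ 2) ≤ Yf u) ∧
    (∀ u ∈ Set.Icc 0 (β * Real.log X), Yf u ≤ T * (y1 * (u + 1) + y2)) ∧
    IntervalIntegrable Yf volume 0 (β * Real.log X) ∧
    (2 / (Real.sqrt Real.pi * (β * Real.log X))) * (∫ u in (0 : ℝ)..(β * Real.log X),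
      Rw γ (u / (β * Real.log X)) * Yf u) ≤
      T / (2 * Real.pi) * Real.log X * WM M X Y * (c' + ε) ∧
    Real.sqrt y1 + Real.sqrt y2 ≤ ε * Real.log X * Real.sqrt (WM M X Y)

section groups

variable {G : Finset ℝ} {c : ℝ → ℕ → ℂ}

/-- the bounding function -/
noncomputable def YG (G : Finset ℝ) (c : ℝ → ℕ → ℂ) (D1 T B C : ℝ) (P X Y : ℕ) (u : ℝ) : ℝ :=
  D1 * (T / (2 * Real.pi) * (∑ lam ∈ G, SWD (c lam) lam u) + B * T) +
    2 * T * (C * ∑ lam ∈ G, Err P X Y (u / lam))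

lemma YG_cont {m : ℝ → ℝ} (hG : ∀ lam ∈ G, 1 ≤ lam) (hS : ∀ lam ∈ G, SelM (c lam) (m lam))
    (D1 T B C : ℝ) (P X Y : ℕ) : Continuous (YG G c D1 T B C P X Y) := by
  unfold YG
  have h1 : Continuous (fun u => ∑ lam ∈ G, SWD (c lam) lam u) :=
    continuous_finsetSum _ fun lam hl => ((hS lam hl).swd (hG lam hl)).2.2.2.1
  have h2 : Continuous (fun u => ∑ lam ∈ G, Err P X Y (u / lam)) :=
    continuous_finsetSum _ fun lam _ => (Err_cont P X Y).comp (continuous_id.div_const lam)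
  exact (continuous_const.mul ((continuous_const.mul h1).add continuous_const)).add
    (continuous_const.mul (continuous_const.mul h2))

theorem YG_integral {m : ℝ → ℝ} (hG : ∀ lam ∈ G, 1 ≤ lam) (hS : ∀ lam ∈ G, SelM (c lam) (m lam))
    (γ : ℝ) (h0 : 0 < γ) (hπ : γ < Real.pi) (D1 T B C Λ : ℝ) (P X Y : ℕ)
    (hD : 0 ≤ D1) (hT : 0 ≤ T) (hB : 0 ≤ B) (hC : 0 ≤ C) (hΛ : 0 < Λ) (hX : 1 ≤ X) (hXY : X ≤ Y) :
    ∫ u in (0 : ℝ)..Λ, Rw γ (u / Λ) * YG G c D1 T B C P X Y u ≤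
      D1 * (T / (2 * Real.pi)) * (∑ lam ∈ G, ∫ u in (0 : ℝ)..Λ, Rw γ (u / Λ) * SWD (c lam) lam u) +
      Rw γ 0 * (D1 * B * T * Λ + 2 * T * (C * ∑ lam ∈ G, lam *
        ∫ u in (0 : ℝ)..Λ, Err P X Y u)) := by
  have hR := Rw_cont γ h0 hπ
  have hRΛ : Continuous (fun u : ℝ => Rw γ (u / Λ)) := hR.comp (continuous_id.div_const Λ)
  have hSc : ∀ lam ∈ G, Continuous (SWD (c lam) lam) := fun lam hl =>
    ((hS lam hl).swd (hG lam hl)).2.2.2.1
  have hRS : ∀ lam ∈ G, Continuous (fun u : ℝ => Rw γ (u / Λ) * SWD (c lam) lam u) :=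
    fun lam hl => hRΛ.mul (hSc lam hl)
  have hRSs : Continuous (fun u : ℝ => ∑ lam ∈ G, Rw γ (u / Λ) * SWD (c lam) lam u) :=
    continuous_finsetSum _ hRS
  set E : ℝ → ℝ := fun u => D1 * B * T + 2 * T * (C * ∑ lam ∈ G, Err P X Y (u / lam)) with hE
  have hEs : Continuous (fun u => ∑ lam ∈ G, Err P X Y (u / lam)) :=
    continuous_finsetSum _ fun lam _ => (Err_cont P X Y).comp (continuous_id.div_const lam)
  have hEc : Continuous E := continuous_const.add (continuous_const.mul (continuous_const.mul hEs))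
  have hE0 : ∀ u, 0 ≤ E u := by
    intro u
    have : 0 ≤ ∑ lam ∈ G, Err P X Y (u / lam) :=
      Finset.sum_nonneg fun lam _ => Err_nonneg P X Y hX hXY _
    rw [hE]; positivity
  have h1 : ∫ u in (0 : ℝ)..Λ, Rw γ (u / Λ) * YG G c D1 T B C P X Y u ≤
      ∫ u in (0 : ℝ)..Λ, (D1 * (T / (2 * Real.pi)) *
        (∑ lam ∈ G, Rw γ (u / Λ) * SWD (c lam) lam u) + Rw γ 0 * E u) := by
    refine intervalIntegral.integral_mono_on hΛ.le ?_ ?_ (fun u hu => ?_)
    · exact (hRΛ.mul (YG_cont hG hS _ _ _ _ _ _ _)).intervalIntegrable _ _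
    · exact ((hRSs.const_mul _).add (hEc.const_mul _)).intervalIntegrable _ _
    · have h2 : YG G c D1 T B C P X Y u = D1 * (T / (2 * Real.pi)) *
          (∑ lam ∈ G, SWD (c lam) lam u) + E u := by
        rw [hE]; unfold YG; ring
      rw [h2]
      have h3 : Rw γ (u / Λ) * E u ≤ Rw γ 0 * E u :=
        mul_le_mul_of_nonneg_right (Rw_le γ h0 hπ _ (div_nonneg hu.1 hΛ.le)) (hE0 u)
      have h4 : ∑ lam ∈ G, Rw γ (u / Λ) * SWD (c lam) lam u =
          Rw γ (u / Λ) * ∑ lam ∈ G, SWD (c lam) lam u := by rw [Finset.mul_sum]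
      rw [h4]
      nlinarith
  refine h1.trans ?_
  rw [intervalIntegral.integral_add ((hRSs.const_mul _).intervalIntegrable _ _)
    ((hEc.const_mul _).intervalIntegrable _ _), intervalIntegral.integral_const_mul,
    intervalIntegral.integral_const_mul]
  have e1 : ∫ u in (0 : ℝ)..Λ, ∑ lam ∈ G, Rw γ (u / Λ) * SWD (c lam) lam u =
      ∑ lam ∈ G, ∫ u in (0 : ℝ)..Λ, Rw γ (u / Λ) * SWD (c lam) lam u :=
    intervalIntegral.integral_finsetSum fun lam hl => (hRS lam hl).intervalIntegrable _ _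
  rw [e1]
  have i3 : IntervalIntegrable (fun u : ℝ => 2 * T * (C * ∑ lam ∈ G, Err P X Y (u / lam)))
      volume 0 Λ := (continuous_const.mul (continuous_const.mul hEs)).intervalIntegrable _ _
  have e2 : ∫ u in (0 : ℝ)..Λ, E u = D1 * B * T * Λ + 2 * T * (C * ∑ lam ∈ G,
      ∫ u in (0 : ℝ)..Λ, Err P X Y (u / lam)) := by
    rw [hE, intervalIntegral.integral_add (continuous_const.intervalIntegrable _ _) i3,
      intervalIntegral.integral_const, intervalIntegral.integral_const_mul,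
      intervalIntegral.integral_const_mul, intervalIntegral.integral_finsetSum]
    · simp only [smul_eq_mul, sub_zero]
      ring
    · intro lam _
      exact ((Err_cont P X Y).comp (continuous_id.div_const lam)).intervalIntegrable _ _
  rw [e2]
  refine add_le_add le_rfl (mul_le_mul_of_nonneg_left ?_ (Rw_nonneg γ h0 hπ 0))
  refine add_le_add le_rfl (mul_le_mul_of_nonneg_left ?_ (by positivity))
  refine mul_le_mul_of_nonneg_left ?_ hC
  refine Finset.sum_le_sum fun lam hl => ?_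
  exact Err_dil P X Y hX hXY (hG lam hl) hΛ.le

theorem HYG_of (M : ℕ) (hM : Squarefree M) (d : ℝ) (hd : 1 ≤ d) (hG : ∀ lam ∈ G, 1 ≤ lam)
    (hc : ∀ lam ∈ G, ∀ n, ‖c lam n‖ ≤ d) {m : ℝ → ℝ} (hS : ∀ lam ∈ G, SelM (c lam) (m lam))
    (γ β : ℝ) (h0 : 0 < γ) (hπ : γ < Real.pi) (hβ : 0 < β) (hβ2 : β < 2) :
    HYG M G c γ β ((∑ lam ∈ G, m lam) * (2 * β * (∫ α in (0 : ℝ)..1, α * Rw γ α))) := by
  intro ε hε
  set I1 : ℝ := ∫ α in (0 : ℝ)..1, α * Rw γ α with hI1
  have hI1n : 0 ≤ I1 := I1_nonneg γ h0 hπ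
  set R0 : ℝ := Rw γ 0 with hR0
  have hR0n : 0 ≤ R0 := Rw_nonneg γ h0 hπ 0
  have hpi := Real.pi_pos
  have hspi : 0 < Real.sqrt Real.pi := Real.sqrt_pos.mpr hpi
  have hspi2 : Real.sqrt Real.pi * Real.sqrt Real.pi = Real.pi := Real.mul_self_sqrt hpi.le
  have hc0 := cM_pos M hM
  set kk : ℝ := ∑ lam ∈ G, m lam with hkk
  have hm0 : ∀ lam ∈ G, 0 ≤ m lam := fun lam hl => by
    obtain ⟨_, _, _, h, _⟩ := hS lam hl
    exact h
  have hkk0 : 0 ≤ kk := Finset.sum_nonneg hm0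
  -- constants of the groups
  have hs6 := fun (lam : ℝ) (hl : lam ∈ G) => ((hS lam hl).swd (hG lam hl)).2.2.1
  choose! C6 hC6 h6 using hs6
  have hs10 := fun (lam : ℝ) (hl : lam ∈ G) => ((hS lam hl).swd (hG lam hl)).2.2.2.2 γ h0 hπ
  choose! C10 hC10 h10 using hs10
  obtain ⟨S6, hS6⟩ : ∃ x, x = ∑ lam ∈ G, C6 lam := ⟨_, rfl⟩
  obtain ⟨S10, hS10⟩ : ∃ x, x = ∑ lam ∈ G, C10 lam := ⟨_, rfl⟩
  obtain ⟨Sl, hSl⟩ : ∃ x, x = ∑ lam ∈ G, lam := ⟨_, rfl⟩
  have hS60 : 0 ≤ S6 := by rw [hS6]; exact Finset.sum_nonneg fun lam hl => (hC6 lam hl).le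
  have hS100 : 0 ≤ S10 := by rw [hS10]; exact Finset.sum_nonneg fun lam hl => (hC10 lam hl).le
  have hSl0 : 0 ≤ Sl := by
    rw [hSl]; exact Finset.sum_nonneg fun lam hl => by linarith [hG lam hl]
  have hcard : (G.card : ℝ) ≤ Sl := by
    rw [hSl]
    calc (G.card : ℝ) = ∑ _lam ∈ G, (1 : ℝ) := by simp
      _ ≤ _ := Finset.sum_le_sum fun lam hl => hG lam hl
  -- choice of ε1
  obtain ⟨ε1, hε1, hε1', hε1b⟩ : ∃ ε1 : ℝ, 0 < ε1 ∧ ε1 ≤ 1 ∧ 22 * ε1 * (kk * (β * I1)) ≤ ε / 4 := by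
    refine ⟨min 1 (ε / (88 * (kk * (β * I1) + 1))), by positivity, min_le_left _ _, ?_⟩
    have h1 := min_le_right 1 (ε / (88 * (kk * (β * I1) + 1)))
    have h2 : 0 ≤ kk * (β * I1) := by positivity
    calc 22 * min 1 (ε / (88 * (kk * (β * I1) + 1))) * (kk * (β * I1)) ≤
        22 * (ε / (88 * (kk * (β * I1) + 1))) * (kk * (β * I1)) := by gcongr
      _ = ε / 4 * (kk * (β * I1) / (kk * (β * I1) + 1)) := by field_simp; ring
      _ ≤ ε / 4 * 1 := by
        refine mul_le_mul_of_nonneg_left ?_ (by positivity)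
        rw [div_le_one (by positivity)]; linarith
      _ = ε / 4 := mul_one _
  obtain ⟨C, P, hC, hP, hms⟩ := msG_int M hM d hd hG hc hS ε1 hε1 hε1'
  obtain ⟨B, hB⟩ : ∃ B : ℝ, B = C * (β + 2) := ⟨_, rfl⟩
  have hB0 : 0 < B := by rw [hB]; positivity
  set C12 : ℝ := 2 * S10 / Real.sqrt Real.pi + 4 * Real.sqrt Real.pi * R0 * B with hC12
  have hC12n : 0 ≤ C12 := by positivity
  -- choice of δ
  obtain ⟨δ, hδ, hδa, hδb⟩ : ∃ δ : ℝ, 0 < δ ∧ 2 * C * Sl * δ ≤ (ε / 2) ^ 2 ∧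
      4 * R0 * C * Sl / (Real.sqrt Real.pi * β) * δ ≤ 1 / (2 * Real.pi) * (ε / 4) := by
    refine ⟨min ((ε / 2) ^ 2 / (2 * C * Sl + 1)) (1 / (2 * Real.pi) * (ε / 4) /
      (4 * R0 * C * Sl / (Real.sqrt Real.pi * β) + 1)), by positivity, ?_, ?_⟩
    · have h1 := min_le_left ((ε / 2) ^ 2 / (2 * C * Sl + 1)) (1 / (2 * Real.pi) * (ε / 4) /
        (4 * R0 * C * Sl / (Real.sqrt Real.pi * β) + 1))
      have h2 : 0 ≤ 2 * C * Sl := by positivity
      refine (mul_le_mul_of_nonneg_left h1 h2).trans ?_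
      rw [mul_div_assoc', div_le_iff₀ (by positivity)]
      nlinarith [sq_nonneg (ε / 2)]
    · have h1 := min_le_right ((ε / 2) ^ 2 / (2 * C * Sl + 1)) (1 / (2 * Real.pi) * (ε / 4) /
        (4 * R0 * C * Sl / (Real.sqrt Real.pi * β) + 1))
      have h2 : 0 ≤ 4 * R0 * C * Sl / (Real.sqrt Real.pi * β) := by positivity
      refine (mul_le_mul_of_nonneg_left h1 h2).trans ?_
      rw [mul_div_assoc', div_le_iff₀ (by positivity)]
      have h3 : 0 < 1 / (2 * Real.pi) * (ε / 4) := by positivity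
      nlinarith
  obtain ⟨K, L0, hK, hL0, herr⟩ := err_bound M hM β hβ P hP δ hδ
  obtain ⟨C4, hC4, hmass⟩ := prim_mass_M M hM
  obtain ⟨L1, hL1⟩ := Filter.eventually_atTop.mp (Tl_le_one β ε1 hβ hβ2 hε1 hε1')
  -- more conditions on L
  have hev : ∀ᶠ L : ℝ in atTop, 1 ≤ L ∧ C ≤ L ∧ Sl ≤ β * L ∧ 12 * C12 ≤ ε / 4 * L ∧
      12 * (S6 + B) ≤ (ε / 2) ^ 2 * L := by
    filter_upwards [eventually_ge_atTop 1, eventually_ge_atTop C, lin_ev Sl β hβ,
      lin_ev (12 * C12) (ε / 4) (by positivity),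
      lin_ev (12 * (S6 + B)) ((ε / 2) ^ 2) (by positivity)] with L a1 a2 a3 a4 a5
    exact ⟨a1, a2, a3, a4, a5⟩
  obtain ⟨L2, hL2⟩ := Filter.eventually_atTop.mp hev
  refine ⟨max K (Real.exp ((3 * C4 + C) / (ε1 * cM M))), 1,
    Real.exp (max (max (max L0 L1) 1) L2),
    le_max_of_le_left hK, one_pos, Real.one_le_exp (le_max_of_le_left
      (le_max_of_le_right zero_le_one)), ?_⟩
  intro X Y T hX hKX hYX hT1 hT2
  have hXpos : (0 : ℝ) < X := lt_of_lt_of_le (Real.exp_pos _) hX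
  have hX1 : 1 ≤ X := by exact_mod_cast hXpos
  have hLmax : max (max (max L0 L1) 1) L2 ≤ Real.log X := by
    rw [Real.le_log_iff_exp_le hXpos]; exact hX
  have hLm1 : max (max L0 L1) 1 ≤ Real.log X := (le_max_left _ _).trans hLmax
  have hLL0 : L0 ≤ Real.log X := ((le_max_left _ _).trans (le_max_left _ _)).trans hLm1
  have hLL1 : L1 ≤ Real.log X := ((le_max_right _ _).trans (le_max_left _ _)).trans hLm1
  obtain ⟨L, hL⟩ : ∃ L, L = Real.log X := ⟨_, rfl⟩
  obtain ⟨a1, a2, a3, a4, a5⟩ := hL2 (Real.log X) ((le_max_right _ _).trans hLmax)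
  have hXexp : Real.exp L0 ≤ X := by rwa [Real.le_log_iff_exp_le hXpos] at hLL0
  have hKX1 : K * X ≤ Y := (mul_le_mul_of_nonneg_right (le_max_left _ _) hXpos.le).trans hKX
  have hKX2 : Real.exp ((3 * C4 + C) / (ε1 * cM M)) * X ≤ Y :=
    (mul_le_mul_of_nonneg_right (le_max_right _ _) hXpos.le).trans hKX
  have hY2 : (Y : ℝ) ≤ (X : ℝ) ^ (2 : ℕ) := by
    refine hYX.trans (le_of_eq ?_)
    rw [show (1 + 1 : ℝ) = ((2 : ℕ) : ℝ) by norm_num, Real.rpow_natCast]
  have hXYr : (X : ℝ) ≤ Y := NL.b11 hXpos.le hK hKX1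
  have hXY : X ≤ Y := by exact_mod_cast hXYr
  have hYpos : (0 : ℝ) < Y := by linarith
  have hT1' : 1 ≤ T := (one_le_pow₀ a1).trans hT1
  have hTpos : 0 < T := by linarith
  have hT2' : T ≤ Real.exp (Real.log X ^ 2) := by
    refine hT2.trans ?_
    rw [Real.rpow_one]
    calc (X : ℝ) = Real.exp (Real.log X) := (Real.exp_log hXpos).symm
      _ ≤ _ := Real.exp_le_exp.mpr (le_self_pow₀ a1 two_ne_zero)
  set 𝓛 : ℝ := Real.log ((Y : ℝ) / X) with h𝓛
  have h𝓛K : (3 * C4 + C) / (ε1 * cM M) ≤ 𝓛 := by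
    rw [h𝓛, Real.le_log_iff_exp_le (by positivity), le_div_iff₀ hXpos]
    exact hKX2
  have hWlow := (abs_le.mp (hmass X Y hX1 hXY)).1
  have hWlow' : cM M * 𝓛 - C4 ≤ WM M X Y := by
    have : primFamM M X Y (fun _ _ => 1) = WM M X Y := rfl
    rw [this] at hWlow; linarith
  have hWn : 0 ≤ WM M X Y := primFamM_nonneg _ _ _ _ (fun _ _ => zero_le_one)
  set N : ℕ := ⌊ε1 / 8 * (X : ℝ) ^ 2⌋₊ with hN
  set D1 : ℝ := (1 + ε1) * Real.exp (Real.pi * N / (X : ℝ) ^ 2) *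
        (cM M * (1 + ε1) * 𝓛 + C) with hD1
  have h𝓛n : 0 ≤ 𝓛 := le_trans (by positivity) h𝓛K
  have hD1n : 0 ≤ D1 := by positivity
  have hexp : Real.exp (Real.pi * N / (X : ℝ) ^ 2) ≤ 1 + ε1 := by
    have h1 : (N : ℝ) ≤ ε1 / 8 * (X : ℝ) ^ 2 := Nat.floor_le (by positivity)
    have h2 : Real.pi * N / (X : ℝ) ^ 2 ≤ ε1 / 2 := by
      rw [div_le_iff₀ (by positivity)]
      have h3 : Real.pi * N ≤ 4 * (ε1 / 8 * (X : ℝ) ^ 2) :=
        mul_le_mul Real.pi_lt_four.le h1 (by positivity) (by norm_num)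
      linarith
    refine (Real.exp_le_exp.mpr h2).trans ?_
    have h4 := Real.exp_bound_div_one_sub_of_interval (x := ε1 / 2) (by positivity) (by linarith)
    refine h4.trans ?_
    rw [div_le_iff₀ (by linarith)]
    exact NL.c1 hε1 hε1'
  have hD1W : D1 ≤ (1 + 11 * ε1) * WM M X Y := by
    have h1 : cM M * (1 + ε1) * 𝓛 + C ≤ (1 + 2 * ε1) * WM M X Y := by
      have h2 : 3 * C4 + C ≤ ε1 * cM M * 𝓛 := by
        rw [div_le_iff₀ (by positivity)] at h𝓛K; linarith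
      have h3 : (1 + 2 * ε1) * (cM M * 𝓛 - C4) ≤ (1 + 2 * ε1) * WM M X Y :=
        mul_le_mul_of_nonneg_left hWlow' (by linarith)
      have h4 : (1 + 2 * ε1) * (cM M * 𝓛 - C4) = cM M * (1 + ε1) * 𝓛 + ε1 * cM M * 𝓛 -
        (1 + 2 * ε1) * C4 := by ring
      have h5 : (1 + 2 * ε1) * C4 ≤ 3 * C4 := mul_le_mul_of_nonneg_right (by linarith) hC4.le
      linarith
    have h6 : D1 ≤ (1 + ε1) * (1 + ε1) * ((1 + 2 * ε1) * WM M X Y) := by
      rw [hD1]
      refine mul_le_mul ?_ h1 (by positivity) (by positivity)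
      exact mul_le_mul_of_nonneg_left hexp (by linarith)
    refine h6.trans ?_
    have h7 : (1 + ε1) * (1 + ε1) * (1 + 2 * ε1) ≤ 1 + 11 * ε1 := by
      have g1 : ε1 ^ 2 ≤ ε1 := pow_le_of_le_one hε1.le hε1' two_ne_zero
      have g2 : ε1 ^ 3 ≤ ε1 := pow_le_of_le_one hε1.le hε1' three_ne_zero
      have g3 : (1 + ε1) * (1 + ε1) * (1 + 2 * ε1) = 1 + 4 * ε1 + 5 * ε1 ^ 2 + 2 * ε1 ^ 3 := by ring
      rw [g3]; linarith
    calc _ = ((1 + ε1) * (1 + ε1) * (1 + 2 * ε1)) * WM M X Y := by ring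
      _ ≤ _ := mul_le_mul_of_nonneg_right h7 hWn
  obtain ⟨herr1, herr2⟩ := herr X Y hXexp hKX1 hY2
  have hD12 : D1 ≤ 12 * WM M X Y :=
    hD1W.trans (mul_le_mul_of_nonneg_right (by linarith) hWn)
  rw [← hL] at a1 a2 a3 a4 a5 hT1 hT2' herr1 herr2 hLL1
  obtain ⟨W, hW⟩ : ∃ W, W = WM M X Y := ⟨_, rfl⟩
  rw [← hW] at hD12 herr1 herr2 hD1W hWn ⊢
  rw [← hL]
  have hL0p : 0 < L := by linarith
  have hLambda : 0 < β * L := by positivity
  refine ⟨YG G c D1 T B C P X Y, 12 * W * (S6 + B), 2 * C * Sl * δ * W * L ^ 2, by positivity,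
    by positivity, ?_, ?_, (YG_cont hG hS _ _ _ _ _ _ _).intervalIntegrable _ _, ?_, ?_⟩
  · intro u hu
    refine (hms X Y N T L u hX1 hXY a1 hT1' hT2' hu.1).trans ?_
    rw [← h𝓛, ← hD1]
    unfold YG
    have e1 : C * (L * (u + 1) + T) ≤ B * T := by
      have f1 : L * (u + 1) ≤ (β + 1) * T := by
        calc L * (u + 1) ≤ L * (β * L + 1) := by
              apply mul_le_mul_of_nonneg_left _ hL0p.le
              linarith [hu.2]
          _ = β * L ^ 2 + L := by ring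
          _ ≤ β * L ^ 2 + L ^ 2 := by
              have : L ≤ L ^ 2 := le_self_pow₀ a1 two_ne_zero
              linarith
          _ = (β + 1) * L ^ 2 := by ring
          _ ≤ _ := mul_le_mul_of_nonneg_left hT1 (by linarith)
      rw [hB]
      calc C * (L * (u + 1) + T) ≤ C * ((β + 1) * T + T) := by gcongr
        _ = _ := by ring
    have e2 : T + C ≤ 2 * T := by
      have : L ≤ T := (le_self_pow₀ a1 two_ne_zero).trans hT1
      linarith
    have e3 : ∑ lam ∈ G, DD C P X Y N (u / lam) ≤ C * ∑ lam ∈ G, Err P X Y (u / lam) := by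
      rw [Finset.mul_sum]
      refine Finset.sum_le_sum fun lam hl => ?_
      have hl1 := hG lam hl
      have hv0 : 0 ≤ u / lam := div_nonneg hu.1 (by linarith)
      have hv1 : u / lam ≤ β * L := (div_le_self hu.1 hl1).trans hu.2
      have h1 := hL1 L hLL1 X (u / lam) hL.symm hv0 hv1
      have h2 := Tl_nonneg N (u / lam)
      have h3 : Tl N (u / lam) ^ 2 ≤ 1 := by
        rw [hN] at h2 ⊢
        exact pow_le_one₀ h2 h1
      have h4 : C * Err P X Y (u / lam) =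
          C * ∑ q ∈ Finset.Ioc X (P * Y), (1 / (q : ℝ)) * Gq q (u / lam) ^ 2 +
          C * (𝓛 + 1) * (Gq P (u / lam) ^ 2 + 1) := by
        unfold Err
        rw [← h𝓛]
        ring
      rw [h4]
      unfold DD
      rw [← h𝓛]
      refine add_le_add le_rfl ?_
      refine mul_le_mul_of_nonneg_left ?_ (mul_nonneg hC.le (by linarith))
      linarith
    have e4 : 0 ≤ ∑ lam ∈ G, DD C P X Y N (u / lam) :=
      Finset.sum_nonneg fun lam _ => DD_nonneg C hC.le P X Y N _ hX1 hXY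
    refine add_le_add ?_ ?_
    · exact mul_le_mul_of_nonneg_left (add_le_add le_rfl e1) hD1n
    · exact mul_le_mul e2 e3 e4 (by positivity)
  · intro u hu
    have hu0 : 0 ≤ u := hu.1
    unfold YG
    have s2 : ∑ lam ∈ G, SWD (c lam) lam u ≤ S6 * (u + 1) := by
      rw [hS6, Finset.sum_mul]
      exact Finset.sum_le_sum fun lam hl => h6 lam hl u hu0
    have s1 : 0 ≤ ∑ lam ∈ G, SWD (c lam) lam u := Finset.sum_nonneg fun lam _ => SWD_nonneg _ _ _
    have b1 : D1 * (T / (2 * Real.pi) * (∑ lam ∈ G, SWD (c lam) lam u) + B * T) ≤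
        12 * W * (S6 + B) * (T * (u + 1)) := by
      have c1 : T / (2 * Real.pi) * (∑ lam ∈ G, SWD (c lam) lam u) ≤ T * (S6 * (u + 1)) :=
        mul_le_mul (aux_pi T hTpos) s2 s1 hTpos.le
      have c2 : B * T ≤ B * (T * (u + 1)) := by
        apply mul_le_mul_of_nonneg_left _ hB0.le
        nlinarith
      have c3 : T / (2 * Real.pi) * (∑ lam ∈ G, SWD (c lam) lam u) + B * T ≤
          (S6 + B) * (T * (u + 1)) := by linarith
      have c5 : 0 ≤ T / (2 * Real.pi) * (∑ lam ∈ G, SWD (c lam) lam u) + B * T := by positivity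
      calc _ ≤ (12 * W) * ((S6 + B) * (T * (u + 1))) := mul_le_mul hD12 c3 c5 (by positivity)
        _ = _ := by ring
    have b2 : 2 * T * (C * ∑ lam ∈ G, Err P X Y (u / lam)) ≤ T * (2 * C * Sl * δ * W * L ^ 2) := by
      have c1 : ∑ lam ∈ G, Err P X Y (u / lam) ≤ Sl * (δ * W * L ^ 2) := by
        calc ∑ lam ∈ G, Err P X Y (u / lam) ≤ ∑ _lam ∈ G, δ * W * L ^ 2 :=
              Finset.sum_le_sum fun lam hl => herr1 (u / lam)
                (div_nonneg hu0 (by linarith [hG lam hl]))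
          _ = G.card * (δ * W * L ^ 2) := by simp
          _ ≤ _ := mul_le_mul_of_nonneg_right hcard (by positivity)
      calc 2 * T * (C * ∑ lam ∈ G, Err P X Y (u / lam)) ≤ 2 * T * (C * (Sl * (δ * W * L ^ 2))) := by
            gcongr
        _ = _ := by ring
    linarith
  · -- the integral
    have g0 := YG_integral hG hS γ h0 hπ D1 T B C (β * L) P X Y hD1n hTpos.le hB0.le hC.le hLambda
      hX1 hXY
    have g1 : ∑ lam ∈ G, ∫ u in (0 : ℝ)..(β * L), Rw γ (u / (β * L)) * SWD (c lam) lam u ≤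
        kk * (Real.sqrt Real.pi * (β * L) ^ 2 * I1) + S10 * (β * L) := by
      rw [hkk, hS10, Finset.sum_mul, Finset.sum_mul, ← Finset.sum_add_distrib]
      refine Finset.sum_le_sum fun lam hl => h10 lam hl (β * L) ?_
      refine le_trans ?_ a3
      rw [hSl]
      exact Finset.single_le_sum (f := fun lam : ℝ => lam) (fun x hx => by linarith [hG x hx]) hl
    have g2 : ∑ lam ∈ G, lam * ∫ u in (0 : ℝ)..(β * L), Err P X Y u ≤ Sl * (δ * W * L ^ 2) := by
      rw [hSl, Finset.sum_mul]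
      refine Finset.sum_le_sum fun lam hl => ?_
      exact mul_le_mul_of_nonneg_left herr2 (by linarith [hG lam hl])
    have g5 : ∫ u in (0 : ℝ)..(β * L), Rw γ (u / (β * L)) * YG G c D1 T B C P X Y u ≤
        D1 * (T / (2 * Real.pi)) * (kk * (Real.sqrt Real.pi * (β * L) ^ 2 * I1) + S10 * (β * L)) +
        R0 * (D1 * B * T * (β * L) + 2 * T * (C * (Sl * (δ * W * L ^ 2)))) := by
      refine g0.trans (add_le_add ?_ ?_)
      · exact mul_le_mul_of_nonneg_left g1 (by positivity)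
      · refine mul_le_mul_of_nonneg_left (add_le_add le_rfl ?_) hR0n
        gcongr
    have hpre : 0 ≤ 2 / (Real.sqrt Real.pi * (β * L)) := by positivity
    have g6 := mul_le_mul_of_nonneg_left g5 hpre
    refine g6.trans ?_
    have g7 : (2 / (Real.sqrt Real.pi * (β * L))) *
        (D1 * (T / (2 * Real.pi)) * (kk * (Real.sqrt Real.pi * (β * L) ^ 2 * I1) + S10 * (β * L)) +
        R0 * (D1 * B * T * (β * L) + 2 * T * (C * (Sl * (δ * W * L ^ 2))))) =
        D1 * (T / (2 * Real.pi)) * (kk * (2 * β * I1) * L + 2 * S10 / Real.sqrt Real.pi) +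
        D1 * (2 / Real.sqrt Real.pi * R0 * B * T) +
        T * L * W * (4 * R0 * C * Sl / (Real.sqrt Real.pi * β) * δ) := by
      field_simp
      ring
    rw [g7]
    have g8 : 2 / Real.sqrt Real.pi * R0 * B * T =
        T / (2 * Real.pi) * (4 * Real.sqrt Real.pi * R0 * B) := by
      have h10 : T / (2 * Real.pi) = T / (2 * (Real.sqrt Real.pi * Real.sqrt Real.pi)) := by
        rw [hspi2]
      rw [h10]
      field_simp
      ring
    have g9 : D1 * (T / (2 * Real.pi)) * (kk * (2 * β * I1) * L + 2 * S10 / Real.sqrt Real.pi) +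
        D1 * (2 / Real.sqrt Real.pi * R0 * B * T) =
        D1 * (T / (2 * Real.pi)) * (kk * (2 * β * I1) * L + C12) := by
      rw [g8, hC12]; ring
    rw [g9]
    have g10 : D1 * (T / (2 * Real.pi)) * (kk * (2 * β * I1) * L + C12) ≤
        T / (2 * Real.pi) * L * W * (kk * (2 * β * I1) + ε / 2) := by
      have e1 : D1 * (T / (2 * Real.pi)) * (kk * (2 * β * I1) * L + C12) ≤
          ((1 + 11 * ε1) * W) * (T / (2 * Real.pi)) * (kk * (2 * β * I1) * L + C12) := by gcongr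
      refine e1.trans ?_
      have e2 : (1 + 11 * ε1) * (kk * (2 * β * I1) * L + C12) ≤
          L * (kk * (2 * β * I1) + ε / 2) := by
        have e3 : 11 * ε1 * C12 ≤ 11 * C12 := by
          have := mul_le_mul_of_nonneg_right hε1' hC12n
          linarith
        have e4 := mul_le_mul_of_nonneg_right hε1b hL0p.le
        have e5 : (1 + 11 * ε1) * (kk * (2 * β * I1) * L + C12) =
          kk * (2 * β * I1) * L + (22 * ε1 * (kk * (β * I1)) * L) + C12 + 11 * ε1 * C12 := by ring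
        have e6 : L * (kk * (2 * β * I1) + ε / 2) =
          kk * (2 * β * I1) * L + ε / 4 * L + ε / 4 * L := by ring
        rw [e5, e6]
        linarith
      calc ((1 + 11 * ε1) * W) * (T / (2 * Real.pi)) * (kk * (2 * β * I1) * L + C12) =
          (W * (T / (2 * Real.pi))) * ((1 + 11 * ε1) * (kk * (2 * β * I1) * L + C12)) := by ring
        _ ≤ (W * (T / (2 * Real.pi))) * (L * (kk * (2 * β * I1) + ε / 2)) :=
          mul_le_mul_of_nonneg_left e2 (by positivity)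
        _ = _ := by ring
    have g11 : T * L * W * (4 * R0 * C * Sl / (Real.sqrt Real.pi * β) * δ) ≤
        T / (2 * Real.pi) * L * W * (ε / 4) := by
      calc _ ≤ T * L * W * (1 / (2 * Real.pi) * (ε / 4)) :=
            mul_le_mul_of_nonneg_left hδb (by positivity)
        _ = _ := by ring
    calc _ ≤ T / (2 * Real.pi) * L * W * (kk * (2 * β * I1) + ε / 2) +
          T / (2 * Real.pi) * L * W * (ε / 4) := add_le_add g10 g11
      _ = T / (2 * Real.pi) * L * W * (kk * (2 * β * I1) + ε) -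
          T / (2 * Real.pi) * L * W * (ε / 4) := by ring
      _ ≤ _ := by
        have : 0 ≤ T / (2 * Real.pi) * L * W * (ε / 4) := by positivity
        linarith
  · -- square roots
    have b1 : Real.sqrt (12 * W * (S6 + B)) ≤ ε / 2 * L * Real.sqrt W := by
      have c1 : 12 * W * (S6 + B) ≤ (ε / 2 * L) ^ 2 * W := by
        have : 12 * (S6 + B) ≤ (ε / 2 * L) ^ 2 := by
          have d1 : (ε / 2) ^ 2 * L ≤ (ε / 2 * L) ^ 2 := by
            have : (ε / 2 * L) ^ 2 = (ε / 2) ^ 2 * L * L := by ring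
            rw [this]
            exact le_mul_of_one_le_right (by positivity) a1
          linarith
        exact aux_c1' W _ _ hWn this
      calc _ ≤ Real.sqrt ((ε / 2 * L) ^ 2 * W) := Real.sqrt_le_sqrt c1
        _ = _ := by rw [Real.sqrt_mul (by positivity), Real.sqrt_sq (by positivity)]
    have b2 : Real.sqrt (2 * C * Sl * δ * W * L ^ 2) ≤ ε / 2 * L * Real.sqrt W := by
      have c1 : 2 * C * Sl * δ * W * L ^ 2 ≤ (ε / 2 * L) ^ 2 * W := by
        have d1 : 2 * C * Sl * δ * W * L ^ 2 = (2 * C * Sl * δ) * (L ^ 2 * W) := by ring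
        have d2 : (ε / 2 * L) ^ 2 * W = (ε / 2) ^ 2 * (L ^ 2 * W) := by ring
        rw [d1, d2]
        exact mul_le_mul_of_nonneg_right hδa (by positivity)
      calc _ ≤ Real.sqrt ((ε / 2 * L) ^ 2 * W) := Real.sqrt_le_sqrt c1
        _ = _ := by rw [Real.sqrt_mul (by positivity), Real.sqrt_sq (by positivity)]
    calc _ ≤ ε / 2 * L * Real.sqrt W + ε / 2 * L * Real.sqrt W := add_le_add b1 b2
      _ = _ := by ring

end groups

end Pool.Agent.H63.DZ
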