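import Pool.Agent.H63.DZ.Prod
import Pool.Agent.H63.DZ.MS5

/-!
# The members of the family
-/

set_option autoImplicit false
set_option maxHeartbeats 4000000

open Complex Filter Topology Set MeasureTheory

namespace Pool.Agent.H63.DZ

open H385
open H370 (zset mult NN Nd Ns)

/-- the data of a family: `k` functions of degree one for every primitive character of conductor
prime to `M`, and the factors of dilation -/
structure FD (M k : ℕ) (lam : ℕ → ℝ) (uu : ℕ → ℕ → ℂ)
    (H : ℕ → (q : ℕ) → DirichletCharacter ℂ q → ℂ → ℂ) : Prop where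
  hk : 1 ≤ k
  hlam : ∀ i < k, 1 ≤ lam i
  good : ∀ i < k, ∃ A : ℝ, 1 ≤ A ∧ ∀ (q : ℕ) (χ : DirichletCharacter ℂ q), 2 ≤ q →
    Nat.Coprime q M → χ.IsPrimitive → GoodD 1 A q (H i q χ)
      (fun n => χ (n : ZMod q) * uu i n * (ArithmeticFunction.vonMangoldt n : ℂ))

/-- the product of the dilated functions -/
noncomputable def FF (k : ℕ) (lam : ℕ → ℝ) (H : ℕ → (q : ℕ) → DirichletCharacter ℂ q → ℂ → ℂ)
    (q : ℕ) (χ : DirichletCharacter ℂ q) : ℂ → ℂ := PR (fun i => dil (lam i) (H i q χ)) k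

/-- the coefficients of the members -/
noncomputable def ac (uu : ℕ → ℕ → ℂ) (i q : ℕ) (χ : DirichletCharacter ℂ q) (n : ℕ) : ℂ :=
  χ (n : ZMod q) * uu i n * (ArithmeticFunction.vonMangoldt n : ℂ)

/-- the prime side of a member -/
noncomputable def PSm (k : ℕ) (lam : ℕ → ℝ) (uu : ℕ → ℕ → ℂ) (q : ℕ) (χ : DirichletCharacter ℂ q)
    (T u t : ℝ) : ℂ := PSs k (fun i => cf (lam i) (ac uu i q χ)) (fun i => fq (lam i)) T u t

section

variable {M k : ℕ} {lam : ℕ → ℝ} {uu : ℕ → ℕ → ℂ}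
  {H : ℕ → (q : ℕ) → DirichletCharacter ℂ q → ℂ → ℂ}

lemma FD.ok (hF : FD M k lam uu H) {q : ℕ} {χ : DirichletCharacter ℂ q} (hq : 2 ≤ q)
    (hc : Nat.Coprime q M) (hχ : χ.IsPrimitive) : ∀ i < k, ZOK (dil (lam i) (H i q χ)) := by
  intro i hi
  obtain ⟨A, hA, hg⟩ := hF.good i hi
  exact (ZOK.of_goodD (hg q χ hq hc hχ)).dil (hF.hlam i hi)

lemma FD.FF_ok (hF : FD M k lam uu H) {q : ℕ} {χ : DirichletCharacter ℂ q} (hq : 2 ≤ q)
    (hc : Nat.Coprime q M) (hχ : χ.IsPrimitive) : ZOK (FF k lam H q χ) :=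
  PR_ok (hF.ok hq hc hχ)

lemma FD.cnt (hF : FD M k lam uu H) : ∃ C0 : ℝ, 0 < C0 ∧ ∀ (q : ℕ) (χ : DirichletCharacter ℂ q),
    2 ≤ q → Nat.Coprime q M → χ.IsPrimitive → Cnt C0 q (FF k lam H q χ) := by
  have h1 : ∀ i : ℕ, ∃ C : ℝ, 0 < C ∧ (i < k → ∀ (q : ℕ) (χ : DirichletCharacter ℂ q),
      2 ≤ q → Nat.Coprime q M → χ.IsPrimitive → Cnt C q (dil (lam i) (H i q χ))) := by
    intro i
    by_cases hi : i < k
    · obtain ⟨A, hA, hg⟩ := hF.good i hi
      obtain ⟨C, hC, hz⟩ := zcount_long_D 1 A le_rfl hA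
      have hl := hF.hlam i hi
      have hlog : 0 ≤ Real.log (lam i) := Real.log_nonneg hl
      have hl0 : 0 < lam i := by linarith
      refine ⟨C * (lam i * (1 + Real.log (lam i))), by positivity, fun _ q χ hq hc hχ => ?_⟩
      have hq1 : (1 : ℝ) ≤ q := by exact_mod_cast (by omega : 1 ≤ q)
      refine Cnt_dil hl hC.le hq1 (ZOK.of_goodD (hg q χ hq hc hχ)) ?_
      intro T1 T2 a1 a2
      exact hz q _ _ hq1 (hg q χ hq hc hχ) T1 T2 a1 a2
    · exact ⟨1, one_pos, fun h => absurd h hi⟩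
  choose C hC h using h1
  refine ⟨∑ i ∈ Finset.range k, C i + 1, ?_, ?_⟩
  · have : 0 ≤ ∑ i ∈ Finset.range k, C i := Finset.sum_nonneg fun i _ => (hC i).le
    linarith
  · intro q χ hq hc hχ
    have hq1 : (1 : ℝ) ≤ q := by exact_mod_cast (by omega : 1 ≤ q)
    have h2 := PR_Cnt (g := fun i => dil (lam i) (H i q χ)) (Q := q) (C := C) (hF.ok hq hc hχ)
      (fun i hi => h i hi q χ hq hc hχ)
    exact h2.mono hq1 (by linarith)

/-- the members satisfy the hypotheses of the abstract theorem -/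
theorem FD.mem (hF : FD M k lam uu H) (mu : ℝ) (hmu : ∀ i < k, lam i ≤ mu) :
    ∃ C1 C0 : ℝ, 0 < C1 ∧ 0 < C0 ∧ ∀ (q : ℕ) (χ : DirichletCharacter ℂ q),
    2 ≤ q → Nat.Coprime q M → χ.IsPrimitive → ∀ T κ Λ Lb : ℝ, 3 ≤ κ → 8 * κ ≤ T →
    (∀ i < k, Real.log (q * (lam i * T)) ≤ Lb) → 1 ≤ Lb →
    Lb ^ 2 * Real.exp (Λ - κ ^ 2 / 2) ≤ Real.exp (-Λ) →
    Mem C1 C0 mu T κ Λ ((∑ i ∈ Finset.range k, lam i) * Lb) (FF k lam H q χ)
      (∑ i ∈ Finset.range k, lam i * 1 * Real.log (q * (lam i * T)))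
      (PSm k lam uu q χ T) := by
  obtain ⟨C0, hC0, hcnt⟩ := hF.cnt
  have h1 : ∀ i : ℕ, ∃ C : ℝ, 0 < C ∧ (i < k → ∀ (q : ℕ) (χ : DirichletCharacter ℂ q),
      2 ≤ q → Nat.Coprime q M → χ.IsPrimitive → ∀ T κ : ℝ, 3 ≤ κ → 8 * κ ≤ T →
      ∀ u t : ℝ, 0 ≤ u → T - 3 * κ ≤ t → t ≤ 2 * T + 3 * κ →
        ‖BB (dil (lam i) (H i q χ)) (T - 3 * κ + 1) (2 * T + 3 * κ - 1) T u t -
          (((lam i * 1 * Real.log (q * (lam i * T)) : ℝ) : ℂ) * bt T u t 0
            - PSf (cf (lam i) (ac uu i q χ)) (fq (lam i)) T u t)‖ ≤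
        2 * (C * (Real.exp (-(u / lam i)) + (Real.log (q * (lam i * T))) ^ 2 *
          Real.exp (u / lam i - κ ^ 2 / 2))) * wt T t) := by
    intro i
    by_cases hi : i < k
    · obtain ⟨A, hA, hg⟩ := hF.good i hi
      obtain ⟨C, hC, hz⟩ := BB_dil_formula (lam i) (hF.hlam i hi) 1 A le_rfl hA
      refine ⟨C, hC, fun _ q χ hq hc hχ T κ hκ hT u t hu ht1 ht2 => ?_⟩
      have hq1 : (1 : ℝ) ≤ q := by exact_mod_cast (by omega : 1 ≤ q)
      exact hz q _ _ hq1 (hg q χ hq hc hχ) T κ hκ hT u t hu ht1 ht2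
    · exact ⟨1, one_pos, fun h => absurd h hi⟩
  choose C hC h using h1
  have hk := hF.hk
  have hlam := hF.hlam
  have hl0 := hlam 0 (by omega)
  have hmu1 : 1 ≤ mu := hl0.trans (hmu 0 (by omega))
  have hmu0 : 0 < mu := by linarith
  obtain ⟨D, hD⟩ : ∃ D, D = ∑ i ∈ Finset.range k, lam i := ⟨_, rfl⟩
  have hD1 : 1 ≤ D := by
    rw [hD]
    refine hl0.trans ?_
    exact Finset.single_le_sum (f := fun i => lam i)
      (fun i hi => by linarith [hlam i (Finset.mem_range.1 hi)]) (Finset.mem_range.2 (by omega))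
  obtain ⟨SC, hSC⟩ : ∃ S, S = ∑ i ∈ Finset.range k, 4 * C i := ⟨_, rfl⟩
  have hSC0 : 0 ≤ SC := by
    rw [hSC]; exact Finset.sum_nonneg fun i _ => by linarith [hC i]
  refine ⟨SC + 1, 6 * C0, by linarith, by positivity, ?_⟩
  intro q χ hq hc hχ T κ Λ Lb hκ hT hLb hLb1 hLbΛ
  rw [← hD]
  have hq1 : (1 : ℝ) ≤ q := by exact_mod_cast (by omega : 1 ≤ q)
  have hq0 : (0 : ℝ) < q := by linarith
  have hT0 : 0 < T := by linarith
  have hok := hF.ok hq hc hχ
  have hlogp : ∀ i < k, 0 ≤ Real.log (q * (lam i * T)) := by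
    intro i hi
    apply Real.log_nonneg
    have := hlam i hi
    exact one_le_mul_of_one_le_of_one_le hq1 (one_le_mul_of_one_le_of_one_le this (by linarith))
  have hsummable : ∀ i < k, ∀ u : ℝ, Summable (fun n : ℕ =>
      ‖cf (lam i) (ac uu i q χ) n‖ * Real.exp (-(u - fq (lam i) n) ^ 2 / 4)) := by
    intro i hi u
    obtain ⟨A, hA, hg⟩ := hF.good i hi
    exact cf_summable (hlam i hi) _ zero_le_one (hg q χ hq hc hχ).ha u
  refine ⟨hF.FF_ok hq hc hχ, ?_, ?_, ?_, ?_, ?_, ?_⟩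
  · refine Finset.sum_nonneg fun i hi => ?_
    have hi := Finset.mem_range.1 hi
    have := hlam i hi
    have := hlogp i hi
    positivity
  · rw [hD, Finset.sum_mul]
    refine Finset.sum_le_sum fun i hi => ?_
    have hi := Finset.mem_range.1 hi
    have := hlam i hi
    rw [mul_one]
    exact mul_le_mul_of_nonneg_left (hLb i hi) (by linarith)
  · intro u
    exact PSs_cont T hT0.le hsummable u
  · intro u
    exact PSs_int T hT0.le hsummable u
  · intro u hu t ht
    have hbb : BB (FF k lam H q χ) (T - 3 * κ + 1) (2 * T + 3 * κ - 1) T u t =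
        ∑ i ∈ Finset.range k, BB (dil (lam i) (H i q χ)) (T - 3 * κ + 1) (2 * T + 3 * κ - 1) T u t :=
      PR_BB hok (by linarith) T u t
    have hcast : ((∑ i ∈ Finset.range k, lam i * 1 * Real.log (q * (lam i * T)) : ℝ) : ℂ) =
        ∑ i ∈ Finset.range k, ((lam i * 1 * Real.log (q * (lam i * T)) : ℝ) : ℂ) := by
      push_cast; rfl
    rw [hbb, hcast]
    unfold PSm PSs
    rw [Finset.sum_mul, ← Finset.sum_sub_distrib, ← Finset.sum_sub_distrib]
    refine (norm_sum_le _ _).trans ?_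
    have hw := wt_nonneg T t hT0.le
    calc ∑ i ∈ Finset.range k, ‖BB (dil (lam i) (H i q χ)) (T - 3 * κ + 1) (2 * T + 3 * κ - 1) T u t -
          (((lam i * 1 * Real.log (q * (lam i * T)) : ℝ) : ℂ) * bt T u t 0
            - PSf (cf (lam i) (ac uu i q χ)) (fq (lam i)) T u t)‖ ≤
        ∑ i ∈ Finset.range k, (4 * C i) * (Real.exp (-(u / mu)) * wt T t) := by
          refine Finset.sum_le_sum fun i hi => ?_
          have hi := Finset.mem_range.1 hi
          have hli := hlam i hi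
          have hli0 : 0 < lam i := by linarith
          refine (h i hi q χ hq hc hχ T κ hκ hT u t hu.1 ht.1 ht.2).trans ?_
          have f1 : Real.exp (-(u / lam i)) ≤ Real.exp (-(u / mu)) := by
            apply Real.exp_le_exp.mpr
            have := div_le_div_of_nonneg_left hu.1 hli0 (hmu i hi)
            linarith
          have f2 : (Real.log (q * (lam i * T))) ^ 2 * Real.exp (u / lam i - κ ^ 2 / 2) ≤
              Real.exp (-(u / mu)) := by
            have g1 : (Real.log (q * (lam i * T))) ^ 2 ≤ Lb ^ 2 :=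
              pow_le_pow_left₀ (hlogp i hi) (hLb i hi) 2
            have g2 : Real.exp (u / lam i - κ ^ 2 / 2) ≤ Real.exp (Λ - κ ^ 2 / 2) := by
              apply Real.exp_le_exp.mpr
              have := (div_le_self hu.1 hli).trans hu.2
              linarith
            calc _ ≤ Lb ^ 2 * Real.exp (Λ - κ ^ 2 / 2) :=
                  mul_le_mul g1 g2 (Real.exp_pos _).le (sq_nonneg _)
              _ ≤ Real.exp (-Λ) := hLbΛ
              _ ≤ _ := by
                apply Real.exp_le_exp.mpr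
                have := (div_le_self hu.1 hmu1).trans hu.2
                linarith
          have hCi := (hC i).le
          calc 2 * (C i * (Real.exp (-(u / lam i)) + (Real.log (q * (lam i * T))) ^ 2 *
              Real.exp (u / lam i - κ ^ 2 / 2))) * wt T t ≤
              2 * (C i * (Real.exp (-(u / mu)) + Real.exp (-(u / mu)))) * wt T t := by gcongr
            _ = _ := by ring
      _ = SC * (Real.exp (-(u / mu)) * wt T t) := by rw [hSC, Finset.sum_mul]
      _ ≤ (SC + 1) * (Real.exp (-(u / mu)) * wt T t) := by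
          apply mul_le_mul_of_nonneg_right (by linarith)
          exact mul_nonneg (Real.exp_pos _).le hw
      _ = _ := by ring
  · have h3 := hcnt q χ hq hc hχ (T - 3 * κ + 1) (2 * T + 3 * κ - 1) (by linarith) (by linarith)
    refine h3.trans ?_
    have e1 : 2 * T + 3 * κ - 1 - (T - 3 * κ + 1) ≤ 2 * T := by linarith
    have e0 : 0 ≤ 2 * T + 3 * κ - 1 - (T - 3 * κ + 1) := by linarith
    have e2 : Real.log (q * (2 * T + 3 * κ - 1)) ≤ 3 * Lb := by
      have g1 : (q : ℝ) * (2 * T + 3 * κ - 1) ≤ 3 * (q * (lam 0 * T)) := by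
        calc (q : ℝ) * (2 * T + 3 * κ - 1) ≤ q * (3 * (1 * T)) :=
              mul_le_mul_of_nonneg_left (by linarith) hq0.le
          _ ≤ q * (3 * (lam 0 * T)) := by gcongr
          _ = _ := by ring
      have g2 : Real.log (q * (2 * T + 3 * κ - 1)) ≤ Real.log (3 * (q * (lam 0 * T))) := by
        apply Real.log_le_log _ g1
        apply mul_pos hq0; linarith
      have hl00 : 0 < lam 0 := by linarith
      rw [Real.log_mul (x := 3) (y := q * (lam 0 * T)) (by norm_num) (by positivity)] at g2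
      have g3 : Real.log 3 ≤ 2 := by
        have := Real.log_le_sub_one_of_pos (show (0:ℝ) < 3 by norm_num)
        linarith
      have := hLb 0 (by omega)
      linarith
    have e3 : 0 ≤ Real.log (q * (2 * T + 3 * κ - 1)) := by
      apply Real.log_nonneg
      exact one_le_mul_of_one_le_of_one_le hq1 (by linarith)
    calc C0 * (2 * T + 3 * κ - 1 - (T - 3 * κ + 1)) * Real.log (q * (2 * T + 3 * κ - 1)) ≤
        C0 * (2 * T) * (3 * Lb) := by gcongr
      _ = 6 * C0 * (T * (1 * Lb)) := by ring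
      _ ≤ 6 * C0 * (T * (D * Lb)) := by gcongr

end

end Pool.Agent.H63.DZ
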