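import Pool.Agent.H63.DZ.Trace
import Pool.Agent.H63.DZ.BBdil
import Pool.Graph.R_seed8.H385R2.FamAbsD

/-!
Abstract family theorem for products of dilated functions.
-/

open Complex Filter Topology Set MeasureTheory
open H370 (zset mult NN Nd Ns)
open H385

namespace Pool.Agent.H63.DZ

/-- what is needed of one member of the family -/
structure Mem (C1 C0 mu T κ Λ Lm : ℝ) (F : ℂ → ℂ) (LL : ℝ) (PS : ℝ → ℝ → ℂ) : Prop where
  ok : ZOK F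
  L0 : 0 ≤ LL
  Lle : LL ≤ Lm
  cont : ∀ u, Continuous (PS u)
  int : ∀ u, Integrable (fun t => ‖PS u t‖ ^ 2)
  form : ∀ u ∈ Set.Icc 0 Λ, ∀ t ∈ Set.Icc (T - 3 * κ) (2 * T + 3 * κ),
    ‖BB F (T - 3 * κ + 1) (2 * T + 3 * κ - 1) T u t - ((LL : ℂ) * bt T u t 0 - PS u t)‖ ≤
      C1 * Real.exp (-(u / mu)) * wt T t
  cnt : (NN F (T - 3 * κ + 1) (2 * T + 3 * κ - 1) : ℝ) ≤ C0 * (T * Lm)

lemma mu_exp {mu u : ℝ} (hmu : 1 ≤ mu) (hu : 0 ≤ u) :
    Real.exp (-(u / mu)) * Real.sqrt (u + 1) ≤ mu * Real.exp (-(u / (2 * mu))) := by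
  have hmu0 : 0 < mu := by linarith
  have h1 : Real.exp (-(u / mu)) = Real.exp (-(u / (2 * mu))) * Real.exp (-(u / (2 * mu))) := by
    rw [← Real.exp_add]; congr 1; field_simp; ring
  have h2 : Real.exp (-(u / (2 * mu))) * Real.sqrt (u + 1) ≤ mu := by
    have h3 : Real.sqrt (u + 1) ≤ mu * Real.exp (u / (2 * mu)) := by
      rw [Real.sqrt_le_left (by positivity)]
      have h4 : (mu * Real.exp (u / (2 * mu))) ^ 2 = mu ^ 2 * Real.exp (u / mu) := by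
        rw [mul_pow, ← Real.exp_nat_mul]
        congr 2
        push_cast
        field_simp
      rw [h4]
      have h5 := Real.add_one_le_exp (u / mu)
      have h6 : u + 1 ≤ mu ^ 2 * (u / mu + 1) := by
        have : mu ^ 2 * (u / mu + 1) = mu * u + mu ^ 2 := by field_simp
        rw [this]
        nlinarith
      exact h6.trans (mul_le_mul_of_nonneg_left h5 (by positivity))
    calc Real.exp (-(u / (2 * mu))) * Real.sqrt (u + 1) ≤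
        Real.exp (-(u / (2 * mu))) * (mu * Real.exp (u / (2 * mu))) :=
          mul_le_mul_of_nonneg_left h3 (Real.exp_pos _).le
      _ = mu * (Real.exp (-(u / (2 * mu))) * Real.exp (u / (2 * mu))) := by ring
      _ = mu := by rw [← Real.exp_add]; simp
  calc Real.exp (-(u / mu)) * Real.sqrt (u + 1) =
      (Real.exp (-(u / (2 * mu))) * Real.sqrt (u + 1)) * Real.exp (-(u / (2 * mu))) := by
        rw [h1]; ring
    _ ≤ _ := mul_le_mul_of_nonneg_right h2 (Real.exp_pos _).le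

lemma half_exp {mu u : ℝ} (hmu : 1 ≤ mu) (hu : 0 ≤ u) :
    Real.exp (-u / 2) ≤ Real.exp (-(u / (2 * mu))) := by
  apply Real.exp_le_exp.mpr
  have : u / (2 * mu) ≤ u / 2 := by
    apply div_le_div_of_nonneg_left hu (by norm_num)
    linarith
  linarith

theorem fam_u (mu : ℝ) (hmu : 1 ≤ mu) (C1 C0 : ℝ) (hC1 : 0 < C1) (hC0 : 0 < C0) :
    ∃ K : ℝ, 0 < K ∧ ∀ {ι : Type} (s : Finset ι) (ω : ι → ℝ) (F : ι → ℂ → ℂ)
      (LL : ι → ℝ) (PS : ι → ℝ → ℝ → ℂ) (T κ Λ Lm y1 y2 : ℝ) (Y : ℝ → ℝ),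
      (∀ i ∈ s, 0 ≤ ω i ∧ Mem C1 C0 mu T κ Λ Lm (F i) (LL i) (PS i)) →
      3 ≤ κ → 8 * κ ≤ T → T ≤ Real.exp (κ ^ 2 / 2) → 1 ≤ Λ → 1 ≤ Lm →
      Lm ^ 2 * Real.exp (Λ - κ ^ 2 / 2) ≤ Real.exp (-Λ) → 0 ≤ y1 → 0 ≤ y2 →
      (∀ u ∈ Set.Icc 0 Λ, ∫ t : ℝ, ∑ i ∈ s, ω i * ‖PS i u t‖ ^ 2 ≤ Y u) →
      (∀ u ∈ Set.Icc 0 Λ, Y u ≤ T * (y1 * (u + 1) + y2)) →
        ∀ u ∈ Set.Icc 0 Λ, ∑ i ∈ s, ω i *
          ∫ t : ℝ, ‖BB (F i) (T - 3 * κ + 1) (2 * T + 3 * κ - 1) T u t‖ ^ 2 ≤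
          (∑ i ∈ s, ω i) * Lm ^ 2 * (T / (2 * Real.pi) * Real.exp (-u ^ 2)) + Y u +
          K * ((∑ i ∈ s, ω i) * (Lm ^ 2 * κ) + (∑ i ∈ s, ω i) * (Lm * T) +
            Real.sqrt (∑ i ∈ s, ω i) * Lm * T * (Real.sqrt y1 + Real.sqrt y2)) *
              Real.exp (-(u / (2 * mu))) := by
  obtain ⟨C3, hC3, hwt⟩ := wt_sq_int
  obtain ⟨C4, hC4, hbt⟩ := bt_sq_int
  refine ⟨Real.exp 1 * C4 + 2 * ((1 + C4) * Real.exp 1 + (1 + C4) * C1 * (1 + C3) +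
    C1 * (1 + C3) * mu) + C1 ^ 2 * (1 + C3) ^ 2 + 100 * C0 ^ 2 , by positivity, ?_⟩
  intro ι s ω F LL PS T κ Λ Lm y1 y2 Y hs hκ hT hTκ hΛ hLm hLmΛ hy1 hy2 hY hYb
  have hmu0 : 0 < mu := by linarith
  have hT0 : 0 < T := by linarith
  have hT1 : 1 ≤ T := by linarith
  have hfin : ∀ i ∈ s, (zset (F i) (T - 3 * κ + 1) (2 * T + 3 * κ - 1)).Finite := fun i hi =>
    (hs i hi).2.ok.fin _ _ (by linarith)
  intro u hu
  have huI := hu
  obtain ⟨hu0, huΛ⟩ := hu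
  set W := ∑ i ∈ s, ω i with hW
  have hW0 : 0 ≤ W := Finset.sum_nonneg fun i hi => (hs i hi).1
  set Eu := Real.exp (-(u / mu)) with hEu
  have hEu0 : 0 < Eu := Real.exp_pos _
  have hEu1 : Eu ≤ 1 := by
    rw [hEu, Real.exp_le_one_iff]
    have : 0 ≤ u / mu := by positivity
    linarith
  -- the three functions
  set f : ι → ℝ → ℝ := fun _ t => Lm * ‖bt T u t 0‖ with hf
  set g : ι → ℝ → ℝ := fun i t => ‖PS i u t‖ with hg
  set h : ι → ℝ → ℝ := fun _ t => (C1 * Eu) * wt T t with hh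
  have hfc : ∀ i ∈ s, Continuous (f i) := fun i _ => continuous_const.mul (fa_bt_cont T u 0).norm
  have hgc : ∀ i ∈ s, Continuous (g i) := fun i hi => ((hs i hi).2.cont u).norm
  have hhc : ∀ i ∈ s, Continuous (h i) := fun i _ => continuous_const.mul (wt_cont T)
  have hbt0 := hbt T κ u 0 (by linarith) hT1
    (hTκ.trans (Real.exp_le_exp.mpr (NL.a2 κ)))
  have hf2 : ∀ i ∈ s, Integrable (fun t => f i t ^ 2) := by
    intro i _
    simp only [hf, mul_pow]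
    exact hbt0.1.const_mul _
  have hg2 : ∀ i ∈ s, Integrable (fun t => g i t ^ 2) := fun i hi => (hs i hi).2.int u
  have hh2 : ∀ i ∈ s, Integrable (fun t => h i t ^ 2) := by
    intro i _
    simp only [hh, mul_pow]
    exact (hwt T hT0.le).1.const_mul _
  set X := W * Lm ^ 2 * (T / (2 * Real.pi) * Real.exp (-u ^ 2) + C4 * κ * Real.exp (-u ^ 2 / 2))
    with hXdef
  set Z := W * (C1 * Eu) ^ 2 * (T + C3) with hZdef
  have hX : ∑ i ∈ s, ω i * ∫ t, f i t ^ 2 ≤ X := by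
    simp only [hf, mul_pow]
    rw [integral_const_mul, ← Finset.sum_mul, ← hW, hXdef, mul_assoc W (Lm ^ 2)]
    have := hbt0.2
    rw [sub_zero] at this
    gcongr
  have hY1 : ∑ i ∈ s, ω i * ∫ t, g i t ^ 2 ≤ Y u := by
    refine le_trans (le_of_eq ?_) (hY u ⟨hu0, huΛ⟩)
    rw [integral_finsetSum]
    · apply Finset.sum_congr rfl
      intro i _
      rw [integral_const_mul]
    · intro i hi
      exact (hg2 i hi).const_mul _
  have hZ : ∑ i ∈ s, ω i * ∫ t, h i t ^ 2 ≤ Z := by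
    simp only [hh, mul_pow]
    rw [integral_const_mul, ← Finset.sum_mul, ← hW, hZdef]
    have := (hwt T hT0.le).2
    rw [mul_assoc W]
    simp only [mul_pow]
    gcongr
  obtain ⟨hint, hmk⟩ := fa_mink s ω (fun i hi => (hs i hi).1) f g h hfc hgc hhc hf2 hg2 hh2
    hX hY1 hZ
  have hYu0 : 0 ≤ Y u := le_trans (Finset.sum_nonneg fun i hi =>
    mul_nonneg (hs i hi).1 (integral_nonneg fun t => sq_nonneg _)) hY1
  -- each BB
  have hmul : u / mu ≤ u := by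
    rw [div_le_iff₀ hmu0]
    nlinarith
  have hLmbig : Lm ^ 2 * Real.exp (u - κ ^ 2 / 2) ≤ Eu := by
    calc Lm ^ 2 * Real.exp (u - κ ^ 2 / 2) ≤ Lm ^ 2 * Real.exp (Λ - κ ^ 2 / 2) := by gcongr
      _ ≤ Real.exp (-Λ) := hLmΛ
      _ ≤ Eu := by
        rw [hEu]
        apply Real.exp_le_exp.mpr
        linarith
  have hBB : ∀ i ∈ s, ∫ t : ℝ, ‖BB (F i) (T - 3 * κ + 1) (2 * T + 3 * κ - 1) T u t‖ ^ 2 ≤
      (∫ t, (f i t + g i t + h i t) ^ 2) + 100 * C0 ^ 2 * (T * Eu) := by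
    intro i hi
    obtain ⟨hωi, hm⟩ := hs i hi
    have hbbi := BB_int (F i) (T - 3 * κ + 1) (2 * T + 3 * κ - 1) T (hfin i hi)
    rw [← integral_add_compl (measurableSet_Icc : MeasurableSet
      (Set.Icc (T - 3 * κ) (2 * T + 3 * κ))) (hbbi.1 u)]
    apply add_le_add
    · refine le_trans ?_ (setIntegral_le_integral (s := Set.Icc (T - 3 * κ) (2 * T + 3 * κ))
        (hint i hi) (Filter.Eventually.of_forall fun t => sq_nonneg _))
      apply setIntegral_mono_on (hbbi.1 u).integrableOn (hint i hi).integrableOn measurableSet_Icc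
      intro t ht
      apply pow_le_pow_left₀ (norm_nonneg _)
      have hb := hm.form u huI t ht
      have hb2 : ‖BB (F i) (T - 3 * κ + 1) (2 * T + 3 * κ - 1) T u t‖ ≤
          ‖((LL i : ℝ) : ℂ) * bt T u t 0 - PS i u t‖ + C1 * Eu * wt T t := by
        have := norm_le_insert' (BB (F i) (T - 3 * κ + 1) (2 * T + 3 * κ - 1) T u t)
          (((LL i : ℝ) : ℂ) * bt T u t 0 - PS i u t)
        linarith
      have hb3 : ‖((LL i : ℝ) : ℂ) * bt T u t 0 - PS i u t‖ ≤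
          Lm * ‖bt T u t 0‖ + ‖PS i u t‖ := by
        refine (norm_sub_le _ _).trans ?_
        rw [norm_mul, Complex.norm_real, Real.norm_eq_abs, abs_of_nonneg hm.L0]
        have := hm.Lle
        gcongr
      simp only [hf, hg, hh]
      linarith
    · refine (BB_far (F i) _ _ T κ u (hfin i hi) hT0.le (by linarith) hu0).trans ?_
      have hNN := hm.cnt
      have hNN2 : (NN (F i) (T - 3 * κ + 1) (2 * T + 3 * κ - 1) : ℝ) ^ 2 ≤ (C0 * (T * Lm)) ^ 2 :=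
        pow_le_pow_left₀ (by positivity) hNN 2
      calc 100 * (NN (F i) (T - 3 * κ + 1) (2 * T + 3 * κ - 1) : ℝ) ^ 2 * Real.exp (u - κ ^ 2)
          ≤ 100 * (C0 * (T * Lm)) ^ 2 * Real.exp (u - κ ^ 2) := by gcongr
        _ = 100 * C0 ^ 2 * (T * ((T * Real.exp (-(κ ^ 2 / 2))) *
            (Lm ^ 2 * Real.exp (u - κ ^ 2 / 2)))) := by
            have : Real.exp (u - κ ^ 2) = Real.exp (-(κ ^ 2 / 2)) * Real.exp (u - κ ^ 2 / 2) := by
              rw [← Real.exp_add]; congr 1; ring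
            rw [this]; ring
        _ ≤ 100 * C0 ^ 2 * (T * (1 * Eu)) := by
            have : T * Real.exp (-(κ ^ 2 / 2)) ≤ 1 := by
              calc T * Real.exp (-(κ ^ 2 / 2)) ≤
                  Real.exp (κ ^ 2 / 2) * Real.exp (-(κ ^ 2 / 2)) := by gcongr
                _ = 1 := by rw [← Real.exp_add]; simp
            gcongr
        _ = _ := by ring
  have hsum : ∑ i ∈ s, ω i * ∫ t : ℝ, ‖BB (F i) (T - 3 * κ + 1) (2 * T + 3 * κ - 1) T u t‖ ^ 2 ≤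
      (∑ i ∈ s, ω i * ∫ t, (f i t + g i t + h i t) ^ 2) +
        W * (100 * C0 ^ 2 * (T * Eu)) := by
    rw [hW, Finset.sum_mul, ← Finset.sum_add_distrib]
    apply Finset.sum_le_sum
    intro i hi
    rw [← mul_add]
    exact mul_le_mul_of_nonneg_left (hBB i hi) (hs i hi).1
  -- square roots
  set E2 := Real.exp (-(u / (2 * mu))) with hE2
  have hE2p : 0 < E2 := Real.exp_pos _
  have hh2e : Real.exp (-u / 2) ≤ E2 := half_exp hmu hu0
  have heu : Eu ≤ E2 := by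
    rw [hE2, hEu]; apply Real.exp_le_exp.mpr
    have : u / (2 * mu) ≤ u / mu := by
      apply div_le_div_of_nonneg_left hu0 hmu0
      linarith
    linarith
  have sX : Real.sqrt X ≤ Real.sqrt W * Lm * Real.sqrt T * (1 + C4) * Real.exp (-u ^ 2 / 4) := by
    rw [Real.sqrt_le_left (by positivity)]
    have e1 : (Real.sqrt W * Lm * Real.sqrt T * (1 + C4) * Real.exp (-u ^ 2 / 4)) ^ 2 =
        W * Lm ^ 2 * (T * (1 + C4) ^ 2 * Real.exp (-u ^ 2 / 2)) := by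
      rw [mul_pow, mul_pow, mul_pow, mul_pow, Real.sq_sqrt hW0, Real.sq_sqrt hT0.le,
        ← Real.exp_nat_mul]
      have : ((2 : ℕ) : ℝ) * (-u ^ 2 / 4) = -u ^ 2 / 2 := by push_cast; ring
      rw [this]; ring
    rw [e1, hXdef]
    have e2 : Real.exp (-u ^ 2) ≤ Real.exp (-u ^ 2 / 2) := by
      exact Real.exp_le_exp.mpr (NL.a4 u)
    have e3 : T / (2 * Real.pi) ≤ T := by
      rw [div_le_iff₀ (by positivity)]
      exact NL.a5 hT0.le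
    have e4 : κ ≤ T := by linarith
    have e5 : T / (2 * Real.pi) * Real.exp (-u ^ 2) + C4 * κ * Real.exp (-u ^ 2 / 2) ≤
        T * (1 + C4) ^ 2 * Real.exp (-u ^ 2 / 2) := by
      calc T / (2 * Real.pi) * Real.exp (-u ^ 2) + C4 * κ * Real.exp (-u ^ 2 / 2) ≤
          T * Real.exp (-u ^ 2 / 2) + C4 * T * Real.exp (-u ^ 2 / 2) := by gcongr
        _ = T * (1 + C4) * Real.exp (-u ^ 2 / 2) := by ring
        _ ≤ T * (1 + C4) ^ 2 * Real.exp (-u ^ 2 / 2) := by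
          have : (1 + C4) ≤ (1 + C4) ^ 2 := NL.a6 hC4.le
          gcongr
    gcongr
  have sY : Real.sqrt (Y u) ≤ Real.sqrt T * Real.sqrt (u + 1) * (Real.sqrt y1 + Real.sqrt y2) := by
    rw [Real.sqrt_le_left (by positivity)]
    rw [mul_pow, mul_pow, Real.sq_sqrt hT0.le, Real.sq_sqrt (by linarith)]
    refine (hYb u ⟨hu0, huΛ⟩).trans ?_
    have e1 : (Real.sqrt y1 + Real.sqrt y2) ^ 2 ≥ y1 + y2 := by
      exact NL.a7 hy1 hy2
    calc T * (y1 * (u + 1) + y2) ≤ T * ((u + 1) * (y1 + y2)) := by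
          apply mul_le_mul_of_nonneg_left _ hT0.le
          exact NL.a8 hu0 hy2
      _ ≤ T * ((u + 1) * (Real.sqrt y1 + Real.sqrt y2) ^ 2) := by gcongr
      _ = _ := by ring
  have sZ : Real.sqrt Z ≤ Real.sqrt W * (C1 * Eu) * Real.sqrt T * (1 + C3) := by
    rw [Real.sqrt_le_left (by positivity)]
    have e1 : (Real.sqrt W * (C1 * Eu) * Real.sqrt T * (1 + C3)) ^ 2 =
        W * (C1 * Eu) ^ 2 * (T * (1 + C3) ^ 2) := by
      calc (Real.sqrt W * (C1 * Eu) * Real.sqrt T * (1 + C3)) ^ 2 =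
          (Real.sqrt W) ^ 2 * (C1 * Eu) ^ 2 *
            ((Real.sqrt T) ^ 2 * (1 + C3) ^ 2) := by ring
        _ = _ := by rw [Real.sq_sqrt hW0, Real.sq_sqrt hT0.le]
    rw [e1, hZdef]
    have : T + C3 ≤ T * (1 + C3) ^ 2 := NL.a9 hT1 hC3
    exact mul_le_mul_of_nonneg_left this (by positivity)
  set S := Real.sqrt y1 + Real.sqrt y2 with hS
  have hS0 : 0 ≤ S := by positivity
  set rW := Real.sqrt W with hrW
  have hrW0 : 0 ≤ rW := Real.sqrt_nonneg _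
  have hrWW : rW * rW = W := Real.mul_self_sqrt hW0
  have hTT : Real.sqrt T * Real.sqrt T = T := Real.mul_self_sqrt hT0.le
  have cXY : Real.sqrt X * Real.sqrt (Y u) ≤
      (1 + C4) * Real.exp 1 * (rW * Lm * T * S) * E2 := by
    calc Real.sqrt X * Real.sqrt (Y u) ≤
        (rW * Lm * Real.sqrt T * (1 + C4) * Real.exp (-u ^ 2 / 4)) *
          (Real.sqrt T * Real.sqrt (u + 1) * S) := by gcongr
      _ = (1 + C4) * (rW * Lm * (Real.sqrt T * Real.sqrt T) * S) *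
          (Real.exp (-u ^ 2 / 4) * Real.sqrt (u + 1)) := by ring
      _ ≤ (1 + C4) * (rW * Lm * (Real.sqrt T * Real.sqrt T) * S) *
          (Real.exp 1 * E2) :=
          mul_le_mul_of_nonneg_left ((fa_arith1 u).trans
            (mul_le_mul_of_nonneg_left hh2e (Real.exp_pos _).le)) (by positivity)
      _ = _ := by rw [hTT]; ring
  have cXZ : Real.sqrt X * Real.sqrt Z ≤
      (1 + C4) * C1 * (1 + C3) * (W * (Lm * T)) * E2 := by
    calc Real.sqrt X * Real.sqrt Z ≤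
        (rW * Lm * Real.sqrt T * (1 + C4) * Real.exp (-u ^ 2 / 4)) *
          (rW * (C1 * Eu) * Real.sqrt T * (1 + C3)) := by gcongr
      _ = (1 + C4) * C1 * (1 + C3) * ((rW * rW) * (Lm * (Real.sqrt T * Real.sqrt T))) *
          (Real.exp (-u ^ 2 / 4) * Eu) := by ring
      _ ≤ (1 + C4) * C1 * (1 + C3) * ((rW * rW) * (Lm * (Real.sqrt T * Real.sqrt T))) *
          (1 * E2) := by
          have : Real.exp (-u ^ 2 / 4) ≤ 1 := by
            exact Real.exp_le_one_iff.mpr (NL.a10 u)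
          gcongr
      _ = _ := by rw [hTT, hrWW]; ring
  have cYZ : Real.sqrt (Y u) * Real.sqrt Z ≤
      C1 * (1 + C3) * mu * (rW * Lm * T * S) * E2 := by
    calc Real.sqrt (Y u) * Real.sqrt Z ≤
        (Real.sqrt T * Real.sqrt (u + 1) * S) *
          (rW * (C1 * Eu) * Real.sqrt T * (1 + C3)) := by gcongr
      _ = C1 * (1 + C3) * (rW * 1 * (Real.sqrt T * Real.sqrt T) * S) *
          (Eu * Real.sqrt (u + 1)) := by ring
      _ ≤ C1 * (1 + C3) * (rW * Lm * (Real.sqrt T * Real.sqrt T) * S) * (mu * E2) := by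
          have := mu_exp hmu hu0
          gcongr
      _ = _ := by rw [hTT]; ring
  have cZ : Z ≤ C1 ^ 2 * (1 + C3) ^ 2 * (W * (Lm * T)) * E2 := by
    calc Z ≤ W * (C1 * Eu) ^ 2 * (T * (1 + C3) ^ 2) := by
          have : T + C3 ≤ T * (1 + C3) ^ 2 := NL.a9 hT1 hC3
          rw [hZdef]
          gcongr
      _ = C1 ^ 2 * (1 + C3) ^ 2 * (W * (1 * T)) * (Eu * Eu) := by ring
      _ ≤ C1 ^ 2 * (1 + C3) ^ 2 * (W * (Lm * T)) * (1 * E2) := by gcongr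
      _ = _ := by ring
  have cX : X ≤ W * Lm ^ 2 * (T / (2 * Real.pi) * Real.exp (-u ^ 2)) +
      Real.exp 1 * C4 * (W * (Lm ^ 2 * κ)) * E2 := by
    have := (fa_arith3 u).trans (mul_le_mul_of_nonneg_left hh2e (Real.exp_pos _).le)
    have e1 : W * Lm ^ 2 * (C4 * κ * Real.exp (-u ^ 2 / 2)) ≤
        W * Lm ^ 2 * (C4 * κ * (Real.exp 1 * E2)) := by
      have : 0 ≤ κ := by linarith
      gcongr
    rw [hXdef, mul_add]
    have e2 : W * Lm ^ 2 * (C4 * κ * (Real.exp 1 * E2)) =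
      Real.exp 1 * C4 * (W * (Lm ^ 2 * κ)) * E2 := by ring
    linarith
  have cO : W * (100 * C0 ^ 2 * (T * Eu)) ≤
      100 * C0 ^ 2 * (W * (Lm * T)) * E2 := by
    calc W * (100 * C0 ^ 2 * (T * Eu)) =
        100 * C0 ^ 2 * (W * (1 * T)) * Eu := by ring
      _ ≤ _ := by gcongr
  -- final
  set D1 := W * (Lm ^ 2 * κ) with hD1
  set D2 := W * (Lm * T) with hD2
  set D3 := rW * Lm * T * S with hD3
  have d1 : 0 ≤ D1 * E2 := by
    have : 0 ≤ κ := by linarith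
    positivity
  have d2 : 0 ≤ D2 * E2 := by positivity
  have d3 : 0 ≤ D3 * E2 := by positivity
  have k1 : 0 < Real.exp 1 * C4 := by positivity
  have k2 : 0 < (1 + C4) * Real.exp 1 := by positivity
  have k3 : 0 < (1 + C4) * C1 * (1 + C3) := by positivity
  have k4 : 0 < C1 * (1 + C3) * mu := by positivity
  have k5 : 0 < C1 ^ 2 * (1 + C3) ^ 2 := by positivity
  have k6 : 0 < 100 * C0 ^ 2 := by positivity
  set K1 := Real.exp 1 * C4 with hK1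
  set K2 := (1 + C4) * Real.exp 1
  set K3 := (1 + C4) * C1 * (1 + C3)
  set K4 := C1 * (1 + C3) * mu
  set K5 := C1 ^ 2 * (1 + C3) ^ 2
  set K6 := 100 * C0 ^ 2
  have key : (K1 * (D1 * E2) + 2 * (K2 * (D3 * E2) + K3 * (D2 * E2) + K4 * (D3 * E2)) +
      K5 * (D2 * E2) + K6 * (D2 * E2)) ≤
      (K1 + 2 * (K2 + K3 + K4) + K5 + K6) * (D1 * E2 + D2 * E2 + D3 * E2) := by
    generalize D1 * E2 = g1 at *
    generalize D2 * E2 = g2 at *
    generalize D3 * E2 = g3 at *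
    have e1 : (K1 + 2 * (K2 + K3 + K4) + K5 + K6) * (g1 + g2 + g3) -
        (K1 * g1 + 2 * (K2 * g3 + K3 * g2 + K4 * g3) + K5 * g2 + K6 * g2) =
        K1 * (g2 + g3) + 2 * (K2 * (g1 + g2) + K3 * (g1 + g3) + K4 * (g1 + g2)) +
        K5 * (g1 + g3) + K6 * (g1 + g3) := by ring
    have e2 : 0 ≤ K1 * (g2 + g3) + 2 * (K2 * (g1 + g2) + K3 * (g1 + g3) + K4 * (g1 + g2)) +
        K5 * (g1 + g3) + K6 * (g1 + g3) := by positivity
    linarith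
  have e0 : (K1 + 2 * (K2 + K3 + K4) + K5 + K6) * (D1 * E2 + D2 * E2 + D3 * E2) =
      (K1 + 2 * (K2 + K3 + K4) + K5 + K6) * (D1 + D2 + D3) * E2 := by ring
  calc ∑ i ∈ s, ω i * ∫ t : ℝ, ‖BB (F i) (T - 3 * κ + 1) (2 * T + 3 * κ - 1) T u t‖ ^ 2 ≤
      X + Y u + Z + 2 * (Real.sqrt X * Real.sqrt (Y u) + Real.sqrt X * Real.sqrt Z +
        Real.sqrt (Y u) * Real.sqrt Z) + W * (K6 * (T * Eu)) := by
        linarith
    _ ≤ W * Lm ^ 2 * (T / (2 * Real.pi) * Real.exp (-u ^ 2)) + Y u +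
        (K1 * (D1 * E2) + 2 * (K2 * (D3 * E2) + K3 * (D2 * E2) + K4 * (D3 * E2)) +
      K5 * (D2 * E2) + K6 * (D2 * E2)) := by
        linarith
    _ ≤ _ := by linarith

lemma mu_int {mu : ℝ} (hmu : 1 ≤ mu) {Λ : ℝ} :
    ∫ u in (0 : ℝ)..Λ, Real.exp (-(u / (2 * mu))) ≤ 2 * mu := by
  have hmu0 : 0 < mu := by linarith
  have h1 : ∀ x ∈ Set.uIcc (0 : ℝ) Λ, HasDerivAt
      (fun u => -(2 * mu) * Real.exp (-(u / (2 * mu)))) (Real.exp (-(x / (2 * mu)))) x := by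
    intro x _
    have h2 : HasDerivAt (fun u : ℝ => -(u / (2 * mu))) (-(1 / (2 * mu))) x :=
      ((hasDerivAt_id x).div_const (2 * mu)).neg
    have h3 := (h2.exp).const_mul (-(2 * mu))
    have h6 : -(2 * mu) * (Real.exp (-(x / (2 * mu))) * -(1 / (2 * mu))) =
        Real.exp (-(x / (2 * mu))) := by
      field_simp
    rw [h6] at h3
    exact h3
  rw [intervalIntegral.integral_eq_sub_of_hasDerivAt h1
    ((by fun_prop : Continuous fun u : ℝ => Real.exp (-(u / (2 * mu)))).intervalIntegrable _ _)]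
  have h4 : 0 < Real.exp (-(Λ / (2 * mu))) := Real.exp_pos _
  have h5 : Real.exp (-((0 : ℝ) / (2 * mu))) = 1 := by simp
  rw [h5]
  nlinarith

theorem fam_core (γ : ℝ) (h0 : 0 < γ) (hπ : γ < Real.pi) (mu : ℝ) (hmu : 1 ≤ mu) (C1 C0 : ℝ)
    (hC1 : 0 < C1) (hC0 : 0 < C0) :
    ∃ K : ℝ, 0 < K ∧ ∀ {ι : Type} (s : Finset ι) (ω : ι → ℝ) (F : ι → ℂ → ℂ)
      (LL : ι → ℝ) (PS : ι → ℝ → ℝ → ℂ) (T κ Λ Lm y1 y2 : ℝ) (Y : ℝ → ℝ),
      (∀ i ∈ s, 0 ≤ ω i ∧ Mem C1 C0 mu T κ Λ Lm (F i) (LL i) (PS i)) →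
      3 ≤ κ → 8 * κ ≤ T → T ≤ Real.exp (κ ^ 2 / 2) → 1 ≤ Λ → 1 ≤ Lm →
      Lm ^ 2 * Real.exp (Λ - κ ^ 2 / 2) ≤ Real.exp (-Λ) → 0 ≤ y1 → 0 ≤ y2 →
      (∀ u ∈ Set.Icc 0 Λ, ∫ t : ℝ, ∑ i ∈ s, ω i * ‖PS i u t‖ ^ 2 ≤ Y u) →
      (∀ u ∈ Set.Icc 0 Λ, Y u ≤ T * (y1 * (u + 1) + y2)) →
      IntervalIntegrable Y volume 0 Λ →
        ∑ i ∈ s, ω i * ((2 / (Real.sqrt Real.pi * Λ)) * (∫ u in (0 : ℝ)..Λ, Rw γ (u / Λ) *
          ∫ t : ℝ, ‖BB (F i) (T - 3 * κ + 1) (2 * T + 3 * κ - 1) T u t‖ ^ 2)) ≤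
        (∑ i ∈ s, ω i) * Lm ^ 2 * Rw γ 0 * T / (2 * Real.pi * Λ) +
        (2 / (Real.sqrt Real.pi * Λ)) * (∫ u in (0 : ℝ)..Λ, Rw γ (u / Λ) * Y u) +
        K * ((∑ i ∈ s, ω i) * (Lm ^ 2 * κ / Λ + Lm * T / Λ) +
          Real.sqrt (∑ i ∈ s, ω i) * Lm * T * (Real.sqrt y1 + Real.sqrt y2) / Λ) := by
  obtain ⟨K, hK, hfix⟩ := fam_u mu hmu C1 C0 hC1 hC0
  have hR0 : 0 ≤ Rw γ 0 := Rw_nonneg γ h0 hπ 0
  have hRc := fa_Rw_cont γ h0 hπ
  have hmu0 : 0 < mu := by linarith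
  refine ⟨4 * mu * (Rw γ 0 + 1) * K / Real.sqrt Real.pi, by positivity, ?_⟩
  intro ι s ω F LL PS T κ Λ Lm y1 y2 Y hs hκ hT hTκ hΛ hLm hLmΛ hy1 hy2 hY hYb hYi
  have hu := hfix s ω F LL PS T κ Λ Lm y1 y2 Y hs hκ hT hTκ hΛ hLm hLmΛ hy1 hy2
    hY hYb
  have hT0 : 0 < T := by linarith
  have hΛ0 : 0 < Λ := by linarith
  have hκ0 : 0 < κ := by linarith
  have hfin : ∀ i ∈ s, (zset (F i) (T - 3 * κ + 1) (2 * T + 3 * κ - 1)).Finite := fun i hi =>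
    (hs i hi).2.ok.fin _ _ (by linarith)
  set W := ∑ i ∈ s, ω i with hW
  have hW0 : 0 ≤ W := Finset.sum_nonneg fun i hi => (hs i hi).1
  set D := W * (Lm ^ 2 * κ) + W * (Lm * T) +
    Real.sqrt W * Lm * T * (Real.sqrt y1 + Real.sqrt y2) with hD
  have hD0 : 0 ≤ D := by positivity
  set G : ι → ℝ → ℝ := fun i u => ∫ t : ℝ,
    ‖BB (F i) (T - 3 * κ + 1) (2 * T + 3 * κ - 1) T u t‖ ^ 2 with hG
  have hGc : ∀ i ∈ s, Continuous (G i) := fun i hi =>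
    (BB_int (F i) _ _ T (hfin i hi)).2
  have hRc2 : Continuous (fun u : ℝ => Rw γ (u / Λ)) := hRc.comp (by fun_prop)
  have hlhs : ∑ i ∈ s, ω i * ((2 / (Real.sqrt Real.pi * Λ)) *
      (∫ u in (0 : ℝ)..Λ, Rw γ (u / Λ) * G i u)) =
      (2 / (Real.sqrt Real.pi * Λ)) * ∫ u in (0 : ℝ)..Λ, Rw γ (u / Λ) * ∑ i ∈ s, ω i * G i u := by
    have e1 : ∀ u, Rw γ (u / Λ) * ∑ i ∈ s, ω i * G i u =
        ∑ i ∈ s, ω i * (Rw γ (u / Λ) * G i u) := by
      intro u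
      rw [Finset.mul_sum]
      apply Finset.sum_congr rfl
      intro i _
      ring
    simp_rw [e1]
    rw [intervalIntegral.integral_finsetSum, Finset.mul_sum]
    · apply Finset.sum_congr rfl
      intro i _
      rw [intervalIntegral.integral_const_mul]
      ring
    · intro i hi
      exact (continuous_const.mul (hRc2.mul (hGc i hi))).intervalIntegrable _ _
  show ∑ i ∈ s, ω i * ((2 / (Real.sqrt Real.pi * Λ)) *
      (∫ u in (0 : ℝ)..Λ, Rw γ (u / Λ) * G i u)) ≤ _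
  rw [hlhs]
  have hgi : IntervalIntegrable (fun u : ℝ => Rw γ 0 * (W * Lm ^ 2 * (T / (2 * Real.pi)) *
      Real.exp (-u ^ 2))) volume 0 Λ :=
    (by fun_prop : Continuous (fun u : ℝ => Rw γ 0 * (W * Lm ^ 2 * (T / (2 * Real.pi)) *
      Real.exp (-u ^ 2)))).intervalIntegrable _ _
  have hYi2 : IntervalIntegrable (fun u : ℝ => Rw γ (u / Λ) * Y u) volume 0 Λ :=
    hYi.continuousOn_mul hRc2.continuousOn
  have hei : IntervalIntegrable (fun u : ℝ => Rw γ 0 * (K * D * Real.exp (-(u / (2 * mu)))))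
      volume 0 Λ :=
    (by fun_prop : Continuous (fun u : ℝ => Rw γ 0 * (K * D *
      Real.exp (-(u / (2 * mu)))))).intervalIntegrable _ _
  have hint : ∫ u in (0 : ℝ)..Λ, Rw γ (u / Λ) * ∑ i ∈ s, ω i * G i u ≤
      ∫ u in (0 : ℝ)..Λ, (Rw γ 0 * (W * Lm ^ 2 * (T / (2 * Real.pi)) * Real.exp (-u ^ 2)) +
        Rw γ (u / Λ) * Y u + Rw γ 0 * (K * D * Real.exp (-(u / (2 * mu))))) := by
    apply intervalIntegral.integral_mono_on hΛ0.le _ ((hgi.add hYi2).add hei)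
    · intro u hu'
      have h1 := hu u hu'
      have hr0 := Rw_nonneg γ h0 hπ (u / Λ)
      have hr1 : Rw γ (u / Λ) ≤ Rw γ 0 := fa_Rw_le γ h0 hπ (div_nonneg hu'.1 hΛ0.le)
      calc Rw γ (u / Λ) * ∑ i ∈ s, ω i * G i u ≤
          Rw γ (u / Λ) * (W * Lm ^ 2 * (T / (2 * Real.pi) * Real.exp (-u ^ 2)) + Y u +
          K * D * Real.exp (-(u / (2 * mu)))) := mul_le_mul_of_nonneg_left h1 hr0
        _ = Rw γ (u / Λ) * (W * Lm ^ 2 * (T / (2 * Real.pi)) * Real.exp (-u ^ 2)) +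
            Rw γ (u / Λ) * Y u + Rw γ (u / Λ) * (K * D * Real.exp (-(u / (2 * mu)))) := by ring
        _ ≤ _ := by gcongr
    · apply Continuous.intervalIntegrable
      exact hRc2.mul (continuous_finsetSum _ fun i hi => continuous_const.mul (hGc i hi))
  rw [intervalIntegral.integral_add (hgi.add hYi2) hei,
    intervalIntegral.integral_add hgi hYi2, intervalIntegral.integral_const_mul,
    intervalIntegral.integral_const_mul, intervalIntegral.integral_const_mul,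
    intervalIntegral.integral_const_mul] at hint
  have hg1 := fa_gauss_int Λ hΛ0.le
  have he1 := mu_int hmu (Λ := Λ)
  have hsp : 0 < Real.sqrt Real.pi := Real.sqrt_pos.mpr Real.pi_pos
  have hc0 : 0 < 2 / (Real.sqrt Real.pi * Λ) := by positivity
  set IY := ∫ u in (0 : ℝ)..Λ, Rw γ (u / Λ) * Y u with hIY
  have hfin2 : ∫ u in (0 : ℝ)..Λ, Rw γ (u / Λ) * ∑ i ∈ s, ω i * G i u ≤
      Rw γ 0 * (W * Lm ^ 2 * (T / (2 * Real.pi)) * (Real.sqrt Real.pi / 2)) + IY +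
        (Rw γ 0 + 1) * (K * D * (2 * mu)) := by
    refine hint.trans ?_
    have e1 : Rw γ 0 * (W * Lm ^ 2 * (T / (2 * Real.pi)) * ∫ u in (0 : ℝ)..Λ, Real.exp (-u ^ 2)) ≤
        Rw γ 0 * (W * Lm ^ 2 * (T / (2 * Real.pi)) * (Real.sqrt Real.pi / 2)) := by gcongr
    have e2 : Rw γ 0 * (K * D * ∫ u in (0 : ℝ)..Λ, Real.exp (-(u / (2 * mu)))) ≤
        (Rw γ 0 + 1) * (K * D * (2 * mu)) := by
      calc Rw γ 0 * (K * D * ∫ u in (0 : ℝ)..Λ, Real.exp (-(u / (2 * mu)))) ≤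
          Rw γ 0 * (K * D * (2 * mu)) := by gcongr
        _ ≤ _ := by
          apply mul_le_mul_of_nonneg_right (by linarith) (by positivity)
    linarith
  calc (2 / (Real.sqrt Real.pi * Λ)) * ∫ u in (0 : ℝ)..Λ, Rw γ (u / Λ) * ∑ i ∈ s, ω i * G i u
      ≤ (2 / (Real.sqrt Real.pi * Λ)) * (Rw γ 0 * (W * Lm ^ 2 * (T / (2 * Real.pi)) *
        (Real.sqrt Real.pi / 2)) + IY + (Rw γ 0 + 1) * (K * D * (2 * mu))) :=
        mul_le_mul_of_nonneg_left hfin2 hc0.le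
    _ = _ := by
        rw [hD]
        field_simp
        ring

theorem fam_phi (γ : ℝ) (h0 : 0 < γ) (hπ : γ < Real.pi) (mu : ℝ) (hmu : 1 ≤ mu) (C1 C0 C2 : ℝ)
    (hC1 : 0 < C1) (hC0 : 0 < C0) (hC2 : 0 < C2) :
    ∃ C : ℝ, 0 < C ∧ ∀ {ι : Type} (s : Finset ι) (ω : ι → ℝ) (F : ι → ℂ → ℂ)
      (LL : ι → ℝ) (PS : ι → ℝ → ℝ → ℂ) (Φ : ι → ℝ) (T κ Λ Lm y1 y2 : ℝ) (Y : ℝ → ℝ),
      (∀ i ∈ s, 0 ≤ ω i ∧ Mem C1 C0 mu T κ Λ Lm (F i) (LL i) (PS i)) →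
      (∀ i ∈ s, Φ i ≤ (2 / (Real.sqrt Real.pi * Λ)) * (∫ u in (0 : ℝ)..Λ, Rw γ (u / Λ) *
          ∫ t : ℝ, ‖BB (F i) (T - 3 * κ + 1) (2 * T + 3 * κ - 1) T u t‖ ^ 2)
          + C2 * (κ + T * Real.exp (-κ ^ 2 / 2)) * Lm) →
      3 ≤ κ → 8 * κ ≤ T → T ≤ Real.exp (κ ^ 2 / 2) → 1 ≤ Λ → 1 ≤ Lm →
      Lm ^ 2 * Real.exp (Λ - κ ^ 2 / 2) ≤ Real.exp (-Λ) → 0 ≤ y1 → 0 ≤ y2 →
      (∀ u ∈ Set.Icc 0 Λ, ∫ t : ℝ, ∑ i ∈ s, ω i * ‖PS i u t‖ ^ 2 ≤ Y u) →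
      (∀ u ∈ Set.Icc 0 Λ, Y u ≤ T * (y1 * (u + 1) + y2)) →
      IntervalIntegrable Y volume 0 Λ →
        ∑ i ∈ s, ω i * Φ i ≤
        (∑ i ∈ s, ω i) * Lm ^ 2 * Rw γ 0 * T / (2 * Real.pi * Λ) +
        (2 / (Real.sqrt Real.pi * Λ)) * (∫ u in (0 : ℝ)..Λ, Rw γ (u / Λ) * Y u) +
        C * ((∑ i ∈ s, ω i) * (Lm ^ 2 * κ / Λ + Lm * T / Λ + κ * Lm) +
          Real.sqrt (∑ i ∈ s, ω i) * Lm * T * (Real.sqrt y1 + Real.sqrt y2) / Λ) := by
  obtain ⟨K, hK, hcore⟩ := fam_core γ h0 hπ mu hmu C1 C0 hC1 hC0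
  refine ⟨K + 2 * C2, by positivity, ?_⟩
  intro ι s ω F LL PS Φ T κ Λ Lm y1 y2 Y hs hΦ hκ hT hTκ hΛ hLm hLmΛ hy1 hy2 hY hYb hYi
  have hb := hcore s ω F LL PS T κ Λ Lm y1 y2 Y hs hκ hT hTκ hΛ hLm hLmΛ hy1 hy2 hY hYb hYi
  have hT0 : 0 < T := by linarith
  have hΛ0 : 0 < Λ := by linarith
  have hκ0 : 0 < κ := by linarith
  have hW0 : 0 ≤ ∑ i ∈ s, ω i := Finset.sum_nonneg fun i hi => (hs i hi).1
  have hTe : T * Real.exp (-κ ^ 2 / 2) ≤ 1 := by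
    calc T * Real.exp (-κ ^ 2 / 2) ≤ Real.exp (κ ^ 2 / 2) * Real.exp (-κ ^ 2 / 2) := by gcongr
      _ = 1 := by rw [← Real.exp_add]; simp; ring
  have hstep : ∑ i ∈ s, ω i * Φ i ≤
      (∑ i ∈ s, ω i * ((2 / (Real.sqrt Real.pi * Λ)) * (∫ u in (0 : ℝ)..Λ, Rw γ (u / Λ) *
          ∫ t : ℝ, ‖BB (F i) (T - 3 * κ + 1) (2 * T + 3 * κ - 1) T u t‖ ^ 2))) +
      (∑ i ∈ s, ω i) * (2 * C2 * (κ * Lm)) := by
    rw [Finset.sum_mul, ← Finset.sum_add_distrib]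
    apply Finset.sum_le_sum
    intro i hi
    obtain ⟨hω, hm⟩ := hs i hi
    have hp := hΦ i hi
    have he : C2 * (κ + T * Real.exp (-κ ^ 2 / 2)) * Lm ≤ 2 * C2 * (κ * Lm) := by
      calc C2 * (κ + T * Real.exp (-κ ^ 2 / 2)) * Lm ≤ C2 * (κ + κ) * Lm := by
            have : T * Real.exp (-κ ^ 2 / 2) ≤ κ := by linarith
            gcongr
        _ = _ := by ring
    calc ω i * Φ i ≤
        ω i * ((2 / (Real.sqrt Real.pi * Λ)) * (∫ u in (0 : ℝ)..Λ, Rw γ (u / Λ) *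
          ∫ t : ℝ, ‖BB (F i) (T - 3 * κ + 1) (2 * T + 3 * κ - 1) T u t‖ ^ 2) +
            2 * C2 * (κ * Lm)) := by
          apply mul_le_mul_of_nonneg_left _ hω
          linarith
      _ = _ := by ring
  refine (hstep.trans (add_le_add_left hb _)).trans ?_
  set W := ∑ i ∈ s, ω i
  have p1 : 0 ≤ W * (κ * Lm) := by positivity
  have p2 : 0 ≤ W * (Lm ^ 2 * κ / Λ + Lm * T / Λ) := by positivity
  have p3 : 0 ≤ Real.sqrt W * Lm * T * (Real.sqrt y1 + Real.sqrt y2) / Λ := by positivity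
  have q1 : 0 ≤ K * (W * (κ * Lm)) := by positivity
  have q2 : 0 ≤ C2 * (W * (Lm ^ 2 * κ / Λ + Lm * T / Λ)) := by positivity
  have q3 : 0 ≤ C2 * (Real.sqrt W * Lm * T * (Real.sqrt y1 + Real.sqrt y2) / Λ) := by positivity
  have e : (K + 2 * C2) * (W * (Lm ^ 2 * κ / Λ + Lm * T / Λ + κ * Lm) +
      Real.sqrt W * Lm * T * (Real.sqrt y1 + Real.sqrt y2) / Λ) =
      K * (W * (Lm ^ 2 * κ / Λ + Lm * T / Λ) +
      Real.sqrt W * Lm * T * (Real.sqrt y1 + Real.sqrt y2) / Λ) + W * (2 * C2 * (κ * Lm)) +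
      K * (W * (κ * Lm)) + 2 * (C2 * (W * (Lm ^ 2 * κ / Λ + Lm * T / Λ))) +
      2 * (C2 * (Real.sqrt W * Lm * T * (Real.sqrt y1 + Real.sqrt y2) / Λ)) := by ring
  rw [e]
  linarith

end Pool.Agent.H63.DZ
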