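import Pool.Agent.H63.DZ.Fam1

/-!
# The family theorem
-/

set_option autoImplicit false
set_option maxHeartbeats 4000000

open Complex Filter Topology Set MeasureTheory

namespace Pool.Agent.H63.DZ

open H385
open H370 (zset mult NN Nd Ns)

/-- the functionals to which the trace inequality applies -/
def Per (γ : ℝ) (Φ : (ℂ → ℂ) → ℝ → ℝ) : Prop := ∀ C0 : ℝ, 0 < C0 → ∃ C : ℝ, 0 < C ∧
    ∀ (Q : ℝ) (F : ℂ → ℂ), 1 ≤ Q → ZOK F → Cnt C0 Q F →
    ∀ T κ Λ V1 V2 : ℝ, 3 ≤ κ → 8 * κ ≤ T → 1 ≤ Λ → T - 3 * κ ≤ V1 → V1 ≤ T - 3 * κ + 1 →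
      2 * T + 3 * κ - 1 ≤ V2 → V2 ≤ 2 * T + 3 * κ →
      Φ F T ≤ (2 / (Real.sqrt Real.pi * Λ)) * (∫ u in (0 : ℝ)..Λ, Rw γ (u / Λ) *
          ∫ t : ℝ, ‖BB F V1 V2 T u t‖ ^ 2)
        + C * (κ + T * Real.exp (-κ ^ 2 / 2)) * Real.log (Q * T)

lemma Per_s {γ : ℝ} (h0 : 0 < γ) (hπ : γ < Real.pi) :
    Per γ (fun F T => 2 * (NN F T (2 * T) : ℝ) - (Ns F T (2 * T) : ℝ)) :=
  fun C0 hC0 => per_s γ h0 hπ C0 hC0

lemma Per_two {γ : ℝ} (h0 : 0 < γ) (hπ : γ < Real.pi) (r : ℕ) (hr : 1 ≤ r) :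
    Per γ (fun F T => (2 * (r : ℝ) + 1) * (NN F T (2 * T) : ℝ) -
      r * (r + 1) * (Nd F T (2 * T) : ℝ)) :=
  fun C0 hC0 => per_two r hr γ h0 hπ C0 hC0

section

variable {M k : ℕ} {lam : ℕ → ℝ} {uu : ℕ → ℕ → ℂ}
  {H : ℕ → (q : ℕ) → DirichletCharacter ℂ q → ℂ → ℂ}

/-- the coefficients of a group -/
noncomputable def cg (k : ℕ) (lam : ℕ → ℝ) (uu : ℕ → ℕ → ℂ) (v : ℝ) (n : ℕ) : ℂ :=
  ∑ i ∈ (Finset.range k).filter (fun i => lam i = v), uu i n

/-- the factors of dilation -/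
noncomputable def gr (k : ℕ) (lam : ℕ → ℝ) : Finset ℝ := (Finset.range k).image lam

lemma bG_eq (T u t : ℝ) (n : ℕ) :
    bG (gr k lam) (cg k lam uu) T u t n = ∑ i ∈ Finset.range k, (lam i : ℂ) *
      (uu i n * ((Real.sqrt n : ℂ)⁻¹ * bt T u t (lam i * Real.log n))) := by
  unfold bG
  have h1 : ∀ v ∈ gr k lam, (v : ℂ) * (cg k lam uu v n * ((Real.sqrt n : ℂ)⁻¹ *
      bt T u t (v * Real.log n))) = ∑ i ∈ (Finset.range k).filter (fun i => lam i = v),
        (lam i : ℂ) * (uu i n * ((Real.sqrt n : ℂ)⁻¹ * bt T u t (lam i * Real.log n))) := by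
    intro v _
    unfold cg
    rw [Finset.sum_mul, Finset.mul_sum]
    refine Finset.sum_congr rfl fun i hi => ?_
    rw [(Finset.mem_filter.1 hi).2]
  rw [Finset.sum_congr rfl h1]
  exact Finset.sum_fiberwise_of_maps_to
    (fun i hi => Finset.mem_image_of_mem _ hi) _

lemma PSm_eq (hF : FD M k lam uu H) {q : ℕ} {χ : DirichletCharacter ℂ q} (hq : 2 ≤ q)
    (hc : Nat.Coprime q M) (hχ : χ.IsPrimitive) (T u t : ℝ) (hT : 0 ≤ T) :
    PSm k lam uu q χ T u t = ∑' n : ℕ, χ (n : ZMod q) * (ArithmeticFunction.vonMangoldt n : ℂ) *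
      bG (gr k lam) (cg k lam uu) T u t n := by
  unfold PSm PSs PSf
  rw [← Summable.tsum_finsetSum]
  · refine tsum_congr fun n => ?_
    rw [bG_eq, Finset.mul_sum]
    refine Finset.sum_congr rfl fun i _ => ?_
    unfold cf ac fq
    ring
  · intro i hi
    have hi := Finset.mem_range.1 hi
    obtain ⟨A, hA, hg⟩ := hF.good i hi
    exact PSf_summable _ _ T u t hT (cf_summable (hF.hlam i hi) _ zero_le_one
      (hg q χ hq hc hχ).ha u)

theorem final_G (hFD : FD M k lam uu H) (γ β c' : ℝ) (h0 : 0 < γ) (hπ : γ < Real.pi) (hβ : 0 < β)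
    (hc' : 0 ≤ c') (Hy : HYG M (gr k lam) (cg k lam uu) γ β c')
    (Φ : (ℂ → ℂ) → ℝ → ℝ) (hΦ : Per γ Φ) (ε : ℝ) (hε : 0 < ε) :
    ∃ K η X0 : ℝ, 1 ≤ K ∧ 0 < η ∧ 1 ≤ X0 ∧
    ∀ (X Y : ℕ) (T : ℝ), X0 ≤ X → K * X ≤ Y → (Y : ℝ) ≤ (X : ℝ) ^ (1 + η) →
      (Real.log X) ^ 2 ≤ T → T ≤ (X : ℝ) ^ η →
      primFamM M X Y (fun q χ => Φ (FF k lam H q χ) T) ≤
        ((∑ i ∈ Finset.range k, lam i) * Rw γ 0 / β + c' / (∑ i ∈ Finset.range k, lam i) + ε) *
          primFamM M X Y (fun q χ => (NN (FF k lam H q χ) T (2 * T) : ℝ)) := by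
  have hk := hFD.hk
  have hlam := hFD.hlam
  have hR0 : 0 ≤ Rw γ 0 := Rw_nonneg γ h0 hπ 0
  obtain ⟨D, hD⟩ : ∃ D, D = ∑ i ∈ Finset.range k, lam i := ⟨_, rfl⟩
  obtain ⟨mu, hmu⟩ : ∃ mu, mu = D := ⟨_, rfl⟩
  have hlmu : ∀ i < k, lam i ≤ mu := by
    intro i hi
    rw [hmu, hD]
    exact Finset.single_le_sum (f := fun i => lam i)
      (fun i hi => by linarith [hlam i (Finset.mem_range.1 hi)]) (Finset.mem_range.2 hi)
  have hmu1 : 1 ≤ mu := (hlam 0 (by omega)).trans (hlmu 0 (by omega))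
  have hD1 : 1 ≤ D := by rw [← hmu]; exact hmu1
  have hD0 : 0 < D := by linarith
  obtain ⟨C1, C0, hC1, hC0, hmem⟩ := hFD.mem mu hlmu
  obtain ⟨C0', hC0', hcnt⟩ := hFD.cnt
  obtain ⟨Cp, hCp, hper⟩ := hΦ C0' hC0'
  obtain ⟨Cf, hCf, hfam⟩ := fam_phi γ h0 hπ mu hmu1 C1 C0 Cp hC1 hC0 hCp
  -- lower bounds for the numbers of the zeros
  have hlow1 : ∀ i : ℕ, ∃ C : ℝ, 0 < C ∧ (i < k → ∀ (q : ℕ) (χ : DirichletCharacter ℂ q),
      2 ≤ q → Nat.Coprime q M → χ.IsPrimitive → ∀ T κ : ℝ, 3 ≤ κ → 8 * κ ≤ T →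
      lam i * T / (2 * Real.pi) * (1 * Real.log (q * (lam i * T))) -
        C * (lam i * T + κ * Real.log (q * (lam i * T)) + lam i * T *
          Real.log (q * (lam i * T)) ^ 2 * Real.exp (-κ ^ 2 / 2)) ≤
      (NN (dil (lam i) (H i q χ)) T (2 * T) : ℝ)) := by
    intro i
    by_cases hi : i < k
    · obtain ⟨A, hA, hg⟩ := hFD.good i hi
      obtain ⟨C, hC, hz⟩ := N_lower_D 1 A le_rfl hA
      refine ⟨C, hC, fun _ q χ hq hc hχ T κ hκ hT => ?_⟩
      have hl := hlam i hi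
      have hq1 : (1 : ℝ) ≤ q := by exact_mod_cast (by omega : 1 ≤ q)
      have h2 := hz q _ _ hq1 (hg q χ hq hc hχ) (lam i * T) κ hκ (by nlinarith)
      rw [NN_dil hl (ZOK.of_goodD (hg q χ hq hc hχ)) (by linarith)]
      rw [show lam i * (2 * T) = 2 * (lam i * T) by ring]
      exact h2
    · exact ⟨1, one_pos, fun h => absurd h hi⟩
  choose Cl hCl hlow using hlow1
  obtain ⟨C2, hC2⟩ : ∃ C2, C2 = mu * (∑ i ∈ Finset.range k, Cl i) + 1 := ⟨_, rfl⟩
  have hSCl : 0 ≤ ∑ i ∈ Finset.range k, Cl i := Finset.sum_nonneg fun i _ => (hCl i).le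
  have hC20 : 0 < C2 := by rw [hC2]; positivity
  have hpi := Real.pi_pos
  obtain ⟨CC, hCC⟩ : ∃ CC, CC = Cf * D ^ 2 := ⟨_, rfl⟩
  have hCC0 : 0 < CC := by rw [hCC]; positivity
  -- choose ε1
  obtain ⟨ε1, hε1, hε1a, hε1b⟩ : ∃ ε1 : ℝ, 0 < ε1 ∧ ε1 ≤ ε / 8 ∧ 6 * Real.pi * CC * ε1 / β ≤ ε / 8 := by
    refine ⟨min (ε / 8) (ε / 8 * β / (6 * Real.pi * CC)), ?_, min_le_left _ _, ?_⟩
    · exact lt_min (by positivity) (by positivity)
    · have : 6 * Real.pi * CC * min (ε / 8) (ε / 8 * β / (6 * Real.pi * CC)) ≤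
          6 * Real.pi * CC * (ε / 8 * β / (6 * Real.pi * CC)) := by
        gcongr; exact min_le_right _ _
      rw [div_le_iff₀ hβ]
      refine this.trans (le_of_eq ?_)
      field_simp
  obtain ⟨K, η0, X0, hK, hη0, hX0, hmain⟩ := Hy ε1 hε1
  -- choose η
  obtain ⟨η, hη, hη1, hηη0, hη2⟩ : ∃ η : ℝ, 0 < η ∧ η ≤ 1 ∧ η ≤ η0 ∧
      8 * η * (D ^ 2 * Rw γ 0 / β) ≤ ε / 8 := by
    refine ⟨min (min 1 η0) (ε / 64 / (D ^ 2 * Rw γ 0 / β + 1)), ?_, ?_, ?_, ?_⟩
    · exact lt_min (lt_min one_pos hη0) (by positivity)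
    · exact (min_le_left _ _).trans (min_le_left _ _)
    · exact (min_le_left _ _).trans (min_le_right _ _)
    · have h1 : min (min 1 η0) (ε / 64 / (D ^ 2 * Rw γ 0 / β + 1)) ≤ ε / 64 / (D ^ 2 * Rw γ 0 / β + 1) :=
        min_le_right _ _
      have h2 : 0 ≤ D ^ 2 * Rw γ 0 / β := by positivity
      have h3 : ε / 64 / (D ^ 2 * Rw γ 0 / β + 1) * (D ^ 2 * Rw γ 0 / β) ≤ ε / 64 := by
        rw [div_mul_eq_mul_div, div_le_iff₀ (by positivity)]
        exact NL.b9 (by positivity)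
      have h4 : min (min 1 η0) (ε / 64 / (D ^ 2 * Rw γ 0 / β + 1)) * (D ^ 2 * Rw γ 0 / β) ≤
          ε / 64 / (D ^ 2 * Rw γ 0 / β + 1) * (D ^ 2 * Rw γ 0 / β) := mul_le_mul_of_nonneg_right h1 h2
      exact NL.b10 h4 h3
  -- choose L0
  have hev : ∀ᶠ L : ℝ in atTop, 4 * (β + 1) + 8 ≤ L ∧ 1 / (β + 1) ≤ L ∧ 1 ≤ β * L ∧
      Real.log D ≤ L ∧ Real.log mu ≤ η * L ∧ CC * (12 / β + 3) * (2 * Real.pi) ≤ ε / 8 * L ∧
      10 * Real.pi * C2 * (D ^ 2 * Rw γ 0 / β + c' + ε) ≤ ε / 2 * L := by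
    filter_upwards [eventually_ge_atTop (4 * (β + 1) + 8), eventually_ge_atTop (1 / (β + 1)),
      lin_ev 1 β hβ, eventually_ge_atTop (Real.log D), lin_ev (Real.log mu) η hη,
      lin_ev (CC * (12 / β + 3) * (2 * Real.pi)) (ε / 8) (by positivity),
      lin_ev (10 * Real.pi * C2 * (D ^ 2 * Rw γ 0 / β + c' + ε)) (ε / 2) (by positivity)]
      with L a1 a2 a3 a4 a5 a6 a7
    exact ⟨a1, a2, a3, a4, a5, a6, a7⟩
  obtain ⟨L0, hL0⟩ := Filter.eventually_atTop.mp hev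
  refine ⟨K, η / 2, max X0 (Real.exp L0), hK, by positivity, le_max_of_le_left hX0, ?_⟩
  intro X Y T hX hKX hY hT1 hT2
  have hXX0 : X0 ≤ X := (le_max_left _ _).trans hX
  have hXe : Real.exp L0 ≤ X := (le_max_right _ _).trans hX
  have hX1 : (1 : ℝ) ≤ X := hX0.trans hXX0
  have hXpos : (0 : ℝ) < X := by linarith
  have hXn : 1 ≤ X := by exact_mod_cast hX1
  set L : ℝ := Real.log X with hL
  have hLL0 : L0 ≤ L := by
    rw [hL, Real.le_log_iff_exp_le hXpos]; exact hXe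
  obtain ⟨l1, l2, l3, l4, l5, l6, l7⟩ := hL0 L hLL0
  have hXη : ∀ x : ℝ, (X : ℝ) ^ x = Real.exp (x * L) := by
    intro x
    rw [Real.rpow_def_of_pos hXpos, mul_comm]
  have hT2' : T ≤ Real.exp (η / 2 * L) := by rw [← hXη]; exact hT2
  have hXY : (X : ℝ) ≤ Y := NL.b11 hXpos.le hK hKX
  have hYpos : (0 : ℝ) < Y := by linarith
  obtain ⟨p1, p2, p3, p4, p5, p6⟩ := param_ok (β + 1) L T (η / 2) (by linarith) (by linarith) l1 l2
    hT1 hT2'
  have hTpos : 0 < T := by linarith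
  have hL8 : 8 ≤ L := by linarith
  have hLpos : 0 < L := by linarith
  have hlogs : ∀ (q : ℕ) (i : ℕ), X < q → q ≤ Y → i < k →
      L ≤ Real.log (q * (lam i * T)) ∧ Real.log (q * (lam i * T)) ≤ (1 + 2 * η) * L := by
    intro q i hq1 hq2 hi
    have hl := hlam i hi
    have hl0 : 0 < lam i := by linarith
    have hqX : (X : ℝ) ≤ q := by exact_mod_cast hq1.le
    have hqY : (q : ℝ) ≤ Y := by exact_mod_cast hq2
    have hq0 : (0 : ℝ) < q := by linarith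
    have hT1' : 1 ≤ T := by linarith
    constructor
    · rw [hL]
      refine Real.log_le_log hXpos ?_
      calc (X : ℝ) = X * 1 := (mul_one _).symm
        _ ≤ q * (lam i * T) := mul_le_mul hqX (one_le_mul_of_one_le_of_one_le hl hT1')
            zero_le_one hq0.le
    · rw [Real.log_mul hq0.ne' (by positivity), Real.log_mul hl0.ne' hTpos.ne']
      have h1 : Real.log q ≤ (1 + η / 2) * L := by
        have h3 := Real.log_le_log hq0 (hqY.trans hY)
        rwa [Real.log_rpow hXpos] at h3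
      have h2 : Real.log T ≤ η / 2 * L := by
        have := Real.log_le_log hTpos hT2'
        rwa [Real.log_exp] at this
      have h3 : Real.log (lam i) ≤ η * L := (Real.log_le_log hl0 (hlmu i hi)).trans l5
      linarith
  have hηle : (X : ℝ) ^ (1 + η / 2) ≤ (X : ℝ) ^ (1 + η0) :=
    Real.rpow_le_rpow_of_exponent_le hX1 (by linarith)
  have hηle2 : (X : ℝ) ^ (η / 2) ≤ (X : ℝ) ^ η0 :=
    Real.rpow_le_rpow_of_exponent_le hX1 (by linarith)
  obtain ⟨Yf, y1, y2, hy1, hy2, m1, m2, m3, m4, m5⟩ := hmain X Y T hXX0 hKX (hY.trans hηle) hT1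
    (hT2.trans hηle2)
  rw [← hL] at m1 m2 m3 m4 m5
  have hLb1 : 1 ≤ (1 + 2 * η) * L := NL.b12 hη (by linarith)
  have hLb3 : (1 + 2 * η) * L ≤ 3 * L := mul_le_mul_of_nonneg_right (by linarith) (by linarith)
  have hLb0 : 0 ≤ (1 + 2 * η) * L := by linarith
  have hLb2 : ((1 + 2 * η) * L) ^ 2 ≤ 9 * L ^ 2 := by
    have h0 : ((1 + 2 * η) * L) ^ 2 ≤ (3 * L) ^ 2 := pow_le_pow_left₀ hLb0 hLb3 2
    linarith [show (3 * L) ^ 2 = 9 * L ^ 2 by ring]
  have hexp0 : D ^ 2 * (9 * L ^ 2 * Real.exp (β * L - L ^ 2 / 2)) ≤ Real.exp (-(β * L)) := by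
    have e1 : D ^ 2 ≤ Real.exp (2 * L) := by
      have : D ≤ Real.exp L := by
        rw [← Real.log_le_iff_le_exp hD0]; exact l4
      calc D ^ 2 ≤ (Real.exp L) ^ 2 := pow_le_pow_left₀ hD0.le this 2
        _ = Real.exp (2 * L) := by rw [← Real.exp_nat_mul]; norm_num
    have e2 : Real.exp (2 * L) * (9 * L ^ 2 * Real.exp (β * L - L ^ 2 / 2)) =
        Real.exp L * (9 * L ^ 2 * Real.exp ((β + 1) * L - L ^ 2 / 2)) := by
      have a1 : Real.exp (2 * L) = Real.exp L * Real.exp L := by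
        rw [← Real.exp_add]; congr 1; ring
      have a2 : Real.exp ((β + 1) * L - L ^ 2 / 2) =
          Real.exp L * Real.exp (β * L - L ^ 2 / 2) := by
        rw [← Real.exp_add]; congr 1; ring
      rw [a1, a2]; ring
    calc D ^ 2 * (9 * L ^ 2 * Real.exp (β * L - L ^ 2 / 2)) ≤
        Real.exp (2 * L) * (9 * L ^ 2 * Real.exp (β * L - L ^ 2 / 2)) :=
          mul_le_mul_of_nonneg_right e1 (by positivity)
      _ = _ := e2
      _ ≤ Real.exp L * Real.exp (-((β + 1) * L)) :=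
          mul_le_mul_of_nonneg_left p5 (Real.exp_pos _).le
      _ = Real.exp (-(β * L)) := by rw [← Real.exp_add]; congr 1; ring
  have hexp1 : ((1 + 2 * η) * L) ^ 2 * Real.exp (β * L - L ^ 2 / 2) ≤ Real.exp (-(β * L)) := by
    refine le_trans ?_ hexp0
    have e1 : (1 : ℝ) ≤ D ^ 2 := one_le_pow₀ hD1
    calc ((1 + 2 * η) * L) ^ 2 * Real.exp (β * L - L ^ 2 / 2) ≤
        1 * (9 * L ^ 2 * Real.exp (β * L - L ^ 2 / 2)) := by
          rw [one_mul]; exact mul_le_mul_of_nonneg_right hLb2 (Real.exp_pos _).le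
      _ ≤ _ := mul_le_mul_of_nonneg_right e1 (by positivity)
  have hexp2 : (D * ((1 + 2 * η) * L)) ^ 2 * Real.exp (β * L - L ^ 2 / 2) ≤
      Real.exp (-(β * L)) := by
    refine le_trans ?_ hexp0
    calc (D * ((1 + 2 * η) * L)) ^ 2 * Real.exp (β * L - L ^ 2 / 2) =
        D ^ 2 * (((1 + 2 * η) * L) ^ 2 * Real.exp (β * L - L ^ 2 / 2)) := by ring
      _ ≤ _ := mul_le_mul_of_nonneg_left
          (mul_le_mul_of_nonneg_right hLb2 (Real.exp_pos _).le) (sq_nonneg _)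
  have hW : ∑ p ∈ primSetM M X Y, (1 / (p.1 : ℝ) ^ 2) = WM M X Y := by
    unfold WM; rw [primFamM_eq]; simp
  have hW0 : 0 ≤ WM M X Y := primFamM_nonneg _ _ _ _ (fun _ _ => zero_le_one)
  have hdata : ∀ p ∈ primSetM M X Y, 0 ≤ (1 / (p.1 : ℝ) ^ 2) ∧
      Mem C1 C0 mu T L (β * L) (D * ((1 + 2 * η) * L)) (FF k lam H p.1 p.2)
        (∑ i ∈ Finset.range k, lam i * 1 * Real.log ((p.1 : ℝ) * (lam i * T)))
        (PSm k lam uu p.1 p.2 T) := by
    intro p hp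
    obtain ⟨h1, h2, h4, h3⟩ := (mem_primSetM M X Y p).mp hp
    refine ⟨by positivity, ?_⟩
    have := hmem p.1 p.2 (by omega) h4 h3 T L (β * L) ((1 + 2 * η) * L) p1 p2
      (fun i hi => (hlogs p.1 i h1 h2 hi).2) hLb1 hexp1
    rw [← hD] at this
    exact this
  have hper' : ∀ p ∈ primSetM M X Y, Φ (FF k lam H p.1 p.2) T ≤
      (2 / (Real.sqrt Real.pi * (β * L))) * (∫ u in (0 : ℝ)..(β * L), Rw γ (u / (β * L)) *
          ∫ t : ℝ, ‖BB (FF k lam H p.1 p.2) (T - 3 * L + 1) (2 * T + 3 * L - 1) T u t‖ ^ 2)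
          + Cp * (L + T * Real.exp (-L ^ 2 / 2)) * (D * ((1 + 2 * η) * L)) := by
    intro p hp
    obtain ⟨h1, h2, h4, h3⟩ := (mem_primSetM M X Y p).mp hp
    have hq1 : (1 : ℝ) ≤ (p.1 : ℝ) := by exact_mod_cast (by omega : 1 ≤ p.1)
    have hb := hper p.1 _ hq1 (hFD.FF_ok (by omega) h4 h3) (hcnt p.1 p.2 (by omega) h4 h3)
      T L (β * L) (T - 3 * L + 1) (2 * T + 3 * L - 1) p1 p2 l3 (by linarith) le_rfl le_rfl
      (by linarith)
    refine hb.trans (add_le_add le_rfl ?_)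
    refine mul_le_mul_of_nonneg_left ?_ (by positivity)
    have hl0 := hlam 0 (by omega)
    have hq0 : (0 : ℝ) < (p.1 : ℝ) := by linarith
    calc Real.log ((p.1 : ℝ) * T) ≤ Real.log ((p.1 : ℝ) * (lam 0 * T)) := by
          apply Real.log_le_log (by positivity)
          apply mul_le_mul_of_nonneg_left _ hq0.le
          exact le_mul_of_one_le_left hTpos.le hl0
      _ ≤ (1 + 2 * η) * L := (hlogs p.1 0 h1 h2 (by omega)).2
      _ = 1 * ((1 + 2 * η) * L) := (one_mul _).symm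
      _ ≤ _ := mul_le_mul_of_nonneg_right hD1 hLb0
  have hms : ∀ u ∈ Set.Icc 0 (β * L),
        ∫ t : ℝ, ∑ p ∈ primSetM M X Y, (1 / (p.1 : ℝ) ^ 2) *
          ‖PSm k lam uu p.1 p.2 T u t‖ ^ 2 ≤ Yf u := by
    intro u hu
    refine le_trans (le_of_eq ?_) (m1 u hu)
    congr 1
    funext t
    rw [primFamM_eq]
    refine Finset.sum_congr rfl fun p hp => ?_
    obtain ⟨h1, h2, h4, h3⟩ := (mem_primSetM M X Y p).mp hp
    rw [PSm_eq hFD (by omega) h4 h3 T u t hTpos.le]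
  have hLm1 : 1 ≤ D * ((1 + 2 * η) * L) := one_le_mul_of_one_le_of_one_le hD1 hLb1
  have hκexp : T ≤ Real.exp (L ^ 2 / 2) := p3
  have k1 := hfam (primSetM M X Y) (fun p => 1 / (p.1 : ℝ) ^ 2) (fun p => FF k lam H p.1 p.2)
    (fun p => ∑ i ∈ Finset.range k, lam i * 1 * Real.log ((p.1 : ℝ) * (lam i * T)))
    (fun p => PSm k lam uu p.1 p.2 T) (fun p => Φ (FF k lam H p.1 p.2) T)
    T L (β * L) (D * ((1 + 2 * η) * L)) y1 y2 Yf hdata hper' p1 p2 hκexp l3 hLm1 hexp2 hy1 hy2 hms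
    m2 m3
  -- lower bound for the number of zeros
  have hN : WM M X Y * (D * (T / (2 * Real.pi) * L) - 5 * C2 * T) ≤
      primFamM M X Y (fun q χ => (NN (FF k lam H q χ) T (2 * T) : ℝ)) := by
    have : WM M X Y * (D * (T / (2 * Real.pi) * L) - 5 * C2 * T) =
        primFamM M X Y (fun _ _ => D * (T / (2 * Real.pi) * L) - 5 * C2 * T) := by
      rw [primFamM_eq, ← hW, Finset.sum_mul]
    rw [this]
    refine primFamM_mono _ _ _ _ _ (fun q χ hq1 hq2 hqM hχ => ?_)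
    have hNN : NN (FF k lam H q χ) T (2 * T) =
        ∑ i ∈ Finset.range k, NN (dil (lam i) (H i q χ)) T (2 * T) :=
      PR_NN (hFD.ok (by omega) hqM hχ) (by linarith)
    rw [hNN]
    push_cast
    have hterm : ∀ i ∈ Finset.range k, lam i * (T / (2 * Real.pi) * L) - 5 * (mu * Cl i) * T ≤
        (NN (dil (lam i) (H i q χ)) T (2 * T) : ℝ) := by
      intro i hi
      have hi := Finset.mem_range.1 hi
      have hl := hlam i hi
      have hl0 : 0 < lam i := by linarith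
      have hlm := hlmu i hi
      have hlo := hlow i hi q χ (by omega) hqM hχ T L p1 p2
      obtain ⟨g1, g2⟩ := hlogs q i hq1 hq2 hi
      set lg := Real.log (q * (lam i * T)) with hlg
      have g3 : lg ≤ 3 * L := g2.trans hLb3
      have g0 : 0 ≤ lg := hLpos.le.trans g1
      refine le_trans ?_ hlo
      have a1 : lam i * (T / (2 * Real.pi) * L) ≤ lam i * T / (2 * Real.pi) * (1 * lg) := by
        calc lam i * (T / (2 * Real.pi) * L) = lam i * T / (2 * Real.pi) * L := by ring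
          _ ≤ lam i * T / (2 * Real.pi) * (1 * lg) := by
            rw [one_mul]
            exact mul_le_mul_of_nonneg_left g1 (by positivity)
      have a2 : L * lg ≤ 3 * (mu * T) := by
        have h1 : L * lg ≤ L * (3 * L) := mul_le_mul_of_nonneg_left g3 hLpos.le
        have h2 : T ≤ mu * T := le_mul_of_one_le_left hTpos.le hmu1
        linarith [show L * (3 * L) = 3 * L ^ 2 by ring]
      have a3 : lam i * T * lg ^ 2 * Real.exp (-L ^ 2 / 2) ≤ mu * T := by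
        have b1 : lg ^ 2 ≤ (3 * L) ^ 2 := pow_le_pow_left₀ g0 g3 2
        have b2 : lg ^ 2 * Real.exp (-L ^ 2 / 2) ≤ 1 := by
          refine le_trans (mul_le_mul_of_nonneg_right b1 (Real.exp_pos _).le) ?_
          rw [show (3 * L) ^ 2 = 9 * L ^ 2 by ring]; exact p6
        calc _ = lam i * T * (lg ^ 2 * Real.exp (-L ^ 2 / 2)) := by ring
          _ ≤ mu * T * 1 := by gcongr
          _ = mu * T := mul_one _
      have a4 : lam i * T ≤ mu * T := mul_le_mul_of_nonneg_right hlm hTpos.le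
      have a5 : Cl i * (lam i * T + L * lg + lam i * T * lg ^ 2 * Real.exp (-L ^ 2 / 2)) ≤
          Cl i * (5 * (mu * T)) := mul_le_mul_of_nonneg_left (by linarith) (hCl i).le
      have a6 : Cl i * (5 * (mu * T)) = 5 * (mu * Cl i) * T := by ring
      linarith
    have hs := Finset.sum_le_sum hterm
    refine le_trans ?_ hs
    rw [Finset.sum_sub_distrib, ← Finset.sum_mul, ← hD]
    have e1 : ∑ i ∈ Finset.range k, 5 * (mu * Cl i) * T =
        5 * (mu * ∑ i ∈ Finset.range k, Cl i) * T := by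
      rw [← Finset.sum_mul, ← Finset.mul_sum, ← Finset.mul_sum]
    rw [e1, hC2]
    have e2 : 5 * (mu * ∑ i ∈ Finset.range k, Cl i) * T ≤
        5 * (mu * (∑ i ∈ Finset.range k, Cl i) + 1) * T := by
      apply mul_le_mul_of_nonneg_right _ hTpos.le
      linarith
    linarith
  have core : primFamM M X Y (fun q χ => Φ (FF k lam H q χ) T) ≤
      (D * Rw γ 0 / β + c' / D + ε) *
        primFamM M X Y (fun q χ => (NN (FF k lam H q χ) T (2 * T) : ℝ)) := by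
    refine numeric_core_D D β c' ε (Rw γ 0) CC C2 η ε1 L T (WM M X Y) _ _ _ _ hD1 hβ hc' hε hR0
      hCC0 hC20 hη hη1 hε1 hL8 hT1 hW0 hη2 hε1a l6 hε1b l7 m4 m5 ?_ hN
      (primFamM_nonneg _ _ _ _ (fun _ _ => Nat.cast_nonneg _))
    rw [primFamM_eq]
    rw [hW] at k1
    refine k1.trans ?_
    refine add_le_add (le_of_eq (by ring)) ?_
    set l := (1 + 2 * η) * L with hl
    set W := WM M X Y with hWd
    have q1 : (D * l) ^ 2 * L / (β * L) = D ^ 2 * (l ^ 2 * L / (β * L)) := by ring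
    have q2 : D * l * T / (β * L) ≤ D ^ 2 * (l * T / (β * L)) := by
      have : D ≤ D ^ 2 := le_self_pow₀ hD1 two_ne_zero
      calc D * l * T / (β * L) = D * (l * T / (β * L)) := by ring
        _ ≤ _ := mul_le_mul_of_nonneg_right this (by positivity)
    have q3 : L * (D * l) ≤ D ^ 2 * (L * l) := by
      have : D ≤ D ^ 2 := le_self_pow₀ hD1 two_ne_zero
      calc L * (D * l) = D * (L * l) := by ring
        _ ≤ _ := mul_le_mul_of_nonneg_right this (by positivity)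
    have q4 : Real.sqrt W * (D * l) * T * (Real.sqrt y1 + Real.sqrt y2) / (β * L) ≤
        D ^ 2 * (Real.sqrt W * l * T * (Real.sqrt y1 + Real.sqrt y2) / (β * L)) := by
      have : D ≤ D ^ 2 := le_self_pow₀ hD1 two_ne_zero
      calc Real.sqrt W * (D * l) * T * (Real.sqrt y1 + Real.sqrt y2) / (β * L) =
          D * (Real.sqrt W * l * T * (Real.sqrt y1 + Real.sqrt y2) / (β * L)) := by ring
        _ ≤ _ := mul_le_mul_of_nonneg_right this (by positivity)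
    rw [hCC, mul_assoc Cf]
    refine mul_le_mul_of_nonneg_left ?_ hCf.le
    rw [mul_add (D ^ 2)]
    refine add_le_add ?_ q4
    calc W * ((D * l) ^ 2 * L / (β * L) + D * l * T / (β * L) + L * (D * l)) ≤
        W * (D ^ 2 * (l ^ 2 * L / (β * L)) + D ^ 2 * (l * T / (β * L)) + D ^ 2 * (L * l)) := by
          refine mul_le_mul_of_nonneg_left ?_ hW0
          rw [q1]
          exact add_le_add (add_le_add le_rfl q2) q3
      _ = _ := by ring
  rw [← hD]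
  exact core

end

end Pool.Agent.H63.DZ
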