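import Pool.Agent.H63.DZ.Fin1
import Pool.Graph.R_pool_sql_team_seeded_707910d6.T2H62.MQ.D

/-!
# The family theorem for twisted and shifted Dirichlet L-functions
-/

set_option autoImplicit false
set_option maxHeartbeats 4000000

open Complex Filter Topology Set MeasureTheory

namespace Pool.Agent.H63.DZ

open H385
open H370 (zset mult NN Nd Ns)
open Pool.Agent.T2H62.MQ (uc cP cP' cP'_sq cP'_le uc_norm selb_P G_good)
open Pool.Agent.T2H25.ZR (quo)

/-- enumeration of a finite set of naturals -/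
noncomputable def en (J : Finset ℕ) (i : ℕ) : ℕ :=
  if h : i < J.card then J.orderEmbOfFin rfl ⟨i, h⟩ else 0

lemma en_mem {J : Finset ℕ} {i : ℕ} (h : i < J.card) : en J i ∈ J := by
  unfold en
  rw [dif_pos h]
  exact Finset.orderEmbOfFin_mem J rfl _

lemma en_inj {J : Finset ℕ} {i j : ℕ} (hi : i < J.card) (hj : j < J.card) (h : en J i = en J j) :
    i = j := by
  unfold en at h
  rw [dif_pos hi, dif_pos hj] at h
  have := (J.orderEmbOfFin rfl).injective h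
  simpa using this

lemma en_sum {β : Type*} [AddCommMonoid β] (J : Finset ℕ) (g : ℕ → β) :
    ∑ i ∈ Finset.range J.card, g (en J i) = ∑ j ∈ J, g j := by
  rw [Finset.sum_range]
  have h1 : ∀ i : Fin J.card, g (en J i) = g (J.orderEmbOfFin rfl i) := by
    intro i
    unfold en
    rw [dif_pos i.2]
  simp_rw [h1]
  have h2 := Finset.sum_map Finset.univ (J.orderEmbOfFin rfl).toEmbedding g
  rw [Finset.map_orderEmbOfFin_univ] at h2
  exact h2.symm

section many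

variable {f : ℕ → ℕ} (ψ : ∀ i, DirichletCharacter ℂ (f i)) (α : ℕ → ℝ)

theorem selM_fiber [∀ i, NeZero (f i)] (J : Finset ℕ) (hJ : J.Nonempty)
    (hne : ∀ i ∈ J, ∀ j ∈ J, i ≠ j → quo (ψ i) (ψ j) ≠ 1 ∨ α j - α i ≠ 0) :
    SelM (fun n => ∑ i ∈ J, uc ψ α i n) J.card := by
  have hm : 1 ≤ J.card := Finset.card_pos.2 hJ
  obtain ⟨C, hC⟩ := selb_P (fun i => ψ (en J i)) (fun i => α (en J i)) J.card hm
    (fun i hi j hj hij => hne _ (en_mem hi) _ (en_mem hj) (fun h => hij (en_inj hi hj h)))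
  refine ⟨cP' (fun i => ψ (en J i)) (fun i => α (en J i)) J.card, C, hC, Nat.cast_nonneg _, ?_⟩
  intro n
  have h1 : cP (fun i => ψ (en J i)) (fun i => α (en J i)) J.card n = ∑ i ∈ J, uc ψ α i n := by
    unfold cP
    exact en_sum J (fun i => uc ψ α i n)
  have h2 := cP'_sq (fun i => ψ (en J i)) (fun i => α (en J i)) J.card n
  rw [h1] at h2
  unfold wc
  rw [h2]
  have hm0 : (0 : ℝ) < J.card := by exact_mod_cast hm
  field_simp

theorem fam_final [∀ i, NeZero (f i)] (hψ : ∀ i, (ψ i).IsPrimitive) (hα : ∀ i, 0 ≤ α i) (k : ℕ)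
    (hk : 1 ≤ k) (lam : ℕ → ℝ) (hlam : ∀ i < k, 1 ≤ lam i)
    (hne : ∀ i < k, ∀ j < k, i ≠ j → lam i = lam j → quo (ψ i) (ψ j) ≠ 1 ∨ α j - α i ≠ 0)
    (M : ℕ) (hsq : Squarefree M) (hM : ∀ q : ℕ, Nat.Coprime q M → ∀ i < k, Nat.Coprime q (f i))
    (γ β : ℝ) (h0 : 0 < γ) (hπ : γ < Real.pi) (hβ : 0 < β) (hβ2 : β < 2)
    (Φ : (ℂ → ℂ) → ℝ → ℝ) (hΦ : Per γ Φ) (ε : ℝ) (hε : 0 < ε) :
    ∃ K η X0 : ℝ, 1 ≤ K ∧ 0 < η ∧ 1 ≤ X0 ∧
    ∀ (X Y : ℕ) (T : ℝ), X0 ≤ X → K * X ≤ Y → (Y : ℝ) ≤ (X : ℝ) ^ (1 + η) →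
      (Real.log X) ^ 2 ≤ T → T ≤ (X : ℝ) ^ η →
      primFamM M X Y (fun q χ => Φ (FF k lam (Pool.Agent.T2H62.MQ.G ψ α) q χ) T) ≤
        ((∑ i ∈ Finset.range k, lam i) * Rw γ 0 / β +
          (k * (2 * β * ∫ α in (0 : ℝ)..1, α * Rw γ α)) / (∑ i ∈ Finset.range k, lam i) + ε) *
          primFamM M X Y (fun q χ =>
            (NN (FF k lam (Pool.Agent.T2H62.MQ.G ψ α) q χ) T (2 * T) : ℝ)) := by
  classical
  have hk1 : (1 : ℝ) ≤ k := by exact_mod_cast hk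
  have hFD : FD M k lam (uc ψ α) (Pool.Agent.T2H62.MQ.G ψ α) := by
    refine ⟨hk, hlam, fun i hi => ?_⟩
    obtain ⟨A, hA, hg⟩ := G_good ψ α hψ hα i
    exact ⟨A, hA, fun q χ hq hc hχ => hg q χ (by omega) (hM q hc i hi) hχ⟩
  have hG : ∀ v ∈ gr k lam, 1 ≤ v := by
    intro v hv
    obtain ⟨i, hi, rfl⟩ := Finset.mem_image.1 hv
    exact hlam i (Finset.mem_range.1 hi)
  have hc : ∀ v ∈ gr k lam, ∀ n, ‖cg k lam (uc ψ α) v n‖ ≤ k := by
    intro v _ n
    unfold cg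
    refine (norm_sum_le _ _).trans ?_
    calc ∑ i ∈ (Finset.range k).filter (fun i => lam i = v), ‖uc ψ α i n‖ ≤
        ∑ _i ∈ (Finset.range k).filter (fun i => lam i = v), (1 : ℝ) :=
          Finset.sum_le_sum fun i _ => uc_norm ψ α i n
      _ = (((Finset.range k).filter (fun i => lam i = v)).card : ℝ) := by simp
      _ ≤ ((Finset.range k).card : ℝ) := by exact_mod_cast Finset.card_filter_le _ _
      _ = k := by simp
  have hS : ∀ v ∈ gr k lam, SelM (cg k lam (uc ψ α) v)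
      (((Finset.range k).filter (fun i => lam i = v)).card : ℝ) := by
    intro v hv
    obtain ⟨i, hi, hiv⟩ := Finset.mem_image.1 hv
    refine selM_fiber ψ α _ ⟨i, Finset.mem_filter.2 ⟨hi, hiv⟩⟩ ?_
    intro a ha b hb hab
    obtain ⟨ha1, ha2⟩ := Finset.mem_filter.1 ha
    obtain ⟨hb1, hb2⟩ := Finset.mem_filter.1 hb
    exact hne a (Finset.mem_range.1 ha1) b (Finset.mem_range.1 hb1) hab (ha2.trans hb2.symm)
  have hy := HYG_of M hsq k hk1 hG hc hS γ β h0 hπ hβ hβ2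
  have hsum : ∑ v ∈ gr k lam, (((Finset.range k).filter (fun i => lam i = v)).card : ℝ) = k := by
    have h1 : ∑ v ∈ gr k lam, ((Finset.range k).filter (fun i => lam i = v)).card =
        (Finset.range k).card :=
      (Finset.card_eq_sum_card_fiberwise (fun i hi => Finset.mem_image_of_mem _ hi)).symm
    rw [Finset.card_range] at h1
    exact_mod_cast h1
  rw [hsum] at hy
  have hI1 : 0 ≤ ∫ α in (0 : ℝ)..1, α * Rw γ α := I1_nonneg γ h0 hπ
  exact final_G hFD γ β _ h0 hπ hβ (by positivity) hy Φ hΦ ε hε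

end many

end Pool.Agent.H63.DZ
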