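import Pool.Agent.H63.DZ.Cnt2

/-!
# The family theorem in its final form
-/

set_option autoImplicit false
set_option maxHeartbeats 4000000

open Complex Filter Topology Set MeasureTheory

namespace Pool.Agent.H63.DZ

open H385
open H370 (zset mult NN Nd Ns)
open Pool.Agent.R321.RC (On Cm)
open Pool.Agent.R321.RD (Al)
open Pool.Agent.R321.RG (fam_mono fam_congr fam_add fam_mul)
open Pool.Agent.T2H62.MQ (uc G_good uc_norm NN_bigD)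
open Pool.Agent.T2H25.ZR (quo)

section many

variable {f : ℕ → ℕ} (ψ : ∀ i, DirichletCharacter ℂ (f i)) (α : ℕ → ℝ)

/-- the `i`-th function of the family -/
noncomputable def Fi (lam : ℕ → ℝ) (i q : ℕ) (χ : DirichletCharacter ℂ q) : ℂ → ℂ :=
  dil (lam i) (Pool.Agent.T2H62.MQ.G ψ α i q χ)

theorem Fi_ok [∀ i, NeZero (f i)] (hψ : ∀ i, (ψ i).IsPrimitive) (hα : ∀ i, 0 ≤ α i)
    (lam : ℕ → ℝ) (i : ℕ) (hlam : 1 ≤ lam i) {q : ℕ} {χ : DirichletCharacter ℂ q}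
    (hq : 1 ≤ q) (hc : Nat.Coprime q (f i)) (hχ : χ.IsPrimitive) : ZOK (Fi ψ α lam i q χ) := by
  obtain ⟨A, hA, hg⟩ := G_good ψ α hψ hα i
  exact (ZOK.of_goodD (hg q χ hq hc hχ)).dil hlam

theorem Fi_big [∀ i, NeZero (f i)] (hψ : ∀ i, (ψ i).IsPrimitive) (hα : ∀ i, 0 ≤ α i)
    (M : ℕ) (lam : ℕ → ℝ) (i : ℕ) (hlam : 1 ≤ lam i) (hM : ∀ q : ℕ, Nat.Coprime q M → Nat.Coprime q (f i)) :
    ∃ X1 : ℝ, 1 ≤ X1 ∧ ∀ (X q : ℕ) (χ : DirichletCharacter ℂ q) (T : ℝ), X1 ≤ X →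
    X < q → (q : ℝ) ≤ (X : ℝ) ^ 2 → Nat.Coprime q M → χ.IsPrimitive →
    (Real.log X) ^ 2 ≤ T → T ≤ (X : ℝ) ^ (1 / 2 : ℝ) → 1 ≤ T →
      (1 : ℝ) ≤ (NN (Fi ψ α lam i q χ) T (2 * T) : ℝ) := by
  obtain ⟨A, hA, hg⟩ := G_good ψ α hψ hα i
  have hT : TwD 1 A M (uc ψ α i) (Pool.Agent.T2H62.MQ.G ψ α i) :=
    ⟨fun n => uc_norm ψ α i n, fun q χ hq hc hχ => hg q χ (by omega) (hM q hc) hχ⟩
  obtain ⟨X1, hX1, h⟩ := NN_bigD 1 le_rfl M hA (uc ψ α i) (Pool.Agent.T2H62.MQ.G ψ α i) hT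
  refine ⟨max X1 (lam i ^ 2), le_max_of_le_left hX1, ?_⟩
  intro X q χ T hX hq hq2 hqc hχ hT1 hT2 hT0
  have hXX : X1 ≤ X := (le_max_left _ _).trans hX
  have hXl : lam i ^ 2 ≤ X := (le_max_right _ _).trans hX
  have hX0 : (0 : ℝ) ≤ X := by linarith
  have hl : lam i ≤ (X : ℝ) ^ (1 / 2 : ℝ) := by
    rw [← Real.sqrt_eq_rpow]
    exact Real.le_sqrt_of_sq_le hXl
  have hXp : (0 : ℝ) < X := by linarith
  have h2 : lam i * T ≤ X := by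
    calc lam i * T ≤ (X : ℝ) ^ (1 / 2 : ℝ) * (X : ℝ) ^ (1 / 2 : ℝ) :=
          mul_le_mul hl hT2 (by linarith) (by positivity)
      _ = X := by rw [← Real.rpow_add hXp]; norm_num
  have h1 : (Real.log X) ^ 2 ≤ lam i * T := by nlinarith
  have := h X q χ (lam i * T) hXX hq hq2 hqc hχ h1 h2
  unfold Fi
  rw [NN_dil hlam (ZOK.of_goodD (hg q χ (by omega) (hM q hqc) hχ)) hT0]
  rw [show lam i * (2 * T) = 2 * (lam i * T) by ring]
  exact this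

theorem kit [∀ i, NeZero (f i)] (hψ : ∀ i, (ψ i).IsPrimitive) (hα : ∀ i, 0 ≤ α i) (k : ℕ)
    (hk : 1 ≤ k) (lam : ℕ → ℝ) (hlam : ∀ i < k, 1 ≤ lam i)
    (hne : ∀ i < k, ∀ j < k, i ≠ j → lam i = lam j → quo (ψ i) (ψ j) ≠ 1 ∨ α j - α i ≠ 0)
    (M : ℕ) (hsq : Squarefree M) (hM : ∀ q : ℕ, Nat.Coprime q M → ∀ i < k, Nat.Coprime q (f i))
    (Φ : (ℂ → ℂ) → ℝ → ℝ) (hΦ : ∀ γ : ℝ, 0 < γ → γ < Real.pi → Per γ Φ) (ε : ℝ) (hε : 0 < ε) :
    ∃ K η X0 : ℝ, 1 ≤ K ∧ 0 < η ∧ 1 ≤ X0 ∧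
    ∀ (X Y : ℕ) (T : ℝ), X0 ≤ X → K * X ≤ Y → (Y : ℝ) ≤ (X : ℝ) ^ (1 + η) →
      (Real.log X) ^ 2 ≤ T → T ≤ (X : ℝ) ^ η →
      1 ≤ T ∧
      0 < primFamM M X Y (fun q χ =>
        ((∑ i ∈ Finset.range k, NN (Fi ψ α lam i q χ) T (2 * T) : ℕ) : ℝ)) ∧
      primFamM M X Y (fun q χ => Φ (PR (fun i => Fi ψ α lam i q χ) k) T) ≤
        (cc k (∑ i ∈ Finset.range k, lam i) + ε) *
          primFamM M X Y (fun q χ =>
            ((∑ i ∈ Finset.range k, NN (Fi ψ α lam i q χ) T (2 * T) : ℕ) : ℝ)) := by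
  obtain ⟨K, η, X0, hK, hη, hX0, h⟩ := fam_cc ψ α hψ hα k hk lam hlam hne M hsq hM Φ hΦ ε hε
  obtain ⟨X1, hX1, hpos⟩ := Fi_big ψ α hψ hα M lam 0 (hlam 0 (by omega))
    (fun q hq => hM q hq 0 (by omega))
  obtain ⟨C4, hC4, hmass⟩ := prim_mass_M M hsq
  have hc0 := cM_pos M hsq
  refine ⟨max K (Real.exp ((C4 + 1) / cM M)), min η (1 / 2), max X0 (max X1 (Real.exp 1)),
    le_max_of_le_left hK, lt_min hη (by norm_num), le_max_of_le_left hX0, ?_⟩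
  intro X Y T hX hKX hY hT1 hT2
  have hXX0 : X0 ≤ X := (le_max_left _ _).trans hX
  have hXX1 : X1 ≤ X := ((le_max_left _ _).trans (le_max_right _ _)).trans hX
  have hXe : Real.exp 1 ≤ X := ((le_max_right _ _).trans (le_max_right _ _)).trans hX
  have hX1r : (1 : ℝ) ≤ X := hX0.trans hXX0
  have hXpos : (0 : ℝ) < X := by linarith
  have hX1n : 1 ≤ X := by exact_mod_cast hX1r
  have hlog1 : 1 ≤ Real.log X := by
    rw [Real.le_log_iff_exp_le hXpos]; exact hXe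
  have hT0 : 1 ≤ T := (one_le_pow₀ hlog1).trans hT1
  have hKX1 : K * X ≤ Y := (mul_le_mul_of_nonneg_right (le_max_left _ _) hXpos.le).trans hKX
  have hKX2 : Real.exp ((C4 + 1) / cM M) * X ≤ Y :=
    (mul_le_mul_of_nonneg_right (le_max_right _ _) hXpos.le).trans hKX
  have hXYr : (X : ℝ) ≤ Y := by
    calc (X : ℝ) = 1 * X := (one_mul _).symm
      _ ≤ K * X := mul_le_mul_of_nonneg_right hK hXpos.le
      _ ≤ Y := hKX1
  have hXY : X ≤ Y := by exact_mod_cast hXYr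
  have hmin : min η (1 / 2) ≤ 1 / 2 := min_le_right _ _
  have hY1 : (Y : ℝ) ≤ (X : ℝ) ^ (1 + η) :=
    hY.trans (Real.rpow_le_rpow_of_exponent_le hX1r (by linarith [min_le_left η (1 / 2)]))
  have hY2 : (Y : ℝ) ≤ (X : ℝ) ^ 2 := by
    refine (hY.trans (Real.rpow_le_rpow_of_exponent_le hX1r
      (show 1 + min η (1 / 2) ≤ ((2 : ℕ) : ℝ) by push_cast; linarith))).trans
      (le_of_eq ?_)
    rw [Real.rpow_natCast]
  have hTη : T ≤ (X : ℝ) ^ η :=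
    hT2.trans (Real.rpow_le_rpow_of_exponent_le hX1r (min_le_left η (1 / 2)))
  have hTX : T ≤ (X : ℝ) ^ (1 / 2 : ℝ) :=
    hT2.trans (Real.rpow_le_rpow_of_exponent_le hX1r hmin)
  have hok : ∀ q : ℕ, X < q → Nat.Coprime q M → ∀ χ : DirichletCharacter ℂ q, χ.IsPrimitive →
      ∀ i < k, ZOK (Fi ψ α lam i q χ) := fun q hq hc χ hχ i hi =>
    Fi_ok ψ α hψ hα lam i (hlam i hi) (by omega) (hM q hc i hi) hχ
  have hNN : primFamM M X Y (fun q χ =>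
      (NN (FF k lam (Pool.Agent.T2H62.MQ.G ψ α) q χ) T (2 * T) : ℝ)) =
      primFamM M X Y (fun q χ =>
        ((∑ i ∈ Finset.range k, NN (Fi ψ α lam i q χ) T (2 * T) : ℕ) : ℝ)) := by
    refine fam_congr M X Y _ _ fun q hq hq2 hc χ hχ => ?_
    have := PR_NN (g := fun i => Fi ψ α lam i q χ) (k := k) (hok q hq hc χ hχ) (T1 := T)
      (T2 := 2 * T) hT0
    show ((NN (PR (fun i => Fi ψ α lam i q χ) k) T (2 * T) : ℕ) : ℝ) = _
    rw [this]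
  have hW1 : 1 ≤ primFamM M X Y (fun _ _ => 1) := by
    have h1 := (abs_le.mp (hmass X Y hX1n hXY)).1
    have h2 : (C4 + 1) / cM M ≤ Real.log ((Y : ℝ) / X) := by
      have hYpos : (0 : ℝ) < Y := lt_of_lt_of_le hXpos hXYr
      rw [Real.le_log_iff_exp_le (div_pos hYpos hXpos), le_div_iff₀ hXpos]
      exact hKX2
    rw [div_le_iff₀ hc0] at h2
    linarith
  refine ⟨hT0, ?_, ?_⟩
  · refine lt_of_lt_of_le (lt_of_lt_of_le one_pos hW1) ?_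
    refine fam_mono M X Y _ _ fun q hq hq2 hc χ hχ => ?_
    have hqY : (q : ℝ) ≤ Y := by exact_mod_cast hq2
    refine (hpos X q χ T hXX1 hq (hqY.trans hY2) hc hχ hT1 hTX hT0).trans ?_
    have h0 : (0 : ℕ) ∈ Finset.range k := Finset.mem_range.2 (by omega)
    exact_mod_cast Finset.single_le_sum (f := fun i => NN (Fi ψ α lam i q χ) T (2 * T))
      (fun i _ => Nat.zero_le _) h0
  · have hm := h X Y T hXX0 hKX1 hY1 hT1 hTη
    rw [hNN] at hm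
    exact hm

end many

end Pool.Agent.H63.DZ
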