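import Pool.Agent.H63.DZ.BBdil
import Pool.Graph.R_seed8.H385R2.FinDB

/-!
Smoothed prime sums with the dilated frequencies `lam * log n`.
-/

open Complex Filter Topology Set MeasureTheory
open H385 H370

set_option maxHeartbeats 4000000

namespace Pool.Agent.H63.DZ

/-- smoothed square sum with dilated frequencies -/
noncomputable def SWD (c : ℕ → ℂ) (lam u : ℝ) : ℝ :=
  ∑' n : ℕ, lam ^ 2 * wc c n * Real.exp (-(u - lam * Real.log n) ^ 2)

lemma dil_exp_le {lam : ℝ} (hlam : 1 ≤ lam) (u x : ℝ) :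
    Real.exp (-(u - lam * x) ^ 2) ≤ Real.exp (-(u / lam - x) ^ 2) := by
  have := gauss_dil_le hlam u x 1 zero_le_one
  simpa using this

lemma dil_exp_half_le {lam : ℝ} (hlam : 1 ≤ lam) (u x : ℝ) :
    Real.exp (-(u - lam * x) ^ 2 / 2) ≤ Real.exp (-(u / lam - x) ^ 2 / 2) := by
  have := gauss_dil_le hlam u x (1 / 2) (by norm_num)
  have e : ∀ y : ℝ, -y ^ 2 / 2 = -y ^ 2 * (1 / 2) := fun y => by ring
  rw [e, e]
  exact this

lemma dil_exp_quarter_le {lam : ℝ} (hlam : 1 ≤ lam) (u x : ℝ) :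
    Real.exp (-(u - lam * x) ^ 2 / 4) ≤ Real.exp (-(u / lam - x) ^ 2 / 4) := by
  have := gauss_dil_le hlam u x (1 / 4) (by norm_num)
  have e : ∀ y : ℝ, -y ^ 2 / 4 = -y ^ 2 * (1 / 4) := fun y => by ring
  rw [e, e]
  exact this

theorem SWD_nonneg (c : ℕ → ℂ) (lam u : ℝ) : 0 ≤ SWD c lam u :=
  tsum_nonneg (fun n => mul_nonneg (mul_nonneg (sq_nonneg _) (wc_nonneg c n)) (Real.exp_pos _).le)

theorem SWD_crude (c : ℕ → ℂ) (C0 : ℝ) (h : Selb c C0) {lam : ℝ} (hlam : 1 ≤ lam) :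
    ∃ C : ℝ, 0 < C ∧ ∀ u : ℝ, 0 ≤ u →
      Summable (fun n : ℕ => lam ^ 2 * wc c n * Real.exp (-(u - lam * Real.log n) ^ 2 / 2)) ∧
      ∑' n : ℕ, lam ^ 2 * wc c n * Real.exp (-(u - lam * Real.log n) ^ 2 / 2) ≤ C * (u + 1) := by
  obtain ⟨C6, hC6, h6⟩ := SW_crude c C0 h
  have hlam0 : 0 < lam := by linarith
  refine ⟨lam ^ 2 * C6, by positivity, fun u hu => ?_⟩
  have hv : 0 ≤ u / lam := by positivity
  obtain ⟨s1, s2⟩ := h6 (u / lam) hv
  have hle : ∀ n : ℕ, lam ^ 2 * wc c n * Real.exp (-(u - lam * Real.log n) ^ 2 / 2) ≤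
      lam ^ 2 * (wc c n * Real.exp (-(u / lam - Real.log n) ^ 2 / 2)) := by
    intro n
    rw [mul_assoc]
    exact mul_le_mul_of_nonneg_left (mul_le_mul_of_nonneg_left (dil_exp_half_le hlam u _)
      (wc_nonneg c n)) (sq_nonneg _)
  have hS : Summable (fun n : ℕ => lam ^ 2 * wc c n *
      Real.exp (-(u - lam * Real.log n) ^ 2 / 2)) :=
    Summable.of_nonneg_of_le (fun n => mul_nonneg (mul_nonneg (sq_nonneg _) (wc_nonneg c n))
      (Real.exp_pos _).le) hle (s1.mul_left _)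
  refine ⟨hS, (Summable.tsum_le_tsum hle hS (s1.mul_left _)).trans ?_⟩
  rw [tsum_mul_left]
  have h7 : u / lam ≤ u := div_le_self hu hlam
  calc lam ^ 2 * ∑' n : ℕ, wc c n * Real.exp (-(u / lam - Real.log n) ^ 2 / 2) ≤
      lam ^ 2 * (C6 * (u / lam + 1)) := mul_le_mul_of_nonneg_left s2 (sq_nonneg _)
    _ ≤ lam ^ 2 * (C6 * (u + 1)) := by gcongr
    _ = _ := by ring

theorem SWD_summable (c : ℕ → ℂ) (C0 : ℝ) (h : Selb c C0) {lam : ℝ} (hlam : 1 ≤ lam) (u : ℝ)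
    (hu : 0 ≤ u) :
    Summable (fun n : ℕ => lam ^ 2 * wc c n * Real.exp (-(u - lam * Real.log n) ^ 2)) := by
  obtain ⟨C6, hC6, h6⟩ := SWD_crude c C0 h hlam
  refine Summable.of_nonneg_of_le (fun n => mul_nonneg (mul_nonneg (sq_nonneg _) (wc_nonneg c n))
    (Real.exp_pos _).le) (fun n => ?_) (h6 u hu).1
  refine mul_le_mul_of_nonneg_left (Real.exp_le_exp.mpr ?_)
    (mul_nonneg (sq_nonneg _) (wc_nonneg c n))
  nlinarith [sq_nonneg (u - lam * Real.log n)]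

theorem SWD_le (c : ℕ → ℂ) (C0 : ℝ) (h : Selb c C0) {lam : ℝ} (hlam : 1 ≤ lam) :
    ∃ C : ℝ, 0 < C ∧ ∀ u : ℝ, 0 ≤ u → 0 ≤ SWD c lam u ∧ SWD c lam u ≤ C * (u + 1) := by
  obtain ⟨C6, hC6, h6⟩ := SWD_crude c C0 h hlam
  refine ⟨C6, hC6, fun u hu => ⟨SWD_nonneg c lam u, ?_⟩⟩
  refine (Summable.tsum_le_tsum (fun n => ?_) (SWD_summable c C0 h hlam u hu) (h6 u hu).1).trans
    (h6 u hu).2
  refine mul_le_mul_of_nonneg_left (Real.exp_le_exp.mpr ?_)
    (mul_nonneg (sq_nonneg _) (wc_nonneg c n))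
  nlinarith [sq_nonneg (u - lam * Real.log n)]

lemma dil_bound {lam : ℝ} (hlam : 1 ≤ lam) {U u : ℝ} (l : ℝ) (hu : |u| ≤ U) :
    Real.exp (-(u - lam * l) ^ 2) ≤ Real.exp (U ^ 2) * Real.exp (-l ^ 2 / 8) := by
  rw [← Real.exp_add]
  apply Real.exp_le_exp.2
  have hU : u ^ 2 ≤ U ^ 2 := sq_le_sq' (by linarith [(abs_le.1 hu).1]) (abs_le.1 hu).2
  have h1 : l ^ 2 ≤ (lam * l) ^ 2 := by
    rw [mul_pow]
    have : 1 ≤ lam ^ 2 := one_le_pow₀ hlam
    nlinarith [sq_nonneg l]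
  nlinarith [sq_nonneg (2 * u - lam * l), sq_nonneg l, sq_nonneg (lam * l)]

theorem SWD_cont (c : ℕ → ℂ) (C0 : ℝ) (h : Selb c C0) {lam : ℝ} (hlam : 1 ≤ lam) :
    Continuous (SWD c lam) := by
  have hs := nwa_summable (wc c) (wc_nonneg c) (wc_zero c) C0 h
  have h1 : Continuous (fun u : ℝ => ∑' n : ℕ, (lam ^ 2 * wc c n) *
      Real.exp (-(u - lam * Real.log n) ^ 2)) := by
    apply ntw_cont_tsum (fun n => lam ^ 2 * wc c n)
      (fun n => mul_nonneg (sq_nonneg _) (wc_nonneg c n))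
      (fun u l => Real.exp (-(u - lam * l) ^ 2))
      (fun l => by fun_prop) (fun u l => (Real.exp_pos _).le) (fun U => Real.exp (U ^ 2))
      (fun U u l hu => dil_bound hlam l hu)
    have := hs.mul_left (lam ^ 2)
    refine this.congr fun n => ?_
    ring
  exact h1

/-- the smoothed sum against the window, dilated frequencies -/
theorem nwa_smooth_dil {R : ℝ → ℝ} (hR : NTR R) (w : ℕ → ℝ) (hw0 : ∀ n, 0 ≤ w n) (hwz : w 0 = 0)
    (C0 : ℝ)
    (h : ∀ x : ℝ, 1 ≤ x → |∑ n ∈ Finset.Icc 1 ⌊x⌋₊, w n - (Real.log x) ^ 2 / 2| ≤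
      C0 * (1 + Real.log x)) {lam : ℝ} (hlam : 1 ≤ lam) : ∃ C : ℝ, 0 < C ∧ ∀ Λ : ℝ, lam ≤ Λ →
    ∫ u in (0 : ℝ)..Λ, R (u / Λ) * ∑' n : ℕ, lam ^ 2 * w n *
      Real.exp (-(u - lam * Real.log n) ^ 2) ≤
      Real.sqrt Real.pi * Λ ^ 2 * (∫ α in (0 : ℝ)..1, α * R α) + C * Λ := by
  obtain ⟨K, hK, hlip⟩ := hR.lip
  have hlam0 : 0 < lam := by linarith
  have hC0 := nwa_C0 w C0 h
  have hsm : Summable (fun n : ℕ => w n * Real.exp (-(Real.log n) ^ 2 / 8)) :=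
    nwa_summable w hw0 hwz C0 h
  set C2 : ℝ := ∑' n : ℕ, w n * Real.exp (-(Real.log n) ^ 2 / 8) with hC2
  have hC20 : 0 ≤ C2 := tsum_nonneg fun n => mul_nonneg (hw0 n) (Real.exp_pos _).le
  have hR0 : 0 ≤ R 0 := hR.nonneg 0
  have hG0 := nt_G_nonneg
  have hpi0 : 0 ≤ Real.sqrt Real.pi := Real.sqrt_nonneg _
  have hlow : ∀ N : ℕ, 1 ≤ N → ∑ n ∈ Finset.Icc 1 N, w n ≤
      (Real.log N) ^ 2 / 2 + C0 * (Real.log N + 1) := by
    intro N hN
    have h1 := (abs_le.1 (h (N : ℝ) (by exact_mod_cast hN))).2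
    rw [Nat.floor_natCast] at h1
    linarith
  refine ⟨2 * C0 * Real.sqrt Real.pi * R 0 * lam ^ 2 + (2 + 3 * C0) * K * ntG + R 0 * lam ^ 2 * C2
    + 1, by positivity, fun Λ hΛ => ?_⟩
  have hΛ0 : 0 < Λ := by linarith
  obtain ⟨Λ', hΛ'⟩ : ∃ Λ' : ℝ, Λ' = Λ / lam := ⟨_, rfl⟩
  have hΛl : Λ = lam * Λ' := by rw [hΛ']; field_simp
  have hΛ'1 : 1 ≤ Λ' := by rw [hΛ', one_le_div hlam0]; exact hΛ
  have hΛ'0 : 0 < Λ' := by linarith
  have hexpl : ∀ u : ℝ, 0 ≤ u → u ≤ Λ → ∀ n : ℕ, Real.exp (-(u - lam * Real.log n) ^ 2) ≤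
      Real.exp (Λ ^ 2) * Real.exp (-(Real.log n) ^ 2 / 8) := fun u h1 h2 n =>
    dil_bound hlam _ (by rw [abs_of_nonneg h1]; exact h2)
  -- interchange
  have hsum : HasSum (fun n : ℕ => ∫ u in (0 : ℝ)..Λ, R (u / Λ) *
      (lam ^ 2 * w n * Real.exp (-(u - lam * Real.log n) ^ 2)))
      (∫ u in (0 : ℝ)..Λ, R (u / Λ) * ∑' n : ℕ, lam ^ 2 * w n *
        Real.exp (-(u - lam * Real.log n) ^ 2)) := by
    apply intervalIntegral.hasSum_integral_of_dominated_convergence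
      (bound := fun n _ => R 0 * lam ^ 2 * Real.exp (Λ ^ 2) *
        (w n * Real.exp (-(Real.log n) ^ 2 / 8)))
    · intro n
      apply Continuous.aestronglyMeasurable
      exact (hR.cont.comp (continuous_id.div_const Λ)).mul (by fun_prop)
    · intro n
      refine Filter.Eventually.of_forall fun u hu => ?_
      rw [Set.uIoc_of_le hΛ0.le] at hu
      have h1 : R (u / Λ) ≤ R 0 := hR.le0 _ (div_nonneg hu.1.le hΛ0.le)
      have h2 := hexpl u hu.1.le hu.2 n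
      have hw2 : 0 ≤ lam ^ 2 * w n := mul_nonneg (sq_nonneg _) (hw0 n)
      rw [Real.norm_of_nonneg (mul_nonneg (hR.nonneg _) (mul_nonneg hw2 (Real.exp_pos _).le))]
      calc R (u / Λ) * (lam ^ 2 * w n * Real.exp (-(u - lam * Real.log n) ^ 2))
          ≤ R 0 * (lam ^ 2 * w n * (Real.exp (Λ ^ 2) * Real.exp (-(Real.log n) ^ 2 / 8))) := by
            apply mul_le_mul h1 (mul_le_mul_of_nonneg_left h2 hw2)
              (mul_nonneg hw2 (Real.exp_pos _).le) hR0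
        _ = _ := by ring
    · exact Filter.Eventually.of_forall fun u _ => hsm.mul_left _
    · exact continuous_const.intervalIntegrable _ _
    · refine Filter.Eventually.of_forall fun u hu => ?_
      rw [Set.uIoc_of_le hΛ0.le] at hu
      apply HasSum.mul_left
      apply Summable.hasSum
      refine Summable.of_nonneg_of_le (fun n => mul_nonneg (mul_nonneg (sq_nonneg _) (hw0 n))
        (Real.exp_pos _).le)
        (fun n => ?_) (hsm.mul_left (lam ^ 2 * Real.exp (Λ ^ 2)))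
      have h2 := hexpl u hu.1.le hu.2 n
      calc lam ^ 2 * w n * Real.exp (-(u - lam * Real.log n) ^ 2)
          ≤ lam ^ 2 * w n * (Real.exp (Λ ^ 2) * Real.exp (-(Real.log n) ^ 2 / 8)) :=
            mul_le_mul_of_nonneg_left h2 (mul_nonneg (sq_nonneg _) (hw0 n))
        _ = _ := by ring
  set N : ℕ := ⌊Real.exp (2 * Λ')⌋₊ with hNdef
  have hN : 1 ≤ N := by
    rw [hNdef, Nat.one_le_floor_iff]
    exact Real.one_le_exp (by linarith)
  have hNlog : Real.log N ≤ 2 * Λ' := by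
    rw [Real.log_le_iff_le_exp (by exact_mod_cast hN)]
    exact Nat.floor_le (Real.exp_pos _).le
  have hRl : ∀ n : ℕ, R (lam * Real.log n / Λ) = R (Real.log n / Λ') := by
    intro n
    rw [hΛl]
    congr 1
    field_simp
  -- termwise bound
  have hterm : ∀ n : ℕ, ∫ u in (0 : ℝ)..Λ, R (u / Λ) *
      (lam ^ 2 * w n * Real.exp (-(u - lam * Real.log n) ^ 2)) ≤
      (if n ∈ Finset.Icc 1 N then
        lam ^ 2 * w n * (Real.sqrt Real.pi * R (Real.log n / Λ') + K / Λ * ntG) else 0) +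
      R 0 * Λ * lam ^ 2 * (w n * Real.exp (-(Real.log n) ^ 2 / 8)) := by
    intro n
    have h1 : ∫ u in (0 : ℝ)..Λ, R (u / Λ) * (lam ^ 2 * w n *
        Real.exp (-(u - lam * Real.log n) ^ 2)) =
        lam ^ 2 * w n * ∫ u in (0 : ℝ)..Λ, R (u / Λ) *
          Real.exp (-(u - lam * Real.log n) ^ 2) := by
      rw [← intervalIntegral.integral_const_mul]
      exact intervalIntegral.integral_congr fun u _ => by ring
    rw [h1]
    have hw2 : 0 ≤ lam ^ 2 * w n := mul_nonneg (sq_nonneg _) (hw0 n)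
    have hB : 0 ≤ R 0 * Λ * lam ^ 2 * (w n * Real.exp (-(Real.log n) ^ 2 / 8)) :=
      mul_nonneg (mul_nonneg (mul_nonneg hR0 hΛ0.le) (sq_nonneg _))
        (mul_nonneg (hw0 n) (Real.exp_pos _).le)
    split_ifs with hn
    · have h2 := mul_le_mul_of_nonneg_left
        (ntw_In_bound hR K hK hlip Λ (lam * Real.log n) hΛ0) hw2
      rw [hRl] at h2
      linarith
    · rcases Nat.eq_zero_or_pos n with rfl | hn0
      · rw [hwz]; simp
      · have hnN : N < n := by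
          by_contra hc
          exact hn (Finset.mem_Icc.2 ⟨hn0, not_lt.1 hc⟩)
        have h3 : Real.exp (2 * Λ') < n := Nat.lt_of_floor_lt hnN
        have h4 : 2 * Λ' ≤ Real.log n := by
          rw [Real.le_log_iff_exp_le (by exact_mod_cast hn0)]
          exact h3.le
        have h5 : 2 * Λ ≤ lam * Real.log n := by
          rw [hΛl]
          have := mul_le_mul_of_nonneg_left h4 hlam0.le
          linarith
        have h2 := mul_le_mul_of_nonneg_left (ntw_In_tail hR Λ (lam * Real.log n) hΛ0 h5) hw2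
        have h6 : Real.exp (-(lam * Real.log n) ^ 2 / 8) ≤ Real.exp (-(Real.log n) ^ 2 / 8) := by
          apply Real.exp_le_exp.2
          have h7 : (Real.log n) ^ 2 ≤ (lam * Real.log n) ^ 2 := by
            rw [mul_pow]
            have : 1 ≤ lam ^ 2 := one_le_pow₀ hlam
            nlinarith [sq_nonneg (Real.log n)]
          linarith
        rw [zero_add]
        calc _ ≤ _ := h2
          _ ≤ lam ^ 2 * w n * (R 0 * Λ * Real.exp (-(Real.log n) ^ 2 / 8)) := by gcongr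
          _ = _ := by ring
  have hA : HasSum (fun n : ℕ => if n ∈ Finset.Icc 1 N then
        lam ^ 2 * w n * (Real.sqrt Real.pi * R (Real.log n / Λ') + K / Λ * ntG) else 0)
      (∑ n ∈ Finset.Icc 1 N, lam ^ 2 * w n * (Real.sqrt Real.pi * R (Real.log n / Λ') +
        K / Λ * ntG)) := by
    have h : HasSum (fun n : ℕ => if n ∈ Finset.Icc 1 N then
        lam ^ 2 * w n * (Real.sqrt Real.pi * R (Real.log n / Λ') + K / Λ * ntG) else 0)
        (∑ n ∈ Finset.Icc 1 N, if n ∈ Finset.Icc 1 N then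
        lam ^ 2 * w n * (Real.sqrt Real.pi * R (Real.log n / Λ') + K / Λ * ntG) else 0) :=
      hasSum_sum_of_ne_finset_zero (fun n hn => if_neg hn)
    rw [Finset.sum_congr rfl (fun n hn => if_pos hn)] at h
    exact h
  have hB : HasSum (fun n : ℕ => R 0 * Λ * lam ^ 2 * (w n * Real.exp (-(Real.log n) ^ 2 / 8)))
      (R 0 * Λ * lam ^ 2 * C2) := hsm.hasSum.mul_left _
  have hle := hasSum_le hterm hsum (hA.add hB)
  refine hle.trans ?_
  -- main term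
  have hsplit : ∑ n ∈ Finset.Icc 1 N, lam ^ 2 * w n * (Real.sqrt Real.pi * R (Real.log n / Λ') +
      K / Λ * ntG) = Real.sqrt Real.pi * lam ^ 2 *
        ∑ n ∈ Finset.Icc 1 N, w n * R (Real.log n / Λ') +
      K / Λ * ntG * lam ^ 2 * ∑ n ∈ Finset.Icc 1 N, w n := by
    rw [Finset.mul_sum, Finset.mul_sum, ← Finset.sum_add_distrib]
    exact Finset.sum_congr rfl fun n _ => by ring
  have habel := nt_abel_bound w (fun s => R (s / Λ')) C0 hC0
    (fun x hx y hy hxy => hR.anti (Set.mem_Ici.2 (div_nonneg hx hΛ'0.le))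
      (Set.mem_Ici.2 (div_nonneg hy hΛ'0.le)) (div_le_div_of_nonneg_right hxy hΛ'0.le))
    (hR.cont.comp (continuous_id.div_const Λ')) (fun x => hR.nonneg _)
    (fun M hM => hlow M hM) N hN
  simp only [zero_div] at habel
  have hint := ntw_int_bound hR Λ' hΛ'0 C0 N hN hNlog hC0
  have hS : ∑ n ∈ Finset.Icc 1 N, w n ≤ (2 + 3 * C0) * Λ' ^ 2 := by
    have h1 := hlow N hN
    have h2 : 0 ≤ Real.log N := Real.log_nonneg (by exact_mod_cast hN)
    have h3 : (Real.log N) ^ 2 ≤ (2 * Λ') ^ 2 := pow_le_pow_left₀ h2 hNlog 2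
    have h4 : C0 * (Real.log N + 1) ≤ C0 * (3 * Λ' ^ 2) := by
      apply mul_le_mul_of_nonneg_left _ hC0
      nlinarith
    nlinarith
  have hKL : K / Λ * ntG * lam ^ 2 * ∑ n ∈ Finset.Icc 1 N, w n ≤ (2 + 3 * C0) * K * ntG * Λ := by
    calc K / Λ * ntG * lam ^ 2 * ∑ n ∈ Finset.Icc 1 N, w n ≤
          K / Λ * ntG * lam ^ 2 * ((2 + 3 * C0) * Λ' ^ 2) :=
          mul_le_mul_of_nonneg_left hS (by positivity)
      _ = (2 + 3 * C0) * K * ntG * Λ := by rw [hΛl]; field_simp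
  have hmain : Real.sqrt Real.pi * lam ^ 2 * ∑ n ∈ Finset.Icc 1 N, w n * R (Real.log n / Λ') ≤
      Real.sqrt Real.pi * lam ^ 2 * (C0 * R 0 + (Λ' ^ 2 * (∫ α in (0 : ℝ)..1, α * R α) +
        C0 * Λ' * R 0)) :=
    mul_le_mul_of_nonneg_left (by linarith) (by positivity)
  rw [hsplit]
  have e8 : Real.sqrt Real.pi * lam ^ 2 * (C0 * R 0 + (Λ' ^ 2 * (∫ α in (0 : ℝ)..1, α * R α) +
        C0 * Λ' * R 0)) = Real.sqrt Real.pi * Λ ^ 2 * (∫ α in (0 : ℝ)..1, α * R α) +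
        (Real.sqrt Real.pi * lam ^ 2 * C0 * R 0 + Real.sqrt Real.pi * lam ^ 2 * C0 * R 0 * Λ') := by
    rw [hΛl]; ring
  rw [e8] at hmain
  set Z := Real.sqrt Real.pi * lam ^ 2 * C0 * R 0 with hZ
  have hZ0 : 0 ≤ Z := by positivity
  have hΛ1 : 1 ≤ Λ := by linarith
  have hΛ'Λ : Λ' ≤ Λ := by rw [hΛl]; exact le_mul_of_one_le_left hΛ'0.le hlam
  have z1 : Z ≤ Z * Λ := le_mul_of_one_le_right hZ0 hΛ1
  have z2 : Z * Λ' ≤ Z * Λ := mul_le_mul_of_nonneg_left hΛ'Λ hZ0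
  have z3 : (2 * C0 * Real.sqrt Real.pi * R 0 * lam ^ 2 + (2 + 3 * C0) * K * ntG +
      R 0 * lam ^ 2 * C2 + 1) * Λ = 2 * (Z * Λ) + (2 + 3 * C0) * K * ntG * Λ +
      R 0 * Λ * lam ^ 2 * C2 + Λ := by rw [hZ]; ring
  rw [z3]
  linarith

theorem swd_smooth (c : ℕ → ℂ) (C0 : ℝ) (h : Selb c C0) {lam : ℝ} (hlam : 1 ≤ lam)
    (γ : ℝ) (h0 : 0 < γ) (hπ : γ < Real.pi) :
    ∃ C : ℝ, 0 < C ∧ ∀ Λ : ℝ, lam ≤ Λ →
    ∫ u in (0 : ℝ)..Λ, Rw γ (u / Λ) * SWD c lam u ≤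
      Real.sqrt Real.pi * Λ ^ 2 * (∫ α in (0 : ℝ)..1, α * Rw γ α) + C * Λ :=
  nwa_smooth_dil (NTR_Rw γ h0 hπ) (wc c) (wc_nonneg c) (wc_zero c) C0 h hlam

end Pool.Agent.H63.DZ
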