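import Pool.Agent.H63.DZ.MS1

/-!
The mean square of the prime side for a product of dilated functions.
-/

open Complex Filter Topology Set MeasureTheory
open H385

set_option maxHeartbeats 4000000

namespace Pool.Agent.H63.DZ

/-- the coefficients `c` have mean square `m` -/
def SelM (c : ℕ → ℂ) (m : ℝ) : Prop :=
  ∃ (c' : ℕ → ℂ) (C0 : ℝ), Selb c' C0 ∧ 0 ≤ m ∧ ∀ n, wc c n = m * wc c' n

lemma SelM.swd {c : ℕ → ℂ} {m : ℝ} (h : SelM c m) {lam : ℝ} (hlam : 1 ≤ lam) :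
    (∃ C : ℝ, 0 < C ∧ ∀ u : ℝ, 0 ≤ u →
      Summable (fun n : ℕ => lam ^ 2 * wc c n * Real.exp (-(u - lam * Real.log n) ^ 2 / 2)) ∧
      ∑' n : ℕ, lam ^ 2 * wc c n * Real.exp (-(u - lam * Real.log n) ^ 2 / 2) ≤ C * (u + 1)) ∧
    (∀ u : ℝ, 0 ≤ u →
      Summable (fun n : ℕ => lam ^ 2 * wc c n * Real.exp (-(u - lam * Real.log n) ^ 2))) ∧
    (∃ C : ℝ, 0 < C ∧ ∀ u : ℝ, 0 ≤ u → SWD c lam u ≤ C * (u + 1)) ∧
    Continuous (SWD c lam) ∧
    (∀ γ : ℝ, 0 < γ → γ < Real.pi → ∃ C : ℝ, 0 < C ∧ ∀ Λ : ℝ, lam ≤ Λ →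
      ∫ u in (0 : ℝ)..Λ, Rw γ (u / Λ) * SWD c lam u ≤
      m * (Real.sqrt Real.pi * Λ ^ 2 * (∫ α in (0 : ℝ)..1, α * Rw γ α)) + C * Λ) := by
  obtain ⟨c', C0, hS, hm, hw⟩ := h
  have e1 : ∀ (a : ℝ) (n : ℕ), lam ^ 2 * wc c n * a = m * (lam ^ 2 * wc c' n * a) := by
    intro a n
    rw [hw]; ring
  have e2 : SWD c lam = fun u => m * SWD c' lam u := by
    funext u
    unfold SWD
    rw [← tsum_mul_left]
    exact tsum_congr fun n => e1 _ n
  refine ⟨?_, ?_, ?_, ?_, ?_⟩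
  · obtain ⟨C, hC, h1⟩ := SWD_crude c' C0 hS hlam
    refine ⟨m * C + 1, by positivity, fun u hu => ?_⟩
    obtain ⟨s1, s2⟩ := h1 u hu
    simp_rw [e1]
    refine ⟨s1.mul_left _, ?_⟩
    rw [tsum_mul_left]
    have := mul_le_mul_of_nonneg_left s2 hm
    nlinarith
  · intro u hu
    simp_rw [e1]
    exact (SWD_summable c' C0 hS hlam u hu).mul_left _
  · obtain ⟨C, hC, h1⟩ := SWD_le c' C0 hS hlam
    refine ⟨m * C + 1, by positivity, fun u hu => ?_⟩
    rw [e2]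
    have := mul_le_mul_of_nonneg_left (h1 u hu).2 hm
    nlinarith
  · rw [e2]
    exact (SWD_cont c' C0 hS hlam).const_mul m
  · intro γ h0 hπ
    obtain ⟨C, hC, h1⟩ := swd_smooth c' C0 hS hlam γ h0 hπ
    refine ⟨m * C + 1, by positivity, fun Λ hΛ => ?_⟩
    have h2 := h1 Λ hΛ
    rw [e2]
    have e3 : ∀ u : ℝ, Rw γ (u / Λ) * (m * SWD c' lam u) = m * (Rw γ (u / Λ) * SWD c' lam u) :=
      fun u => by ring
    simp_rw [e3]
    rw [intervalIntegral.integral_const_mul]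
    have h3 := mul_le_mul_of_nonneg_left h2 hm
    have h4 : 0 ≤ Λ := by linarith
    nlinarith

section groups

variable (G : Finset ℝ) (c : ℝ → ℕ → ℂ)

/-- the combined coefficients -/
noncomputable def bG (T u t : ℝ) (n : ℕ) : ℂ :=
  ∑ lam ∈ G, (lam : ℂ) * (c lam n * ((Real.sqrt n : ℂ)⁻¹ * bt T u t (lam * Real.log n)))

lemma bt_quarter (T u t l : ℝ) (hT : 0 ≤ T) :
    ‖bt T u t l‖ ≤ Real.exp (-(u - l) ^ 2 / 4) * wt T t := by
  have h1 := bt_norm T u t l hT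
  have h2 : 1 / Real.sqrt (2 * Real.pi) ≤ 1 := by
    rw [div_le_one (by positivity)]
    rw [Real.one_le_sqrt]
    nlinarith [Real.pi_gt_three]
  have hw := wt_nonneg T t hT
  refine h1.trans ?_
  refine mul_le_mul_of_nonneg_right ?_ hw
  nlinarith [Real.exp_pos (-(u - l) ^ 2 / 4)]

lemma bd_term {lam : ℝ} (hlam : 1 ≤ lam) (T u t : ℝ) (hT : 0 ≤ T) (n : ℕ) :
    ArithmeticFunction.vonMangoldt n * ‖(Real.sqrt n : ℂ)⁻¹ * bt T u t (lam * Real.log n)‖ ≤
      wt T t * (ArithmeticFunction.vonMangoldt n / Real.sqrt n *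
        Real.exp (-(u / lam - Real.log n) ^ 2 / 4)) := by
  have hw := wt_nonneg T t hT
  have h3 : ‖bt T u t (lam * Real.log n)‖ ≤
      Real.exp (-(u / lam - Real.log n) ^ 2 / 4) * wt T t :=
    (bt_quarter T u t _ hT).trans
      (mul_le_mul_of_nonneg_right (dil_exp_quarter_le hlam u _) hw)
  have h4 : ‖(Real.sqrt n : ℂ)⁻¹ * bt T u t (lam * Real.log n)‖ ≤
      (Real.sqrt n)⁻¹ * (Real.exp (-(u / lam - Real.log n) ^ 2 / 4) * wt T t) := by
    rw [norm_mul, norm_inv, Complex.norm_real, Real.norm_of_nonneg (Real.sqrt_nonneg _)]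
    exact mul_le_mul_of_nonneg_left h3 (inv_nonneg.mpr (Real.sqrt_nonneg _))
  refine (mul_le_mul_of_nonneg_left h4 ArithmeticFunction.vonMangoldt_nonneg).trans (le_of_eq ?_)
  ring

variable {G c}

lemma bG_bound {d : ℝ} (hG : ∀ lam ∈ G, 1 ≤ lam) (hc : ∀ lam ∈ G, ∀ n, ‖c lam n‖ ≤ d)
    (T u t : ℝ) (hT : 0 ≤ T) (n : ℕ) :
    ArithmeticFunction.vonMangoldt n * ‖bG G c T u t n‖ ≤
      ∑ lam ∈ G, (lam * d) * (wt T t * (ArithmeticFunction.vonMangoldt n / Real.sqrt n *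
        Real.exp (-(u / lam - Real.log n) ^ 2 / 4))) := by
  unfold bG
  have h1 := mul_le_mul_of_nonneg_left (norm_sum_le G (fun lam => (lam : ℂ) *
    (c lam n * ((Real.sqrt n : ℂ)⁻¹ * bt T u t (lam * Real.log n)))))
    (ArithmeticFunction.vonMangoldt_nonneg (n := n))
  refine h1.trans ?_
  rw [Finset.mul_sum]
  refine Finset.sum_le_sum fun lam hl => ?_
  have hl1 := hG lam hl
  have hd0 : 0 ≤ d := (norm_nonneg _).trans (hc lam hl n)
  rw [norm_mul, Complex.norm_real, Real.norm_of_nonneg (by linarith : (0:ℝ) ≤ lam),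
    norm_mul (c lam n)]
  have h2 := bd_term hl1 T u t hT n
  have h3 := hc lam hl n
  have hN := norm_nonneg ((Real.sqrt n : ℂ)⁻¹ * bt T u t (lam * Real.log n))
  have hV := ArithmeticFunction.vonMangoldt_nonneg (n := n)
  calc ArithmeticFunction.vonMangoldt n * (lam * (‖c lam n‖ *
        ‖(Real.sqrt n : ℂ)⁻¹ * bt T u t (lam * Real.log n)‖)) =
      (lam * ‖c lam n‖) * (ArithmeticFunction.vonMangoldt n *
        ‖(Real.sqrt n : ℂ)⁻¹ * bt T u t (lam * Real.log n)‖) := by ring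
    _ ≤ (lam * d) * (wt T t * (ArithmeticFunction.vonMangoldt n / Real.sqrt n *
        Real.exp (-(u / lam - Real.log n) ^ 2 / 4))) := by
      apply mul_le_mul (mul_le_mul_of_nonneg_left h3 (by linarith)) h2 (mul_nonneg hV hN)
      exact mul_nonneg (by linarith) hd0

lemma ite_summable {f : ℕ → ℝ} (hf : ∀ n, 0 ≤ f n) (hs : Summable f) (p : ℕ → Prop)
    [DecidablePred p] : Summable (fun n => if p n then f n else 0) := by
  refine Summable.of_nonneg_of_le (fun n => ?_) (fun n => ?_) hs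
  · split_ifs
    · exact hf n
    · exact le_rfl
  · split_ifs
    · exact le_rfl
    · exact hf n

lemma half_nonneg (v : ℝ) (n : ℕ) : 0 ≤ ArithmeticFunction.vonMangoldt n / Real.sqrt n *
        Real.exp (-(v - Real.log n) ^ 2 / 4) :=
  mul_nonneg (div_nonneg ArithmeticFunction.vonMangoldt_nonneg (Real.sqrt_nonneg _))
    (Real.exp_pos _).le

lemma bG_summable {d : ℝ} (hG : ∀ lam ∈ G, 1 ≤ lam) (hc : ∀ lam ∈ G, ∀ n, ‖c lam n‖ ≤ d)
    (T u t : ℝ) (hT : 0 ≤ T) :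
    Summable (fun n : ℕ => ArithmeticFunction.vonMangoldt n * ‖bG G c T u t n‖) := by
  refine Summable.of_nonneg_of_le (fun n => mul_nonneg ArithmeticFunction.vonMangoldt_nonneg
    (norm_nonneg _)) (fun n => bG_bound hG hc T u t hT n) ?_
  exact summable_sum fun lam _ => ((half_summable (u / lam)).mul_left _).mul_left _

/-- restricted sums -/
lemma bG_tsum_sq {d : ℝ} (hG : ∀ lam ∈ G, 1 ≤ lam) (hc : ∀ lam ∈ G, ∀ n, ‖c lam n‖ ≤ d)
    (T u t : ℝ) (hT : 0 ≤ T) (p : ℕ → Prop) [DecidablePred p] :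
    (∑' n : ℕ, (if p n then ArithmeticFunction.vonMangoldt n * ‖bG G c T u t n‖ else 0)) ^ 2 ≤
    wt T t ^ 2 * ∑ lam ∈ G, (G.card * (lam * d) ^ 2) *
      (∑' n : ℕ, (if p n then ArithmeticFunction.vonMangoldt n / Real.sqrt n *
        Real.exp (-(u / lam - Real.log n) ^ 2 / 4) else 0)) ^ 2 := by
  have hw := wt_nonneg T t hT
  have h1 : ∑' n : ℕ, (if p n then ArithmeticFunction.vonMangoldt n * ‖bG G c T u t n‖ else 0) ≤
      ∑ lam ∈ G, wt T t * ((lam * d) * ∑' n : ℕ, (if p n then ArithmeticFunction.vonMangoldt n /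
        Real.sqrt n * Real.exp (-(u / lam - Real.log n) ^ 2 / 4) else 0)) := by
    have hs : ∀ lam ∈ G, Summable (fun n : ℕ => wt T t * ((lam * d) *
        (if p n then ArithmeticFunction.vonMangoldt n /
        Real.sqrt n * Real.exp (-(u / lam - Real.log n) ^ 2 / 4) else 0))) := fun lam _ =>
      ((ite_summable (half_nonneg _) (half_summable (u / lam)) p).mul_left _).mul_left _
    have e1 : ∑ lam ∈ G, wt T t * ((lam * d) * ∑' n : ℕ, (if p n then
        ArithmeticFunction.vonMangoldt n /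
        Real.sqrt n * Real.exp (-(u / lam - Real.log n) ^ 2 / 4) else 0)) =
        ∑' n : ℕ, ∑ lam ∈ G, wt T t * ((lam * d) *
        (if p n then ArithmeticFunction.vonMangoldt n /
        Real.sqrt n * Real.exp (-(u / lam - Real.log n) ^ 2 / 4) else 0)) := by
      rw [Summable.tsum_finsetSum hs]
      refine Finset.sum_congr rfl fun lam _ => ?_
      rw [tsum_mul_left, tsum_mul_left]
    rw [e1]
    refine Summable.tsum_le_tsum (fun n => ?_)
      (ite_summable (fun n => mul_nonneg ArithmeticFunction.vonMangoldt_nonneg (norm_nonneg _))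
        (bG_summable hG hc T u t hT) p) (summable_sum hs)
    split_ifs with hp
    · refine (bG_bound hG hc T u t hT n).trans (le_of_eq ?_)
      refine Finset.sum_congr rfl fun lam _ => ?_
      ring
    · simp
  have h0 : 0 ≤ ∑' n : ℕ, (if p n then ArithmeticFunction.vonMangoldt n *
      ‖bG G c T u t n‖ else 0) := by
    refine tsum_nonneg (fun n => ?_)
    split_ifs
    · exact mul_nonneg ArithmeticFunction.vonMangoldt_nonneg (norm_nonneg _)
    · exact le_rfl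
  refine (pow_le_pow_left₀ h0 h1 2).trans ?_
  refine (sq_sum_le_card_mul_sum_sq).trans (le_of_eq ?_)
  rw [Finset.mul_sum, Finset.mul_sum]
  refine Finset.sum_congr rfl fun lam _ => ?_
  ring

theorem msG_point (M : ℕ) (hM : Squarefree M) (d : ℝ) (hd : 1 ≤ d) (hG : ∀ lam ∈ G, 1 ≤ lam)
    (hc : ∀ lam ∈ G, ∀ n, ‖c lam n‖ ≤ d) (ε1 : ℝ) (h1 : 0 < ε1) (h2 : ε1 ≤ 1) :
    ∃ (C : ℝ) (P : ℕ), 0 < C ∧ 1 ≤ P ∧
    ∀ (X Y N : ℕ) (T u t : ℝ), 1 ≤ X → X ≤ Y → 0 ≤ T →
    primFamM M X Y (fun q χ =>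
        ‖∑' n : ℕ, χ (n : ZMod q) * (ArithmeticFunction.vonMangoldt n : ℂ) *
          bG G c T u t n‖ ^ 2) ≤
      ((1 + ε1) * Real.exp (Real.pi * N / (X : ℝ) ^ 2) *
        (cM M * (1 + ε1) * Real.log ((Y : ℝ) / X) + C)) *
        ∑ n ∈ Finset.Icc 1 N, (ArithmeticFunction.vonMangoldt n) ^ 2 * ‖bG G c T u t n‖ ^ 2
      + wt T t ^ 2 * ∑ lam ∈ G, DD C P X Y N (u / lam) := by
  obtain ⟨C, P, hC, hP, h⟩ := prim_ls_M M hM ε1 h1 h2
  have hd0 : 0 ≤ d := by linarith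
  obtain ⟨C', hC', hCC, hCG⟩ : ∃ C' : ℝ, 0 < C' ∧ C ≤ C' ∧
      ∀ lam ∈ G, C * (G.card * (lam * d) ^ 2) ≤ C' := by
    refine ⟨C + ∑ lam ∈ G, C * (G.card * (lam * d) ^ 2), ?_, ?_, ?_⟩
    · have : 0 ≤ ∑ lam ∈ G, C * (G.card * (lam * d) ^ 2) :=
        Finset.sum_nonneg fun _ _ => by positivity
      linarith
    · have : 0 ≤ ∑ lam ∈ G, C * (G.card * (lam * d) ^ 2) :=
        Finset.sum_nonneg fun _ _ => by positivity
      linarith
    · intro lam hl
      have := Finset.single_le_sum (f := fun lam : ℝ => C * (G.card * (lam * d) ^ 2))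
        (fun _ _ => by positivity) hl
      linarith
  refine ⟨C', P, hC', hP, ?_⟩
  intro X Y N T u t hX hXY hT
  have h3 := h X Y N (bG G c T u t) hX hXY (bG_summable hG hc T u t hT)
  have hlog : 0 ≤ Real.log ((Y : ℝ) / X) := by
    refine Real.log_nonneg ?_
    have : (0 : ℝ) < X := by exact_mod_cast hX
    rw [one_le_div this]
    exact_mod_cast hXY
  refine h3.trans ?_
  have hGq : ∀ q : ℕ, C * (∑' n : ℕ, if Nat.Coprime n q then 0 else
      ArithmeticFunction.vonMangoldt n * ‖bG G c T u t n‖) ^ 2 ≤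
        wt T t ^ 2 * ∑ lam ∈ G, C' * Gq q (u / lam) ^ 2 := by
    intro q
    have h := bG_tsum_sq hG hc T u t hT (fun n => ¬ Nat.Coprime n q)
    simp only [ite_not] at h
    have h' := mul_le_mul_of_nonneg_left h hC.le
    refine h'.trans ?_
    rw [mul_left_comm]
    refine mul_le_mul_of_nonneg_left ?_ (sq_nonneg _)
    rw [Finset.mul_sum]
    refine Finset.sum_le_sum fun lam hl => ?_
    rw [← mul_assoc]
    exact mul_le_mul_of_nonneg_right (hCG lam hl) (sq_nonneg _)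
  have hTl : C * (∑' n : ℕ, if N < n then ArithmeticFunction.vonMangoldt n *
      ‖bG G c T u t n‖ else 0) ^ 2 ≤ wt T t ^ 2 * ∑ lam ∈ G, C' * Tl N (u / lam) ^ 2 := by
    have h := bG_tsum_sq hG hc T u t hT (fun n => N < n)
    have h' := mul_le_mul_of_nonneg_left h hC.le
    refine h'.trans ?_
    rw [mul_left_comm]
    refine mul_le_mul_of_nonneg_left ?_ (sq_nonneg _)
    rw [Finset.mul_sum]
    refine Finset.sum_le_sum fun lam hl => ?_
    rw [← mul_assoc]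
    exact mul_le_mul_of_nonneg_right (hCG lam hl) (sq_nonneg _)
  have h5 : C * ∑ q ∈ Finset.Ioc X (P * Y), (1 / (q : ℝ)) *
        (∑' n : ℕ, if Nat.Coprime n q then 0 else ArithmeticFunction.vonMangoldt n *
          ‖bG G c T u t n‖) ^ 2 ≤
      ∑ q ∈ Finset.Ioc X (P * Y), (1 / (q : ℝ)) *
        (wt T t ^ 2 * ∑ lam ∈ G, C' * Gq q (u / lam) ^ 2) := by
    rw [Finset.mul_sum]
    refine Finset.sum_le_sum (fun q _ => ?_)
    rw [mul_left_comm]
    exact mul_le_mul_of_nonneg_left (hGq q) (by positivity)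
  have h6 : C * (Real.log ((Y : ℝ) / X) + 1) *
        ((∑' n : ℕ, if Nat.Coprime n P then 0 else ArithmeticFunction.vonMangoldt n *
          ‖bG G c T u t n‖) ^ 2 +
         (∑' n : ℕ, if N < n then ArithmeticFunction.vonMangoldt n *
          ‖bG G c T u t n‖ else 0) ^ 2) ≤
      (Real.log ((Y : ℝ) / X) + 1) * (wt T t ^ 2 * ∑ lam ∈ G, C' * Gq P (u / lam) ^ 2 +
        wt T t ^ 2 * ∑ lam ∈ G, C' * Tl N (u / lam) ^ 2) := by
    have e : ∀ x y l : ℝ, C * l * (x + y) = l * (C * x + C * y) := fun x y l => by ring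
    rw [e]
    exact mul_le_mul_of_nonneg_left (add_le_add (hGq P) hTl) (by linarith)
  have h7 : wt T t ^ 2 * ∑ lam ∈ G, DD C' P X Y N (u / lam) =
      ∑ q ∈ Finset.Ioc X (P * Y), (1 / (q : ℝ)) *
        (wt T t ^ 2 * ∑ lam ∈ G, C' * Gq q (u / lam) ^ 2) +
      (Real.log ((Y : ℝ) / X) + 1) * (wt T t ^ 2 * ∑ lam ∈ G, C' * Gq P (u / lam) ^ 2 +
        wt T t ^ 2 * ∑ lam ∈ G, C' * Tl N (u / lam) ^ 2) := by
    unfold DD
    rw [Finset.sum_add_distrib, mul_add]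
    congr 1
    · rw [Finset.mul_sum]
      have e1 : ∀ q : ℕ, (1 / (q : ℝ)) * (wt T t ^ 2 * ∑ lam ∈ G, C' * Gq q (u / lam) ^ 2) =
          ∑ lam ∈ G, wt T t ^ 2 * (C' * ((1 / (q : ℝ)) * Gq q (u / lam) ^ 2)) := by
        intro q
        rw [Finset.mul_sum, Finset.mul_sum]
        exact Finset.sum_congr rfl fun lam _ => by ring
      simp_rw [e1]
      rw [Finset.sum_comm]
      refine Finset.sum_congr rfl fun lam _ => ?_
      rw [Finset.mul_sum, Finset.mul_sum]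
    · rw [← mul_add, ← Finset.sum_add_distrib, Finset.mul_sum, Finset.mul_sum, Finset.mul_sum]
      exact Finset.sum_congr rfl fun lam _ => by ring
  rw [h7]
  have h8 : ((1 + ε1) * Real.exp (Real.pi * N / (X : ℝ) ^ 2) *
        (cM M * (1 + ε1) * Real.log ((Y : ℝ) / X) + C)) *
        ∑ n ∈ Finset.Icc 1 N, (ArithmeticFunction.vonMangoldt n) ^ 2 * ‖bG G c T u t n‖ ^ 2 ≤
      ((1 + ε1) * Real.exp (Real.pi * N / (X : ℝ) ^ 2) *
        (cM M * (1 + ε1) * Real.log ((Y : ℝ) / X) + C')) *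
        ∑ n ∈ Finset.Icc 1 N, (ArithmeticFunction.vonMangoldt n) ^ 2 * ‖bG G c T u t n‖ ^ 2 := by
    refine mul_le_mul_of_nonneg_right ?_ (Finset.sum_nonneg (fun n _ => by positivity))
    refine mul_le_mul_of_nonneg_left ?_ (by positivity)
    linarith
  linarith

end groups

end Pool.Agent.H63.DZ
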