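import Pool.Agent.H63.DZ.MS2

/-!
Integrated mean square of the prime side.
-/

open Complex Filter Topology Set MeasureTheory
open H385

set_option maxHeartbeats 4000000

namespace Pool.Agent.H63.DZ

/-- summability against any Gaussian -/
lemma lam2_summable {δ : ℝ} (hδ : 0 < δ) : Summable (fun n : ℕ =>
    (ArithmeticFunction.vonMangoldt n) ^ 2 / n * Real.exp (-(δ * (Real.log n) ^ 2))) := by
  have h1 : Summable (fun n : ℕ => Real.exp (4 / δ) * (1 / (n : ℝ) ^ 2)) :=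
    (Real.summable_one_div_nat_pow.mpr one_lt_two).mul_left _
  refine Summable.of_nonneg_of_le (fun n => by positivity) (fun n => ?_) h1
  rcases Nat.eq_zero_or_pos n with rfl | hn
  · simp
  have hn1 : (1 : ℝ) ≤ n := by exact_mod_cast hn
  have hn0 : (0 : ℝ) < n := by linarith
  have h2 : (ArithmeticFunction.vonMangoldt n) ^ 2 ≤ (n : ℝ) ^ 2 := by
    have h3 : ArithmeticFunction.vonMangoldt n ≤ Real.log n := ArithmeticFunction.vonMangoldt_le_log
    have h4 : Real.log n ≤ n := (Real.log_le_sub_one_of_pos hn0).trans (by linarith)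
    exact pow_le_pow_left₀ ArithmeticFunction.vonMangoldt_nonneg (h3.trans h4) 2
  have h5 : Real.exp (-(δ * (Real.log n) ^ 2)) ≤ Real.exp (4 / δ) * (1 / (n : ℝ) ^ 4) := by
    have h6 : 1 / (n : ℝ) ^ 4 = Real.exp (-(4 * Real.log n)) := by
      rw [Real.exp_neg, mul_comm, Real.exp_mul, Real.exp_log hn0]
      norm_num
    rw [h6, ← Real.exp_add]
    apply Real.exp_le_exp.mpr
    have h7 : 0 ≤ δ * (Real.log n - 2 / δ) ^ 2 := by positivity
    have h8 : δ * (Real.log n - 2 / δ) ^ 2 = δ * (Real.log n) ^ 2 - 4 * Real.log n + 4 / δ := by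
      field_simp
      ring
    linarith
  calc (ArithmeticFunction.vonMangoldt n) ^ 2 / n * Real.exp (-(δ * (Real.log n) ^ 2)) ≤
      (n : ℝ) ^ 2 / n * (Real.exp (4 / δ) * (1 / (n : ℝ) ^ 4)) := by gcongr
    _ = Real.exp (4 / δ) * (1 / (n : ℝ) ^ 3) := by field_simp
    _ ≤ Real.exp (4 / δ) * (1 / (n : ℝ) ^ 2) := by
      apply mul_le_mul_of_nonneg_left _ (Real.exp_pos _).le
      apply one_div_le_one_div_of_le (by positivity)
      exact pow_le_pow_right₀ hn1 (by norm_num)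

section groups

variable {G : Finset ℝ} {c : ℝ → ℕ → ℂ}

/-- one summand of the combined coefficient -/
noncomputable def xb (c : ℝ → ℕ → ℂ) (T u t : ℝ) (n : ℕ) (lam : ℝ) : ℝ :=
  ‖(lam : ℂ) * (c lam n * ((Real.sqrt n : ℂ)⁻¹ * bt T u t (lam * Real.log n)))‖

lemma xb_nonneg (T u t : ℝ) (n : ℕ) (lam : ℝ) : 0 ≤ xb c T u t n lam := norm_nonneg _

lemma xb_le {d : ℝ} {lam : ℝ} (hl : 0 ≤ lam) (hc : ∀ n, ‖c lam n‖ ≤ d)
    (T u t : ℝ) (hT : 0 ≤ T) (n : ℕ) : xb c T u t n lam ≤ lam * d * ((Real.sqrt n)⁻¹ *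
      (Real.exp (-(u - lam * Real.log n) ^ 2 / 4) * wt T t)) := by
  unfold xb
  rw [norm_mul, norm_mul (c lam n), norm_mul, Complex.norm_real, Real.norm_of_nonneg hl, norm_inv,
    Complex.norm_real, Real.norm_of_nonneg (Real.sqrt_nonneg _)]
  have h1 := bt_quarter T u t (lam * Real.log n) hT
  have h2 := hc n
  have h3 : (0:ℝ) ≤ (Real.sqrt n)⁻¹ := inv_nonneg.mpr (Real.sqrt_nonneg _)
  have hw := wt_nonneg T t hT
  calc lam * (‖c lam n‖ * ((Real.sqrt n)⁻¹ * ‖bt T u t (lam * Real.log n)‖)) ≤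
      lam * (d * ((Real.sqrt n)⁻¹ * (Real.exp (-(u - lam * Real.log n) ^ 2 / 4) * wt T t))) := by
        have hd0 : 0 ≤ d := (norm_nonneg _).trans h2
        gcongr
    _ = _ := by ring

/-- the off-diagonal weights -/
noncomputable def Wo (d lam mu : ℝ) (n : ℕ) : ℝ := lam * mu * d ^ 2 *
  ((ArithmeticFunction.vonMangoldt n) ^ 2 / n *
    Real.exp (-((lam - mu) ^ 2 / 8 * (Real.log n) ^ 2)))

lemma Wo_nonneg {d lam mu : ℝ} (h1 : 0 ≤ lam) (h2 : 0 ≤ mu) (n : ℕ) : 0 ≤ Wo d lam mu n := by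
  unfold Wo; positivity

lemma xb_cross {d : ℝ} {lam mu : ℝ} (hl : 0 ≤ lam) (hm : 0 ≤ mu) (hc : ∀ n, ‖c lam n‖ ≤ d)
    (hc' : ∀ n, ‖c mu n‖ ≤ d) (T u t : ℝ) (hT : 0 ≤ T) (n : ℕ) :
    (ArithmeticFunction.vonMangoldt n) ^ 2 * (xb c T u t n lam * xb c T u t n mu) ≤
      wt T t ^ 2 * Wo d lam mu n := by
  have h1 := xb_le hl hc T u t hT n
  have h2 := xb_le hm hc' T u t hT n
  have hd0 : 0 ≤ d := (norm_nonneg _).trans (hc n)
  have hw := wt_nonneg T t hT
  have h3 : (0:ℝ) ≤ (Real.sqrt n)⁻¹ := inv_nonneg.mpr (Real.sqrt_nonneg _)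
  have h4 : xb c T u t n lam * xb c T u t n mu ≤ (lam * d * ((Real.sqrt n)⁻¹ *
      (Real.exp (-(u - lam * Real.log n) ^ 2 / 4) * wt T t))) * (mu * d * ((Real.sqrt n)⁻¹ *
      (Real.exp (-(u - mu * Real.log n) ^ 2 / 4) * wt T t))) :=
    mul_le_mul h1 h2 (xb_nonneg _ _ _ _ _) ((xb_nonneg (c := c) _ _ _ _ _).trans h1)
  have h5 : Real.exp (-(u - lam * Real.log n) ^ 2 / 4) * Real.exp (-(u - mu * Real.log n) ^ 2 / 4)
      ≤ Real.exp (-((lam - mu) ^ 2 / 8 * (Real.log n) ^ 2)) := by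
    rw [← Real.exp_add]
    apply Real.exp_le_exp.mpr
    have h6 := sq_nonneg ((u - lam * Real.log n) + (u - mu * Real.log n))
    have h7 : (lam - mu) ^ 2 * (Real.log n) ^ 2 =
      ((u - lam * Real.log n) - (u - mu * Real.log n)) ^ 2 := by ring
    have h8 : (lam - mu) ^ 2 / 8 * (Real.log n) ^ 2 =
      ((u - lam * Real.log n) - (u - mu * Real.log n)) ^ 2 / 8 := by rw [← h7]; ring
    rw [h8]
    nlinarith
  have h9 : (Real.sqrt n)⁻¹ * (Real.sqrt n)⁻¹ = 1 / (n : ℝ) := by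
    rw [← mul_inv, Real.mul_self_sqrt (Nat.cast_nonneg n), one_div]
  calc (ArithmeticFunction.vonMangoldt n) ^ 2 * (xb c T u t n lam * xb c T u t n mu) ≤
      (ArithmeticFunction.vonMangoldt n) ^ 2 * ((lam * d * ((Real.sqrt n)⁻¹ *
      (Real.exp (-(u - lam * Real.log n) ^ 2 / 4) * wt T t))) * (mu * d * ((Real.sqrt n)⁻¹ *
      (Real.exp (-(u - mu * Real.log n) ^ 2 / 4) * wt T t)))) :=
        mul_le_mul_of_nonneg_left h4 (sq_nonneg _)
    _ = wt T t ^ 2 * (lam * mu * d ^ 2 * ((ArithmeticFunction.vonMangoldt n) ^ 2 *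
        ((Real.sqrt n)⁻¹ * (Real.sqrt n)⁻¹) * (Real.exp (-(u - lam * Real.log n) ^ 2 / 4) *
          Real.exp (-(u - mu * Real.log n) ^ 2 / 4)))) := by ring
    _ ≤ wt T t ^ 2 * (lam * mu * d ^ 2 * ((ArithmeticFunction.vonMangoldt n) ^ 2 *
        ((Real.sqrt n)⁻¹ * (Real.sqrt n)⁻¹) *
          Real.exp (-((lam - mu) ^ 2 / 8 * (Real.log n) ^ 2)))) := by
        gcongr
    _ = _ := by
        rw [h9]; unfold Wo; ring

/-- total off-diagonal weight -/
noncomputable def Off (G : Finset ℝ) (d : ℝ) : ℝ :=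
  ∑ lam ∈ G, ∑ mu ∈ G.erase lam, ∑' n : ℕ, Wo d lam mu n

lemma Wo_summable {d lam mu : ℝ} (h : lam ≠ mu) : Summable (Wo d lam mu) := by
  unfold Wo
  refine Summable.mul_left _ (lam2_summable ?_)
  have : lam - mu ≠ 0 := sub_ne_zero.2 h
  positivity

lemma Off_nonneg (hG : ∀ lam ∈ G, 1 ≤ lam) (d : ℝ) : 0 ≤ Off G d := by
  unfold Off
  refine Finset.sum_nonneg fun lam hl => Finset.sum_nonneg fun mu hm => tsum_nonneg fun n => ?_
  exact Wo_nonneg (by linarith [hG lam hl]) (by linarith [hG mu (Finset.mem_of_mem_erase hm)]) n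

lemma bG_sq_le {d : ℝ} (hG : ∀ lam ∈ G, 1 ≤ lam) (hc : ∀ lam ∈ G, ∀ n, ‖c lam n‖ ≤ d)
    (T u t : ℝ) (hT : 0 ≤ T) (N : ℕ) :
    ∑ n ∈ Finset.Icc 1 N, (ArithmeticFunction.vonMangoldt n) ^ 2 * ‖bG G c T u t n‖ ^ 2 ≤
      (∑ lam ∈ G, ∑ n ∈ Finset.Icc 1 N, (ArithmeticFunction.vonMangoldt n) ^ 2 *
        xb c T u t n lam ^ 2) + wt T t ^ 2 * Off G d := by
  have h1 : ∀ n : ℕ, ‖bG G c T u t n‖ ^ 2 ≤ ∑ lam ∈ G, (xb c T u t n lam ^ 2 +
      ∑ mu ∈ G.erase lam, xb c T u t n lam * xb c T u t n mu) := by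
    intro n
    have h2 : ‖bG G c T u t n‖ ≤ ∑ lam ∈ G, xb c T u t n lam := norm_sum_le _ _
    refine (pow_le_pow_left₀ (norm_nonneg _) h2 2).trans (le_of_eq ?_)
    rw [sq, Finset.sum_mul_sum]
    refine Finset.sum_congr rfl fun lam hl => ?_
    rw [← Finset.add_sum_erase G _ hl, sq]
  calc ∑ n ∈ Finset.Icc 1 N, (ArithmeticFunction.vonMangoldt n) ^ 2 * ‖bG G c T u t n‖ ^ 2 ≤
      ∑ n ∈ Finset.Icc 1 N, (ArithmeticFunction.vonMangoldt n) ^ 2 *
        ∑ lam ∈ G, (xb c T u t n lam ^ 2 +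
      ∑ mu ∈ G.erase lam, xb c T u t n lam * xb c T u t n mu) :=
        Finset.sum_le_sum fun n _ => mul_le_mul_of_nonneg_left (h1 n) (sq_nonneg _)
    _ = (∑ lam ∈ G, ∑ n ∈ Finset.Icc 1 N, (ArithmeticFunction.vonMangoldt n) ^ 2 *
        xb c T u t n lam ^ 2) + ∑ lam ∈ G, ∑ mu ∈ G.erase lam, ∑ n ∈ Finset.Icc 1 N,
          (ArithmeticFunction.vonMangoldt n) ^ 2 * (xb c T u t n lam * xb c T u t n mu) := by
        rw [← Finset.sum_add_distrib]
        simp_rw [Finset.mul_sum]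
        rw [Finset.sum_comm]
        refine Finset.sum_congr rfl fun lam _ => ?_
        rw [Finset.sum_comm (s := G.erase lam), ← Finset.sum_add_distrib]
        refine Finset.sum_congr rfl fun n _ => ?_
        rw [mul_add, Finset.mul_sum]
    _ ≤ _ := by
        refine add_le_add le_rfl ?_
        unfold Off
        rw [Finset.mul_sum]
        refine Finset.sum_le_sum fun lam hl => ?_
        rw [Finset.mul_sum]
        refine Finset.sum_le_sum fun mu hm => ?_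
        have hm' := Finset.mem_of_mem_erase hm
        have hne : lam ≠ mu := (Finset.ne_of_mem_erase hm).symm
        have l0 : 0 ≤ lam := by linarith [hG lam hl]
        have m0 : 0 ≤ mu := by linarith [hG mu hm']
        calc ∑ n ∈ Finset.Icc 1 N, (ArithmeticFunction.vonMangoldt n) ^ 2 *
            (xb c T u t n lam * xb c T u t n mu) ≤
            ∑ n ∈ Finset.Icc 1 N, wt T t ^ 2 * Wo d lam mu n :=
              Finset.sum_le_sum fun n _ => xb_cross l0 m0 (hc lam hl) (hc mu hm') T u t hT n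
          _ = wt T t ^ 2 * ∑ n ∈ Finset.Icc 1 N, Wo d lam mu n := by rw [Finset.mul_sum]
          _ ≤ _ := mul_le_mul_of_nonneg_left ((Wo_summable hne).sum_le_tsum _
              (fun n _ => Wo_nonneg l0 m0 n)) (sq_nonneg _)

theorem xb_int {m : ℝ → ℝ} (hG : ∀ lam ∈ G, 1 ≤ lam) (hS : ∀ lam ∈ G, SelM (c lam) (m lam))
    {lam : ℝ} (hl : lam ∈ G) : ∃ C : ℝ, 0 < C ∧
    ∀ (T κ u : ℝ) (N : ℕ), 1 ≤ κ → 1 ≤ T → T ≤ Real.exp (κ ^ 2) → 0 ≤ u →
    Integrable (fun t => ∑ n ∈ Finset.Icc 1 N, (ArithmeticFunction.vonMangoldt n) ^ 2 *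
      xb c T u t n lam ^ 2) ∧
    ∫ t : ℝ, ∑ n ∈ Finset.Icc 1 N, (ArithmeticFunction.vonMangoldt n) ^ 2 *
      xb c T u t n lam ^ 2 ≤
      T / (2 * Real.pi) * SWD (c lam) lam u + C * κ * (u + 1) := by
  obtain ⟨C5, hC5, h5⟩ := bt_sq_int
  have hl1 := hG lam hl
  obtain ⟨⟨C6, hC6, h6⟩, hsum, -⟩ := (hS lam hl).swd hl1
  refine ⟨C5 * C6, by positivity, ?_⟩
  intro T κ u N hκ hT hTκ hu
  have hx : ∀ (t : ℝ) (n : ℕ), xb c T u t n lam ^ 2 = lam ^ 2 * (‖c lam n‖ ^ 2 *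
      (‖(Real.sqrt n : ℂ)⁻¹‖ ^ 2 * ‖bt T u t (lam * Real.log n)‖ ^ 2)) := by
    intro t n
    unfold xb
    rw [norm_mul, norm_mul (c lam n), norm_mul, Complex.norm_real,
      Real.norm_of_nonneg (by linarith : (0:ℝ) ≤ lam)]
    ring
  have hint : ∀ n ∈ Finset.Icc 1 N, Integrable (fun t => (ArithmeticFunction.vonMangoldt n) ^ 2 *
      xb c T u t n lam ^ 2) := by
    intro n hn
    have := (h5 T κ u (lam * Real.log n) hκ hT hTκ).1
    simp_rw [hx]
    exact (((this.const_mul _).const_mul _).const_mul _).const_mul _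
  refine ⟨integrable_finsetSum _ hint, ?_⟩
  rw [integral_finsetSum _ hint]
  have hS2 := (h6 u hu).1
  have hS2le := (h6 u hu).2
  have hS1 := hsum u hu
  have hterm : ∀ n ∈ Finset.Icc 1 N, ∫ t : ℝ, (ArithmeticFunction.vonMangoldt n) ^ 2 *
      xb c T u t n lam ^ 2 ≤
      T / (2 * Real.pi) * (lam ^ 2 * wc (c lam) n * Real.exp (-(u - lam * Real.log n) ^ 2)) +
      C5 * κ * (lam ^ 2 * wc (c lam) n * Real.exp (-(u - lam * Real.log n) ^ 2 / 2)) := by
    intro n hn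
    have hn1 : 1 ≤ n := (Finset.mem_Icc.mp hn).1
    have hn0 : (0 : ℝ) < n := by exact_mod_cast hn1
    have h7 := (h5 T κ u (lam * Real.log n) hκ hT hTκ).2
    simp_rw [hx]
    rw [integral_const_mul, integral_const_mul, integral_const_mul, integral_const_mul]
    have h8 : ‖(Real.sqrt n : ℂ)⁻¹‖ ^ 2 = 1 / n := by
      rw [norm_inv, Complex.norm_real, Real.norm_of_nonneg (Real.sqrt_nonneg _), inv_pow,
        Real.sq_sqrt hn0.le]
      simp
    rw [h8]
    have h9 : (ArithmeticFunction.vonMangoldt n) ^ 2 * (lam ^ 2 * (‖c lam n‖ ^ 2 * (1 / (n : ℝ) *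
        ∫ t : ℝ, ‖bt T u t (lam * Real.log n)‖ ^ 2))) ≤ (ArithmeticFunction.vonMangoldt n) ^ 2 *
        (lam ^ 2 * (‖c lam n‖ ^ 2 * (1 / (n : ℝ) *
        (T / (2 * Real.pi) * Real.exp (-(u - lam * Real.log n) ^ 2) +
      C5 * κ * Real.exp (-(u - lam * Real.log n) ^ 2 / 2))))) := by gcongr
    refine h9.trans (le_of_eq ?_)
    unfold wc
    ring
  refine (Finset.sum_le_sum hterm).trans ?_
  rw [Finset.sum_add_distrib, ← Finset.mul_sum, ← Finset.mul_sum]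
  have w0 : ∀ n, 0 ≤ lam ^ 2 * wc (c lam) n := fun n => mul_nonneg (sq_nonneg _) (wc_nonneg _ n)
  have a1 : ∑ n ∈ Finset.Icc 1 N, (lam ^ 2 * wc (c lam) n *
      Real.exp (-(u - lam * Real.log n) ^ 2)) ≤ SWD (c lam) lam u :=
    hS1.sum_le_tsum _ (fun n _ => mul_nonneg (w0 n) (Real.exp_pos _).le)
  have a2 : ∑ n ∈ Finset.Icc 1 N, (lam ^ 2 * wc (c lam) n *
      Real.exp (-(u - lam * Real.log n) ^ 2 / 2)) ≤ C6 * (u + 1) :=
    (hS2.sum_le_tsum _ (fun n _ => mul_nonneg (w0 n) (Real.exp_pos _).le)).trans hS2le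
  have hT0 : 0 ≤ T := by linarith
  refine add_le_add (mul_le_mul_of_nonneg_left a1 (by positivity)) ?_
  calc C5 * κ * _ ≤ C5 * κ * (C6 * (u + 1)) := mul_le_mul_of_nonneg_left a2 (by positivity)
    _ = _ := by ring

theorem msG_int (M : ℕ) (hM : Squarefree M) (d : ℝ) (hd : 1 ≤ d) (hG : ∀ lam ∈ G, 1 ≤ lam)
    (hc : ∀ lam ∈ G, ∀ n, ‖c lam n‖ ≤ d) {m : ℝ → ℝ} (hS : ∀ lam ∈ G, SelM (c lam) (m lam))
    (ε1 : ℝ) (h1 : 0 < ε1) (h2 : ε1 ≤ 1) :
    ∃ (C : ℝ) (P : ℕ), 0 < C ∧ 1 ≤ P ∧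
    ∀ (X Y N : ℕ) (T κ u : ℝ), 1 ≤ X → X ≤ Y → 1 ≤ κ → 1 ≤ T → T ≤ Real.exp (κ ^ 2) → 0 ≤ u →
    ∫ t : ℝ, primFamM M X Y (fun q χ =>
        ‖∑' n : ℕ, χ (n : ZMod q) * (ArithmeticFunction.vonMangoldt n : ℂ) *
          bG G c T u t n‖ ^ 2) ≤
      ((1 + ε1) * Real.exp (Real.pi * N / (X : ℝ) ^ 2) *
        (cM M * (1 + ε1) * Real.log ((Y : ℝ) / X) + C)) *
        (T / (2 * Real.pi) * (∑ lam ∈ G, SWD (c lam) lam u) + C * (κ * (u + 1) + T))
      + (T + C) * ∑ lam ∈ G, DD C P X Y N (u / lam) := by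
  obtain ⟨C, P, hC, hP, h⟩ := msG_point M hM d hd hG hc ε1 h1 h2
  obtain ⟨C7, hC7, h7⟩ := wt_sq_int
  have hx := fun (lam : ℝ) (hl : lam ∈ G) => xb_int hG hS hl
  choose! C5 hC5 h5 using hx
  have hcM := cM_pos M hM
  have hO := Off_nonneg hG d
  obtain ⟨S5, hS5⟩ : ∃ S5, S5 = ∑ lam ∈ G, C5 lam := ⟨_, rfl⟩
  have hS50 : 0 ≤ S5 := by rw [hS5]; exact Finset.sum_nonneg fun lam hl => (hC5 lam hl).le
  refine ⟨C + S5 + C7 + (1 + C7) * Off G d, P, by positivity, hP, ?_⟩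
  intro X Y N T κ u hX hXY hκ hT hTκ hu
  have hT0 : 0 ≤ T := by linarith
  have hlog : 0 ≤ Real.log ((Y : ℝ) / X) := by
    refine Real.log_nonneg ?_
    have : (0 : ℝ) < X := by exact_mod_cast hX
    rw [one_le_div this]
    exact_mod_cast hXY
  obtain ⟨j1, j2⟩ := h7 T hT0
  have hDD : 0 ≤ ∑ lam ∈ G, DD C P X Y N (u / lam) :=
    Finset.sum_nonneg fun lam _ => DD_nonneg C hC.le P X Y N _ hX hXY
  set D1 : ℝ := (1 + ε1) * Real.exp (Real.pi * N / (X : ℝ) ^ 2) *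
        (cM M * (1 + ε1) * Real.log ((Y : ℝ) / X) + C) with hD1
  have hD1n : 0 ≤ D1 := by positivity
  have hS1 : 0 ≤ ∑ lam ∈ G, SWD (c lam) lam u := Finset.sum_nonneg fun lam _ => SWD_nonneg _ _ _
  have hxi : ∀ lam ∈ G, Integrable (fun t => ∑ n ∈ Finset.Icc 1 N,
      (ArithmeticFunction.vonMangoldt n) ^ 2 * xb c T u t n lam ^ 2) := fun lam hl =>
    (h5 lam hl T κ u N hκ hT hTκ hu).1
  have i1 : Integrable (fun t => ∑ lam ∈ G, ∑ n ∈ Finset.Icc 1 N,
      (ArithmeticFunction.vonMangoldt n) ^ 2 * xb c T u t n lam ^ 2) := integrable_finsetSum _ hxi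
  have i2 : ∫ t, ∑ lam ∈ G, ∑ n ∈ Finset.Icc 1 N,
      (ArithmeticFunction.vonMangoldt n) ^ 2 * xb c T u t n lam ^ 2 ≤
      T / (2 * Real.pi) * (∑ lam ∈ G, SWD (c lam) lam u) + S5 * κ * (u + 1) := by
    rw [integral_finsetSum _ hxi]
    refine (Finset.sum_le_sum fun lam hl => (h5 lam hl T κ u N hκ hT hTκ hu).2).trans
      (le_of_eq ?_)
    rw [Finset.sum_add_distrib, ← Finset.mul_sum, hS5, ← Finset.sum_mul, ← Finset.sum_mul]
  calc _ ≤ ∫ t : ℝ, (D1 * ((∑ lam ∈ G, ∑ n ∈ Finset.Icc 1 N,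
          (ArithmeticFunction.vonMangoldt n) ^ 2 * xb c T u t n lam ^ 2) + wt T t ^ 2 * Off G d) +
          wt T t ^ 2 * ∑ lam ∈ G, DD C P X Y N (u / lam)) := by
        refine integral_mono_of_nonneg ?_ ?_ ?_
        · exact Filter.Eventually.of_forall (fun t => primFamM_nonneg _ _ _ _ (fun _ _ => sq_nonneg _))
        · exact ((i1.add (j1.mul_const _)).const_mul _).add (j1.mul_const _)
        · refine Filter.Eventually.of_forall (fun t => (h X Y N T u t hX hXY hT0).trans ?_)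
          refine add_le_add ?_ le_rfl
          exact mul_le_mul_of_nonneg_left (bG_sq_le hG hc T u t hT0 N) hD1n
    _ = D1 * ((∫ t : ℝ, ∑ lam ∈ G, ∑ n ∈ Finset.Icc 1 N,
          (ArithmeticFunction.vonMangoldt n) ^ 2 * xb c T u t n lam ^ 2) +
          (∫ t : ℝ, wt T t ^ 2) * Off G d) +
          (∫ t : ℝ, wt T t ^ 2) * ∑ lam ∈ G, DD C P X Y N (u / lam) := by
        have i4 : Integrable (fun t : ℝ => (∑ lam ∈ G, ∑ n ∈ Finset.Icc 1 N,
            (ArithmeticFunction.vonMangoldt n) ^ 2 * xb c T u t n lam ^ 2) +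
            wt T t ^ 2 * Off G d) := i1.add (j1.mul_const _)
        rw [integral_add (i4.const_mul D1) (j1.mul_const _),
          integral_const_mul, integral_mul_const, integral_add i1 (j1.mul_const _),
          integral_mul_const]
    _ ≤ D1 * ((T / (2 * Real.pi) * (∑ lam ∈ G, SWD (c lam) lam u) + S5 * κ * (u + 1)) +
          (T + C7) * Off G d) + (T + C7) * ∑ lam ∈ G, DD C P X Y N (u / lam) := by
        refine add_le_add (mul_le_mul_of_nonneg_left (add_le_add i2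
          (mul_le_mul_of_nonneg_right j2 hO)) hD1n) (mul_le_mul_of_nonneg_right j2 hDD)
    _ ≤ _ := by
        set CC := C + S5 + C7 + (1 + C7) * Off G d with hCC
        have hz : 0 ≤ (1 + C7) * Off G d := by positivity
        have hCle : C ≤ CC := by rw [hCC]; linarith
        have hDD2 : ∑ lam ∈ G, DD C P X Y N (u / lam) ≤ ∑ lam ∈ G, DD CC P X Y N (u / lam) := by
          refine Finset.sum_le_sum fun lam _ => ?_
          unfold DD
          gcongr
        have hD2 : D1 ≤ (1 + ε1) * Real.exp (Real.pi * N / (X : ℝ) ^ 2) *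
            (cM M * (1 + ε1) * Real.log ((Y : ℝ) / X) + CC) := by
          rw [hD1]; gcongr
        have e1 : (T / (2 * Real.pi) * (∑ lam ∈ G, SWD (c lam) lam u) + S5 * κ * (u + 1)) +
            (T + C7) * Off G d ≤
            T / (2 * Real.pi) * (∑ lam ∈ G, SWD (c lam) lam u) + CC * (κ * (u + 1) + T) := by
          have a1 : S5 * (κ * (u + 1)) ≤ CC * (κ * (u + 1)) := by
            apply mul_le_mul_of_nonneg_right _ (by positivity)
            rw [hCC]; linarith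
          have a2 : (T + C7) * Off G d ≤ CC * T := by
            have a3 : T + C7 ≤ (1 + C7) * T := by nlinarith
            calc (T + C7) * Off G d ≤ ((1 + C7) * T) * Off G d :=
                  mul_le_mul_of_nonneg_right a3 hO
              _ = ((1 + C7) * Off G d) * T := by ring
              _ ≤ CC * T := by
                apply mul_le_mul_of_nonneg_right _ hT0
                rw [hCC]; linarith
          nlinarith
        have e2 : 0 ≤ (T / (2 * Real.pi) * (∑ lam ∈ G, SWD (c lam) lam u) + S5 * κ * (u + 1)) +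
            (T + C7) * Off G d := by positivity
        refine add_le_add ?_ ?_
        · exact mul_le_mul hD2 e1 e2 (by positivity)
        · refine mul_le_mul ?_ hDD2 hDD (by positivity)
          rw [hCC]; linarith

end groups

end Pool.Agent.H63.DZ
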