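import Pool.Agent.H63.DZ.MS3
import Pool.Graph.R_seed8.H385R2.FinDB3

/-!
The mean square hypothesis for a product of dilated functions.
-/

open Complex Filter Topology Set MeasureTheory
open H385

set_option maxHeartbeats 4000000

namespace Pool.Agent.H63.DZ

/-- the error function -/
noncomputable def Err (P X Y : ℕ) (u : ℝ) : ℝ :=
  ∑ q ∈ Finset.Ioc X (P * Y), (1 / (q : ℝ)) * Gq q u ^ 2 +
    (Real.log ((Y : ℝ) / X) + 1) * (Gq P u ^ 2 + 1)

lemma Err_cont (P X Y : ℕ) : Continuous (Err P X Y) := by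
  unfold Err
  have h3 : Continuous (fun u : ℝ => ∑ q ∈ Finset.Ioc X (P * Y), (1 / (q : ℝ)) * Gq q u ^ 2) :=
    continuous_finsetSum _ (fun q _ => continuous_const.mul ((Gq_cont q).pow 2))
  have h4 : Continuous (fun u : ℝ => Gq P u ^ 2) := (Gq_cont P).pow 2
  exact h3.add (continuous_const.mul (h4.add continuous_const))

lemma Err_nonneg (P X Y : ℕ) (hX : 1 ≤ X) (hXY : X ≤ Y) (u : ℝ) : 0 ≤ Err P X Y u := by
  have hlog : 0 ≤ Real.log ((Y : ℝ) / X) := by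
    refine Real.log_nonneg ?_
    have : (0 : ℝ) < X := by exact_mod_cast hX
    rw [one_le_div this]
    exact_mod_cast hXY
  unfold Err
  positivity

lemma sq_le_self' {x : ℝ} (h0 : 0 < x) (h1 : x ≤ 1) : x ^ 2 ≤ x := by nlinarith

/-- the error function is small on average over the family -/
theorem err_bound (M : ℕ) (hM : Squarefree M) (β : ℝ) (hβ : 0 < β) (P : ℕ) (hP : 1 ≤ P)
    (δ : ℝ) (hδ : 0 < δ) :
    ∃ K L0 : ℝ, 1 ≤ K ∧ 0 < L0 ∧ ∀ (X Y : ℕ), Real.exp L0 ≤ X → K * X ≤ Y →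
      (Y : ℝ) ≤ (X : ℝ) ^ (2 : ℕ) →
      (∀ u : ℝ, 0 ≤ u → Err P X Y u ≤ δ * WM M X Y * Real.log X ^ 2) ∧
      ∫ u in (0 : ℝ)..(β * Real.log X), Err P X Y u ≤ δ * WM M X Y * Real.log X ^ 2 := by
  obtain ⟨C4, hC4, hmass⟩ := prim_mass_M M hM
  have hc0 := cM_pos M hM
  set C11 : ℝ := 6 / cM M with hC11
  have hC11p : 0 < C11 := by positivity
  obtain ⟨ε2, hε2, hε2a, hε2b⟩ : ∃ ε2 : ℝ, 0 < ε2 ∧ C11 * (17 * ε2 ^ 2) ≤ δ ∧
      C11 * (10 * ε2) ≤ δ := by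
    refine ⟨min 1 (δ / (17 * C11)), by positivity, ?_, ?_⟩
    · have h1 : (min 1 (δ / (17 * C11))) ^ 2 ≤ min 1 (δ / (17 * C11)) :=
        sq_le_self' (by positivity) (min_le_left _ _)
      have h2 := h1.trans (min_le_right 1 (δ / (17 * C11)))
      calc C11 * (17 * (min 1 (δ / (17 * C11))) ^ 2) ≤ C11 * (17 * (δ / (17 * C11))) := by gcongr
        _ = δ := by field_simp
    · have h2 := min_le_right 1 (δ / (17 * C11))
      calc C11 * (10 * (min 1 (δ / (17 * C11)))) ≤ C11 * (17 * (δ / (17 * C11))) := by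
            gcongr; norm_num
        _ = δ := by field_simp
  obtain ⟨C2, hC2, h2⟩ := noncop_bound ε2 hε2
  obtain ⟨C3, hC3, h3⟩ := noncop_sq ε2 hε2
  have hev : ∀ᶠ L : ℝ in atTop, 1 ≤ L ∧ Real.log P ≤ L ∧ C2 ≤ ε2 * L ∧ 1 ≤ ε2 * L ∧
      C3 ≤ ε2 / 2 * L ∧ β ≤ ε2 / 2 * L := by
    filter_upwards [eventually_ge_atTop 1, eventually_ge_atTop (Real.log P),
      lin_ev C2 ε2 hε2, lin_ev 1 ε2 hε2, lin_ev C3 (ε2 / 2) (by positivity),
      lin_ev β (ε2 / 2) (by positivity)] with L a1 a2 a3 a4 a5 a6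
    exact ⟨a1, a2, a3, a4, a5, a6⟩
  obtain ⟨L0', hL0'⟩ := Filter.eventually_atTop.mp hev
  set L0 : ℝ := max L0' 1 with hL0
  set K : ℝ := Real.exp (2 * C4 / cM M + Real.log P + 1) with hK
  have hlogP : 0 ≤ Real.log P := Real.log_nonneg (by exact_mod_cast hP)
  have hK1 : 1 ≤ K := by
    rw [hK]; exact Real.one_le_exp (by positivity)
  refine ⟨K, L0, hK1, lt_of_lt_of_le one_pos (le_max_right _ _), ?_⟩
  intro X Y hXe hKX hY
  have hXpos : (0 : ℝ) < X := lt_of_lt_of_le (Real.exp_pos _) hXe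
  have hX1 : 1 ≤ X := by exact_mod_cast hXpos
  set L : ℝ := Real.log X with hL
  have hLL0 : L0 ≤ L := by rw [hL, Real.le_log_iff_exp_le hXpos]; exact hXe
  obtain ⟨a1, a3, a4, a5, a7, a8⟩ := hL0' L ((le_max_left _ _).trans hLL0)
  have hL0p : 0 < L := by linarith
  have hXYr : (X : ℝ) ≤ Y := aux_XY K X Y hK1 hXpos hKX
  have hXY : X ≤ Y := by exact_mod_cast hXYr
  have hYpos : (0 : ℝ) < Y := by linarith
  set 𝓛 : ℝ := Real.log ((Y : ℝ) / X) with h𝓛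
  have h𝓛K : 2 * C4 / cM M + Real.log P + 1 ≤ 𝓛 := by
    rw [h𝓛, Real.le_log_iff_exp_le (by positivity), ← hK, le_div_iff₀ hXpos]
    exact hKX
  have h𝓛n : 0 ≤ 𝓛 := by
    have : 0 ≤ 2 * C4 / cM M := by positivity
    linarith
  set W : ℝ := WM M X Y with hW
  have hWmass : |W - cM M * 𝓛| ≤ C4 := hmass X Y hX1 hXY
  have hWlow : cM M / 2 * 𝓛 ≤ W := by
    have h1 := (abs_le.mp hWmass).1
    have h2 : C4 ≤ cM M / 2 * 𝓛 := by
      have : 2 * C4 / cM M ≤ 𝓛 := by linarith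
      rw [div_le_iff₀ hc0] at this
      linarith
    linarith
  have hWn : 0 ≤ W := le_trans (by positivity) hWlow
  have hC11W : 2 * 𝓛 + Real.log P + 1 ≤ C11 * W := by
    have h1 : 2 * 𝓛 + Real.log P + 1 ≤ 3 * 𝓛 := by
      have : 0 ≤ 2 * C4 / cM M := by positivity
      linarith
    refine h1.trans ?_
    have h2 : C11 * (cM M / 2 * 𝓛) = 3 * 𝓛 := by rw [hC11]; field_simp; ring
    rw [← h2]
    exact mul_le_mul_of_nonneg_left hWlow hC11p.le
  have hLambda : 0 < β * L := by positivity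
  have hlogY : Real.log Y ≤ 2 * L := by
    have := Real.log_le_log hYpos hY
    rw [Real.log_pow] at this
    exact_mod_cast this
  have hq : ∀ q ∈ Finset.Ioc X (P * Y), 1 ≤ q ∧ 0 ≤ Real.log q ∧ Real.log q ≤ 3 * L := by
    intro q hq
    obtain ⟨q1, q2⟩ := Finset.mem_Ioc.mp hq
    have q3 : 1 ≤ q := by omega
    have q4 : (0 : ℝ) < q := by exact_mod_cast q3
    refine ⟨q3, Real.log_nonneg (by exact_mod_cast q3), ?_⟩
    have q5 : (q : ℝ) ≤ P * Y := by exact_mod_cast q2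
    have q6 := Real.log_le_log q4 q5
    have hP0 : (0 : ℝ) < P := by exact_mod_cast hP
    rw [Real.log_mul hP0.ne' hYpos.ne'] at q6
    linarith
  have hPq : ε2 * Real.log P + C2 ≤ 4 * ε2 * L := by
    have := mul_le_mul_of_nonneg_left a3 hε2.le
    linarith
  have hGpt : ∀ u, 0 ≤ u → ∀ q ∈ Finset.Ioc X (P * Y), Gq q u ^ 2 ≤ (4 * ε2 * L) ^ 2 := by
    intro u hu q hqm
    obtain ⟨q1, q2, q3⟩ := hq q hqm
    refine pow_le_pow_left₀ (Gq_nonneg q u) ?_ 2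
    refine ((h2 q u q1 hu).2).trans ?_
    have := mul_le_mul_of_nonneg_left q3 hε2.le
    linarith
  have hGP : ∀ u, 0 ≤ u → Gq P u ^ 2 ≤ (4 * ε2 * L) ^ 2 := by
    intro u hu
    refine pow_le_pow_left₀ (Gq_nonneg P u) ?_ 2
    exact ((h2 P u hP hu).2).trans hPq
  have h1sq : 1 ≤ (ε2 * L) ^ 2 := aux_one_sq _ a5
  have hexpand : ∀ u, Err P X Y u = ∑ q ∈ Finset.Ioc X (P * Y), (1 / (q : ℝ)) * Gq q u ^ 2 +
      (𝓛 + 1) * (Gq P u ^ 2 + 1) := fun u => rfl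
  constructor
  · intro u hu
    have c1 := sum_q_le X Y P (fun q => Gq q u ^ 2) ((4 * ε2 * L) ^ 2) (by positivity) hX1 hXY hP
      (hGpt u hu)
    have c2 := hGP u hu
    have c3 : (𝓛 + 1) * (Gq P u ^ 2 + 1) ≤ (𝓛 + 1) * (17 * (ε2 * L) ^ 2) := by
      refine mul_le_mul_of_nonneg_left ?_ (by linarith)
      refine aux_G _ _ ?_ h1sq
      rw [← mul_assoc]; exact c2
    have c4 : (𝓛 + Real.log P) * ((4 * ε2 * L) ^ 2) ≤ (𝓛 + Real.log P) * (17 * (ε2 * L) ^ 2) := by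
      refine mul_le_mul_of_nonneg_left ?_ (by linarith)
      rw [mul_assoc 4]; exact aux_G2 _
    have c5 : (𝓛 + Real.log P) * (17 * (ε2 * L) ^ 2) + (𝓛 + 1) * (17 * (ε2 * L) ^ 2) ≤
        C11 * W * (17 * (ε2 * L) ^ 2) := by
      have : (𝓛 + Real.log P) * (17 * (ε2 * L) ^ 2) + (𝓛 + 1) * (17 * (ε2 * L) ^ 2) =
        (2 * 𝓛 + Real.log P + 1) * (17 * (ε2 * L) ^ 2) := by ring
      rw [this]
      exact mul_le_mul_of_nonneg_right hC11W (by positivity)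
    have c6 : C11 * W * (17 * (ε2 * L) ^ 2) ≤ δ * W * L ^ 2 := by
      calc C11 * W * (17 * (ε2 * L) ^ 2) = (C11 * (17 * ε2 ^ 2)) * (W * L ^ 2) := by ring
        _ ≤ δ * (W * L ^ 2) := mul_le_mul_of_nonneg_right hε2a (by positivity)
        _ = _ := by ring
    rw [hexpand]
    linarith
  · have hGP' : Continuous (fun u : ℝ => Gq P u ^ 2) := (Gq_cont P).pow 2
    have hsum : Continuous (fun u : ℝ => ∑ q ∈ Finset.Ioc X (P * Y), (1 / (q : ℝ)) * Gq q u ^ 2) :=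
      continuous_finsetSum _ (fun q _ => continuous_const.mul ((Gq_cont q).pow 2))
    have e3 : ∫ u in (0 : ℝ)..(β * L), ∑ q ∈ Finset.Ioc X (P * Y), (1 / (q : ℝ)) * Gq q u ^ 2 =
        ∑ q ∈ Finset.Ioc X (P * Y), (1 / (q : ℝ)) * (∫ u in (0 : ℝ)..(β * L), Gq q u ^ 2) := by
      rw [intervalIntegral.integral_finsetSum]
      · exact Finset.sum_congr rfl (fun q _ => intervalIntegral.integral_const_mul _ _)
      · intro q _
        exact (continuous_const.mul ((Gq_cont q).pow 2)).intervalIntegrable _ _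
    have e4 : ∫ u in (0 : ℝ)..(β * L), (𝓛 + 1) * (Gq P u ^ 2 + 1) =
        (𝓛 + 1) * ((∫ u in (0 : ℝ)..(β * L), Gq P u ^ 2) + β * L) := by
      rw [intervalIntegral.integral_const_mul, intervalIntegral.integral_add
        (hGP'.intervalIntegrable _ _) (continuous_const.intervalIntegrable _ _)]
      simp
    have e5 : ∫ u in (0 : ℝ)..(β * L), Err P X Y u =
        ∑ q ∈ Finset.Ioc X (P * Y), (1 / (q : ℝ)) * (∫ u in (0 : ℝ)..(β * L), Gq q u ^ 2) +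
        (𝓛 + 1) * ((∫ u in (0 : ℝ)..(β * L), Gq P u ^ 2) + β * L) := by
      have i2 : IntervalIntegrable (fun u : ℝ => (𝓛 + 1) * (Gq P u ^ 2 + 1)) volume 0 (β * L) :=
        (continuous_const.mul (hGP'.add continuous_const)).intervalIntegrable _ _
      simp_rw [hexpand]
      rw [intervalIntegral.integral_add (hsum.intervalIntegrable _ _) i2, e3, e4]
    rw [e5]
    have hMq : ∀ q : ℕ, 1 ≤ q → 0 ≤ Real.log q → Real.log q ≤ 3 * L →
        (∫ u in (0 : ℝ)..(β * L), Gq q u ^ 2) + β * L ≤ 10 * ε2 * L ^ 2 := by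
      intro q q1 q2 q3
      have e1 : ∫ u in (0 : ℝ)..(β * L), Gq q u ^ 2 ≤ ε2 * Real.log q ^ 2 + C3 :=
        h3 q (β * L) q1 hLambda.le
      have e2 : Real.log q ^ 2 ≤ (3 * L) ^ 2 := pow_le_pow_left₀ q2 q3 2
      have e3 : C3 ≤ ε2 / 2 * L ^ 2 := by
        have : ε2 / 2 * L ≤ ε2 / 2 * L ^ 2 := by
          refine mul_le_mul_of_nonneg_left ?_ (by positivity)
          rw [sq]; exact le_mul_of_one_le_left hL0p.le a1
        linarith
      have e4 : β * L ≤ ε2 / 2 * L ^ 2 := by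
        calc β * L ≤ (ε2 / 2 * L) * L := mul_le_mul_of_nonneg_right a8 hL0p.le
          _ = _ := by ring
      have e5 : ε2 * Real.log q ^ 2 ≤ ε2 * (3 * L) ^ 2 := mul_le_mul_of_nonneg_left e2 hε2.le
      have e6 : ε2 * (3 * L) ^ 2 = 9 * (ε2 * L ^ 2) := by ring
      linarith
    have c1 := sum_q_le X Y P (fun q => ∫ u in (0 : ℝ)..(β * L), Gq q u ^ 2) (10 * ε2 * L ^ 2)
      (by positivity) hX1 hXY hP (fun q hqm => by
        obtain ⟨q1, q2, q3⟩ := hq q hqm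
        have := hMq q q1 q2 q3
        linarith)
    have c2 : (𝓛 + 1) * ((∫ u in (0 : ℝ)..(β * L), Gq P u ^ 2) + β * L) ≤
        (𝓛 + 1) * (10 * ε2 * L ^ 2) := by
      refine mul_le_mul_of_nonneg_left ?_ (by linarith)
      exact hMq P hP hlogP (by linarith)
    have c3 : (𝓛 + Real.log P) * (10 * ε2 * L ^ 2) + (𝓛 + 1) * (10 * ε2 * L ^ 2) ≤
        C11 * W * (10 * ε2 * L ^ 2) := by
      have : (𝓛 + Real.log P) * (10 * ε2 * L ^ 2) + (𝓛 + 1) * (10 * ε2 * L ^ 2) =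
        (2 * 𝓛 + Real.log P + 1) * (10 * ε2 * L ^ 2) := by ring
      rw [this]
      exact mul_le_mul_of_nonneg_right hC11W (by positivity)
    have c6 : C11 * W * (10 * ε2 * L ^ 2) ≤ δ * W * L ^ 2 := by
      calc C11 * W * (10 * ε2 * L ^ 2) = (C11 * (10 * ε2)) * (W * L ^ 2) := by ring
        _ ≤ δ * (W * L ^ 2) := mul_le_mul_of_nonneg_right hε2b (by positivity)
        _ = _ := by ring
    linarith

lemma Err_dil (P X Y : ℕ) (hX : 1 ≤ X) (hXY : X ≤ Y) {lam Λ : ℝ} (hlam : 1 ≤ lam) (hΛ : 0 ≤ Λ) :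
    ∫ u in (0 : ℝ)..Λ, Err P X Y (u / lam) ≤ lam * ∫ u in (0 : ℝ)..Λ, Err P X Y u := by
  have hl0 : 0 < lam := by linarith
  rw [intervalIntegral.integral_comp_div _ hl0.ne', smul_eq_mul, zero_div]
  refine mul_le_mul_of_nonneg_left ?_ hl0.le
  have h1 : 0 ≤ Λ / lam := by positivity
  have h2 : Λ / lam ≤ Λ := div_le_self hΛ hlam
  have hc := Err_cont P X Y
  rw [← intervalIntegral.integral_add_adjacent_intervals
    (hc.intervalIntegrable (0:ℝ) (Λ / lam)) (hc.intervalIntegrable (Λ / lam) Λ)]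
  have h3 : 0 ≤ ∫ u in (Λ / lam)..Λ, Err P X Y u :=
    intervalIntegral.integral_nonneg h2 fun u _ => Err_nonneg P X Y hX hXY u
  linarith

end Pool.Agent.H63.DZ
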