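import Pool.Agent.H63.DZ.PairFin

/-!
# The distinct zeros of `k` dilated functions
-/

set_option autoImplicit false
set_option maxHeartbeats 4000000

open Complex Filter Topology Set MeasureTheory

namespace Pool.Agent.H63.DZ

open H370 (zset mult NN Nd Ns)
open Pool.Agent.R321.RG (fam_mono fam_congr fam_add fam_mul)
open Pool.Agent.T2H25.ZR (quo Lt sh quo_apply exists_rad)

lemma Ev_ball {k : ℕ} {P : ℕ → ℕ → ℕ → ℝ → Prop} (h : ∀ i < k, Ev (P i)) :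
    Ev (fun X Y T => ∀ i < k, P i X Y T) := by
  induction k with
  | zero => exact ⟨1, 1, 1, le_rfl, one_pos, le_rfl, fun X Y T _ _ _ _ _ i hi => absurd hi (by omega)⟩
  | succ k ih =>
    refine ((ih fun i hi => h i (by omega)).and (h k (by omega))).mono ?_
    rintro X Y T ⟨h1, h2⟩ i hi
    rcases Nat.lt_succ_iff_lt_or_eq.1 hi with h3 | rfl
    · exact h1 i h3
    · exact h2

theorem many_fin (k : ℕ) (hk : 1 ≤ k) (f : ℕ → ℕ) [∀ i, NeZero (f i)]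
    (ψ : ∀ i, DirichletCharacter ℂ (f i)) (lam α : ℕ → ℝ) (hψ : ∀ i, (ψ i).IsPrimitive)
    (hlam : ∀ i, 1 ≤ lam i) (hα : ∀ i, 0 ≤ α i)
    (hne : ∀ i j : ℕ, i < j → j < k → lam i ≠ lam j ∨ α i ≠ α j ∨
      ∃ n : ℕ, Nat.Coprime n (f i * f j) ∧ ψ i (n : ZMod (f i)) ≠ ψ j (n : ZMod (f j)))
    (r : ℕ) (hr : 1 ≤ r) (ε : ℝ) (hε : 0 < ε) :
    ∃ K η X₀ : ℝ, 1 ≤ K ∧ 0 < η ∧ 1 ≤ X₀ ∧
    ∀ (X Y : ℕ) (T : ℝ), X₀ ≤ X → K * X ≤ Y → (Y : ℝ) ≤ (X : ℝ) ^ (1 + η) →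
      (Real.log X) ^ 2 ≤ T → T ≤ (X : ℝ) ^ η →
      0 < DZS.fam (∏ i ∈ Finset.range k, f i) X Y
          (fun q χ => ∑ i ∈ Finset.range k, DZS.N (DZS.F (ψ i) (lam i) (α i) q χ) T) ∧
      (∀ q : ℕ, X < q → q ≤ Y → Nat.Coprime q (∏ i ∈ Finset.range k, f i) → ∀ χ ∈ DZS.prim q,
        ∀ i < k, (DZS.zeros (DZS.F (ψ i) (lam i) (α i) q χ) T).Finite ∧
          (1 - ε) * (lam i * T / (2 * Real.pi) * Real.log q) ≤
            DZS.N (DZS.F (ψ i) (lam i) (α i) q χ) T ∧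
          DZS.N (DZS.F (ψ i) (lam i) (α i) q χ) T ≤
            (1 + ε) * (lam i * T / (2 * Real.pi) * Real.log q)) ∧
      ((2 * r + 1 - (k / (∑ i ∈ Finset.range k, lam i) +
            Real.sqrt (k / 2) * Real.cot (Real.sqrt (2 * k) / (∑ i ∈ Finset.range k, lam i)))) /
              (r * (r + 1)) - ε) *
          DZS.fam (∏ i ∈ Finset.range k, f i) X Y
            (fun q χ => ∑ i ∈ Finset.range k, DZS.N (DZS.F (ψ i) (lam i) (α i) q χ) T) ≤
        DZS.fam (∏ i ∈ Finset.range k, f i) X Y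
          (fun q χ => (⋃ i ∈ Finset.range k, DZS.zeros (DZS.F (ψ i) (lam i) (α i) q χ) T).ncard) := by
  have hf : (∏ i ∈ Finset.range k, f i) ≠ 0 := Finset.prod_ne_zero_iff.2 fun i _ => NeZero.ne (f i)
  obtain ⟨M, hsq, hM⟩ := exists_rad _ hf
  have hne' : ∀ i < k, ∀ j < k, i ≠ j → lam i = lam j →
      quo (ψ i) (ψ j) ≠ 1 ∨ α j - α i ≠ 0 := by
    intro i hi j hj hij hl
    rcases lt_or_gt_of_ne hij with h | h
    · rcases hne i j h hj with h0 | h1 | ⟨n, hn, h1⟩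
      · exact absurd hl h0
      · exact Or.inr (fun h2 => h1 (by linarith))
      · exact Or.inl (quo_neS (ψ i) (ψ j) hn h1)
    · rcases hne j i h hi with h0 | h1 | ⟨n, hn, h1⟩
      · exact absurd hl.symm h0
      · exact Or.inr (fun h2 => h1 (by linarith))
      · refine Or.inl (quo_neS (ψ i) (ψ j) (n := n) ?_ (Ne.symm h1))
        rw [mul_comm]
        exact hn
  have hM' : ∀ q : ℕ, Nat.Coprime q M → ∀ i < k, Nat.Coprime q (f i) := fun q hq i hi =>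
    Nat.Coprime.coprime_dvd_right (Finset.dvd_prod_of_mem f (Finset.mem_range.2 hi)) ((hM q).1 hq)
  set c : ℝ := cc k (∑ i ∈ Finset.range k, lam i) with hc
  have hr0 : (0 : ℝ) < r := by exact_mod_cast hr
  have hrr : (0 : ℝ) < r * (r + 1) := by positivity
  set δ : ℝ := ε * (r * (r + 1)) with hδ
  have hδ0 : 0 < δ := by positivity
  have e1 : Ev (fun X Y T => 1 ≤ T ∧
      0 < H385.primFamM M X Y (fun q χ =>
        ((∑ i ∈ Finset.range k, NN (Fi ψ α lam i q χ) T (2 * T) : ℕ) : ℝ)) ∧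
      H385.primFamM M X Y (fun q χ =>
        (2 * (r : ℝ) + 1) * (NN (PR (fun i => Fi ψ α lam i q χ) k) T (2 * T) : ℝ) -
          r * (r + 1) * (Nd (PR (fun i => Fi ψ α lam i q χ) k) T (2 * T) : ℝ)) ≤
        (c + δ) * H385.primFamM M X Y (fun q χ =>
            ((∑ i ∈ Finset.range k, NN (Fi ψ α lam i q χ) T (2 * T) : ℕ) : ℝ))) := by
    obtain ⟨K, η, X0, hK, hη, hX0, h⟩ := kit ψ α hψ hα k hk lam (fun i _ => hlam i) hne' M hsq hM'
      _ (fun γ h0 hπ => Per_two h0 hπ r hr) δ hδ0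
    exact ⟨K, η, X0, hK, hη, hX0, fun X Y T a1 a2 a3 a4 a5 => h X Y T a1 a2 a3 a4 a5⟩
  have e2 := Ev_ball (k := k) (fun i hi => Fi_ev ψ α hψ hα M lam i (hlam i)
    (fun q hq => hM' q hq i hi) ε hε)
  obtain ⟨K, η, X0, hK, hη, hX0, h⟩ := e1.and e2
  refine ⟨K, η, X0, hK, hη, hX0, ?_⟩
  intro X Y T a1 a2 a3 a4 a5
  obtain ⟨⟨hT, b0, b1⟩, b2⟩ := h X Y T a1 a2 a3 a4 a5
  have hX1 : 1 ≤ X := by exact_mod_cast hX0.trans a1
  have hok : ∀ q : ℕ, X < q → Nat.Coprime q M → ∀ χ : DirichletCharacter ℂ q, χ.IsPrimitive →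
      ∀ i < k, ZOK (Fi ψ α lam i q χ) := fun q hq hc χ hχ i hi =>
    Fi_ok ψ α hψ hα lam i (hlam i) (by omega) (hM' q hc i hi) hχ
  have eF : ∀ (i q : ℕ) (χ : DirichletCharacter ℂ q),
      DZS.F (ψ i) (lam i) (α i) q χ = Fi ψ α lam i q χ := fun i q χ => rfl
  simp only [eF]
  rw [fam_eqS _ M X Y hM, fam_eqS _ M X Y hM]
  refine ⟨b0, fun q hq hq2 ho χ hχ i hi => ?_, ?_⟩
  · have ho' := (hM q).2 ho
    exact ⟨(hok q hq ho' χ hχ i hi).fin T _ hT, b2 i hi q χ hq hq2 ho' hχ⟩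
  · set S : ℝ := H385.primFamM M X Y (fun q χ =>
            ((∑ i ∈ Finset.range k, NN (Fi ψ α lam i q χ) T (2 * T) : ℕ) : ℝ)) with hS
    have hNN : H385.primFamM M X Y (fun q χ =>
        (NN (PR (fun i => Fi ψ α lam i q χ) k) T (2 * T) : ℝ)) = S := by
      rw [hS]
      refine fam_congr M X Y _ _ fun q hq hq2 hcq χ hχ => ?_
      have := PR_NN (g := fun i => Fi ψ α lam i q χ) (k := k) (hok q hq hcq χ hχ) (T1 := T)
        (T2 := 2 * T) hT
      rw [this]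
    have hNd : H385.primFamM M X Y (fun q χ =>
        (Nd (PR (fun i => Fi ψ α lam i q χ) k) T (2 * T) : ℝ)) =
        H385.primFamM M X Y (fun q χ =>
          (((⋃ i ∈ Finset.range k, DZS.zeros (Fi ψ α lam i q χ) T).ncard : ℕ) : ℝ)) := by
      refine fam_congr M X Y _ _ fun q hq hq2 hcq χ hχ => ?_
      unfold Nd
      rw [PR_zset]
      rfl
    set D : ℝ := H385.primFamM M X Y (fun q χ =>
          (((⋃ i ∈ Finset.range k, DZS.zeros (Fi ψ α lam i q χ) T).ncard : ℕ) : ℝ)) with hD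
    have h2 : H385.primFamM M X Y (fun q χ =>
        (2 * (r : ℝ) + 1) * (NN (PR (fun i => Fi ψ α lam i q χ) k) T (2 * T) : ℝ) -
          r * (r + 1) * (Nd (PR (fun i => Fi ψ α lam i q χ) k) T (2 * T) : ℝ)) =
        (2 * (r : ℝ) + 1) * S - r * (r + 1) * D := by
      have h := H385.primFamM_lin M X Y (2 * (r : ℝ) + 1) (r * (r + 1))
        (fun q χ => (NN (PR (fun i => Fi ψ α lam i q χ) k) T (2 * T) : ℝ))
        (fun q χ => (Nd (PR (fun i => Fi ψ α lam i q χ) k) T (2 * T) : ℝ))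
      rw [h, hNN, hNd]
    rw [h2] at b1
    have hcc : c = k / (∑ i ∈ Finset.range k, lam i) +
            Real.sqrt (k / 2) * Real.cot (Real.sqrt (2 * k) / (∑ i ∈ Finset.range k, lam i)) := rfl
    rw [← hcc]
    have h3 : ((2 * (r : ℝ) + 1 - c) / (r * (r + 1)) - ε) * S =
        ((2 * r + 1 - c) * S - δ * S) / (r * (r + 1)) := by
      rw [hδ]
      field_simp
    show ((2 * (r : ℝ) + 1 - c) / (r * (r + 1)) - ε) * S ≤ D
    rw [h3, div_le_iff₀ hrr]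
    linarith

end Pool.Agent.H63.DZ
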