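import Pool.Agent.H63.DZ.Kit
import Pool.Agent.H63.DZ.NUp

/-!
# The number of zeros of the members of the family
-/

set_option autoImplicit false
set_option maxHeartbeats 4000000

open Complex Filter Topology Set MeasureTheory

namespace Pool.Agent.H63.DZ

open H385
open H370 (zset mult NN Nd Ns)
open Pool.Agent.T2H62.MQ (uc G_good uc_norm)

/-- number of zeros of one function -/
theorem NN_two_sided {A : ℝ} (hA : 1 ≤ A) (lam : ℝ) (hlam : 1 ≤ lam) (ε : ℝ) (hε : 0 < ε) :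
    ∃ η X1 : ℝ, 0 < η ∧ 1 ≤ X1 ∧ ∀ (X q : ℕ) (F : ℂ → ℂ) (a : ℕ → ℂ) (T : ℝ), X1 ≤ X →
    X < q → (q : ℝ) ≤ (X : ℝ) ^ 2 → GoodD 1 A q F a →
    (Real.log X) ^ 2 ≤ T → T ≤ (X : ℝ) ^ η →
      (1 - ε) * (lam * T / (2 * Real.pi) * Real.log q) ≤ (NN F (lam * T) (2 * (lam * T)) : ℝ) ∧
      (NN F (lam * T) (2 * (lam * T)) : ℝ) ≤ (1 + ε) * (lam * T / (2 * Real.pi) * Real.log q) := by
  obtain ⟨C1, hC1, hN1⟩ := N_lower_D 1 A le_rfl hA
  obtain ⟨C2, hC2, hN2⟩ := N_upper_D 1 A le_rfl hA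
  have hlp : 0 < lam := by linarith
  have hll : 0 ≤ Real.log lam := Real.log_nonneg hlam
  have hpi := Real.pi_pos
  set B : ℝ := Real.log lam + 10 * Real.pi * C1 + 10 * Real.pi * C2 with hB
  have hB0 : 0 ≤ B := by positivity
  refine ⟨min (ε / 2) (1 / 2), max (Real.exp (12 + 2 * B / ε)) (lam ^ 2),
    lt_min (by linarith) (by norm_num), le_max_of_le_left (Real.one_le_exp (by positivity)), ?_⟩
  intro X q F a T hX hq hq2 hF hT1 hT2
  have hXa : Real.exp (12 + 2 * B / ε) ≤ X := (le_max_left _ _).trans hX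
  have hXl : lam ^ 2 ≤ X := (le_max_right _ _).trans hX
  have hXpos : (0 : ℝ) < X := lt_of_lt_of_le (Real.exp_pos _) hXa
  set L : ℝ := Real.log X with hL
  have hLL : 12 + 2 * B / ε ≤ L := by
    rw [hL, Real.le_log_iff_exp_le hXpos]; exact hXa
  have hBε : 0 ≤ 2 * B / ε := by positivity
  have hL12 : 12 ≤ L := by linarith
  have hBL : B ≤ ε / 2 * L := by
    have : 2 * B / ε ≤ L := by linarith
    rw [div_le_iff₀ hε] at this
    linarith
  have hX1r : (1 : ℝ) ≤ X := by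
    have : (1 : ℝ) ≤ Real.exp (12 + 2 * B / ε) := Real.one_le_exp (by positivity)
    linarith
  have hXe : (X : ℝ) = Real.exp L := by rw [hL, Real.exp_log hXpos]
  have hl : lam ≤ (X : ℝ) ^ (1 / 2 : ℝ) := by
    rw [← Real.sqrt_eq_rpow]
    exact Real.le_sqrt_of_sq_le hXl
  have hT2' : T ≤ (X : ℝ) ^ (1 / 2 : ℝ) :=
    hT2.trans (Real.rpow_le_rpow_of_exponent_le hX1r (min_le_right _ _))
  have hT0 : 1 ≤ T := le_trans (by nlinarith) hT1
  have hTX : lam * T ≤ X := by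
    calc lam * T ≤ (X : ℝ) ^ (1 / 2 : ℝ) * (X : ℝ) ^ (1 / 2 : ℝ) :=
          mul_le_mul hl hT2' (by linarith) (by positivity)
      _ = X := by rw [← Real.rpow_add hXpos]; norm_num
  have hlogT : Real.log T ≤ ε / 2 * L := by
    have h1 : T ≤ (X : ℝ) ^ (ε / 2) :=
      hT2.trans (Real.rpow_le_rpow_of_exponent_le hX1r (min_le_left _ _))
    have h2 := Real.log_le_log (by linarith) h1
    rwa [Real.log_rpow hXpos] at h2
  set T' : ℝ := lam * T with hT'
  have hT'1 : L ^ 2 ≤ T' := by rw [hT']; nlinarith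
  have hT'0 : 1 ≤ T' := by nlinarith
  have hT'p : 0 < T' := by linarith
  obtain ⟨p1, p2, _, _, _, p6⟩ := param_ok 1 L T' 1 one_pos le_rfl (by linarith)
    (by rw [div_one]; linarith) hT'1 (by rw [one_mul, ← hXe]; exact hTX)
  have hq0 : (0 : ℝ) < q := by exact_mod_cast (show 0 < q by omega)
  have hq1 : (1 : ℝ) ≤ q := by exact_mod_cast (show 1 ≤ q by omega)
  have hqX : (X : ℝ) ≤ q := by exact_mod_cast hq.le
  have hL0 : 0 ≤ L := by linarith
  have hl1 := hN1 q F a hq1 hF T' L p1 p2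
  have hl2 := hN2 q F a hq1 hF T' L p1 p2
  have hlogq : L ≤ Real.log q := by
    rw [hL]
    exact Real.log_le_log hXpos hqX
  have hlogqT : Real.log (q * T') = Real.log q + Real.log T' :=
    Real.log_mul hq0.ne' hT'p.ne'
  have hlogT' : Real.log T' = Real.log lam + Real.log T := by
    rw [hT']; exact Real.log_mul hlp.ne' (by linarith)
  have hlogT'0 : 0 ≤ Real.log T' := Real.log_nonneg hT'0
  have hlog2 : Real.log (q * T') ≤ 3 * L := by
    have e1 : (q : ℝ) * T' ≤ (X : ℝ) ^ 3 := by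
      calc (q : ℝ) * T' ≤ (X : ℝ) ^ 2 * X := mul_le_mul hq2 hTX hT'p.le (by positivity)
        _ = (X : ℝ) ^ 3 := by ring
    calc Real.log (q * T') ≤ Real.log ((X : ℝ) ^ 3) := Real.log_le_log (by positivity) e1
      _ = 3 * L := by rw [Real.log_pow, hL]; norm_num
  have hlog1 : L ≤ Real.log (q * T') := by rw [hlogqT]; linarith
  have a2 : L * Real.log (q * T') ≤ 3 * T' := by
    have : L * Real.log (q * T') ≤ L * (3 * L) := mul_le_mul_of_nonneg_left hlog2 (by linarith)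
    linarith [show L * (3 * L) = 3 * L ^ 2 by ring]
  have a3 : T' * Real.log (q * T') ^ 2 * Real.exp (-L ^ 2 / 2) ≤ T' := by
    have b1 : Real.log (q * T') ^ 2 ≤ (3 * L) ^ 2 := pow_le_pow_left₀ (by linarith) hlog2 2
    have b2 : Real.log (q * T') ^ 2 * Real.exp (-L ^ 2 / 2) ≤ 1 := by
      refine le_trans (mul_le_mul_of_nonneg_right b1 (Real.exp_pos _).le) ?_
      rw [show (3 * L) ^ 2 = 9 * L ^ 2 by ring]; exact p6
    calc _ = T' * (Real.log (q * T') ^ 2 * Real.exp (-L ^ 2 / 2)) := by ring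
      _ ≤ T' * 1 := mul_le_mul_of_nonneg_left b2 hT'p.le
      _ = T' := mul_one T'
  have a4 : ∀ C : ℝ, 0 < C →
      C * (T' + L * Real.log (q * T') + T' * Real.log (q * T') ^ 2 * Real.exp (-L ^ 2 / 2)) ≤
      T' / (2 * Real.pi) * (10 * Real.pi * C) := by
    intro C hC
    calc _ ≤ C * (5 * T') := mul_le_mul_of_nonneg_left (by linarith) hC.le
      _ = _ := by field_simp; ring
  have hTp : 0 < T' / (2 * Real.pi) := by positivity
  have hεL : ε / 2 * L ≤ ε / 2 * Real.log q := mul_le_mul_of_nonneg_left hlogq (by linarith)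
  constructor
  · have h1 := a4 C1 hC1
    have h2 : (1 - ε) * (T' / (2 * Real.pi) * Real.log q) ≤
        T' / (2 * Real.pi) * (1 * Real.log (q * T')) - T' / (2 * Real.pi) * (10 * Real.pi * C1) := by
      rw [hlogqT]
      have h3 : (1 - ε) * Real.log q ≤ 1 * (Real.log q + Real.log T') - 10 * Real.pi * C1 := by
        have : 10 * Real.pi * C1 ≤ B := by rw [hB]; nlinarith [mul_pos hpi hC2]
        nlinarith
      calc (1 - ε) * (T' / (2 * Real.pi) * Real.log q) =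
          T' / (2 * Real.pi) * ((1 - ε) * Real.log q) := by ring
        _ ≤ T' / (2 * Real.pi) * (1 * (Real.log q + Real.log T') - 10 * Real.pi * C1) :=
            mul_le_mul_of_nonneg_left h3 hTp.le
        _ = _ := by ring
    linarith
  · have h1 := a4 C2 hC2
    have h2 : T' / (2 * Real.pi) * (1 * Real.log (q * T')) + T' / (2 * Real.pi) * (10 * Real.pi * C2) ≤
        (1 + ε) * (T' / (2 * Real.pi) * Real.log q) := by
      rw [hlogqT, hlogT']
      have h3 : 1 * (Real.log q + (Real.log lam + Real.log T)) + 10 * Real.pi * C2 ≤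
          (1 + ε) * Real.log q := by
        have : Real.log lam + 10 * Real.pi * C2 ≤ B := by rw [hB]; nlinarith [mul_pos hpi hC1]
        nlinarith
      calc _ = T' / (2 * Real.pi) * (1 * (Real.log q + (Real.log lam + Real.log T)) +
            10 * Real.pi * C2) := by ring
        _ ≤ T' / (2 * Real.pi) * ((1 + ε) * Real.log q) := mul_le_mul_of_nonneg_left h3 hTp.le
        _ = _ := by ring
    linarith

section many

variable {f : ℕ → ℕ} (ψ : ∀ i, DirichletCharacter ℂ (f i)) (α : ℕ → ℝ)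

/-- number of zeros of a member of the family -/
theorem Fi_two_sided [∀ i, NeZero (f i)] (hψ : ∀ i, (ψ i).IsPrimitive) (hα : ∀ i, 0 ≤ α i)
    (M : ℕ) (lam : ℕ → ℝ) (i : ℕ) (hlam : 1 ≤ lam i)
    (hM : ∀ q : ℕ, Nat.Coprime q M → Nat.Coprime q (f i)) (ε : ℝ) (hε : 0 < ε) :
    ∃ η X1 : ℝ, 0 < η ∧ 1 ≤ X1 ∧ ∀ (X q : ℕ) (χ : DirichletCharacter ℂ q) (T : ℝ), X1 ≤ X →
    X < q → (q : ℝ) ≤ (X : ℝ) ^ 2 → Nat.Coprime q M → χ.IsPrimitive →
    (Real.log X) ^ 2 ≤ T → T ≤ (X : ℝ) ^ η → 1 ≤ T →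
      (1 - ε) * (lam i * T / (2 * Real.pi) * Real.log q) ≤
        (NN (Fi ψ α lam i q χ) T (2 * T) : ℝ) ∧
      (NN (Fi ψ α lam i q χ) T (2 * T) : ℝ) ≤
        (1 + ε) * (lam i * T / (2 * Real.pi) * Real.log q) := by
  obtain ⟨A, hA, hg⟩ := G_good ψ α hψ hα i
  obtain ⟨η, X1, hη, hX1, h⟩ := NN_two_sided hA (lam i) hlam ε hε
  refine ⟨η, X1, hη, hX1, ?_⟩
  intro X q χ T hX hq hq2 hqc hχ hT1 hT2 hT0
  have hgg := hg q χ (by omega) (hM q hqc) hχ
  have := h X q _ _ T hX hq hq2 hgg hT1 hT2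
  unfold Fi
  rw [NN_dil hlam (ZOK.of_goodD hgg) hT0]
  rw [show lam i * (2 * T) = 2 * (lam i * T) by ring]
  exact this

end many

end Pool.Agent.H63.DZ
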