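import Pool.Agent.H63.DZ.NAs

/-!
# Two functions: the relation `γ' = lam γ + α`
-/

set_option autoImplicit false
set_option maxHeartbeats 4000000

open Complex Filter Topology Set MeasureTheory

namespace Pool.Agent.H63.DZ

open H385
open H370 (zset mult NN Nd Ns)
open Pool.Agent.R321.RC (On Cm)
open Pool.Agent.R321.RG (fam_mono fam_congr fam_add fam_mul)
open Pool.Agent.T2H25.ZR (quo Lt sh)

/-- the zeros of `F`, with multiplicity, which are not zeros of `G` -/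
noncomputable def Fr (F G : ℂ → ℂ) (T : ℝ) : ℕ :=
  ∑ᶠ s ∈ {s : ℂ | s ∈ zset F T (2 * T) ∧ G s ≠ 0}, mult F s

/-- the zeros of `F`, with multiplicity, which are zeros of `G` -/
noncomputable def Bo (F G : ℂ → ℂ) (T : ℝ) : ℕ :=
  ∑ᶠ s ∈ {s : ℂ | s ∈ zset F T (2 * T) ∧ G s = 0}, mult F s

theorem free_add {F : ℂ → ℂ} (G : ℂ → ℂ) (hF : ZOK F) {T : ℝ} (hT : 1 ≤ T) :
    NN F T (2 * T) = Fr F G T + Bo F G T := by
  classical
  have hf := hF.fin T (2 * T) hT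
  unfold NN Fr Bo
  have hf1 : {s : ℂ | s ∈ zset F T (2 * T) ∧ G s ≠ 0}.Finite := hf.subset fun s hs => hs.1
  have hf2 : {s : ℂ | s ∈ zset F T (2 * T) ∧ G s = 0}.Finite := hf.subset fun s hs => hs.1
  have e : zset F T (2 * T) = {s : ℂ | s ∈ zset F T (2 * T) ∧ G s ≠ 0} ∪
      {s : ℂ | s ∈ zset F T (2 * T) ∧ G s = 0} := by
    ext s
    simp only [Set.mem_union, Set.mem_ofPred_eq]
    tauto
  rw [← finsum_mem_union (Set.disjoint_left.2 fun s h1 h2 => h1.2 h2.2) hf1 hf2, ← e]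

/-- points are at most as many as zeros -/
lemma ncard_le_mult {F : ℂ → ℂ} (hF : ZOK F) {T : ℝ} (hT : 1 ≤ T) (P : ℂ → Prop) :
    {s : ℂ | s ∈ zset F T (2 * T) ∧ P s}.ncard ≤
      ∑ᶠ s ∈ {s : ℂ | s ∈ zset F T (2 * T) ∧ P s}, mult F s := by
  classical
  have hf := hF.fin T (2 * T) hT
  have hf1 : {s : ℂ | s ∈ zset F T (2 * T) ∧ P s}.Finite := hf.subset fun s hs => hs.1
  rw [finsum_mem_eq_finite_toFinset_sum _ hf1, Set.ncard_eq_toFinset_card _ hf1,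
    Finset.card_eq_sum_ones]
  refine Finset.sum_le_sum fun s hs => ?_
  rw [Set.Finite.mem_toFinset] at hs
  have i : 0 < s.im := by linarith [hs.1.2.2.1]
  exact (hF.mult_pos_iff i).2 hs.1.2.2.2.2

theorem free_nd {F G : ℂ → ℂ} (hF : ZOK F) (hG : ZOK G) {T : ℝ} (hT : 1 ≤ T) :
    Nd (fun s => F s * G s) T (2 * T) ≤ Fr F G T + NN G T (2 * T) := by
  classical
  have hfF := hF.fin T (2 * T) hT
  have hfG := hG.fin T (2 * T) hT
  unfold Nd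
  rw [zset_mul]
  have hsub : zset F T (2 * T) ∪ zset G T (2 * T) ⊆
      {s : ℂ | s ∈ zset F T (2 * T) ∧ G s ≠ 0} ∪ {s : ℂ | s ∈ zset G T (2 * T) ∧ True} := by
    rintro s (h | h)
    · by_cases c : G s = 0
      · exact Or.inr ⟨⟨h.1, h.2.1, h.2.2.1, h.2.2.2.1, c⟩, trivial⟩
      · exact Or.inl ⟨h, c⟩
    · exact Or.inr ⟨h, trivial⟩
  refine (Set.ncard_le_ncard hsub ?_).trans ((Set.ncard_union_le _ _).trans ?_)
  · exact (hfF.subset fun s hs => hs.1).union (hfG.subset fun s hs => hs.1)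
  refine Nat.add_le_add (ncard_le_mult hF hT _) ?_
  have h1 := ncard_le_mult hG hT (fun _ => True)
  have e : {s : ℂ | s ∈ zset G T (2 * T) ∧ True} = zset G T (2 * T) := by
    ext s
    simp only [Set.mem_ofPred_eq, and_true]
  rw [e] at h1 ⊢
  exact h1

theorem free_on {F : ℂ → ℂ} (G : ℂ → ℂ) (hF : ZOK F) {T : ℝ} (hT : 1 ≤ T) :
    Ns F T (2 * T) + Fr F G T ≤ On F G T + NN F T (2 * T) := by
  classical
  have hf := hF.fin T (2 * T) hT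
  rw [free_add G hF hT]
  have h1 : Ns F T (2 * T) ≤ On F G T + {s : ℂ | s ∈ zset F T (2 * T) ∧ G s = 0}.ncard := by
    unfold Ns On
    have hsub : {s : ℂ | s ∈ zset F T (2 * T) ∧ s.re = 1 / 2 ∧ mult F s = 1} ⊆
        {s : ℂ | s ∈ zset F T (2 * T) ∧ s.re = 1 / 2 ∧ mult F s = 1 ∧ G s ≠ 0} ∪
        {s : ℂ | s ∈ zset F T (2 * T) ∧ G s = 0} := by
      rintro s ⟨h1, h2, h3⟩
      by_cases c : G s = 0
      · exact Or.inr ⟨h1, c⟩
      · exact Or.inl ⟨h1, h2, h3, c⟩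
    refine (Set.ncard_le_ncard hsub ?_).trans (Set.ncard_union_le _ _)
    exact (hf.subset fun s hs => hs.1).union (hf.subset fun s hs => hs.1)
  have h2 := ncard_le_mult hF hT (fun s => G s = 0)
  have h3 : {s : ℂ | s ∈ zset F T (2 * T) ∧ G s = 0}.ncard ≤ Bo F G T := h2
  omega

/-- the modulus of the two characters -/
def fp (f₁ f₂ : ℕ) : ℕ → ℕ
  | 0 => f₁
  | _ + 1 => f₂

/-- the two characters -/
def psp {f₁ f₂ : ℕ} (ψ₁ : DirichletCharacter ℂ f₁) (ψ₂ : DirichletCharacter ℂ f₂) :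
    ∀ i, DirichletCharacter ℂ (fp f₁ f₂ i)
  | 0 => ψ₁
  | _ + 1 => ψ₂

instance fpNZ (f₁ f₂ : ℕ) [h₁ : NeZero f₁] [h₂ : NeZero f₂] : ∀ i, NeZero (fp f₁ f₂ i)
  | 0 => h₁
  | _ + 1 => h₂

/-- a pair of reals -/
def rp (a b : ℝ) : ℕ → ℝ
  | 0 => a
  | _ + 1 => b

lemma dil_one (F : ℂ → ℂ) : dil 1 F = F := by
  funext s
  unfold dil dl
  congr 1
  push_cast
  ring

lemma Fi_zero {f₁ f₂ : ℕ} (ψ₁ : DirichletCharacter ℂ f₁) (ψ₂ : DirichletCharacter ℂ f₂)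
    (α₁ α₂ lam : ℝ) (q : ℕ) (χ : DirichletCharacter ℂ q) :
    Fi (psp ψ₁ ψ₂) (rp α₁ α₂) (rp 1 lam) 0 q χ = sh α₁ (Lt ψ₁ q χ) := by
  show dil 1 (sh α₁ (Lt ψ₁ q χ)) = _
  rw [dil_one]

lemma Fi_one {f₁ f₂ : ℕ} (ψ₁ : DirichletCharacter ℂ f₁) (ψ₂ : DirichletCharacter ℂ f₂)
    (α₁ α₂ lam : ℝ) (q : ℕ) (χ : DirichletCharacter ℂ q) :
    Fi (psp ψ₁ ψ₂) (rp α₁ α₂) (rp 1 lam) 1 q χ = dil lam (sh α₂ (Lt ψ₂ q χ)) := rfl

end Pool.Agent.H63.DZ
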