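import Pool.Agent.H63.DZ.Pair

/-!
# Two functions: the theorem
-/

set_option autoImplicit false
set_option maxHeartbeats 4000000

open Complex Filter Topology Set MeasureTheory

namespace Pool.Agent.H63.DZ

open H385
open H370 (zset mult NN Nd Ns)
open Pool.Agent.R321.RC (On Cm)
open Pool.Agent.R321.RG (fam_mono fam_congr fam_add fam_mul)
open Pool.Agent.T2H25.ZR (quo Lt sh)

/-- for all large parameters of the family -/
def Ev (P : ℕ → ℕ → ℝ → Prop) : Prop := ∃ K η X0 : ℝ, 1 ≤ K ∧ 0 < η ∧ 1 ≤ X0 ∧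
    ∀ (X Y : ℕ) (T : ℝ), X0 ≤ X → K * X ≤ Y → (Y : ℝ) ≤ (X : ℝ) ^ (1 + η) →
      (Real.log X) ^ 2 ≤ T → T ≤ (X : ℝ) ^ η → P X Y T

lemma Ev.and {P Q : ℕ → ℕ → ℝ → Prop} (hP : Ev P) (hQ : Ev Q) : Ev (fun X Y T => P X Y T ∧ Q X Y T) := by
  obtain ⟨K, η, X0, hK, hη, hX0, h⟩ := hP
  obtain ⟨K', η', X0', hK', hη', hX0', h'⟩ := hQ
  refine ⟨max K K', min η η', max X0 X0', le_max_of_le_left hK, lt_min hη hη',
    le_max_of_le_left hX0, ?_⟩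
  intro X Y T a1 a2 a3 a4 a5
  have hX1 : (1 : ℝ) ≤ X := (hX0.trans (le_max_left _ _)).trans a1
  have hX : (0 : ℝ) ≤ X := by linarith
  refine ⟨h X Y T ((le_max_left _ _).trans a1)
    ((mul_le_mul_of_nonneg_right (le_max_left _ _) hX).trans a2)
    (a3.trans (Real.rpow_le_rpow_of_exponent_le hX1 (by linarith [min_le_left η η'])))
    a4 (a5.trans (Real.rpow_le_rpow_of_exponent_le hX1 (min_le_left _ _))),
    h' X Y T ((le_max_right _ _).trans a1)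
    ((mul_le_mul_of_nonneg_right (le_max_right _ _) hX).trans a2)
    (a3.trans (Real.rpow_le_rpow_of_exponent_le hX1 (by linarith [min_le_right η η'])))
    a4 (a5.trans (Real.rpow_le_rpow_of_exponent_le hX1 (min_le_right _ _)))⟩

lemma Ev.mono {P Q : ℕ → ℕ → ℝ → Prop} (hP : Ev P) (h : ∀ X Y T, P X Y T → Q X Y T) : Ev Q := by
  obtain ⟨K, η, X0, hK, hη, hX0, hh⟩ := hP
  exact ⟨K, η, X0, hK, hη, hX0, fun X Y T a1 a2 a3 a4 a5 => h X Y T (hh X Y T a1 a2 a3 a4 a5)⟩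

lemma cc_two (D : ℝ) : cc 2 D = 2 / D + Real.cot (2 / D) := by
  unfold cc
  push_cast
  have e1 : Real.sqrt (2 / 2) = 1 := by norm_num
  have e2 : Real.sqrt (2 * 2) = 2 := by
    rw [show (2 : ℝ) * 2 = 2 ^ 2 by norm_num, Real.sqrt_sq (by norm_num)]
  rw [e1, e2, one_mul]

lemma cc_one : cc 1 1 = 1 + Real.cot (Real.sqrt 2) / Real.sqrt 2 := by
  unfold cc
  push_cast
  have e1 : Real.sqrt (1 / 2) = 1 / Real.sqrt 2 := by
    rw [Real.sqrt_div (by norm_num), Real.sqrt_one]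
  rw [e1, mul_one, div_one, div_one]
  ring

section many

variable {f : ℕ → ℕ} (ψ : ∀ i, DirichletCharacter ℂ (f i)) (α : ℕ → ℝ)

theorem Fi_ev [∀ i, NeZero (f i)] (hψ : ∀ i, (ψ i).IsPrimitive) (hα : ∀ i, 0 ≤ α i)
    (M : ℕ) (lam : ℕ → ℝ) (i : ℕ) (hlam : 1 ≤ lam i)
    (hM : ∀ q : ℕ, Nat.Coprime q M → Nat.Coprime q (f i)) (ε : ℝ) (hε : 0 < ε) :
    Ev (fun X Y T => ∀ (q : ℕ) (χ : DirichletCharacter ℂ q), X < q → q ≤ Y →
      Nat.Coprime q M → χ.IsPrimitive →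
      (1 - ε) * (lam i * T / (2 * Real.pi) * Real.log q) ≤
        (NN (Fi ψ α lam i q χ) T (2 * T) : ℝ) ∧
      (NN (Fi ψ α lam i q χ) T (2 * T) : ℝ) ≤
        (1 + ε) * (lam i * T / (2 * Real.pi) * Real.log q)) := by
  obtain ⟨η, X1, hη, hX1, h⟩ := Fi_two_sided ψ α hψ hα M lam i hlam hM ε hε
  refine ⟨1, min η 1, max X1 (Real.exp 1), le_rfl, lt_min hη one_pos, le_max_of_le_left hX1, ?_⟩
  intro X Y T a1 a2 a3 a4 a5 q χ hq hq2 hc hχ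
  have hXX1 : X1 ≤ X := (le_max_left _ _).trans a1
  have hXe : Real.exp 1 ≤ X := (le_max_right _ _).trans a1
  have hX1r : (1 : ℝ) ≤ X := hX1.trans hXX1
  have hXpos : (0 : ℝ) < X := by linarith
  have hlog1 : 1 ≤ Real.log X := by
    rw [Real.le_log_iff_exp_le hXpos]; exact hXe
  have hT0 : 1 ≤ T := (one_le_pow₀ hlog1).trans a4
  have hY2 : (Y : ℝ) ≤ (X : ℝ) ^ 2 := by
    refine (a3.trans (Real.rpow_le_rpow_of_exponent_le hX1r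
      (show 1 + min η 1 ≤ ((2 : ℕ) : ℝ) by push_cast; linarith [min_le_right η 1]))).trans
      (le_of_eq ?_)
    rw [Real.rpow_natCast]
  have hqY : (q : ℝ) ≤ Y := by exact_mod_cast hq2
  exact h X q χ T hXX1 hq (hqY.trans hY2) hc hχ a4
    (a5.trans (Real.rpow_le_rpow_of_exponent_le hX1r (min_le_left η 1))) hT0

end many

section two

variable {f₁ f₂ : ℕ} (ψ₁ : DirichletCharacter ℂ f₁) (ψ₂ : DirichletCharacter ℂ f₂)
  (α₁ α₂ lam : ℝ)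

/-- the first function -/
noncomputable def F1 (q : ℕ) (χ : DirichletCharacter ℂ q) : ℂ → ℂ := sh α₁ (Lt ψ₁ q χ)

/-- the second function -/
noncomputable def F2 (q : ℕ) (χ : DirichletCharacter ℂ q) : ℂ → ℂ := dil lam (sh α₂ (Lt ψ₂ q χ))

lemma hψp (h₁ : ψ₁.IsPrimitive) (h₂ : ψ₂.IsPrimitive) : ∀ i, (psp ψ₁ ψ₂ i).IsPrimitive
  | 0 => h₁
  | _ + 1 => h₂

lemma rp_nonneg {a b : ℝ} (ha : 0 ≤ a) (hb : 0 ≤ b) : ∀ i, 0 ≤ rp a b i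
  | 0 => ha
  | _ + 1 => hb

theorem ratio [NeZero f₁] [NeZero f₂] (h₁ : ψ₁.IsPrimitive) (h₂ : ψ₂.IsPrimitive)
    (hα₁ : 0 ≤ α₁) (hα₂ : 0 ≤ α₂) (hlam : 1 ≤ lam) (M : ℕ)
    (hM : ∀ q : ℕ, Nat.Coprime q M → Nat.Coprime q f₁ ∧ Nat.Coprime q f₂)
    (ε : ℝ) (hε : 0 < ε) :
    Ev (fun X Y T => ∀ (q : ℕ) (χ : DirichletCharacter ℂ q), X < q → q ≤ Y →
      Nat.Coprime q M → χ.IsPrimitive →
      |(NN (F2 ψ₂ α₂ lam q χ) T (2 * T) : ℝ) - lam * (NN (F1 ψ₁ α₁ q χ) T (2 * T) : ℝ)| ≤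
        ε * (NN (F1 ψ₁ α₁ q χ) T (2 * T) : ℝ)) := by
  set δ : ℝ := min (1 / 2) (ε / (4 * lam)) with hδ
  have hlp : 0 < lam := by linarith
  have hδ0 : 0 < δ := lt_min (by norm_num) (by positivity)
  have hδ1 : δ ≤ 1 / 2 := min_le_left _ _
  have hδ2 : 4 * lam * δ ≤ ε := by
    have : δ ≤ ε / (4 * lam) := min_le_right _ _
    rw [le_div_iff₀ (by positivity)] at this
    linarith
  have e1 := Fi_ev (psp ψ₁ ψ₂) (rp α₁ α₂) (hψp ψ₁ ψ₂ h₁ h₂) (rp_nonneg hα₁ hα₂) M (rp 1 lam) 0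
    le_rfl (fun q hq => (hM q hq).1) δ hδ0
  have e2 := Fi_ev (psp ψ₁ ψ₂) (rp α₁ α₂) (hψp ψ₁ ψ₂ h₁ h₂) (rp_nonneg hα₁ hα₂) M (rp 1 lam) 1
    hlam (fun q hq => (hM q hq).2) δ hδ0
  refine (e1.and e2).mono ?_
  rintro X Y T ⟨g1, g2⟩ q χ hq hq2 hc hχ
  obtain ⟨b1, b2⟩ := g1 q χ hq hq2 hc hχ
  obtain ⟨b3, b4⟩ := g2 q χ hq hq2 hc hχ
  rw [Fi_zero] at b1 b2
  rw [Fi_one] at b3 b4
  have hr0 : rp 1 lam 0 = 1 := rfl
  have hr1 : rp 1 lam 1 = lam := rfl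
  rw [hr0] at b1 b2
  rw [hr1] at b3 b4
  set m : ℝ := T / (2 * Real.pi) * Real.log q with hm
  have k1 : 1 * T / (2 * Real.pi) * Real.log q = m := by rw [hm]; ring
  have k2 : lam * T / (2 * Real.pi) * Real.log q = lam * m := by rw [hm]; ring
  rw [k1] at b1 b2
  rw [k2] at b3 b4
  show |(NN (dil lam (sh α₂ (Lt ψ₂ q χ))) T (2 * T) : ℝ) -
    lam * (NN (sh α₁ (Lt ψ₁ q χ)) T (2 * T) : ℝ)| ≤ ε * (NN (sh α₁ (Lt ψ₁ q χ)) T (2 * T) : ℝ)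
  set N1 : ℝ := (NN (sh α₁ (Lt ψ₁ q χ)) T (2 * T) : ℝ) with hN1
  set N2 : ℝ := (NN (dil lam (sh α₂ (Lt ψ₂ q χ))) T (2 * T) : ℝ) with hN2
  have hN10 : 0 ≤ N1 := Nat.cast_nonneg _
  have hm0 : 0 ≤ m := by nlinarith
  have hm2 : m ≤ 2 * N1 := by nlinarith
  have hb : |N2 - lam * N1| ≤ 2 * δ * (lam * m) := by
    rw [abs_le]
    constructor <;> nlinarith
  calc |N2 - lam * N1| ≤ 2 * δ * (lam * m) := hb
    _ ≤ 2 * δ * (lam * (2 * N1)) := by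
        apply mul_le_mul_of_nonneg_left _ (by positivity)
        exact mul_le_mul_of_nonneg_left hm2 hlp.le
    _ = 4 * lam * δ * N1 := by ring
    _ ≤ ε * N1 := mul_le_mul_of_nonneg_right hδ2 hN10

end two

end Pool.Agent.H63.DZ
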