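import Pool.Agent.H63.DZ.Pair2

/-!
# Two functions: the main theorem
-/

set_option autoImplicit false
set_option maxHeartbeats 4000000

open Complex Filter Topology Set MeasureTheory

namespace Pool.Agent.H63.DZ

open H385
open H370 (zset mult NN Nd Ns)
open Pool.Agent.R321.RC (On Cm)
open Pool.Agent.R321.RG (fam_mono fam_congr fam_add fam_mul)
open Pool.Agent.T2H25.ZR (quo Lt sh)

lemma PR_one (g : ℕ → ℂ → ℂ) : PR g 1 = g 0 := by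
  funext s; unfold PR; rw [Finset.prod_range_one]

lemma PR_two (g : ℕ → ℂ → ℂ) : PR g 2 = fun s => g 0 s * g 1 s := by
  funext s; unfold PR; rw [Finset.prod_range_succ, Finset.prod_range_one]

section two

variable {f₁ f₂ : ℕ} (ψ₁ : DirichletCharacter ℂ f₁) (ψ₂ : DirichletCharacter ℂ f₂)
  (α₁ α₂ lam : ℝ)

/-- the two families, from `kit` -/
theorem kit_two [NeZero f₁] [NeZero f₂] (h₁ : ψ₁.IsPrimitive) (h₂ : ψ₂.IsPrimitive)
    (hα₁ : 0 ≤ α₁) (hα₂ : 0 ≤ α₂) (hlam : 1 ≤ lam)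
    (hne : lam = 1 → quo ψ₁ ψ₂ ≠ 1 ∧ quo ψ₂ ψ₁ ≠ 1 ∨ α₁ ≠ α₂)
    (M : ℕ) (hsq : Squarefree M)
    (hM : ∀ q : ℕ, Nat.Coprime q M → Nat.Coprime q f₁ ∧ Nat.Coprime q f₂)
    (Φ : (ℂ → ℂ) → ℝ → ℝ) (hΦ : ∀ γ : ℝ, 0 < γ → γ < Real.pi → Per γ Φ) (ε : ℝ) (hε : 0 < ε) :
    Ev (fun X Y T => 1 ≤ T ∧
      primFamM M X Y (fun q χ => Φ (fun s => F1 ψ₁ α₁ q χ s * F2 ψ₂ α₂ lam q χ s) T) ≤
        (cc 2 (1 + lam) + ε) *
          primFamM M X Y (fun q χ => ((NN (F1 ψ₁ α₁ q χ) T (2 * T) +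
            NN (F2 ψ₂ α₂ lam q χ) T (2 * T) : ℕ) : ℝ))) := by
  obtain ⟨K, η, X0, hK, hη, hX0, h⟩ := kit (psp ψ₁ ψ₂) (rp α₁ α₂) (hψp ψ₁ ψ₂ h₁ h₂)
    (rp_nonneg hα₁ hα₂) 2 (by norm_num) (rp 1 lam)
    (fun i hi => by
      interval_cases i
      · exact le_rfl
      · exact hlam)
    (fun i hi j hj hij hl => by
      interval_cases i <;> interval_cases j
      · exact absurd rfl hij
      · have hl' : lam = 1 := hl.symm
        rcases hne hl' with h | h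
        · exact Or.inl h.1
        · refine Or.inr ?_
          show α₂ - α₁ ≠ 0
          exact fun h' => h (by linarith)
      · have hl' : lam = 1 := hl
        rcases hne hl' with h | h
        · exact Or.inl h.2
        · refine Or.inr ?_
          show α₁ - α₂ ≠ 0
          exact fun h' => h (by linarith)
      · exact absurd rfl hij)
    M hsq (fun q hq i hi => by
      interval_cases i
      · exact (hM q hq).1
      · exact (hM q hq).2) Φ hΦ ε hε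
  refine ⟨K, η, X0, hK, hη, hX0, fun X Y T a1 a2 a3 a4 a5 => ?_⟩
  obtain ⟨b0, _, b2⟩ := h X Y T a1 a2 a3 a4 a5
  refine ⟨b0, ?_⟩
  have e1 : ∀ (q : ℕ) (χ : DirichletCharacter ℂ q),
      PR (fun i => Fi (psp ψ₁ ψ₂) (rp α₁ α₂) (rp 1 lam) i q χ) 2 =
        fun s => F1 ψ₁ α₁ q χ s * F2 ψ₂ α₂ lam q χ s := by
    intro q χ
    rw [PR_two, Fi_zero, Fi_one]
    rfl
  have e2 : ∀ (q : ℕ) (χ : DirichletCharacter ℂ q),
      ∑ i ∈ Finset.range 2, NN (Fi (psp ψ₁ ψ₂) (rp α₁ α₂) (rp 1 lam) i q χ) T (2 * T) =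
        NN (F1 ψ₁ α₁ q χ) T (2 * T) + NN (F2 ψ₂ α₂ lam q χ) T (2 * T) := by
    intro q χ
    rw [Finset.sum_range_succ, Finset.sum_range_one, Fi_zero, Fi_one]
    rfl
  have e3 : ∑ i ∈ Finset.range 2, rp 1 lam i = 1 + lam := by
    rw [Finset.sum_range_succ, Finset.sum_range_one]
    rfl
  rw [e3] at b2
  simp_rw [e1, e2] at b2
  exact b2

theorem kit_one [NeZero f₁] (h₁ : ψ₁.IsPrimitive) (hα₁ : 0 ≤ α₁)
    (M : ℕ) (hsq : Squarefree M) (hM : ∀ q : ℕ, Nat.Coprime q M → Nat.Coprime q f₁)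
    (Φ : (ℂ → ℂ) → ℝ → ℝ) (hΦ : ∀ γ : ℝ, 0 < γ → γ < Real.pi → Per γ Φ) (ε : ℝ) (hε : 0 < ε) :
    Ev (fun X Y T => 0 < primFamM M X Y (fun q χ => ((NN (F1 ψ₁ α₁ q χ) T (2 * T) : ℕ) : ℝ)) ∧
      primFamM M X Y (fun q χ => Φ (F1 ψ₁ α₁ q χ) T) ≤
        (cc 1 1 + ε) *
          primFamM M X Y (fun q χ => ((NN (F1 ψ₁ α₁ q χ) T (2 * T) : ℕ) : ℝ))) := by
  obtain ⟨K, η, X0, hK, hη, hX0, h⟩ := kit (f := fun _ => f₁) (fun _ => ψ₁) (fun _ => α₁)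
    (fun _ => h₁) (fun _ => hα₁) 1 le_rfl (fun _ => 1) (fun _ _ => le_rfl)
    (fun i hi j hj hij => by omega) M hsq (fun q hq i _ => hM q hq) Φ hΦ ε hε
  refine ⟨K, η, X0, hK, hη, hX0, fun X Y T a1 a2 a3 a4 a5 => ?_⟩
  obtain ⟨b0, b1, b2⟩ := h X Y T a1 a2 a3 a4 a5
  have e0 : ∀ (q : ℕ) (χ : DirichletCharacter ℂ q),
      Fi (f := fun _ => f₁) (fun _ => ψ₁) (fun _ => α₁) (fun _ => 1) 0 q χ = F1 ψ₁ α₁ q χ := by
    intro q χ
    show dil 1 (sh α₁ (Lt ψ₁ q χ)) = _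
    rw [dil_one]
    rfl
  have e3 : ∑ i ∈ Finset.range 1, (1 : ℝ) = 1 := by simp
  rw [e3] at b2
  simp_rw [PR_one, Finset.sum_range_one, e0] at b1 b2
  exact ⟨b1, b2⟩

end two

end Pool.Agent.H63.DZ
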