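import Pool.Agent.H63.DZ.Pair3

/-!
# Two functions: the main theorem
-/

set_option autoImplicit false
set_option maxHeartbeats 4000000

open Complex Filter Topology Set MeasureTheory

namespace Pool.Agent.H63.DZ

open H385
open H370 (zset mult NN Nd Ns)
open Pool.Agent.R321.RC (On Cm)
open Pool.Agent.R321.RG (fam_mono fam_congr fam_add fam_mul)
open Pool.Agent.T2H25.ZR (quo Lt sh)

section two

variable {f₁ f₂ : ℕ} (ψ₁ : DirichletCharacter ℂ f₁) (ψ₂ : DirichletCharacter ℂ f₂)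
  (α₁ α₂ lam : ℝ)

theorem pair_main [NeZero f₁] [NeZero f₂] (h₁ : ψ₁.IsPrimitive) (h₂ : ψ₂.IsPrimitive)
    (hα₁ : 0 ≤ α₁) (hα₂ : 0 ≤ α₂) (hlam : 1 ≤ lam)
    (hne : lam = 1 → quo ψ₁ ψ₂ ≠ 1 ∧ quo ψ₂ ψ₁ ≠ 1 ∨ α₁ ≠ α₂)
    (M : ℕ) (hsq : Squarefree M)
    (hM : ∀ q : ℕ, Nat.Coprime q M → Nat.Coprime q f₁ ∧ Nat.Coprime q f₂)
    (ε : ℝ) (hε : 0 < ε) :
    Ev (fun X Y T =>
      0 < primFamM M X Y (fun q χ => ((NN (F1 ψ₁ α₁ q χ) T (2 * T) : ℕ) : ℝ)) ∧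
      (∀ (q : ℕ) (χ : DirichletCharacter ℂ q), X < q → q ≤ Y → Nat.Coprime q M → χ.IsPrimitive →
        (zset (F1 ψ₁ α₁ q χ) T (2 * T)).Finite ∧ (zset (F2 ψ₂ α₂ lam q χ) T (2 * T)).Finite ∧
        |(NN (F2 ψ₂ α₂ lam q χ) T (2 * T) : ℝ) - lam * (NN (F1 ψ₁ α₁ q χ) T (2 * T) : ℝ)| ≤
        ε * (NN (F1 ψ₁ α₁ q χ) T (2 * T) : ℝ)) ∧
      ((1 + lam) / 2 * (1 - Real.cot (2 / (1 + lam))) - ε) *
          primFamM M X Y (fun q χ => ((NN (F1 ψ₁ α₁ q χ) T (2 * T) : ℕ) : ℝ)) ≤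
        primFamM M X Y (fun q χ => ((Fr (F1 ψ₁ α₁ q χ) (F2 ψ₂ α₂ lam q χ) T : ℕ) : ℝ)) ∧
      ((1 + lam) * (2 - 2 / (1 + lam) - Real.cot (2 / (1 + lam))) - ε) *
          primFamM M X Y (fun q χ => ((NN (F1 ψ₁ α₁ q χ) T (2 * T) : ℕ) : ℝ)) ≤
        primFamM M X Y (fun q χ => ((On (F1 ψ₁ α₁ q χ) (F2 ψ₂ α₂ lam q χ) T +
          On (F2 ψ₂ α₂ lam q χ) (F1 ψ₁ α₁ q χ) T : ℕ) : ℝ)) ∧
      ((1 + lam) / 2 * (1 - Real.cot (2 / (1 + lam))) - Real.cot (Real.sqrt 2) / Real.sqrt 2 - ε) *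
          primFamM M X Y (fun q χ => ((NN (F1 ψ₁ α₁ q χ) T (2 * T) : ℕ) : ℝ)) ≤
        primFamM M X Y (fun q χ => ((On (F1 ψ₁ α₁ q χ) (F2 ψ₂ α₂ lam q χ) T : ℕ) : ℝ))) := by
  set c : ℝ := cc 2 (1 + lam) with hc
  set δ : ℝ := min 1 (ε / (|c| + lam + 4)) with hδ
  have hB : 0 < |c| + lam + 4 := by positivity
  have hδ0 : 0 < δ := lt_min one_pos (by positivity)
  have hδ1 : δ ≤ 1 := min_le_left _ _
  have hδ2 : δ * (|c| + lam + 4) ≤ ε := by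
    have : δ ≤ ε / (|c| + lam + 4) := min_le_right _ _
    rwa [le_div_iff₀ hB] at this
  have hδε : δ ≤ ε := by
    have : 0 ≤ δ * (|c| + lam + 3) := by positivity
    linarith
  have k1 := kit_two ψ₁ ψ₂ α₁ α₂ lam h₁ h₂ hα₁ hα₂ hlam hne M hsq hM _
    (fun γ h0 hπ => Per_s h0 hπ) δ hδ0
  have k2 := kit_two ψ₁ ψ₂ α₁ α₂ lam h₁ h₂ hα₁ hα₂ hlam hne M hsq hM _
    (fun γ h0 hπ => Per_two h0 hπ 1 le_rfl) δ hδ0
  have k3 := kit_one ψ₁ α₁ h₁ hα₁ M hsq (fun q hq => (hM q hq).1) _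
    (fun γ h0 hπ => Per_s h0 hπ) δ hδ0
  have k4 := ratio ψ₁ ψ₂ α₁ α₂ lam h₁ h₂ hα₁ hα₂ hlam M hM δ hδ0
  obtain ⟨K, η, X0, hK, hη, hX0, h⟩ := ((k1.and k2).and k3).and k4
  refine ⟨K, η, X0, hK, hη, hX0, fun X Y T a1 a2 a3 a4 a5 => ?_⟩
  obtain ⟨⟨⟨⟨hT, b1⟩, ⟨_, b2⟩⟩, ⟨hpos, b3⟩⟩, b4⟩ := h X Y T a1 a2 a3 a4 a5
  have hX1 : 1 ≤ X := by exact_mod_cast hX0.trans a1
  have ok1 : ∀ (q : ℕ) (χ : DirichletCharacter ℂ q), X < q → Nat.Coprime q M → χ.IsPrimitive →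
      ZOK (F1 ψ₁ α₁ q χ) := by
    intro q χ hq hcq hχ
    have := Fi_ok (psp ψ₁ ψ₂) (rp α₁ α₂) (hψp ψ₁ ψ₂ h₁ h₂) (rp_nonneg hα₁ hα₂) (rp 1 lam) 0
      le_rfl (q := q) (χ := χ) (by omega) (hM q hcq).1 hχ
    rwa [Fi_zero] at this
  have ok2 : ∀ (q : ℕ) (χ : DirichletCharacter ℂ q), X < q → Nat.Coprime q M → χ.IsPrimitive →
      ZOK (F2 ψ₂ α₂ lam q χ) := by
    intro q χ hq hcq hχ
    exact Fi_ok (psp ψ₁ ψ₂) (rp α₁ α₂) (hψp ψ₁ ψ₂ h₁ h₂) (rp_nonneg hα₁ hα₂) (rp 1 lam) 1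
      hlam (q := q) (χ := χ) (by omega) (hM q hcq).2 hχ
  set N1 : ℝ := primFamM M X Y (fun q χ => ((NN (F1 ψ₁ α₁ q χ) T (2 * T) : ℕ) : ℝ)) with hN1
  set N2 : ℝ := primFamM M X Y (fun q χ => ((NN (F2 ψ₂ α₂ lam q χ) T (2 * T) : ℕ) : ℝ)) with hN2
  set S : ℝ := primFamM M X Y (fun q χ => ((NN (F1 ψ₁ α₁ q χ) T (2 * T) +
            NN (F2 ψ₂ α₂ lam q χ) T (2 * T) : ℕ) : ℝ)) with hS
  have hSN : S = N1 + N2 := by
    rw [hS, hN1, hN2, ← fam_add]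
    refine fam_congr M X Y _ _ fun q _ _ _ χ _ => ?_
    push_cast
    ring
  have hN20 : 0 ≤ N2 := primFamM_nonneg _ _ _ _ (fun _ _ => Nat.cast_nonneg _)
  -- the ratio
  have hr1 : N2 ≤ (lam + δ) * N1 := by
    rw [hN1, hN2, ← fam_mul]
    refine fam_mono M X Y _ _ fun q hq hq2 hcq χ hχ => ?_
    have := (abs_le.1 (b4 q χ hq hq2 hcq hχ)).2
    linarith
  have hr2 : (lam - δ) * N1 ≤ N2 := by
    rw [hN1, hN2, ← fam_mul]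
    refine fam_mono M X Y _ _ fun q hq hq2 hcq χ hχ => ?_
    have := (abs_le.1 (b4 q χ hq hq2 hcq hχ)).1
    linarith
  -- counting
  have hcnt : ∀ (q : ℕ) (χ : DirichletCharacter ℂ q), X < q → Nat.Coprime q M → χ.IsPrimitive → _ :=
    fun q χ hq hcq hχ => counts2 (ok1 q χ hq hcq hχ) (ok2 q χ hq hcq hχ) hT
  set P : (q : ℕ) → DirichletCharacter ℂ q → ℂ → ℂ :=
    fun q χ s => F1 ψ₁ α₁ q χ s * F2 ψ₂ α₂ lam q χ s with hP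
  have hNP : primFamM M X Y (fun q χ => (NN (P q χ) T (2 * T) : ℝ)) = S := by
    rw [hS]
    refine fam_congr M X Y _ _ fun q hq hq2 hcq χ hχ => ?_
    have := (hcnt q χ hq hcq hχ).1
    show ((NN (fun s => F1 ψ₁ α₁ q χ s * F2 ψ₂ α₂ lam q χ s) T (2 * T) : ℕ) : ℝ) = _
    rw [this]
  set NsP : ℝ := primFamM M X Y (fun q χ => (Ns (P q χ) T (2 * T) : ℝ)) with hNsP
  set NdP : ℝ := primFamM M X Y (fun q χ => (Nd (P q χ) T (2 * T) : ℝ)) with hNdP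
  set On12 : ℝ := primFamM M X Y
    (fun q χ => ((On (F1 ψ₁ α₁ q χ) (F2 ψ₂ α₂ lam q χ) T : ℕ) : ℝ)) with hOn12
  set OnS : ℝ := primFamM M X Y (fun q χ => ((On (F1 ψ₁ α₁ q χ) (F2 ψ₂ α₂ lam q χ) T +
          On (F2 ψ₂ α₂ lam q χ) (F1 ψ₁ α₁ q χ) T : ℕ) : ℝ)) with hOnS
  set FrF : ℝ := primFamM M X Y
    (fun q χ => ((Fr (F1 ψ₁ α₁ q χ) (F2 ψ₂ α₂ lam q χ) T : ℕ) : ℝ)) with hFrF
  set Ns1 : ℝ := primFamM M X Y (fun q χ => (Ns (F1 ψ₁ α₁ q χ) T (2 * T) : ℝ)) with hNs1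
  have c1 : (2 - c - δ) * S ≤ NsP := by
    have e : primFamM M X Y (fun q χ => 2 * (NN (P q χ) T (2 * T) : ℝ) -
        (Ns (P q χ) T (2 * T) : ℝ)) = 2 * S - NsP := by
      have h := primFamM_lin M X Y 2 1 (fun q χ => (NN (P q χ) T (2 * T) : ℝ))
        (fun q χ => (Ns (P q χ) T (2 * T) : ℝ))
      simp only [one_mul] at h
      rw [h, hNP]
    have b1' : 2 * S - NsP ≤ (c + δ) * S := by rw [← e]; exact b1
    linarith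
  have c2 : (3 - c - δ) * S ≤ 2 * NdP := by
    have e : primFamM M X Y (fun q χ => (2 * ((1 : ℕ) : ℝ) + 1) * (NN (P q χ) T (2 * T) : ℝ) -
        ((1 : ℕ) : ℝ) * (((1 : ℕ) : ℝ) + 1) * (Nd (P q χ) T (2 * T) : ℝ)) = 3 * S - 2 * NdP := by
      have h := primFamM_lin M X Y (2 * ((1 : ℕ) : ℝ) + 1) (((1 : ℕ) : ℝ) * (((1 : ℕ) : ℝ) + 1))
        (fun q χ => (NN (P q χ) T (2 * T) : ℝ)) (fun q χ => (Nd (P q χ) T (2 * T) : ℝ))
      rw [h, hNP, ← hNdP]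
      push_cast
      ring
    have b2' : 3 * S - 2 * NdP ≤ (c + δ) * S := by rw [← e]; exact b2
    linarith
  have c3 : (2 - cc 1 1 - δ) * N1 ≤ Ns1 := by
    have e : primFamM M X Y (fun q χ => 2 * (NN (F1 ψ₁ α₁ q χ) T (2 * T) : ℝ) -
        (Ns (F1 ψ₁ α₁ q χ) T (2 * T) : ℝ)) = 2 * N1 - Ns1 := by
      have h := primFamM_lin M X Y 2 1 (fun q χ => (NN (F1 ψ₁ α₁ q χ) T (2 * T) : ℝ))
        (fun q χ => (Ns (F1 ψ₁ α₁ q χ) T (2 * T) : ℝ))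
      simp only [one_mul] at h
      rw [h]
    have b3' : 2 * N1 - Ns1 ≤ (cc 1 1 + δ) * N1 := by rw [← e]; exact b3
    linarith
  have d1 : NsP ≤ OnS := by
    rw [hNsP, hOnS]
    refine fam_mono M X Y _ _ fun q hq hq2 hcq χ hχ => ?_
    have := (hcnt q χ hq hcq hχ).2.2.1
    show ((Ns (fun s => F1 ψ₁ α₁ q χ s * F2 ψ₂ α₂ lam q χ s) T (2 * T) : ℕ) : ℝ) ≤ _
    exact_mod_cast this
  have d2 : NdP ≤ FrF + N2 := by
    rw [hNdP, hFrF, hN2, ← fam_add]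
    refine fam_mono M X Y _ _ fun q hq hq2 hcq χ hχ => ?_
    have := free_nd (ok1 q χ hq hcq hχ) (ok2 q χ hq hcq hχ) hT
    show ((Nd (fun s => F1 ψ₁ α₁ q χ s * F2 ψ₂ α₂ lam q χ s) T (2 * T) : ℕ) : ℝ) ≤ _
    exact_mod_cast this
  have d3 : Ns1 + FrF ≤ On12 + N1 := by
    rw [hNs1, hFrF, hOn12, hN1, ← fam_add, ← fam_add]
    refine fam_mono M X Y _ _ fun q hq hq2 hcq χ hχ => ?_
    have := free_on (F2 ψ₂ α₂ lam q χ) (ok1 q χ hq hcq hχ) hT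
    exact_mod_cast this
  -- numerics
  have hh : 0 < 1 + lam := by linarith
  have hcc : c = 2 / (1 + lam) + Real.cot (2 / (1 + lam)) := by rw [hc, cc_two]
  have hc11 : cc 1 1 = 1 + Real.cot (Real.sqrt 2) / Real.sqrt 2 := cc_one
  have hmul : (1 + lam) * (2 / (1 + lam)) = 2 := by field_simp
  set C : ℝ := Real.cot (2 / (1 + lam)) with hC
  have hcl : (1 + lam) * c = 2 + (1 + lam) * C := by rw [hcc, mul_add, hmul]
  have hS0 : 0 ≤ S := by rw [hSN]; linarith [hpos.le]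
  have hS1 : S ≤ (2 + lam) * N1 := by
    rw [hSN]
    have : (lam + δ) * N1 ≤ (lam + 1) * N1 := mul_le_mul_of_nonneg_right (by linarith) hpos.le
    linarith
  have hce : |c * (N2 - lam * N1)| ≤ |c| * (δ * N1) := by
    rw [abs_mul]
    apply mul_le_mul_of_nonneg_left _ (abs_nonneg c)
    rw [abs_le]
    constructor <;> linarith
  have hce' := abs_le.1 hce
  have hδS : δ * S ≤ δ * ((2 + lam) * N1) := mul_le_mul_of_nonneg_left hS1 hδ0.le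
  have hδN : 0 ≤ δ * N1 := mul_nonneg hδ0.le hpos.le
  have hεN : δ * (|c| + lam + 4) * N1 ≤ ε * N1 := mul_le_mul_of_nonneg_right hδ2 hpos.le
  have hcN : 0 ≤ |c| * (δ * N1) := mul_nonneg (abs_nonneg c) hδN
  -- `S * c`
  have hSc : c * S = (1 + lam) * c * N1 + c * (N2 - lam * N1) := by rw [hSN]; ring
  have f1 : ((1 + lam) / 2 * (1 - C) * N1 - (|c| + lam + 4) / 2 * (δ * N1)) ≤ FrF := by
    have e1 : (3 - c - δ) * S = 3 * S - c * S - δ * S := by ring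
    rw [e1, hSc, hcl] at c2
    have e2 : (|c| + lam + 4) / 2 * (δ * N1) = (|c| * (δ * N1) + (2 + lam) * (δ * N1) +
      2 * (δ * N1)) / 2 := by ring
    have e3 : (1 + lam) / 2 * (1 - C) * N1 = ((1 + lam) * N1 - (1 + lam) * C * N1) / 2 := by ring
    rw [e2, e3]
    have e4 : δ * ((2 + lam) * N1) = (2 + lam) * (δ * N1) := by ring
    rw [e4] at hδS
    nlinarith [hce'.2]
  refine ⟨hpos, fun q χ hq hq2 hcq hχ => ⟨(ok1 q χ hq hcq hχ).fin T _ hT,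
    (ok2 q χ hq hcq hχ).fin T _ hT, ?_⟩, ?_, ?_, ?_⟩
  · exact (b4 q χ hq hq2 hcq hχ).trans (mul_le_mul_of_nonneg_right hδε (Nat.cast_nonneg _))
  · have : (|c| + lam + 4) / 2 * (δ * N1) ≤ ε * N1 := by nlinarith
    calc ((1 + lam) / 2 * (1 - C) - ε) * N1 = (1 + lam) / 2 * (1 - C) * N1 - ε * N1 := by ring
      _ ≤ _ := by linarith
  · have e1 : (2 - c - δ) * S = 2 * S - c * S - δ * S := by ring
    rw [e1, hSc, hcl] at c1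
    have e4 : δ * ((2 + lam) * N1) = (2 + lam) * (δ * N1) := by ring
    rw [e4] at hδS
    have e5 : ((1 + lam) * (2 - 2 / (1 + lam) - C) - ε) * N1 =
        2 * (1 + lam) * N1 - 2 * N1 - (1 + lam) * C * N1 - ε * N1 := by
      have : (1 + lam) * (2 - 2 / (1 + lam) - C) = 2 * (1 + lam) - 2 - (1 + lam) * C := by
        rw [mul_sub, mul_sub, hmul]; ring
      rw [this]; ring
    rw [e5]
    have e6 : 2 * S = 2 * (1 + lam) * N1 + 2 * (N2 - lam * N1) := by rw [hSN]; ring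
    nlinarith [hce'.2, hr2]
  · rw [hc11] at c3
    have e7 : (2 - (1 + Real.cot (Real.sqrt 2) / Real.sqrt 2) - δ) * N1 =
        N1 - Real.cot (Real.sqrt 2) / Real.sqrt 2 * N1 - δ * N1 := by ring
    rw [e7] at c3
    have : (|c| + lam + 4) / 2 * (δ * N1) + δ * N1 ≤ ε * N1 := by
      nlinarith [mul_nonneg (by linarith : (0 : ℝ) ≤ lam) hδN]
    calc ((1 + lam) / 2 * (1 - C) - Real.cot (Real.sqrt 2) / Real.sqrt 2 - ε) * N1 =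
        (1 + lam) / 2 * (1 - C) * N1 - Real.cot (Real.sqrt 2) / Real.sqrt 2 * N1 - ε * N1 := by ring
      _ ≤ _ := by linarith

end two

end Pool.Agent.H63.DZ
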