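import Pool.Agent.H63.DZ.Stm
import Pool.Agent.H63.DZ.Pair4

/-!
# The relation `γ' = lam γ + α`: the final form
-/

set_option autoImplicit false
set_option maxHeartbeats 4000000

open Complex Filter Topology Set MeasureTheory

namespace Pool.Agent.H63.DZ

open H370 (zset mult NN Nd Ns)
open Pool.Agent.R321.RC (On Cm)
open Pool.Agent.T2H25.ZR (quo Lt sh quo_apply exists_rad)

lemma fam_eqS (m M X Y : ℕ) (h : ∀ q : ℕ, Nat.Coprime q M ↔ Nat.Coprime q m)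
    (f : (q : ℕ) → DirichletCharacter ℂ q → ℕ) :
    DZS.fam m X Y f = H385.primFamM M X Y (fun q χ => (f q χ : ℝ)) := by
  unfold DZS.fam H385.primFamM
  have e : (Finset.Ioc X Y).filter (fun q => Nat.Coprime q m) =
      (Finset.Ioc X Y).filter (fun q => Nat.Coprime q M) :=
    Finset.filter_congr fun q _ => (h q).symm
  rw [e]
  refine Finset.sum_congr rfl fun q _ => ?_
  congr 1
  rw [← finsum_set_coe_eq_finsum_mem]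
  rfl

lemma quo_neS {f₁ f₂ : ℕ} [NeZero f₁] [NeZero f₂] (ψ₁ : DirichletCharacter ℂ f₁)
    (ψ₂ : DirichletCharacter ℂ f₂) {n : ℕ} (hn : Nat.Coprime n (f₁ * f₂))
    (h : ψ₁ (n : ZMod f₁) ≠ ψ₂ (n : ZMod f₂)) : quo ψ₁ ψ₂ ≠ 1 := by
  intro h1
  apply h
  have hu : IsUnit (n : ZMod (f₁ * f₂)) := (ZMod.isUnit_iff_coprime n (f₁ * f₂)).2 hn
  have h2 : quo ψ₁ ψ₂ (n : ZMod (f₁ * f₂)) = 1 := by
    rw [h1]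
    exact MulChar.one_apply hu
  rw [quo_apply] at h2
  have hu1 : IsUnit (n : ZMod f₁) :=
    (ZMod.isUnit_iff_coprime n f₁).2 (Nat.Coprime.coprime_dvd_right (Nat.dvd_mul_right f₁ f₂) hn)
  have h3 : ‖ψ₁ (n : ZMod f₁)‖ = 1 := ψ₁.unit_norm_eq_one hu1.unit
  have h4 : ψ₁ (n : ZMod f₁) * (starRingEnd ℂ) (ψ₁ (n : ZMod f₁)) = 1 := by
    rw [Complex.mul_conj, Complex.normSq_eq_norm_sq, h3]
    norm_num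
  calc ψ₁ (n : ZMod f₁) = ψ₁ (n : ZMod f₁) *
        ((starRingEnd ℂ) (ψ₁ (n : ZMod f₁)) * ψ₂ (n : ZMod f₂)) := by rw [h2, mul_one]
    _ = ψ₁ (n : ZMod f₁) * (starRingEnd ℂ) (ψ₁ (n : ZMod f₁)) * ψ₂ (n : ZMod f₂) := by ring
    _ = ψ₂ (n : ZMod f₂) := by rw [h4, one_mul]

lemma F_eq2 {f : ℕ} (ψ : DirichletCharacter ℂ f) (lam α : ℝ) (q : ℕ) (χ : DirichletCharacter ℂ q) :
    DZS.F ψ lam α q χ = dil lam (sh α (Lt ψ q χ)) := rfl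

lemma F_eq1 {f : ℕ} (ψ : DirichletCharacter ℂ f) (α : ℝ) (q : ℕ) (χ : DirichletCharacter ℂ q) :
    DZS.F ψ 1 α q χ = sh α (Lt ψ q χ) := by
  rw [F_eq2, dil_one]

theorem pair_fin (f₁ f₂ : ℕ) [NeZero f₁] [NeZero f₂] (ψ₁ : DirichletCharacter ℂ f₁)
    (ψ₂ : DirichletCharacter ℂ f₂) (h₁ : ψ₁.IsPrimitive) (h₂ : ψ₂.IsPrimitive)
    (lam α₁ α₂ : ℝ) (hlam : 1 ≤ lam) (hα₁ : 0 ≤ α₁) (hα₂ : 0 ≤ α₂)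
    (hne : lam ≠ 1 ∨ α₁ ≠ α₂ ∨
      ∃ n : ℕ, Nat.Coprime n (f₁ * f₂) ∧ ψ₁ (n : ZMod f₁) ≠ ψ₂ (n : ZMod f₂))
    (ε : ℝ) (hε : 0 < ε) :
    ∃ K η X₀ : ℝ, 1 ≤ K ∧ 0 < η ∧ 1 ≤ X₀ ∧
    ∀ (X Y : ℕ) (T : ℝ), X₀ ≤ X → K * X ≤ Y → (Y : ℝ) ≤ (X : ℝ) ^ (1 + η) →
      (Real.log X) ^ 2 ≤ T → T ≤ (X : ℝ) ^ η →
      0 < DZS.fam (f₁ * f₂) X Y (fun q χ => DZS.N (DZS.F ψ₁ 1 α₁ q χ) T) ∧
      (∀ q : ℕ, X < q → q ≤ Y → Nat.Coprime q (f₁ * f₂) → ∀ χ ∈ DZS.prim q,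
        (DZS.zeros (DZS.F ψ₁ 1 α₁ q χ) T).Finite ∧ (DZS.zeros (DZS.F ψ₂ lam α₂ q χ) T).Finite ∧
        |(DZS.N (DZS.F ψ₂ lam α₂ q χ) T : ℝ) - lam * DZS.N (DZS.F ψ₁ 1 α₁ q χ) T| ≤
          ε * DZS.N (DZS.F ψ₁ 1 α₁ q χ) T) ∧
      ((1 + lam) / 2 * (1 - Real.cot (2 / (1 + lam))) - ε) *
          DZS.fam (f₁ * f₂) X Y (fun q χ => DZS.N (DZS.F ψ₁ 1 α₁ q χ) T) ≤
        DZS.fam (f₁ * f₂) X Y
          (fun q χ => DZS.free (DZS.F ψ₁ 1 α₁ q χ) (DZS.F ψ₂ lam α₂ q χ) T) ∧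
      ((1 + lam) * (2 - 2 / (1 + lam) - Real.cot (2 / (1 + lam))) - ε) *
          DZS.fam (f₁ * f₂) X Y (fun q χ => DZS.N (DZS.F ψ₁ 1 α₁ q χ) T) ≤
        DZS.fam (f₁ * f₂) X Y
          (fun q χ => (DZS.only (DZS.F ψ₁ 1 α₁ q χ) (DZS.F ψ₂ lam α₂ q χ) T).ncard +
            (DZS.only (DZS.F ψ₂ lam α₂ q χ) (DZS.F ψ₁ 1 α₁ q χ) T).ncard) ∧
      ((1 + lam) / 2 * (1 - Real.cot (2 / (1 + lam))) - Real.cot (Real.sqrt 2) / Real.sqrt 2 - ε) *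
          DZS.fam (f₁ * f₂) X Y (fun q χ => DZS.N (DZS.F ψ₁ 1 α₁ q χ) T) ≤
        DZS.fam (f₁ * f₂) X Y
          (fun q χ => (DZS.only (DZS.F ψ₁ 1 α₁ q χ) (DZS.F ψ₂ lam α₂ q χ) T).ncard) := by
  have hf : f₁ * f₂ ≠ 0 := Nat.mul_ne_zero (NeZero.ne f₁) (NeZero.ne f₂)
  obtain ⟨M, hsq, hM⟩ := exists_rad (f₁ * f₂) hf
  have hne' : lam = 1 → quo ψ₁ ψ₂ ≠ 1 ∧ quo ψ₂ ψ₁ ≠ 1 ∨ α₁ ≠ α₂ := by
    intro hl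
    rcases hne with h | h | ⟨n, hn, h⟩
    · exact absurd hl h
    · exact Or.inr h
    · refine Or.inl ⟨quo_neS ψ₁ ψ₂ hn h, quo_neS ψ₂ ψ₁ (n := n) ?_ (Ne.symm h)⟩
      rw [mul_comm]
      exact hn
  obtain ⟨K, η, X0, hK, hη, hX0, h⟩ := pair_main ψ₁ ψ₂ α₁ α₂ lam h₁ h₂ hα₁ hα₂ hlam hne' M hsq
    (fun q hq => Nat.coprime_mul_iff_right.1 ((hM q).1 hq)) ε hε
  refine ⟨K, η, X0, hK, hη, hX0, ?_⟩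
  intro X Y T hX hKX hY hT1 hT2
  obtain ⟨b0, bf, b1, b2, b3⟩ := h X Y T hX hKX hY hT1 hT2
  have e1 : ∀ (q : ℕ) (χ : DirichletCharacter ℂ q), DZS.F ψ₁ 1 α₁ q χ = F1 ψ₁ α₁ q χ :=
    fun q χ => F_eq1 ψ₁ α₁ q χ
  have e2 : ∀ (q : ℕ) (χ : DirichletCharacter ℂ q), DZS.F ψ₂ lam α₂ q χ = F2 ψ₂ α₂ lam q χ :=
    fun q χ => rfl
  simp only [e1, e2]
  rw [fam_eqS _ M X Y hM, fam_eqS _ M X Y hM, fam_eqS _ M X Y hM, fam_eqS _ M X Y hM]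
  exact ⟨b0, fun q hq hq2 ho χ hχ => bf q χ hq hq2 ((hM q).2 ho) hχ, b1, b2, b3⟩

end Pool.Agent.H63.DZ
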