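import Pool.Agent.H63.DZ.FamG
import Pool.Graph.R_seed8.H385R2.NLowD

/-!
# Products of dilated functions
-/

set_option autoImplicit false
set_option maxHeartbeats 4000000

open Complex Filter Topology Set MeasureTheory

namespace Pool.Agent.H63.DZ

open H385
open H370 (zset mult NN Nd Ns)

section prod

variable (g : ℕ → ℂ → ℂ)

/-- the product -/
noncomputable def PR (k : ℕ) : ℂ → ℂ := fun s => ∏ i ∈ Finset.range k, g i s

lemma PR_zero : PR g 0 = fun _ => (1 : ℂ) := by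
  funext s; unfold PR; simp

lemma PR_succ (k : ℕ) : PR g (k + 1) = fun s => PR g k s * g k s := by
  funext s; unfold PR; rw [Finset.prod_range_succ]

variable {g}

lemma PR_ok {k : ℕ} (h : ∀ i < k, ZOK (g i)) : ZOK (PR g k) := by
  induction k with
  | zero => rw [PR_zero]; exact ZOK.one
  | succ k ih =>
    rw [PR_succ]
    exact (ih fun i hi => h i (by omega)).mul (h k (by omega))

lemma PR_BB {k : ℕ} (h : ∀ i < k, ZOK (g i)) {V1 V2 : ℝ} (hV : 1 ≤ V1) (T u t : ℝ) :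
    BB (PR g k) V1 V2 T u t = ∑ i ∈ Finset.range k, BB (g i) V1 V2 T u t := by
  induction k with
  | zero => rw [PR_zero, BB_one, Finset.sum_range_zero]
  | succ k ih =>
    have h1 := PR_ok (g := g) (k := k) fun i hi => h i (by omega)
    rw [PR_succ, BB_mul h1 (h k (by omega)) hV, ih fun i hi => h i (by omega),
      Finset.sum_range_succ]

lemma PR_NN {k : ℕ} (h : ∀ i < k, ZOK (g i)) {T1 T2 : ℝ} (hT : 1 ≤ T1) :
    NN (PR g k) T1 T2 = ∑ i ∈ Finset.range k, NN (g i) T1 T2 := by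
  induction k with
  | zero => rw [PR_zero, NN_one, Finset.sum_range_zero]
  | succ k ih =>
    have h1 := PR_ok (g := g) (k := k) fun i hi => h i (by omega)
    rw [PR_succ, NN_mul h1 (h k (by omega)) hT, ih fun i hi => h i (by omega),
      Finset.sum_range_succ]

lemma PR_mult {k : ℕ} (h : ∀ i < k, ZOK (g i)) {s : ℂ} (hs : 0 < s.im) :
    mult (PR g k) s = ∑ i ∈ Finset.range k, mult (g i) s := by
  induction k with
  | zero =>
    rw [PR_zero, Finset.sum_range_zero]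
    have := (ZOK.one.mult_pos_iff hs).not
    simp only [one_ne_zero, not_false_eq_true, iff_true, not_lt, Nat.le_zero] at this
    exact this
  | succ k ih =>
    have h1 := PR_ok (g := g) (k := k) fun i hi => h i (by omega)
    rw [PR_succ, ZOK.mult_mul h1 (h k (by omega)) hs, ih fun i hi => h i (by omega),
      Finset.sum_range_succ]

lemma PR_zset (k : ℕ) (T1 T2 : ℝ) :
    zset (PR g k) T1 T2 = ⋃ i ∈ Finset.range k, zset (g i) T1 T2 := by
  ext s
  simp only [zset, PR, Set.mem_ofPred_eq, Set.mem_iUnion, Finset.prod_eq_zero_iff]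
  constructor
  · rintro ⟨h1, h2, h3, h4, i, hi, h5⟩
    exact ⟨i, hi, h1, h2, h3, h4, h5⟩
  · rintro ⟨i, hi, h1, h2, h3, h4, h5⟩
    exact ⟨h1, h2, h3, h4, i, hi, h5⟩

lemma PR_Cnt {k : ℕ} {C : ℕ → ℝ} {Q : ℝ} (h : ∀ i < k, ZOK (g i)) (hc : ∀ i < k, Cnt (C i) Q (g i)) :
    Cnt (∑ i ∈ Finset.range k, C i) Q (PR g k) := by
  intro T1 T2 h1 h2
  rw [PR_NN h (by linarith), Finset.sum_mul, Finset.sum_mul]
  push_cast
  exact Finset.sum_le_sum fun i hi => hc i (Finset.mem_range.1 hi) T1 T2 h1 h2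

end prod

lemma Cnt.mono {C C' Q : ℝ} {F : ℂ → ℂ} (h : Cnt C Q F) (hQ : 1 ≤ Q) (hC : C ≤ C') : Cnt C' Q F := by
  intro T1 T2 h1 h2
  refine (h T1 T2 h1 h2).trans ?_
  have h3 : 0 ≤ Real.log (Q * T2) := by
    apply Real.log_nonneg
    exact one_le_mul_of_one_le_of_one_le hQ (by linarith)
  have h4 : 0 ≤ T2 - T1 := by linarith
  gcongr

/-- number of the zeros of a dilated function -/
lemma Cnt_dil {lam : ℝ} (hlam : 1 ≤ lam) {C Q : ℝ} (hC : 0 ≤ C) (hQ : 1 ≤ Q) {F : ℂ → ℂ}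
    (hF : ZOK F) (h : Cnt C Q F) : Cnt (C * (lam * (1 + Real.log lam))) Q (dil lam F) := by
  intro T1 T2 h1 h2
  have hl0 : 0 < lam := by linarith
  rw [NN_dil hlam hF (by linarith)]
  refine (h (lam * T1) (lam * T2) (by nlinarith) (by nlinarith)).trans ?_
  have hT2 : 4 ≤ T2 := by linarith
  have hlog : 0 ≤ Real.log lam := Real.log_nonneg hlam
  have e1 : Real.log (Q * (lam * T2)) = Real.log lam + Real.log (Q * T2) := by
    rw [show Q * (lam * T2) = lam * (Q * T2) by ring, Real.log_mul hl0.ne' (by positivity)]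
  have e2 : 1 ≤ Real.log (Q * T2) := by
    have : Real.exp 1 ≤ Q * T2 := by
      have h3 := Real.exp_one_lt_d9
      have h4 : (1 : ℝ) * 4 ≤ Q * T2 := mul_le_mul hQ hT2 (by norm_num) (by linarith)
      linarith
    have h5 := Real.log_le_log (Real.exp_pos 1) this
    rwa [Real.log_exp] at h5
  have e3 : Real.log (Q * (lam * T2)) ≤ (1 + Real.log lam) * Real.log (Q * T2) := by
    rw [e1]; nlinarith
  have e4 : 0 ≤ C * (lam * T2 - lam * T1) := by
    apply mul_nonneg hC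
    nlinarith
  calc C * (lam * T2 - lam * T1) * Real.log (Q * (lam * T2)) ≤
      C * (lam * T2 - lam * T1) * ((1 + Real.log lam) * Real.log (Q * T2)) :=
        mul_le_mul_of_nonneg_left e3 e4
    _ = _ := by ring

/-! ### the prime side: continuity and integrability -/

lemma wt_le1 (T t : ℝ) (hT : 0 ≤ T) : wt T t ≤ 1 := wt_le_one T t hT

lemma tb_bound (T u t l : ℝ) (hT : 0 ≤ T) :
    ‖bt T u t l‖ ≤ Real.exp (-(u - l) ^ 2 / 4) * wt T t := by
  have h1 := bt_norm T u t l hT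
  have h2 : 1 / Real.sqrt (2 * Real.pi) ≤ 1 := by
    rw [div_le_one (by positivity)]
    rw [Real.one_le_sqrt]
    nlinarith [Real.pi_gt_three]
  have hw := wt_nonneg T t hT
  refine h1.trans ?_
  refine mul_le_mul_of_nonneg_right ?_ hw
  nlinarith [Real.exp_pos (-(u - l) ^ 2 / 4)]

/-- prime side of one function -/
noncomputable def PSf (c : ℕ → ℂ) (l : ℕ → ℝ) (T u t : ℝ) : ℂ := ∑' n : ℕ, c n * bt T u t (l n)

lemma PSf_term (c : ℕ → ℂ) (l : ℕ → ℝ) (T u t : ℝ) (hT : 0 ≤ T) (n : ℕ) :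
    ‖c n * bt T u t (l n)‖ ≤ ‖c n‖ * Real.exp (-(u - l n) ^ 2 / 4) := by
  rw [norm_mul]
  refine mul_le_mul_of_nonneg_left ?_ (norm_nonneg _)
  refine (tb_bound T u t (l n) hT).trans ?_
  calc _ ≤ Real.exp (-(u - l n) ^ 2 / 4) * 1 :=
        mul_le_mul_of_nonneg_left (wt_le1 T t hT) (Real.exp_pos _).le
    _ = _ := mul_one _

lemma PSf_cont (c : ℕ → ℂ) (l : ℕ → ℝ) (T u : ℝ) (hT : 0 ≤ T)
    (hs : Summable (fun n : ℕ => ‖c n‖ * Real.exp (-(u - l n) ^ 2 / 4))) :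
    Continuous (fun t => PSf c l T u t) := by
  unfold PSf
  refine continuous_tsum (fun n => continuous_const.mul (fa_bt_cont T u (l n))) hs
    (fun n t => PSf_term c l T u t hT n)

lemma PSf_summable (c : ℕ → ℂ) (l : ℕ → ℝ) (T u t : ℝ) (hT : 0 ≤ T)
    (hs : Summable (fun n : ℕ => ‖c n‖ * Real.exp (-(u - l n) ^ 2 / 4))) :
    Summable (fun n => c n * bt T u t (l n)) :=
  Summable.of_norm_bounded hs (fun n => PSf_term c l T u t hT n)

lemma PSf_le (c : ℕ → ℂ) (l : ℕ → ℝ) (T u t : ℝ) (hT : 0 ≤ T)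
    (hs : Summable (fun n : ℕ => ‖c n‖ * Real.exp (-(u - l n) ^ 2 / 4))) :
    ‖PSf c l T u t‖ ≤ (∑' n : ℕ, ‖c n‖ * Real.exp (-(u - l n) ^ 2 / 4)) * wt T t := by
  have hb : ∀ n, ‖c n * bt T u t (l n)‖ ≤ ‖c n‖ * Real.exp (-(u - l n) ^ 2 / 4) * wt T t := by
    intro n
    rw [norm_mul, mul_assoc]
    exact mul_le_mul_of_nonneg_left (tb_bound T u t (l n) hT) (norm_nonneg _)
  unfold PSf
  rw [← tsum_mul_right]
  exact tsum_of_norm_bounded (hs.mul_right _).hasSum hb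

/-- sum of the prime sides of finitely many functions -/
noncomputable def PSs (k : ℕ) (c : ℕ → ℕ → ℂ) (l : ℕ → ℕ → ℝ) (T u t : ℝ) : ℂ :=
  ∑ i ∈ Finset.range k, PSf (c i) (l i) T u t

lemma PSs_cont {k : ℕ} {c : ℕ → ℕ → ℂ} {l : ℕ → ℕ → ℝ} (T : ℝ) (hT : 0 ≤ T)
    (hs : ∀ i < k, ∀ u : ℝ, Summable (fun n : ℕ => ‖c i n‖ * Real.exp (-(u - l i n) ^ 2 / 4)))
    (u : ℝ) : Continuous (PSs k c l T u) := by
  have : PSs k c l T u = fun t => ∑ i ∈ Finset.range k, PSf (c i) (l i) T u t := rfl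
  rw [this]
  exact continuous_finsetSum _ fun i hi => PSf_cont (c i) (l i) T u hT (hs i (Finset.mem_range.1 hi) u)

lemma PSs_int {k : ℕ} {c : ℕ → ℕ → ℂ} {l : ℕ → ℕ → ℝ} (T : ℝ) (hT : 0 ≤ T)
    (hs : ∀ i < k, ∀ u : ℝ, Summable (fun n : ℕ => ‖c i n‖ * Real.exp (-(u - l i n) ^ 2 / 4)))
    (u : ℝ) : Integrable (fun t => ‖PSs k c l T u t‖ ^ 2) := by
  obtain ⟨C3, hC3, hwt⟩ := wt_sq_int
  obtain ⟨S, hS⟩ : ∃ S : ℝ, S = ∑ i ∈ Finset.range k,
    ∑' n : ℕ, ‖c i n‖ * Real.exp (-(u - l i n) ^ 2 / 4) := ⟨_, rfl⟩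
  have hb : ∀ t, ‖PSs k c l T u t‖ ≤ S * wt T t := by
    intro t
    unfold PSs
    refine (norm_sum_le _ _).trans ?_
    rw [hS, Finset.sum_mul]
    exact Finset.sum_le_sum fun i hi => PSf_le (c i) (l i) T u t hT
      (hs i (Finset.mem_range.1 hi) u)
  refine Integrable.mono' ((hwt T hT).1.const_mul (S ^ 2))
    ((PSs_cont T hT hs u).norm.pow 2).aestronglyMeasurable ?_
  refine Filter.Eventually.of_forall fun t => ?_
  rw [Real.norm_of_nonneg (sq_nonneg _), ← mul_pow]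
  exact pow_le_pow_left₀ (norm_nonneg _) (hb t) 2

end Pool.Agent.H63.DZ
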