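import Mathlib

/-!
# Definitions for affine relations between zeros of Dirichlet L-functions
-/

open Complex

namespace Pool.Agent.H63.DZS

/-- The Dirichlet L-function of a character modulo `q` (the value for `q = 0` is never used). -/
noncomputable def Lfun (q : ℕ) (χ : DirichletCharacter ℂ q) : ℂ → ℂ :=
  if h : q = 0 then 0 else
    haveI : NeZero q := ⟨h⟩
    DirichletCharacter.LFunction χ

/-- The character `χ ψ` modulo `q f`. -/
noncomputable def twist {q f : ℕ} (χ : DirichletCharacter ℂ q) (ψ : DirichletCharacter ℂ f) :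
    DirichletCharacter ℂ (q * f) :=
  DirichletCharacter.changeLevel (Nat.dvd_mul_right q f) χ *
    DirichletCharacter.changeLevel (Nat.dvd_mul_left f q) ψ

/-- The function `L (1/2 + lam (s - 1/2) + iα, χ ψ)` of `s`. It vanishes at `1/2 + iγ` if and only if
`lam γ + α` is the ordinate of a zero of `L (s, χ ψ)` on the critical line. -/
noncomputable def F {f : ℕ} (ψ : DirichletCharacter ℂ f) (lam α : ℝ) (q : ℕ)
    (χ : DirichletCharacter ℂ q) : ℂ → ℂ :=
  fun s => Lfun (q * f) (twist χ ψ) (1 / 2 + (lam : ℂ) * (s - 1 / 2) + (α : ℂ) * I)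

/-- The zeros of `F` in the open critical strip with ordinate in `(T, 2T]`. -/
def zeros (F : ℂ → ℂ) (T : ℝ) : Set ℂ :=
  {s : ℂ | 0 < s.re ∧ s.re < 1 ∧ T < s.im ∧ s.im ≤ 2 * T ∧ F s = 0}

/-- The number of these zeros, counted with multiplicity. -/
noncomputable def N (F : ℂ → ℂ) (T : ℝ) : ℕ := ∑ᶠ s ∈ zeros F T, analyticOrderNatAt F s

/-- The number, with multiplicity, of those of them which are not zeros of `G`. -/
noncomputable def free (F G : ℂ → ℂ) (T : ℝ) : ℕ :=
  ∑ᶠ s ∈ {s : ℂ | s ∈ zeros F T ∧ G s ≠ 0}, analyticOrderNatAt F s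

/-- The zeros of `F` on the critical line which are simple and are not zeros of `G`. -/
def only (F G : ℂ → ℂ) (T : ℝ) : Set ℂ :=
  {s : ℂ | s ∈ zeros F T ∧ s.re = 1 / 2 ∧ analyticOrderNatAt F s = 1 ∧ G s ≠ 0}

/-- The primitive Dirichlet characters of conductor `q`. -/
def prim (q : ℕ) : Set (DirichletCharacter ℂ q) := {χ | χ.IsPrimitive}

/-- The sum of `g q χ / q²` over the `q` prime to `m` with `X < q ≤ Y` and the primitive characters `χ`
modulo `q`. -/
noncomputable def fam (m X Y : ℕ) (g : (q : ℕ) → DirichletCharacter ℂ q → ℕ) : ℝ :=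
  ∑ q ∈ (Finset.Ioc X Y).filter (fun q => Nat.Coprime q m), (1 / (q : ℝ) ^ 2) *
    ∑ᶠ χ ∈ prim q, (g q χ : ℝ)

end Pool.Agent.H63.DZS
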