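import Pool.Agent.H63.DZ.EFG2
import Pool.Graph.R_seed8.H385R2.CutB

/-!
# Functions with zeros symmetric to the critical line; products
-/

set_option autoImplicit false
set_option maxHeartbeats 4000000

open Complex Filter Topology Set MeasureTheory

namespace Pool.Agent.H63.DZ

open H385
open H370 (zset mult NN Nd Ns)

/-- analytic in the upper half plane, zeros with ordinate at least `1` in the open critical strip and
symmetric to the critical line -/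
structure ZOK (F : ℂ → ℂ) : Prop where
  an : ∀ s : ℂ, 0 < s.im → AnalyticAt ℂ F s
  nzr : ∀ s : ℂ, 1 ≤ s.re → 1 ≤ s.im → F s ≠ 0
  nzl : ∀ s : ℂ, s.re ≤ 0 → 1 ≤ s.im → F s ≠ 0
  symm : ∀ s : ℂ, 0 < s.re → s.re < 1 → 1 ≤ s.im →
    analyticOrderAt F (1 - (starRingEnd ℂ) s) = analyticOrderAt F s

namespace ZOK

lemma of_goodD {d A Q : ℝ} {F : ℂ → ℂ} {a : ℕ → ℂ} (h : GoodD d A Q F a) : ZOK F :=
  ⟨h.an, h.nzr, h.nzl, h.symm⟩

lemma nz2 {F : ℂ → ℂ} (h : ZOK F) : F ⟨2, 1⟩ ≠ 0 := h.nzr _ (by norm_num) (by norm_num)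

lemma mem21 : (⟨2, 1⟩ : ℂ) ∈ {s : ℂ | 0 < s.im} := by
  simp only [mem_setOf_eq]; norm_num

lemma pre : IsPreconnected {s : ℂ | 0 < s.im} := (convex_halfSpace_im_gt 0).isPreconnected

lemma order_top {F : ℂ → ℂ} (h : ZOK F) {s : ℂ} (hs : 0 < s.im) : analyticOrderAt F s ≠ ⊤ :=
  H370.Loc.order_ne_top (f := F) (K := {s : ℂ | 0 < s.im}) pre (fun s hs => h.an s hs)
    (c := ⟨2, 1⟩) mem21 h.nz2 hs

lemma mult_pos_iff {F : ℂ → ℂ} (h : ZOK F) {s : ℂ} (hs : 0 < s.im) :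
    0 < mult F s ↔ F s = 0 :=
  H370.Loc.mult_pos (f := F) (K := {s : ℂ | 0 < s.im}) pre (fun s hs => h.an s hs)
    (c := ⟨2, 1⟩) mem21 h.nz2 hs

lemma fin {F : ℂ → ℂ} (hF : ZOK F) (T1 T2 : ℝ) (h : 1 ≤ T1) : (zset F T1 T2).Finite := by
  by_contra hinf
  have hinf : (zset F T1 T2).Infinite := hinf
  have hcomp : IsCompact (Icc (0 : ℝ) 1 ×ℂ Icc T1 T2) := isCompact_Icc.reProdIm isCompact_Icc
  have hsub : zset F T1 T2 ⊆ Icc (0 : ℝ) 1 ×ℂ Icc T1 T2 := by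
    rintro s ⟨h1, h2, h3, h4, -⟩
    exact ⟨⟨h1.le, h2.le⟩, ⟨h3.le, h4⟩⟩
  obtain ⟨x, hx, hacc⟩ := hinf.exists_accPt_of_subset_isCompact hcomp hsub
  have hxU : x ∈ {s : ℂ | 0 < s.im} := by
    have : T1 ≤ x.im := hx.2.1
    simp only [mem_setOf_eq]; linarith
  have hfreq : ∃ᶠ z in 𝓝[≠] x, F z = 0 := by
    rw [accPt_iff_frequently_nhdsNE] at hacc
    exact hacc.mono fun z hz => hz.2.2.2.2
  have hz := AnalyticOnNhd.eqOn_zero_of_preconnected_of_frequently_eq_zero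
    (f := F) (U := {s : ℂ | 0 < s.im}) (fun s hs => hF.an s hs) pre hxU hfreq
  exact hF.nz2 (hz mem21)

lemma refl {F : ℂ → ℂ} (hF : ZOK F) {U1 U2 : ℝ} (hU : 1 ≤ U1)
    {s : ℂ} (hs : s ∈ zset F U1 U2) : 1 - (starRingEnd ℂ) s ∈ zset F U1 U2 := by
  obtain ⟨h1, h2, h3, h4, h5⟩ := hs
  have him : (1 - (starRingEnd ℂ) s).im = s.im := by simp
  have hre : (1 - (starRingEnd ℂ) s).re = 1 - s.re := by simp
  refine ⟨by rw [hre]; linarith, by rw [hre]; linarith, by rw [him]; exact h3,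
    by rw [him]; exact h4, ?_⟩
  have ha : AnalyticAt ℂ F s := hF.an s (by linarith)
  have hb : AnalyticAt ℂ F (1 - (starRingEnd ℂ) s) := hF.an _ (by rw [him]; linarith)
  have h6 := hF.symm s h1 h2 (by linarith)
  have h7 : analyticOrderAt F s ≠ 0 := ha.analyticOrderAt_ne_zero.mpr h5
  rw [← h6] at h7
  exact hb.analyticOrderAt_ne_zero.mp h7

lemma mrefl {F : ℂ → ℂ} (hF : ZOK F)
    {s : ℂ} (h1 : 0 < s.re) (h2 : s.re < 1) (h3 : 1 ≤ s.im) :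
    mult F (1 - (starRingEnd ℂ) s) = mult F s := by
  unfold mult analyticOrderNatAt
  rw [hF.symm s h1 h2 h3]

lemma one : ZOK (fun _ => (1 : ℂ)) := by
  refine ⟨fun s _ => analyticAt_const, fun _ _ _ => one_ne_zero, fun _ _ _ => one_ne_zero, ?_⟩
  intro s _ _ _
  have h : ∀ z : ℂ, analyticOrderAt (fun _ : ℂ => (1 : ℂ)) z = 0 := fun z =>
    analyticAt_const.analyticOrderAt_eq_zero.2 one_ne_zero
  rw [h, h]

lemma mul {F G : ℂ → ℂ} (hF : ZOK F) (hG : ZOK G) : ZOK (fun s => F s * G s) := by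
  have hfun : (fun s => F s * G s) = F * G := rfl
  refine ⟨fun s hs => (hF.an s hs).mul (hG.an s hs),
    fun s h1 h2 => mul_ne_zero (hF.nzr s h1 h2) (hG.nzr s h1 h2),
    fun s h1 h2 => mul_ne_zero (hF.nzl s h1 h2) (hG.nzl s h1 h2), ?_⟩
  intro s h1 h2 h3
  have i1 : 0 < (1 - (starRingEnd ℂ) s).im := by
    simp only [sub_im, one_im, conj_im]
    linarith
  have i2 : 0 < s.im := by linarith
  rw [hfun, analyticOrderAt_mul (hF.an _ i1) (hG.an _ i1),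
    analyticOrderAt_mul (hF.an _ i2) (hG.an _ i2), hF.symm s h1 h2 h3, hG.symm s h1 h2 h3]

lemma mult_mul {F G : ℂ → ℂ} (hF : ZOK F) (hG : ZOK G) {s : ℂ} (hs : 0 < s.im) :
    mult (fun s => F s * G s) s = mult F s + mult G s := by
  unfold mult
  have e : (fun s => F s * G s) = F * G := rfl
  rw [e, analyticOrderNatAt_mul (hF.an s hs) (hG.an s hs) (order_top hF hs) (order_top hG hs)]

end ZOK

lemma zset_mul (F G : ℂ → ℂ) (T1 T2 : ℝ) :
    zset (fun s => F s * G s) T1 T2 = zset F T1 T2 ∪ zset G T1 T2 := by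
  ext s
  simp only [zset, Set.mem_ofPred_eq, Set.mem_union, mul_eq_zero]
  tauto

lemma mult_of_notMem {F : ℂ → ℂ} (hF : ZOK F) {T1 T2 : ℝ} {s : ℂ} (h : s ∉ zset F T1 T2)
    (h0 : 0 < s.re) (h1 : s.re < 1) (h2 : T1 < s.im) (h3 : s.im ≤ T2) (hT : 1 ≤ T1) : mult F s = 0 := by
  by_contra hc
  exact h ⟨h0, h1, h2, h3, (hF.mult_pos_iff (by linarith)).1 (Nat.pos_of_ne_zero hc)⟩

/-- sums over the zeros with multiplicity are additive -/
lemma zsum_mul {F G : ℂ → ℂ} (hF : ZOK F) (hG : ZOK G) {T1 T2 : ℝ} (hT : 1 ≤ T1) (f : ℂ → ℂ) :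
    ∑ᶠ s ∈ zset (fun s => F s * G s) T1 T2, (mult (fun s => F s * G s) s : ℂ) * f s =
      (∑ᶠ s ∈ zset F T1 T2, (mult F s : ℂ) * f s) + ∑ᶠ s ∈ zset G T1 T2, (mult G s : ℂ) * f s := by
  classical
  have hfF := hF.fin T1 T2 hT
  have hfG := hG.fin T1 T2 hT
  have hU : (zset F T1 T2 ∪ zset G T1 T2).Finite := hfF.union hfG
  have hmem : ∀ {s : ℂ}, s ∈ zset F T1 T2 ∪ zset G T1 T2 →
      0 < s.re ∧ s.re < 1 ∧ T1 < s.im ∧ s.im ≤ T2 := by
    rintro s (h | h)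
    · exact ⟨h.1, h.2.1, h.2.2.1, h.2.2.2.1⟩
    · exact ⟨h.1, h.2.1, h.2.2.1, h.2.2.2.1⟩
  rw [zset_mul, finsum_mem_eq_finite_toFinset_sum _ hU, finsum_mem_eq_finite_toFinset_sum _ hfF,
    finsum_mem_eq_finite_toFinset_sum _ hfG]
  have e1 : ∑ s ∈ hfF.toFinset, (mult F s : ℂ) * f s = ∑ s ∈ hU.toFinset, (mult F s : ℂ) * f s := by
    refine Finset.sum_subset (fun s hs => ?_) (fun s hs hs' => ?_)
    · simp only [Set.Finite.mem_toFinset] at hs ⊢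
      exact Or.inl hs
    · simp only [Set.Finite.mem_toFinset] at hs hs'
      obtain ⟨h1, h2, h3, h4⟩ := hmem hs
      rw [mult_of_notMem hF hs' h1 h2 h3 h4 hT]
      simp
  have e2 : ∑ s ∈ hfG.toFinset, (mult G s : ℂ) * f s = ∑ s ∈ hU.toFinset, (mult G s : ℂ) * f s := by
    refine Finset.sum_subset (fun s hs => ?_) (fun s hs hs' => ?_)
    · simp only [Set.Finite.mem_toFinset] at hs ⊢
      exact Or.inr hs
    · simp only [Set.Finite.mem_toFinset] at hs hs'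
      obtain ⟨h1, h2, h3, h4⟩ := hmem hs
      rw [mult_of_notMem hG hs' h1 h2 h3 h4 hT]
      simp
  rw [e1, e2, ← Finset.sum_add_distrib]
  refine Finset.sum_congr rfl fun s hs => ?_
  rw [Set.Finite.mem_toFinset] at hs
  obtain ⟨h1, h2, h3, h4⟩ := hmem hs
  rw [ZOK.mult_mul hF hG (by linarith)]
  push_cast
  ring

lemma BB_mul {F G : ℂ → ℂ} (hF : ZOK F) (hG : ZOK G) {V1 V2 : ℝ} (hV : 1 ≤ V1) (T u t : ℝ) :
    BB (fun s => F s * G s) V1 V2 T u t = BB F V1 V2 T u t + BB G V1 V2 T u t := by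
  have h := zsum_mul hF hG (T1 := V1) (T2 := V2) hV
    (fun s => cc T (zz s) * (cexp (I * u * zz s) * cexp (-(zz s - t) ^ 2 / 2)))
  unfold BB
  simp only [← mul_assoc] at h ⊢
  exact h

lemma NN_mul {F G : ℂ → ℂ} (hF : ZOK F) (hG : ZOK G) {T1 T2 : ℝ} (hT : 1 ≤ T1) :
    NN (fun s => F s * G s) T1 T2 = NN F T1 T2 + NN G T1 T2 := by
  have h := zsum_mul hF hG (T1 := T1) (T2 := T2) hT (fun _ => 1)
  have c : ∀ P : ℂ → ℂ, ZOK P → ((NN P T1 T2 : ℕ) : ℂ) = ∑ᶠ s ∈ zset P T1 T2, (mult P s : ℂ) * 1 := by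
    intro P hP
    unfold NN
    rw [finsum_mem_eq_finite_toFinset_sum _ (hP.fin T1 T2 hT),
      finsum_mem_eq_finite_toFinset_sum _ (hP.fin T1 T2 hT)]
    push_cast
    simp
  rw [← c _ (hF.mul hG), ← c _ hF, ← c _ hG] at h
  exact_mod_cast h

lemma zset_one (T1 T2 : ℝ) : zset (fun _ => (1 : ℂ)) T1 T2 = ∅ := by
  ext s
  simp [zset]

lemma BB_one (V1 V2 T u t : ℝ) : BB (fun _ => (1 : ℂ)) V1 V2 T u t = 0 := by
  unfold BB
  rw [zset_one]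
  simp

lemma NN_one (T1 T2 : ℝ) : NN (fun _ => (1 : ℂ)) T1 T2 = 0 := by
  unfold NN
  rw [zset_one]
  simp

lemma NN_mono {F : ℂ → ℂ} (hF : ZOK F) {T1 T2 T3 T4 : ℝ} (h : 1 ≤ T3) (h13 : T3 ≤ T1)
    (h24 : T2 ≤ T4) : NN F T1 T2 ≤ NN F T3 T4 := by
  have f1 := hF.fin T1 T2 (h.trans h13)
  have f2 := hF.fin T3 T4 h
  unfold H370.NN
  rw [finsum_mem_eq_finite_toFinset_sum _ f1, finsum_mem_eq_finite_toFinset_sum _ f2]
  refine Finset.sum_le_sum_of_subset ?_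
  intro s hs
  simp only [Set.Finite.mem_toFinset] at hs ⊢
  obtain ⟨a1, a2, a3, a4, a5⟩ := hs
  exact ⟨a1, a2, by linarith, by linarith, a5⟩

end Pool.Agent.H63.DZ
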